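import Pool.Agent.N988.EP.Stm

/-! Project EP (helper988), part FP: assembly. -/

set_option autoImplicit false

open MeasureTheory Set Filter
open scoped Topology
open Pool.Agent.N988.EA Pool.Agent.N988.EC Pool.Agent.N988.EP

namespace Pool.Agent.N942.EP

theorem edge_nonempty {b : ℕ} (hb : 1 ≤ b) : ∀ n, Nonempty (Edge b n)
  | 0 => ⟨()⟩
  | n + 1 => by
    obtain ⟨e⟩ := edge_nonempty hb n
    exact ⟨((⟨0, hb⟩ : Fin b), false, e)⟩

theorem t_FP (h1 : S_LOW) (h2 : S_LAW) (h3 : S_FIX) (h4 : S_EY) (h5 : S_MU) : S_FP := by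
  intro b hb
  obtain ⟨p, hp0, hp1, hfix, hiter, q, C, hq0, hq1, hqy, hu⟩ := h3 b hb
  have hb1 : 1 ≤ b := by omega
  obtain ⟨hY, -, -⟩ := h1 b hb1
  have hYset : ∀ (n : ℕ), {w : Edge b n → Bool | across w = 0} = {w | Y n w = 0} := by
    intro n
    ext w
    simp only [Set.mem_ofPred_eq, hY]
  have hx : ∀ p' : ℝ, 0 ≤ p' → p' ≤ 1 → 
      (fun n : ℕ => (iid (coin (1 - p')) b n).real {w | across w = 0}) 0 = p' ∧
      ∀ n : ℕ, (fun n : ℕ => (iid (coin (1 - p')) b n).real {w | across w = 0}) (n + 1) =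
        1 - (1 - (fun n : ℕ => (iid (coin (1 - p')) b n).real {w | across w = 0}) n ^ 2) ^ b := by
    intro p' h0 h1
    obtain ⟨ha, hb'⟩ := h2 b hb1 p' h0 h1
    refine ⟨?_, fun n => ?_⟩
    · show (iid (coin (1 - p')) b 0).real {w | across w = 0} = p'
      rw [hYset]
      exact ha
    · show (iid (coin (1 - p')) b (n + 1)).real {w | across w = 0} =
        1 - (1 - (iid (coin (1 - p')) b n).real {w | across w = 0} ^ 2) ^ b
      rw [hYset, hYset]
      exact (hb' n).1
  refine ⟨p, hp0, hp1, fun p' h0 hlt => ?_, fun p' hlt h1' => ?_, ?_⟩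
  · obtain ⟨ha, hb'⟩ := hx p' h0 (hlt.le.trans hp1.le)
    exact (hiter _ (h0.trans_eq ha.symm) hb').1 (lt_of_eq_of_lt ha hlt)
  · obtain ⟨ha, hb'⟩ := hx p' (hp0.le.trans hlt.le) h1'
    exact (hiter _ ((hp0.le.trans hlt.le).trans_eq ha.symm) hb').2 (lt_of_lt_of_eq hlt ha.symm)
      (le_of_eq_of_le ha h1')
  · obtain ⟨C', hC'⟩ := h4 b hb p q C hp0 hp1 hfix hq0 hq1 hqy hu
    obtain ⟨hM1, c, hc, hM2⟩ := h5 b hb p C' hp0 hp1 hfix hC'
    refine ⟨c / 3, C', by positivity, fun n hn => ⟨fun e => hM1 n e, ?_⟩⟩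
    let a : ℕ → ℝ := fun n => (∑ e : Edge b n, ∫ w, (far w e : ℝ) ∂(iid (coin (1 - p)) b n)) /
      Fintype.card (Edge b n)
    have hcard : ∀ n, (0 : ℝ) < Fintype.card (Edge b n) := by
      intro n
      have := edge_nonempty hb1 n
      exact_mod_cast Fintype.card_pos
    have ha0 : ∀ n, 0 ≤ a n := by
      intro n
      refine div_nonneg (Finset.sum_nonneg fun e _ => integral_nonneg fun w => ?_) (hcard n).le
      exact Nat.cast_nonneg _
    have hstep : ∀ n, a n + c ≤ a (n + 2) := by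
      intro n
      have h := hM2 n
      show _ ≤ (∑ e : Edge b (n + 2), ∫ w, (far w e : ℝ) ∂(iid (coin (1 - p)) b (n + 2))) /
        Fintype.card (Edge b (n + 2))
      rw [le_div_iff₀ (hcard _)]
      refine le_trans (le_of_eq ?_) h
      show ((∑ e : Edge b n, ∫ w, (far w e : ℝ) ∂(iid (coin (1 - p)) b n)) /
        Fintype.card (Edge b n) + c) * _ = _
      ring
    have hind : ∀ k, c * k ≤ a (2 * k) ∧ c * k ≤ a (2 * k + 1) := by
      intro k
      induction k with
      | zero => simpa using ⟨ha0 0, ha0 1⟩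
      | succ k ih =>
        have e1 := hstep (2 * k)
        have e2 := hstep (2 * k + 1)
        rw [show 2 * (k + 1) = 2 * k + 2 by ring, show 2 * k + 2 + 1 = 2 * k + 1 + 2 by ring]
        push_cast
        constructor
        · linarith [ih.1]
        · linarith [ih.2]
    show c / 3 * n ≤ a n
    rcases Nat.even_or_odd' n with ⟨k, hk | hk⟩
    · have := (hind k).1
      rw [hk]
      refine le_trans ?_ this
      push_cast
      nlinarith [hc, Nat.cast_nonneg (α := ℝ) k, mul_nonneg hc.le (Nat.cast_nonneg (α := ℝ) k)]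
    · have := (hind k).2
      have hk1 : (1 : ℝ) ≤ k := by
        have : 1 ≤ k := by omega
        exact_mod_cast this
      rw [hk]
      refine le_trans ?_ this
      push_cast
      nlinarith [hc, mul_nonneg hc.le (sub_nonneg.2 hk1)]

end Pool.Agent.N942.EP
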