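import Pool.Agent.N709.UM.Stm

/-! Project UM (helper709), part QUO: transfer of minimality to the quotient of the product by its
centre. -/

set_option autoImplicit false

open Filter Topology

universe u v w

namespace Pool.Agent.N942.UMQUO

open Pool.Agent.N709.UM

theorem min_congr {A : Type u} {B : Type v} [Group A] [tA : TopologicalSpace A] [Group B]
    [tB : TopologicalSpace B] (e : A ≃* B) (hc : Continuous e) (ho : IsOpenMap e)
    (h : Pool.Agent.N709.UM.Min B) : Pool.Agent.N709.UM.Min A := by
  have hinv : Continuous e.symm := by
    rw [continuous_def]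
    intro U hU
    have : e.symm ⁻¹' U = e '' U := by
      ext y
      constructor
      · intro hy
        exact ⟨e.symm y, hy, e.apply_symm_apply y⟩
      · rintro ⟨x, hx, rfl⟩
        show e.symm (e x) ∈ U
        rwa [e.symm_apply_apply]
    rw [this]
    exact ho U hU
  have hinv' := continuous_iff_le_induced.1 hinv
  have hc' := continuous_iff_le_induced.1 hc
  clear hinv hc
  intro s hs1 hs2 hle
  have key : @TopologicalSpace.induced B A e.symm s = tB := by
    refine h _ ?_ ?_ ?_
    · exact topologicalGroup_induced e.symm
    · let _ := @TopologicalSpace.induced B A e.symm s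
      exact @T2Space.of_injective_continuous B A _ s hs2 e.symm e.symm.injective
        continuous_induced_dom
    · exact hinv'.trans (induced_mono hle)
  have h1 : @TopologicalSpace.induced A B e (@TopologicalSpace.induced B A e.symm s) = s := by
    rw [induced_compose]
    have : (e.symm : B → A) ∘ (e : A → B) = id := by
      funext x
      exact e.symm_apply_apply x
    rw [this, induced_id]
  have h2 : @TopologicalSpace.induced A B e tB = tA := by
    refine le_antisymm ?_ hc'
    have h3 : @TopologicalSpace.induced A B e tB ≤
        @TopologicalSpace.induced A B e (@TopologicalSpace.induced B A e.symm tA) :=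
      induced_mono hinv'
    rw [@induced_compose A B A tA] at h3
    have : (e.symm : B → A) ∘ (e : A → B) = id := by
      funext x
      exact e.symm_apply_apply x
    rwa [this, @induced_id A tA] at h3
  rw [← h1, key, h2]

theorem quo : Pool.Agent.N709.UM.Quo.{u, v} := by
  classical
  intro I G _ _ _ _ h
  let q : (∀ i, G i) →* (∀ i, G i ⧸ Subgroup.center (G i)) :=
    { toFun := Pi.map fun i x => (QuotientGroup.mk x : G i ⧸ Subgroup.center (G i))
      map_one' := rfl
      map_mul' := fun _ _ => rfl }
  have hq : Function.Surjective q := by
    intro y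
    choose x hx using fun i => QuotientGroup.mk_surjective (y i)
    exact ⟨x, funext hx⟩
  have hqc : Continuous q :=
    continuous_pi fun i => QuotientGroup.continuous_mk.comp (continuous_apply i)
  have hqo : IsOpenMap q :=
    IsOpenMap.piMap (fun i => QuotientGroup.isOpenMap_coe)
      (Eventually.of_forall fun i => QuotientGroup.mk_surjective)
  have hker : Subgroup.center (∀ i, G i) = q.ker := by
    ext x
    rw [MonoidHom.mem_ker, Subgroup.mem_center_iff]
    constructor
    · intro hx
      funext i
      show (QuotientGroup.mk (x i) : G i ⧸ Subgroup.center (G i)) = 1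
      rw [QuotientGroup.eq_one_iff, Subgroup.mem_center_iff]
      intro g
      have := congrFun (hx (Pi.mulSingle i g)) i
      simpa using this
    · intro hx g
      funext i
      have h1 : (QuotientGroup.mk (x i) : G i ⧸ Subgroup.center (G i)) = 1 := congrFun hx i
      rw [QuotientGroup.eq_one_iff, Subgroup.mem_center_iff] at h1
      exact h1 (g i)
  let e : ((∀ i, G i) ⧸ Subgroup.center (∀ i, G i)) ≃* (∀ i, G i ⧸ Subgroup.center (G i)) :=
    (QuotientGroup.quotientMulEquivOfEq hker).trans
      (QuotientGroup.quotientKerEquivOfSurjective q hq)
  have he : ∀ x : ∀ i, G i, e (QuotientGroup.mk x) = q x := fun x => rfl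
  refine min_congr e ?_ ?_ h
  · have hm : IsQuotientMap
        (QuotientGroup.mk : (∀ i, G i) → (∀ i, G i) ⧸ Subgroup.center (∀ i, G i)) :=
      QuotientGroup.isQuotientMap_mk _
    rw [hm.continuous_iff]
    exact hqc
  · intro U hU
    have : e '' U = q '' (QuotientGroup.mk ⁻¹' U) := by
      ext y
      constructor
      · rintro ⟨x, hx, rfl⟩
        obtain ⟨z, rfl⟩ := QuotientGroup.mk_surjective x
        exact ⟨z, hx, (he z).symm⟩
      · rintro ⟨z, hz, rfl⟩
        exact ⟨QuotientGroup.mk z, hz, he z⟩
    rw [this]
    exact hqo _ (QuotientGroup.continuous_mk.isOpen_preimage _ hU)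

end Pool.Agent.N942.UMQUO
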