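import Mathlib

set_option autoImplicit false
open MeasureTheory ProbabilityTheory Set Filter Topology

namespace Pool.Agent.N942.AT

/-- standard Gaussian measure -/
noncomputable abbrev gam : Measure ℝ := gaussianReal 0 1

/-- heat semigroup: expectation of `g (x + √a z)`. -/
noncomputable def P (a : ℝ) (g : ℝ → ℝ) (x : ℝ) : ℝ := ∫ z, g (x + Real.sqrt a * z) ∂gam

/-- continuous of linear growth -/
def LG (g : ℝ → ℝ) : Prop := Continuous g ∧ ∃ C, 0 ≤ C ∧ ∀ x, |g x| ≤ C * (1 + |x|)

theorem LG.bdd {g : ℝ → ℝ} (hg : Continuous g) {C : ℝ} (hC : ∀ x, |g x| ≤ C) : LG g := by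
  have hC0 : 0 ≤ C := (abs_nonneg _).trans (hC 0)
  refine ⟨hg, C, hC0, fun x => (hC x).trans ?_⟩
  have := abs_nonneg x
  nlinarith

theorem integrable_id_gam : Integrable (fun t : ℝ => t) gam :=
  (memLp_id_gaussianReal 1).integrable (by norm_num)

theorem integrable_abs_gam : Integrable (fun t : ℝ => |t|) gam := integrable_id_gam.abs

theorem integrable_bdd {g : ℝ → ℝ} (hg : Measurable g) {C : ℝ} (hC : ∀ x, |g x| ≤ C) :
    Integrable g gam :=
  Integrable.of_bound hg.aestronglyMeasurable C (Eventually.of_forall fun x => hC x)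

theorem integrable_of_le_affine {g : ℝ → ℝ} (hg : Measurable g) (A B : ℝ)
    (hC : ∀ z, |g z| ≤ A + B * |z|) : Integrable g gam := by
  have h1 : Integrable (fun z : ℝ => A + B * |z|) gam :=
    (integrable_const A).add (integrable_abs_gam.const_mul B)
  exact h1.mono' hg.aestronglyMeasurable (Eventually.of_forall fun z => hC z)

theorem LG.integrable {g : ℝ → ℝ} (hg : LG g) (x s : ℝ) :
    Integrable (fun z => g (x + s * z)) gam := by
  obtain ⟨hc, C, hC0, hC⟩ := hg
  refine integrable_of_le_affine (hc.measurable.comp (by fun_prop)) (C * (1 + |x|)) (C * |s|) ?_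
  intro z
  refine (hC _).trans ?_
  have h1 : |x + s * z| ≤ |x| + |s| * |z| := by
    rw [← abs_mul]; exact abs_add_le _ _
  have := mul_le_mul_of_nonneg_left h1 hC0
  nlinarith

theorem integrable_P {g : ℝ → ℝ} (hg : LG g) (a x : ℝ) :
    Integrable (fun z => g (x + Real.sqrt a * z)) gam := hg.integrable x _

theorem P_const (a c x : ℝ) : P a (fun _ => c) x = c := by simp [P]

theorem P_zero (g : ℝ → ℝ) (x : ℝ) : P 0 g x = g x := by simp [P]

theorem P_add {f g : ℝ → ℝ} (hf : LG f) (hg : LG g) (a x : ℝ) :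
    P a (fun y => f y + g y) x = P a f x + P a g x :=
  integral_add (integrable_P hf a x) (integrable_P hg a x)

theorem P_sub {f g : ℝ → ℝ} (hf : LG f) (hg : LG g) (a x : ℝ) :
    P a (fun y => f y - g y) x = P a f x - P a g x :=
  integral_sub (integrable_P hf a x) (integrable_P hg a x)

theorem P_const_mul (f : ℝ → ℝ) (c a x : ℝ) :
    P a (fun y => c * f y) x = c * P a f x :=
  integral_const_mul _ _

theorem P_mono {f g : ℝ → ℝ} (hf : LG f) (hg : LG g) (h : ∀ y, f y ≤ g y) (a x : ℝ) :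
    P a f x ≤ P a g x :=
  integral_mono (integrable_P hf a x) (integrable_P hg a x) (fun _ => h _)

theorem P_abs_le {f : ℝ → ℝ} {C : ℝ} (hC : ∀ x, |f x| ≤ C) (a x : ℝ) :
    |P a f x| ≤ C := by
  have := norm_integral_le_of_norm_le_const (μ := gam) (f := fun z => f (x + Real.sqrt a * z))
    (C := C) (Eventually.of_forall fun z => hC _)
  simpa [P] using this

theorem P_nonneg {f : ℝ → ℝ} (h : ∀ y, 0 ≤ f y) (a x : ℝ) : 0 ≤ P a f x :=
  integral_nonneg fun _ => h _

theorem LG.const (c : ℝ) : LG (fun _ => c) := LG.bdd continuous_const (C := |c|) (fun _ => le_rfl)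

theorem LG.add {f g : ℝ → ℝ} (hf : LG f) (hg : LG g) : LG (fun x => f x + g x) := by
  obtain ⟨hf, C, hC0, hC⟩ := hf
  obtain ⟨hg, D, hD0, hD⟩ := hg
  refine ⟨hf.add hg, C + D, by linarith, fun x => ?_⟩
  have h1 := abs_add_le (f x) (g x)
  have h2 := hC x
  have h3 := hD x
  nlinarith

theorem LG.neg {f : ℝ → ℝ} (hf : LG f) : LG (fun x => - f x) := by
  obtain ⟨hf, C, hC0, hC⟩ := hf
  exact ⟨hf.neg, C, hC0, fun x => by rw [abs_neg]; exact hC x⟩

theorem LG.sub {f g : ℝ → ℝ} (hf : LG f) (hg : LG g) : LG (fun x => f x - g x) := by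
  simpa [sub_eq_add_neg] using hf.add hg.neg

theorem LG.const_mul {f : ℝ → ℝ} (hf : LG f) (c : ℝ) : LG (fun x => c * f x) := by
  obtain ⟨hf, C, hC0, hC⟩ := hf
  refine ⟨continuous_const.mul hf, |c| * C, by positivity, fun x => ?_⟩
  rw [abs_mul, mul_assoc]
  exact mul_le_mul_of_nonneg_left (hC x) (abs_nonneg c)

theorem LG.sum {ι : Type} (s : Finset ι) {f : ι → ℝ → ℝ} (hf : ∀ i ∈ s, LG (f i)) :
    LG (fun x => ∑ i ∈ s, f i x) := by
  classical
  induction s using Finset.induction_on with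
  | empty => simpa using LG.const 0
  | insert a s ha ih =>
    simp only [Finset.sum_insert ha]
    exact (hf a (Finset.mem_insert_self a s)).add
      (ih fun i hi => hf i (Finset.mem_insert_of_mem hi))

theorem P_sum {ι : Type} (s : Finset ι) {f : ι → ℝ → ℝ} (hf : ∀ i ∈ s, LG (f i)) (a x : ℝ) :
    P a (fun y => ∑ i ∈ s, f i y) x = ∑ i ∈ s, P a (f i) x := by
  unfold P
  rw [integral_finsetSum s (fun i hi => integrable_P (hf i hi) a x)]

/-- joint continuity -/
theorem continuous_P {g : ℝ → ℝ} (hg : LG g) : Continuous (fun p : ℝ × ℝ => P p.1 g p.2) := by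
  obtain ⟨hc, C, hC0, hC⟩ := hg
  rw [continuous_iff_continuousAt]
  rintro ⟨a, x⟩
  unfold P
  have hsa : Real.sqrt a < Real.sqrt a + 1 := by linarith
  have hev1 : ∀ᶠ p : ℝ × ℝ in 𝓝 (a, x), |p.2| ≤ |x| + 1 := by
    have : Tendsto (fun p : ℝ × ℝ => |p.2|) (𝓝 (a, x)) (𝓝 |x|) := by
      have : Continuous (fun p : ℝ × ℝ => |p.2|) := by fun_prop
      exact this.continuousAt
    exact (this.eventually (gt_mem_nhds (by linarith : |x| < |x| + 1))).mono fun p hp => hp.le
  have hev2 : ∀ᶠ p : ℝ × ℝ in 𝓝 (a, x), Real.sqrt p.1 ≤ Real.sqrt a + 1 := by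
    have : Tendsto (fun p : ℝ × ℝ => Real.sqrt p.1) (𝓝 (a, x)) (𝓝 (Real.sqrt a)) := by
      have : Continuous (fun p : ℝ × ℝ => Real.sqrt p.1) := by fun_prop
      exact this.continuousAt
    exact (this.eventually (gt_mem_nhds hsa)).mono fun p hp => hp.le
  refine continuousAt_of_dominated
    (bound := fun z => C * (1 + (|x| + 1)) + C * (Real.sqrt a + 1) * |z|) ?_ ?_ ?_ ?_
  · exact Eventually.of_forall fun p => (hc.measurable.comp (by fun_prop)).aestronglyMeasurable
  · filter_upwards [hev1, hev2] with p hp1 hp2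
    refine Eventually.of_forall fun z => ?_
    rw [Real.norm_eq_abs]
    refine (hC _).trans ?_
    have h1 : |p.2 + Real.sqrt p.1 * z| ≤ |p.2| + Real.sqrt p.1 * |z| := by
      calc |p.2 + Real.sqrt p.1 * z| ≤ |p.2| + |Real.sqrt p.1 * z| := abs_add_le _ _
        _ = |p.2| + Real.sqrt p.1 * |z| := by rw [abs_mul, abs_of_nonneg (Real.sqrt_nonneg _)]
    have h2 : Real.sqrt p.1 * |z| ≤ (Real.sqrt a + 1) * |z| :=
      mul_le_mul_of_nonneg_right hp2 (abs_nonneg z)
    calc C * (1 + |p.2 + Real.sqrt p.1 * z|) ≤ C * (1 + ((|x| + 1) + (Real.sqrt a + 1) * |z|)) := by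
          apply mul_le_mul_of_nonneg_left _ hC0
          linarith
      _ = _ := by ring
  · exact (integrable_const _).add (integrable_abs_gam.const_mul _)
  · refine Eventually.of_forall fun z => ?_
    have : Continuous (fun p : ℝ × ℝ => g (p.2 + Real.sqrt p.1 * z)) := by fun_prop
    exact this.continuousAt

theorem LG.P {g : ℝ → ℝ} (hg : LG g) (a : ℝ) : LG (P a g) := by
  have hcont : Continuous (AT.P a g) := by
    have h := continuous_P hg
    have h2 : Continuous (fun x : ℝ => (a, x)) := by fun_prop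
    exact h.comp h2
  obtain ⟨hc, C, hC0, hC⟩ := hg
  set m := ∫ z, |z| ∂gam with hm
  have hm0 : 0 ≤ m := integral_nonneg fun z => abs_nonneg z
  refine ⟨hcont, C * (1 + Real.sqrt a * m), by positivity, fun x => ?_⟩
  unfold AT.P
  have h1 : |∫ z, g (x + Real.sqrt a * z) ∂gam| ≤ ∫ z, (C * (1 + |x|) + (C * Real.sqrt a) * |z|) ∂gam := by
    have := norm_integral_le_of_norm_le (μ := gam) (f := fun z => g (x + Real.sqrt a * z))
      (g := fun z => C * (1 + |x|) + (C * Real.sqrt a) * |z|)
      ((integrable_const _).add (integrable_abs_gam.const_mul _))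
      (Eventually.of_forall fun z => ?_)
    · simpa using this
    · rw [Real.norm_eq_abs]
      refine (hC _).trans ?_
      have h1 : |x + Real.sqrt a * z| ≤ |x| + Real.sqrt a * |z| := by
        calc |x + Real.sqrt a * z| ≤ |x| + |Real.sqrt a * z| := abs_add_le _ _
          _ = |x| + Real.sqrt a * |z| := by rw [abs_mul, abs_of_nonneg (Real.sqrt_nonneg _)]
      calc C * (1 + |x + Real.sqrt a * z|) ≤ C * (1 + (|x| + Real.sqrt a * |z|)) := by
            apply mul_le_mul_of_nonneg_left _ hC0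
            linarith
        _ = _ := by ring
  rw [integral_add (integrable_const _) (integrable_abs_gam.const_mul _), integral_const,
    integral_const_mul, ← hm] at h1
  simp only [probReal_univ, smul_eq_mul, one_mul] at h1
  have h2 : C * Real.sqrt a * m ≤ C * Real.sqrt a * m * (1 + |x|) := by
    have h3 : 0 ≤ C * Real.sqrt a * m := by positivity
    nlinarith [abs_nonneg x]
  calc |∫ z, g (x + Real.sqrt a * z) ∂gam| ≤ C * (1 + |x|) + C * Real.sqrt a * m := h1
    _ ≤ C * (1 + |x|) + C * Real.sqrt a * m * (1 + |x|) := by linarith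
    _ = C * (1 + Real.sqrt a * m) * (1 + |x|) := by ring

theorem P_eq_gaussian {a : ℝ} (ha : 0 ≤ a) {g : ℝ → ℝ} (hg : Continuous g) (x : ℝ) :
    P a g x = ∫ y, g (x + y) ∂(gaussianReal 0 a.toNNReal) := by
  have h := gaussianReal_map_const_mul (μ := 0) (v := 1) (Real.sqrt a)
  have h2 : (NNReal.mk ((Real.sqrt a) ^ 2) (sq_nonneg _)) * 1 = a.toNNReal := by
    ext
    simp [Real.sq_sqrt ha, Real.coe_toNNReal a ha]
  rw [mul_zero, h2] at h
  rw [← h, integral_map (by fun_prop) (by fun_prop)]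
  rfl

/-- semigroup property -/
theorem P_P {g : ℝ → ℝ} (hg : LG g) {a b : ℝ} (ha : 0 ≤ a) (hb : 0 ≤ b) (x : ℝ) :
    P a (P b g) x = P (a + b) g x := by
  rw [P_eq_gaussian ha (hg.P b).1, P_eq_gaussian (add_nonneg ha hb) hg.1]
  have h1 : ∀ y, P b g (x + y) = ∫ w, g (x + y + w) ∂(gaussianReal 0 b.toNNReal) := fun y =>
    P_eq_gaussian hb hg.1 _
  simp only [h1]
  have h2 : gaussianReal 0 (a + b).toNNReal
      = (gaussianReal 0 a.toNNReal) ∗ (gaussianReal 0 b.toNNReal) := by
    rw [gaussianReal_conv_gaussianReal, Real.toNNReal_add ha hb, add_zero]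
  rw [h2, integral_conv]
  · simp only [add_assoc]
  · rw [← h2]
    have h3 := integrable_P hg (a + b) x
    have h := gaussianReal_map_const_mul (μ := 0) (v := 1) (Real.sqrt (a + b))
    have h4 : (NNReal.mk ((Real.sqrt (a + b)) ^ 2) (sq_nonneg _)) * 1 = (a + b).toNNReal := by
      ext
      simp [Real.sq_sqrt (add_nonneg ha hb), Real.coe_toNNReal (a + b) (add_nonneg ha hb)]
    rw [mul_zero, h4] at h
    rw [← h, integrable_map_measure (by have := hg.1; fun_prop) (by fun_prop)]
    exact h3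

/-! ### Cameron-Martin -/

theorem cm_shift (G : ℝ → ℝ) (s : ℝ) :
    ∫ z, G (z + s) ∂gam = ∫ z, G z * Real.exp (s * z - s ^ 2 / 2) ∂gam := by
  rw [integral_gaussianReal_eq_integral_smul (by norm_num),
    integral_gaussianReal_eq_integral_smul (by norm_num)]
  rw [← integral_sub_right_eq_self (fun z => gaussianPDFReal 0 1 z • G (z + s)) s]
  congr 1
  ext z
  simp only [smul_eq_mul, sub_add_cancel, gaussianPDFReal]
  have : Real.exp (-(z - s - 0) ^ 2 / (2 * ((1 : NNReal) : ℝ)))
      = Real.exp (-(z - 0) ^ 2 / (2 * ((1 : NNReal) : ℝ))) * Real.exp (s * z - s ^ 2 / 2) := by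
    rw [← Real.exp_add]
    congr 1
    simp only [NNReal.coe_one]
    ring
  rw [this]
  ring

/-! ### Stein -/

theorem pdf_deriv (t : ℝ) :
    HasDerivAt (gaussianPDFReal 0 1) (-(t * gaussianPDFReal 0 1 t)) t := by
  have h : gaussianPDFReal 0 1 = fun x : ℝ =>
      (Real.sqrt (2 * Real.pi * ((1 : NNReal) : ℝ)))⁻¹ *
        Real.exp (-(x - 0) ^ 2 / (2 * ((1 : NNReal) : ℝ))) := by
    rw [gaussianPDFReal_def]
  rw [h]
  have h1 : HasDerivAt (fun x : ℝ => -(x - 0) ^ 2 / (2 * ((1 : NNReal) : ℝ))) (-t) t := by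
    have := (((hasDerivAt_id t).sub_const (0:ℝ)).pow 2).neg.div_const (2 * ((1 : NNReal) : ℝ))
    refine this.congr_deriv ?_
    simp only [id, sub_zero, NNReal.coe_one, mul_one]
    norm_num
    ring
  have h2 := (h1.exp).const_mul (Real.sqrt (2 * Real.pi * ((1 : NNReal) : ℝ)))⁻¹
  refine h2.congr_deriv ?_
  ring

theorem integrable_gauss_iff (f : ℝ → ℝ) (hf : Integrable f (gaussianReal 0 1)) :
    Integrable fun t => f t * gaussianPDFReal 0 1 t := by
  rw [gaussianReal_of_var_ne_zero 0 (by norm_num : (1 : NNReal) ≠ 0),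
    integrable_withDensity_iff_integrable_smul' (measurable_gaussianPDF 0 1)
      (Eventually.of_forall fun _ => gaussianPDF_lt_top)] at hf
  refine hf.congr (Eventually.of_forall fun t => ?_)
  simp only [smul_eq_mul, toReal_gaussianPDF]
  ring

theorem integrable_mul_bdd {g : ℝ → ℝ} (hg : Measurable g) {C : ℝ} (hC : ∀ x, |g x| ≤ C) :
    Integrable (fun t => t * g t) gam :=
  integrable_id_gam.mul_bdd (c := C) hg.aestronglyMeasurable (Eventually.of_forall fun t => hC t)

theorem stein1 (g g' : ℝ → ℝ) (C : ℝ) (hd : ∀ t, HasDerivAt g (g' t) t) (hC : ∀ t, |g t| ≤ C)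
    (hC' : ∀ t, |g' t| ≤ C) :
    ∫ t, t * g t ∂(gaussianReal 0 1) = ∫ t, g' t ∂(gaussianReal 0 1) := by
  have hm' : Measurable g' := by
    have h1 : g' = deriv g := by ext t; exact (hd t).deriv.symm
    rw [h1]; exact measurable_deriv g
  have hgm : Measurable g := by
    have : Continuous g := continuous_iff_continuousAt.2 fun t => (hd t).continuousAt
    exact this.measurable
  have i1 : Integrable (fun t => t * g t) (gaussianReal 0 1) := integrable_mul_bdd hgm hC
  have i2 : Integrable g' (gaussianReal 0 1) := integrable_bdd hm' hC'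
  have i3 : Integrable g (gaussianReal 0 1) := integrable_bdd hgm hC
  have j1 := integrable_gauss_iff _ i1
  have j2 := integrable_gauss_iff _ i2
  have j3 := integrable_gauss_iff _ i3
  have key := integral_mul_deriv_eq_deriv_mul_of_integrable (u := g) (u' := g')
    (v := gaussianPDFReal 0 1) (v' := fun t => -(t * gaussianPDFReal 0 1 t))
    (fun x _ => hd x) (fun x _ => pdf_deriv x)
    (j1.neg.congr (Eventually.of_forall fun t => by simp only [Pi.neg_apply, Pi.mul_apply]; ring))
    (j2.congr (Eventually.of_forall fun t => by simp only [Pi.mul_apply]))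
    (j3.congr (Eventually.of_forall fun t => by simp only [Pi.mul_apply]))
  rw [integral_gaussianReal_eq_integral_smul (by norm_num),
    integral_gaussianReal_eq_integral_smul (by norm_num)]
  have e1 : ∫ x, gaussianPDFReal 0 1 x • (x * g x) =
      -∫ x, g x * -(x * gaussianPDFReal 0 1 x) := by
    rw [← integral_neg]
    congr 1; ext x; simp only [smul_eq_mul]; ring
  have e2 : ∫ x, gaussianPDFReal 0 1 x • g' x = ∫ x, g' x * gaussianPDFReal 0 1 x := by
    congr 1; ext x; simp only [smul_eq_mul]; ring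
  rw [e1, e2, key, neg_neg]

/-- Stein at an affine argument -/
theorem stein2 {g g' : ℝ → ℝ} {C C' : ℝ} (hd : ∀ t, HasDerivAt g (g' t) t) (hC : ∀ t, |g t| ≤ C)
    (hC' : ∀ t, |g' t| ≤ C') (x s : ℝ) :
    ∫ z, z * g (x + s * z) ∂gam = s * ∫ z, g' (x + s * z) ∂gam := by
  have h := stein1 (fun z => g (x + s * z)) (fun z => s * g' (x + s * z)) (max C (|s| * C'))
    (fun t => ?_) (fun t => (hC _).trans (le_max_left _ _)) (fun t => ?_)
  · rw [h, integral_const_mul]
  · have h1 : HasDerivAt (fun z : ℝ => x + s * z) s t := by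
      simpa using ((hasDerivAt_id t).const_mul s).const_add x
    have := (hd (x + s * t)).comp t h1
    simpa [Function.comp_def, mul_comm] using this
  · rw [abs_mul]
    exact (mul_le_mul_of_nonneg_left (hC' _) (abs_nonneg s)).trans (le_max_right _ _)

/-! ### derivatives of the semigroup -/

theorem hasDerivAt_P_x {g g' : ℝ → ℝ} (hg : LG g) {C : ℝ} (hd : ∀ t, HasDerivAt g (g' t) t)
    (hC' : ∀ t, |g' t| ≤ C) (a x : ℝ) : HasDerivAt (P a g) (P a g' x) x := by
  have hm' : Measurable g' := by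
    have h1 : g' = deriv g := by ext t; exact (hd t).deriv.symm
    rw [h1]; exact measurable_deriv g
  have := (hasDerivAt_integral_of_dominated_loc_of_deriv_le (μ := gam) (𝕜 := ℝ)
    (F := fun y z => g (y + Real.sqrt a * z)) (F' := fun y z => g' (y + Real.sqrt a * z))
    (x₀ := x) (bound := fun _ => C) (s := univ) univ_mem ?_ ?_ ?_ ?_ ?_ ?_).2
  · exact this
  · exact Eventually.of_forall fun y => (hg.1.measurable.comp (by fun_prop)).aestronglyMeasurable
  · exact integrable_P hg a x
  · exact (hm'.comp (by fun_prop)).aestronglyMeasurable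
  · exact Eventually.of_forall fun z y _ => hC' _
  · exact integrable_const _
  · refine Eventually.of_forall fun z y _ => ?_
    have h1 : HasDerivAt (fun y : ℝ => y + Real.sqrt a * z) 1 y := (hasDerivAt_id y).add_const _
    have h2 := (hd (y + Real.sqrt a * z)).comp y h1
    rw [mul_one] at h2
    exact h2

theorem hasDerivAt_P_a {g g' g'' : ℝ → ℝ} (hg : LG g) {C : ℝ} (hd : ∀ t, HasDerivAt g (g' t) t)
    (hd' : ∀ t, HasDerivAt g' (g'' t) t)
    (hC' : ∀ t, |g' t| ≤ C) (hC'' : ∀ t, |g'' t| ≤ C) {a : ℝ} (ha : 0 < a) (x : ℝ) :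
    HasDerivAt (fun a => P a g x) (1 / 2 * P a g'' x) a := by
  have hm' : Measurable g' := by
    have h1 : g' = deriv g := by ext t; exact (hd t).deriv.symm
    rw [h1]; exact measurable_deriv g
  have hC0 : 0 ≤ C := (abs_nonneg _).trans (hC' 0)
  have hs : ∀ b ∈ Ioi (a / 2), Real.sqrt (a / 2) ≤ Real.sqrt b := fun b hb =>
    Real.sqrt_le_sqrt (le_of_lt hb)
  have hs0 : 0 < Real.sqrt (a / 2) := Real.sqrt_pos.2 (by linarith)
  have := (hasDerivAt_integral_of_dominated_loc_of_deriv_le (μ := gam) (𝕜 := ℝ)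
    (F := fun b z => g (x + Real.sqrt b * z))
    (F' := fun b z => g' (x + Real.sqrt b * z) * (1 / (2 * Real.sqrt b) * z))
    (x₀ := a) (bound := fun z => C * (1 / (2 * Real.sqrt (a / 2)) * |z|)) (s := Ioi (a / 2))
    (Ioi_mem_nhds (by linarith)) ?_ ?_ ?_ ?_ ?_ ?_).2
  · refine this.congr_deriv ?_
    have h1 : ∫ z, g' (x + Real.sqrt a * z) * (1 / (2 * Real.sqrt a) * z) ∂gam
        = (1 / (2 * Real.sqrt a)) * ∫ z, z * g' (x + Real.sqrt a * z) ∂gam := by
      rw [← integral_const_mul]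
      congr 1; ext z; ring
    rw [h1, stein2 hd' hC' hC'' x (Real.sqrt a)]
    have : Real.sqrt a ≠ 0 := (Real.sqrt_pos.2 ha).ne'
    unfold P
    field_simp
  · exact Eventually.of_forall fun y => (hg.1.measurable.comp (by fun_prop)).aestronglyMeasurable
  · exact integrable_P hg a x
  · exact ((hm'.comp (by fun_prop)).mul (by fun_prop)).aestronglyMeasurable
  · refine Eventually.of_forall fun z b hb => ?_
    rw [Real.norm_eq_abs, abs_mul, abs_mul]
    have hb0 : 0 < Real.sqrt b := lt_of_lt_of_le hs0 (hs b hb)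
    have h1 : |1 / (2 * Real.sqrt b)| ≤ 1 / (2 * Real.sqrt (a / 2)) := by
      rw [abs_of_pos (by positivity)]
      apply one_div_le_one_div_of_le (by positivity)
      linarith [hs b hb]
    apply mul_le_mul (hC' _) _ (by positivity) hC0
    exact mul_le_mul_of_nonneg_right h1 (abs_nonneg z)
  · exact (integrable_abs_gam.const_mul _).const_mul _
  · refine Eventually.of_forall fun z b hb => ?_
    have hb0 : b ≠ 0 := by
      have : a / 2 < b := hb
      intro h; rw [h] at this; linarith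
    have h1 : HasDerivAt (fun b : ℝ => x + Real.sqrt b * z) (1 / (2 * Real.sqrt b) * z) b :=
      ((Real.hasDerivAt_sqrt hb0).mul_const z).const_add x
    exact (hd _).comp b h1

/-! ### Cauchy-Schwarz -/

theorem cs_integral {α : Type*} [MeasurableSpace α] {μ : Measure α}
    {f g : α → ℝ} (hff : Integrable (fun x => f x ^ 2) μ) (hgg : Integrable (fun x => g x ^ 2) μ)
    (hfg : Integrable (fun x => f x * g x) μ) :
    (∫ x, f x * g x ∂μ) ^ 2 ≤ (∫ x, f x ^ 2 ∂μ) * (∫ x, g x ^ 2 ∂μ) := by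
  have key : ∀ t : ℝ, 0 ≤ (∫ x, f x ^ 2 ∂μ) * (t * t) + (-2 * ∫ x, f x * g x ∂μ) * t
      + ∫ x, g x ^ 2 ∂μ := by
    intro t
    have h1 : 0 ≤ ∫ x, (t * f x - g x) ^ 2 ∂μ := integral_nonneg fun x => sq_nonneg _
    have h2 : ∫ x, (t * f x - g x) ^ 2 ∂μ
        = (∫ x, f x ^ 2 ∂μ) * (t * t) + (-2 * ∫ x, f x * g x ∂μ) * t + ∫ x, g x ^ 2 ∂μ := by
      have e : ∀ x, (t * f x - g x) ^ 2 = ((t * t) * f x ^ 2 + (-2 * t) * (f x * g x)) + g x ^ 2 := by
        intro x; ring
      simp only [e]
      have i1 : Integrable (fun x => (t * t) * f x ^ 2) μ := hff.const_mul _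
      have i2 : Integrable (fun x => (-2 * t) * (f x * g x)) μ := hfg.const_mul _
      have i3 : Integrable (fun x => (t * t) * f x ^ 2 + (-2 * t) * (f x * g x)) μ := i1.add i2
      rw [integral_add i3 hgg, integral_add i1 i2, integral_const_mul, integral_const_mul]
      ring
    rw [← h2]; exact h1
  have := discrim_le_zero key
  unfold discrim at this
  nlinarith

end Pool.Agent.N942.AT
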