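import Pool.Agent.N942.ATa

set_option autoImplicit false
open MeasureTheory ProbabilityTheory Set Filter Topology

namespace Pool.Agent.N942.AT

/-- hyperbolic secant -/
noncomputable def sech (x : ℝ) : ℝ := (Real.cosh x)⁻¹

/-- log cosh -/
noncomputable def lc (x : ℝ) : ℝ := Real.log (Real.cosh x)

theorem sech_pos (x : ℝ) : 0 < sech x := inv_pos.2 (Real.cosh_pos x)
theorem sech_nonneg (x : ℝ) : 0 ≤ sech x := (sech_pos x).le
theorem sech_le_one (x : ℝ) : sech x ≤ 1 := inv_le_one_of_one_le₀ (Real.one_le_cosh x)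
theorem sech_mul_cosh (x : ℝ) : sech x * Real.cosh x = 1 :=
  inv_mul_cancel₀ (Real.cosh_pos x).ne'
theorem sech_neg (x : ℝ) : sech (-x) = sech x := by simp [sech]

theorem tanh_eq (x : ℝ) : Real.tanh x = Real.sinh x * sech x := by
  rw [Real.tanh_eq_sinh_div_cosh, sech, div_eq_mul_inv]

theorem tanh_sq (x : ℝ) : Real.tanh x ^ 2 = 1 - sech x ^ 2 := by
  rw [tanh_eq]
  have h := Real.cosh_sq x
  have h2 : sech x ^ 2 * Real.cosh x ^ 2 = 1 := by rw [← mul_pow, sech_mul_cosh, one_pow]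
  have h3 : Real.sinh x ^ 2 = Real.cosh x ^ 2 - 1 := by linarith
  calc (Real.sinh x * sech x) ^ 2 = Real.sinh x ^ 2 * sech x ^ 2 := by ring
    _ = (Real.cosh x ^ 2 - 1) * sech x ^ 2 := by rw [h3]
    _ = sech x ^ 2 * Real.cosh x ^ 2 - sech x ^ 2 := by ring
    _ = _ := by rw [h2]

theorem abs_tanh_lt_one (x : ℝ) : |Real.tanh x| < 1 := by
  have h := tanh_sq x
  have h2 := sech_pos x
  have h3 : Real.tanh x ^ 2 < 1 := by nlinarith
  exact (sq_lt_one_iff_abs_lt_one _).1 h3

theorem abs_tanh_le_one (x : ℝ) : |Real.tanh x| ≤ 1 := (abs_tanh_lt_one x).le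

theorem hasDerivAt_tanh (x : ℝ) : HasDerivAt Real.tanh (sech x ^ 2) x := by
  have h0 : Real.tanh = fun x => Real.sinh x / Real.cosh x := by
    ext y; exact Real.tanh_eq_sinh_div_cosh y
  rw [h0]
  have h := (Real.hasDerivAt_sinh x).div (Real.hasDerivAt_cosh x) (Real.cosh_pos x).ne'
  refine h.congr_deriv ?_
  have h1 := Real.cosh_sq x
  have h2 : Real.cosh x * Real.cosh x - Real.sinh x * Real.sinh x = 1 := by nlinarith
  rw [h2, sech, inv_pow, one_div]

theorem continuous_tanh : Continuous Real.tanh :=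
  continuous_iff_continuousAt.2 fun x => (hasDerivAt_tanh x).continuousAt

theorem hasDerivAt_sech (x : ℝ) : HasDerivAt sech (-(sech x * Real.tanh x)) x := by
  have h := (Real.hasDerivAt_cosh x).inv (Real.cosh_pos x).ne'
  refine h.congr_deriv ?_
  rw [tanh_eq, sech]
  have := (Real.cosh_pos x).ne'
  field_simp

theorem continuous_sech : Continuous sech :=
  continuous_iff_continuousAt.2 fun x => (hasDerivAt_sech x).continuousAt

/-- powers of sech -/
noncomputable def S (j : ℕ) (x : ℝ) : ℝ := sech x ^ j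

/-- derivative of `S j` -/
noncomputable def S1 (j : ℕ) (x : ℝ) : ℝ := -((j : ℝ) * (S j x * Real.tanh x))

theorem S_pos (j : ℕ) (x : ℝ) : 0 < S j x := pow_pos (sech_pos x) j
theorem S_nonneg (j : ℕ) (x : ℝ) : 0 ≤ S j x := (S_pos j x).le
theorem S_le_one (j : ℕ) (x : ℝ) : S j x ≤ 1 := pow_le_one₀ (sech_nonneg x) (sech_le_one x)
theorem abs_S_le (j : ℕ) (x : ℝ) : |S j x| ≤ 1 := by
  rw [abs_of_nonneg (S_nonneg j x)]; exact S_le_one j x
theorem S_neg (j : ℕ) (x : ℝ) : S j (-x) = S j x := by simp [S, sech_neg]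
theorem continuous_S (j : ℕ) : Continuous (S j) := continuous_sech.pow j
theorem S_mul (i j : ℕ) (x : ℝ) : S i x * S j x = S (i + j) x := (pow_add _ _ _).symm
theorem S_anti {i j : ℕ} (h : i ≤ j) (x : ℝ) : S j x ≤ S i x :=
  pow_le_pow_of_le_one (sech_nonneg x) (sech_le_one x) h

theorem hasDerivAt_S (j : ℕ) (x : ℝ) : HasDerivAt (S j) (S1 j x) x := by
  have h := (hasDerivAt_sech x).pow j
  refine h.congr_deriv ?_
  unfold S1 S
  rcases j with _ | j
  · simp
  · simp only [Nat.add_sub_cancel]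
    rw [pow_succ]
    ring

theorem hasDerivAt_S1 (j : ℕ) (x : ℝ) :
    HasDerivAt (S1 j) ((j : ℝ) ^ 2 * S j x - (j : ℝ) * (j + 1) * S (j + 2) x) x := by
  have h := (((hasDerivAt_S j x).mul (hasDerivAt_tanh x)).const_mul (j : ℝ)).neg
  refine h.congr_deriv ?_
  have h2 := tanh_sq x
  have h3 : S (j + 2) x = S j x * sech x ^ 2 := by simp [S, pow_add]
  unfold S1
  rw [h3]
  have : -(↑j * (S j x * Real.tanh x)) * Real.tanh x = -(↑j * S j x) * Real.tanh x ^ 2 := by ring
  calc -((j:ℝ) * (-(↑j * (S j x * Real.tanh x)) * Real.tanh x + S j x * sech x ^ 2))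
      = (j:ℝ) ^ 2 * S j x * Real.tanh x ^ 2 - j * (S j x * sech x ^ 2) := by ring
    _ = _ := by rw [h2]; ring

theorem abs_S1_le (j : ℕ) (x : ℝ) : |S1 j x| ≤ j := by
  unfold S1
  rw [abs_neg, abs_mul, abs_mul, Nat.abs_cast]
  have h1 := abs_S_le j x
  have h2 := abs_tanh_le_one x
  have : |S j x| * |Real.tanh x| ≤ 1 := mul_le_one₀ h1 (abs_nonneg _) h2
  nlinarith [Nat.cast_nonneg (α := ℝ) j]

theorem abs_S2_le (j : ℕ) (x : ℝ) :
    |(j : ℝ) ^ 2 * S j x - (j : ℝ) * (j + 1) * S (j + 2) x| ≤ (j : ℝ) ^ 2 + (j : ℝ) * (j + 1) := by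
  have h1 := S_le_one j x
  have h2 := S_nonneg j x
  have h3 := S_le_one (j + 2) x
  have h4 := S_nonneg (j + 2) x
  have hj : (0 : ℝ) ≤ j := Nat.cast_nonneg j
  have a1 : 0 ≤ (j : ℝ) ^ 2 * S j x := by positivity
  have a2 : (j : ℝ) ^ 2 * S j x ≤ (j : ℝ) ^ 2 := by nlinarith [sq_nonneg (j : ℝ)]
  have a3 : 0 ≤ (j : ℝ) * (j + 1) * S (j + 2) x := by positivity
  have a4 : (j : ℝ) * (j + 1) * S (j + 2) x ≤ (j : ℝ) * (j + 1) := by
    have : 0 ≤ (j : ℝ) * (j + 1) := by positivity
    nlinarith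
  rw [abs_le]
  constructor <;> linarith

theorem LG_S (j : ℕ) : LG (S j) := LG.bdd (continuous_S j) (abs_S_le j)
theorem LG_sech : LG sech := LG.bdd continuous_sech (C := 1) fun x => by
  rw [abs_of_nonneg (sech_nonneg x)]; exact sech_le_one x
theorem LG_tanh : LG Real.tanh := LG.bdd continuous_tanh abs_tanh_le_one
theorem abs_tanh_sq_le (x : ℝ) : |Real.tanh x ^ 2| ≤ 1 := by
  rw [abs_of_nonneg (sq_nonneg _)]
  have := tanh_sq x
  have := sech_pos x
  nlinarith
theorem LG_tanh_sq : LG (fun x => Real.tanh x ^ 2) :=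
  LG.bdd (continuous_tanh.pow 2) abs_tanh_sq_le

theorem S_one : S 1 = sech := by ext x; simp [S]

theorem hasDerivAt_lc (x : ℝ) : HasDerivAt lc (Real.tanh x) x := by
  have h := (Real.hasDerivAt_cosh x).log (Real.cosh_pos x).ne'
  rwa [← Real.tanh_eq_sinh_div_cosh] at h

theorem continuous_lc : Continuous lc :=
  continuous_iff_continuousAt.2 fun x => (hasDerivAt_lc x).continuousAt

theorem lc_nonneg (x : ℝ) : 0 ≤ lc x := Real.log_nonneg (Real.one_le_cosh x)

theorem cosh_le_exp_abs (x : ℝ) : Real.cosh x ≤ Real.exp |x| := by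
  rw [← Real.cosh_abs, Real.cosh_eq]
  have h1 : Real.exp (-|x|) ≤ Real.exp |x| := Real.exp_le_exp.2 (by linarith [abs_nonneg x])
  linarith

theorem lc_le_abs (x : ℝ) : lc x ≤ |x| := by
  have := Real.log_le_log (Real.cosh_pos x) (cosh_le_exp_abs x)
  rwa [Real.log_exp] at this

theorem LG_lc : LG lc := by
  refine ⟨continuous_lc, 1, zero_le_one, fun x => ?_⟩
  rw [abs_of_nonneg (lc_nonneg x)]
  linarith [lc_le_abs x]

theorem exp_lc (x : ℝ) : Real.exp (lc x) = Real.cosh x := Real.exp_log (Real.cosh_pos x)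

/-- convexity of log cosh: tangent line inequality -/
theorem lc_tangent (x y : ℝ) : lc y + Real.tanh y * (x - y) ≤ lc x := by
  have hmono : Monotone Real.tanh := by
    apply monotone_of_deriv_nonneg (fun x => (hasDerivAt_tanh x).differentiableAt)
    intro x
    rw [(hasDerivAt_tanh x).deriv]
    positivity
  have hconv : ConvexOn ℝ univ lc := by
    have hd : deriv lc = Real.tanh := by ext x; exact (hasDerivAt_lc x).deriv
    apply MonotoneOn.convexOn_of_deriv convex_univ continuous_lc.continuousOn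
    · intro x _
      exact (hasDerivAt_lc x).differentiableAt.differentiableWithinAt
    · rw [hd]; exact hmono.monotoneOn _
  rcases lt_trichotomy x y with h | h | h
  · have := hconv.slope_le_of_hasDerivAt (mem_univ x) (mem_univ y) h (hasDerivAt_lc y)
    rw [slope_def_field, div_le_iff₀ (by linarith)] at this
    nlinarith
  · subst h; simp
  · have := hconv.le_slope_of_hasDerivAt (mem_univ y) (mem_univ x) h (hasDerivAt_lc y)
    rw [slope_def_field, le_div_iff₀ (by linarith)] at this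
    nlinarith

theorem tanh_mono : Monotone Real.tanh := by
  apply monotone_of_deriv_nonneg (fun x => (hasDerivAt_tanh x).differentiableAt)
  intro x
  rw [(hasDerivAt_tanh x).deriv]
  positivity

theorem tanh_nonneg' {x : ℝ} (hx : 0 ≤ x) : 0 ≤ Real.tanh x := by
  have := tanh_mono hx
  simpa using this

end Pool.Agent.N942.AT
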