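import Pool.Agent.N942.ATb

set_option autoImplicit false
open MeasureTheory ProbabilityTheory Set Filter Topology

namespace Pool.Agent.N942.AT

theorem integral_sq_gam : ∫ z, z ^ 2 ∂gam = 1 := by
  have h := variance_fun_id_gaussianReal (μ := 0) (v := 1)
  rw [variance_eq_integral (by fun_prop)] at h
  simpa [integral_id_gaussianReal] using h

theorem integrable_sq_gam : Integrable (fun z : ℝ => z ^ 2) gam := by
  have h := memLp_id_gaussianReal (μ := 0) (v := 1) 2
  simpa using h.integrable_sq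

theorem integral_id_gam : ∫ z, z ∂gam = 0 := integral_id_gaussianReal

theorem integral_neg_gam (f : ℝ → ℝ) : ∫ z, f (-z) ∂gam = ∫ z, f z ∂gam := by
  have h := gaussianReal_map_neg (μ := 0) (v := 1)
  rw [neg_zero] at h
  have h2 := integral_map_equiv (μ := gam) (MeasurableEquiv.neg ℝ) f
  have h3 : Measure.map (⇑(MeasurableEquiv.neg ℝ)) gam = gam := h
  rw [h3] at h2
  rw [h2]
  rfl

/-- Stein's identity for `X = h + √v z`. -/
theorem stein_P {g g' : ℝ → ℝ} {C C' : ℝ} (hd : ∀ t, HasDerivAt g (g' t) t) (hC : ∀ t, |g t| ≤ C)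
    (hC' : ∀ t, |g' t| ≤ C') (h : ℝ) {v : ℝ} (hv : 0 ≤ v) :
    P v (fun x => (x - h) * g x) h = v * P v g' h := by
  have h1 := stein2 hd hC hC' h (Real.sqrt v)
  unfold P
  have e : ∀ z, (h + Real.sqrt v * z - h) * g (h + Real.sqrt v * z)
      = Real.sqrt v * (z * g (h + Real.sqrt v * z)) := by intro z; ring
  simp only [e]
  rw [integral_const_mul, h1, ← mul_assoc, Real.mul_self_sqrt hv]

theorem integrable_exp_gam (s : ℝ) : Integrable (fun z => Real.exp (s * z)) gam :=
  integrable_exp_mul_gaussianReal s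

theorem integrable_bdd_mul_exp {ψ : ℝ → ℝ} (hψ : Measurable ψ) {C : ℝ} (hC : ∀ x, |ψ x| ≤ C)
    (s : ℝ) : Integrable (fun z => ψ z * Real.exp (s * z)) gam := by
  have := (integrable_exp_gam s).mul_bdd (c := C) hψ.aestronglyMeasurable
    (Eventually.of_forall fun t => hC t)
  exact this.congr (Eventually.of_forall fun z => by simp [mul_comm])

theorem P_cm (ψ : ℝ → ℝ) (h : ℝ) {v : ℝ} (hv : 0 < v) :
    P v ψ h = Real.exp (-(h / v) ^ 2 * v / 2) *
      ∫ z, ψ (Real.sqrt v * z) * Real.exp ((h / Real.sqrt v) * z) ∂gam := by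
  have hs : Real.sqrt v ≠ 0 := (Real.sqrt_pos.2 hv).ne'
  have h1 := cm_shift (fun z => ψ (Real.sqrt v * z)) (h / Real.sqrt v)
  have e1 : ∀ z, ψ (Real.sqrt v * (z + h / Real.sqrt v)) = ψ (h + Real.sqrt v * z) := by
    intro z; congr 1; field_simp; ring
  simp only [e1] at h1
  unfold P
  rw [h1, ← integral_const_mul]
  congr 1
  ext z
  have e2 : Real.exp (h / Real.sqrt v * z - (h / Real.sqrt v) ^ 2 / 2)
      = Real.exp (-(h / v) ^ 2 * v / 2) * Real.exp (h / Real.sqrt v * z) := by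
    rw [← Real.exp_add]
    congr 1
    have : (h / Real.sqrt v) ^ 2 = (h / v) ^ 2 * v := by
      rw [div_pow, Real.sq_sqrt hv.le]; field_simp
    rw [this]; ring
  rw [e2]; ring

theorem P_odd {ψ : ℝ → ℝ} (hψ : Measurable ψ) {C : ℝ} (hC : ∀ x, |ψ x| ≤ C)
    (hodd : ∀ x, ψ (-x) = - ψ x) (h : ℝ) {v : ℝ} (hv : 0 < v) :
    P v ψ h = Real.exp (-(h / v) ^ 2 * v / 2) *
      ∫ z, ψ (Real.sqrt v * z) * Real.sinh ((h / Real.sqrt v) * z) ∂gam := by
  rw [P_cm ψ h hv]
  congr 1
  set s := h / Real.sqrt v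
  have i1 : Integrable (fun z => ψ (Real.sqrt v * z) * Real.exp (s * z)) gam :=
    integrable_bdd_mul_exp (hψ.comp (by fun_prop)) (fun x => hC _) s
  have i2 : Integrable (fun z => ψ (Real.sqrt v * z) * Real.exp (-s * z)) gam :=
    integrable_bdd_mul_exp (hψ.comp (by fun_prop)) (fun x => hC _) (-s)
  have h1 : ∫ z, ψ (Real.sqrt v * z) * Real.exp (s * z) ∂gam
      = - ∫ z, ψ (Real.sqrt v * z) * Real.exp (-s * z) ∂gam := by
    rw [← integral_neg_gam, ← integral_neg]
    congr 1; ext z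
    rw [mul_neg, hodd]; simp only [mul_neg, neg_mul]
  have h2 : ∫ z, ψ (Real.sqrt v * z) * Real.sinh (s * z) ∂gam
      = (1 / 2) * (∫ z, ψ (Real.sqrt v * z) * Real.exp (s * z) ∂gam
        - ∫ z, ψ (Real.sqrt v * z) * Real.exp (-s * z) ∂gam) := by
    rw [← integral_sub i1 i2, ← integral_const_mul]
    congr 1; ext z
    rw [Real.sinh_eq]; ring_nf
  rw [h2, h1]; ring

theorem P_even {ψ : ℝ → ℝ} (hψ : Measurable ψ) {C : ℝ} (hC : ∀ x, |ψ x| ≤ C)
    (heven : ∀ x, ψ (-x) = ψ x) (h : ℝ) {v : ℝ} (hv : 0 < v) :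
    P v ψ h = Real.exp (-(h / v) ^ 2 * v / 2) *
      ∫ z, ψ (Real.sqrt v * z) * Real.cosh ((h / Real.sqrt v) * z) ∂gam := by
  rw [P_cm ψ h hv]
  congr 1
  set s := h / Real.sqrt v
  have i1 : Integrable (fun z => ψ (Real.sqrt v * z) * Real.exp (s * z)) gam :=
    integrable_bdd_mul_exp (hψ.comp (by fun_prop)) (fun x => hC _) s
  have i2 : Integrable (fun z => ψ (Real.sqrt v * z) * Real.exp (-s * z)) gam :=
    integrable_bdd_mul_exp (hψ.comp (by fun_prop)) (fun x => hC _) (-s)
  have h1 : ∫ z, ψ (Real.sqrt v * z) * Real.exp (s * z) ∂gam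
      = ∫ z, ψ (Real.sqrt v * z) * Real.exp (-s * z) ∂gam := by
    rw [← integral_neg_gam]
    congr 1; ext z
    rw [mul_neg, heven]; simp only [mul_neg, neg_mul]
  have h2 : ∫ z, ψ (Real.sqrt v * z) * Real.cosh (s * z) ∂gam
      = (1 / 2) * (∫ z, ψ (Real.sqrt v * z) * Real.exp (s * z) ∂gam
        + ∫ z, ψ (Real.sqrt v * z) * Real.exp (-s * z) ∂gam) := by
    rw [← integral_add i1 i2, ← integral_const_mul]
    congr 1; ext z
    rw [Real.cosh_eq]; ring_nf
  rw [h2, h1]; ring

theorem mul_sinh_nonneg' {ψ : ℝ → ℝ} (hodd : ∀ x, ψ (-x) = - ψ x) (hpos : ∀ x, 0 ≤ x → 0 ≤ ψ x)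
    {c : ℝ} (hc : 0 ≤ c) (x : ℝ) : 0 ≤ ψ x * Real.sinh (c * x) := by
  rcases le_total 0 x with hx | hx
  · exact mul_nonneg (hpos x hx) (Real.sinh_nonneg_iff.2 (mul_nonneg hc hx))
  · have h1 : 0 ≤ ψ (-x) := hpos (-x) (by linarith)
    rw [hodd] at h1
    have h2 : Real.sinh (c * x) ≤ 0 := Real.sinh_nonpos_iff.2 (mul_nonpos_of_nonneg_of_nonpos hc hx)
    nlinarith

/-- odd positivity -/
theorem P_odd_nonneg {ψ : ℝ → ℝ} (hψ : Measurable ψ) {C : ℝ} (hC : ∀ x, |ψ x| ≤ C)
    (hodd : ∀ x, ψ (-x) = - ψ x) (hpos : ∀ x, 0 ≤ x → 0 ≤ ψ x) {h : ℝ} (hh : 0 ≤ h)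
    {v : ℝ} (hv : 0 < v) : 0 ≤ P v ψ h := by
  rw [P_odd hψ hC hodd h hv]
  apply mul_nonneg (Real.exp_nonneg _)
  apply integral_nonneg
  intro z
  have hs := Real.sqrt_pos.2 hv
  have e : h / Real.sqrt v * z = (h / v) * (Real.sqrt v * z) := by
    rw [div_mul_eq_mul_div, div_mul_eq_mul_div, div_eq_div_iff hs.ne' hv.ne']
    calc h * z * v = h * z * (Real.sqrt v * Real.sqrt v) := by rw [Real.mul_self_sqrt hv.le]
      _ = _ := by ring
  show 0 ≤ ψ (Real.sqrt v * z) * Real.sinh (h / Real.sqrt v * z)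
  rw [e]
  exact mul_sinh_nonneg' hodd hpos (by positivity) _

theorem abs_le_cosh (x : ℝ) : |x| ≤ Real.cosh x := by
  rw [← Real.cosh_abs]
  have h1 : |x| ≤ Real.sinh |x| := Real.self_le_sinh_iff.2 (abs_nonneg x)
  have h2 := Real.sinh_lt_cosh |x|
  linarith

theorem abs_mul_sech_le (x : ℝ) : |x| * sech x ≤ 1 := by
  have h := abs_le_cosh x
  calc |x| * sech x ≤ Real.cosh x * sech x := mul_le_mul_of_nonneg_right h (sech_nonneg x)
    _ = 1 := by rw [mul_comm]; exact sech_mul_cosh x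

theorem abs_x_S_le {j : ℕ} (hj : 1 ≤ j) (x : ℝ) : |x * S j x| ≤ 1 := by
  rw [abs_mul, abs_of_nonneg (S_nonneg j x)]
  have h1 : S j x ≤ S 1 x := S_anti hj x
  have h2 : S 1 x = sech x := by simp [S]
  calc |x| * S j x ≤ |x| * sech x := mul_le_mul_of_nonneg_left (h2 ▸ h1) (abs_nonneg x)
    _ ≤ 1 := abs_mul_sech_le x

theorem measurable_S (j : ℕ) : Measurable (S j) := (continuous_S j).measurable
theorem measurable_tanh : Measurable Real.tanh := continuous_tanh.measurable

theorem x_tanh_nonneg (x : ℝ) : 0 ≤ x * Real.tanh x := by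
  rcases le_total 0 x with hx | hx
  · exact mul_nonneg hx (tanh_nonneg' hx)
  · have h1 : 0 ≤ Real.tanh (-x) := tanh_nonneg' (by linarith)
    rw [Real.tanh_neg] at h1
    nlinarith

theorem LG_x_S {j : ℕ} (hj : 1 ≤ j) : LG (fun x => x * S j x) :=
  LG.bdd (continuous_id.mul (continuous_S j)) (abs_x_S_le hj)

theorem LG_S_tanh (j : ℕ) : LG (fun x => S j x * Real.tanh x) :=
  LG.bdd ((continuous_S j).mul continuous_tanh) (C := 1) fun x => by
    rw [abs_mul]; exact mul_le_one₀ (abs_S_le j x) (abs_nonneg _) (abs_tanh_le_one x)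

theorem LG_x_S_tanh {j : ℕ} (hj : 1 ≤ j) : LG (fun x => x * S j x * Real.tanh x) :=
  LG.bdd ((continuous_id.mul (continuous_S j)).mul continuous_tanh) (C := 1) fun x => by
    rw [abs_mul]; exact mul_le_one₀ (abs_x_S_le hj x) (abs_nonneg _) (abs_tanh_le_one x)

section
variable {h v : ℝ}

/-- `E[sech^j X tanh X] ≥ 0` and `v j E[sech^j X tanh X] ≤ h E[sech^j X]` -/
theorem S_tanh_nonneg (hh : 0 ≤ h) (hv : 0 < v) (j : ℕ) :
    0 ≤ P v (fun x => S j x * Real.tanh x) h := by
  apply P_odd_nonneg (C := 1) _ _ _ _ hh hv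
  · exact (measurable_S j).mul measurable_tanh
  · intro x
    rw [abs_mul]; exact mul_le_one₀ (abs_S_le j x) (abs_nonneg _) (abs_tanh_le_one x)
  · intro x; rw [S_neg, Real.tanh_neg]; ring
  · intro x hx; exact mul_nonneg (S_nonneg j x) (tanh_nonneg' hx)

theorem S_tanh_le (hh : 0 ≤ h) (hv : 0 < v) {j : ℕ} (hj : 1 ≤ j) :
    v * j * P v (fun x => S j x * Real.tanh x) h ≤ h * P v (S j) h := by
  have h1 := stein_P (hasDerivAt_S j) (abs_S_le j) (abs_S1_le j) h hv.le
  have h2 : P v (S1 j) h = -((j:ℝ) * P v (fun x => S j x * Real.tanh x) h) := by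
    have : S1 j = fun x => (-(j:ℝ)) * (S j x * Real.tanh x) := by
      ext x; unfold S1; ring
    rw [this, P_const_mul]; ring
  have h3 : P v (fun x => (x - h) * S j x) h = P v (fun x => x * S j x) h - h * P v (S j) h := by
    have e : (fun x => (x - h) * S j x) = fun x => x * S j x - h * S j x := by ext x; ring
    rw [e, P_sub (LG_x_S hj) ((LG_S j).const_mul h), P_const_mul]
  have h4 : 0 ≤ P v (fun x => x * S j x) h := by
    apply P_odd_nonneg (C := 1) _ (abs_x_S_le hj) _ _ hh hv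
    · exact measurable_id.mul (measurable_S j)
    · intro x; rw [S_neg]; ring
    · intro x hx; exact mul_nonneg hx (S_nonneg j x)
  rw [h3, h2] at h1
  nlinarith

/-- static bounds (a), (c) -/
theorem static_lower (hh : 0 ≤ h) (hv : 0 < v) {j : ℕ} (hj : 1 ≤ j) :
    ((j : ℝ) ^ 2 - (h / v) ^ 2) * P v (S j) h ≤ (j : ℝ) * (j + 1) * P v (S (j + 2)) h := by
  have h1 := stein_P (hasDerivAt_S1 j) (abs_S1_le j) (abs_S2_le j) h hv.le
  have h2 : P v (fun x => (j : ℝ) ^ 2 * S j x - (j : ℝ) * (j + 1) * S (j + 2) x) h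
      = (j : ℝ) ^ 2 * P v (S j) h - (j : ℝ) * (j + 1) * P v (S (j + 2)) h := by
    rw [P_sub ((LG_S j).const_mul _) ((LG_S (j + 2)).const_mul _), P_const_mul, P_const_mul]
  have h3 : P v (fun x => (x - h) * S1 j x) h
      ≤ P v (fun x => (j * h) * (S j x * Real.tanh x)) h := by
    have e : (fun x => (x - h) * S1 j x)
        = fun x => (j * h) * (S j x * Real.tanh x) - (j:ℝ) * (x * S j x * Real.tanh x) := by
      ext x; unfold S1; ring
    rw [e]
    apply P_mono (((LG_S_tanh j).const_mul _).sub ((LG_x_S_tanh hj).const_mul _))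
      ((LG_S_tanh j).const_mul _)
    intro x
    have h4 : 0 ≤ (j:ℝ) * (x * S j x * Real.tanh x) := by
      have : x * S j x * Real.tanh x = S j x * (x * Real.tanh x) := by ring
      rw [this]
      exact mul_nonneg (Nat.cast_nonneg j) (mul_nonneg (S_nonneg j x) (x_tanh_nonneg x))
    linarith
  rw [P_const_mul, h1, h2] at h3
  have h5 := S_tanh_le hh hv hj
  have h6 : v * (v * ((j : ℝ) ^ 2 * P v (S j) h - (j : ℝ) * (j + 1) * P v (S (j + 2)) h))
      ≤ h * (h * P v (S j) h) := by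
    calc v * (v * ((j : ℝ) ^ 2 * P v (S j) h - (j : ℝ) * (j + 1) * P v (S (j + 2)) h))
        ≤ v * (j * h * P v (fun x => S j x * Real.tanh x) h) :=
          mul_le_mul_of_nonneg_left h3 hv.le
      _ = h * (v * j * P v (fun x => S j x * Real.tanh x) h) := by ring
      _ ≤ _ := mul_le_mul_of_nonneg_left h5 hh
  have h7 : (h / v) ^ 2 * (v * v) = h * h := by field_simp
  have h8 : (v * v) * (((j : ℝ) ^ 2 - (h / v) ^ 2) * P v (S j) h)
      ≤ (v * v) * ((j : ℝ) * (j + 1) * P v (S (j + 2)) h) := by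
    have e1 : (v * v) * (((j : ℝ) ^ 2 - (h / v) ^ 2) * P v (S j) h)
        = (v * v) * (j : ℝ) ^ 2 * P v (S j) h - ((h / v) ^ 2 * (v * v)) * P v (S j) h := by ring
    rw [e1, h7]
    linarith
  exact le_of_mul_le_mul_left h8 (by positivity)

/-- static bound (d) -/
theorem static_upper (hh : 0 ≤ h) (hv : 0 < v) {j : ℕ} (hj : 2 ≤ j) :
    (j : ℝ) * (j + 1) * P v (S (j + 2)) h
      ≤ ((j : ℝ) ^ 2 + 1 / v + (h / v) ^ 2 / 4) * P v (S j) h := by
  have hj1 : 1 ≤ j := by omega
  have h1 := stein_P (hasDerivAt_S1 j) (abs_S1_le j) (abs_S2_le j) h hv.le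
  have h2 : P v (fun x => (j : ℝ) ^ 2 * S j x - (j : ℝ) * (j + 1) * S (j + 2) x) h
      = (j : ℝ) ^ 2 * P v (S j) h - (j : ℝ) * (j + 1) * P v (S (j + 2)) h := by
    rw [P_sub ((LG_S j).const_mul _) ((LG_S (j + 2)).const_mul _), P_const_mul, P_const_mul]
  -- E[(x-h) S1] = j h E[S tanh] - j E[x S tanh]
  have h3 : P v (fun x => (x - h) * S1 j x) h
      = (j * h) * P v (fun x => S j x * Real.tanh x) h
        - (j:ℝ) * P v (fun x => x * S j x * Real.tanh x) h := by
    have e : (fun x => (x - h) * S1 j x)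
        = fun x => (j * h) * (S j x * Real.tanh x) - (j:ℝ) * (x * S j x * Real.tanh x) := by
      ext x; unfold S1; ring
    rw [e, P_sub ((LG_S_tanh j).const_mul _) ((LG_x_S_tanh hj1).const_mul _), P_const_mul,
      P_const_mul]
  have h4 := S_tanh_nonneg hh hv j
  -- Stein with g = x S_j
  have hd : ∀ x, HasDerivAt (fun x => x * S j x) (S j x - (j:ℝ) * (x * S j x * Real.tanh x)) x := by
    intro x
    have := (hasDerivAt_id x).mul (hasDerivAt_S j x)
    refine this.congr_deriv ?_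
    simp only [id, S1]; ring
  have hb : ∀ x, |S j x - (j:ℝ) * (x * S j x * Real.tanh x)| ≤ 1 + j := by
    intro x
    have a1 := abs_S_le j x
    have a2 : |x * S j x * Real.tanh x| ≤ 1 := by
      rw [abs_mul]; exact mul_le_one₀ (abs_x_S_le hj1 x) (abs_nonneg _) (abs_tanh_le_one x)
    have a3 : |(j:ℝ) * (x * S j x * Real.tanh x)| ≤ j := by
      rw [abs_mul, Nat.abs_cast]
      nlinarith [Nat.cast_nonneg (α := ℝ) j]
    calc _ ≤ |S j x| + |(j:ℝ) * (x * S j x * Real.tanh x)| := abs_sub _ _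
      _ ≤ _ := by linarith
  have h5 := stein_P hd (abs_x_S_le hj1) hb h hv.le
  have h6 : P v (fun x => S j x - (j:ℝ) * (x * S j x * Real.tanh x)) h
      = P v (S j) h - (j:ℝ) * P v (fun x => x * S j x * Real.tanh x) h := by
    rw [P_sub (LG_S j) ((LG_x_S_tanh hj1).const_mul _), P_const_mul]
  -- lower bound
  have hcont : Continuous (fun x : ℝ => (x - h) * (x * S j x)) := by
    have := continuous_S j
    fun_prop
  have hbd2 : ∀ x, |(x - h) * (x * S j x)| ≤ 1 + h := by
    intro x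
    have e : (x - h) * (x * S j x) = (x * S 1 x) * (x * S (j - 1) x) - h * (x * S j x) := by
      have : S j x = S 1 x * S (j - 1) x := by
        rw [S_mul]; congr 1; omega
      rw [this]; ring
    rw [e]
    have a1 : |(x * S 1 x) * (x * S (j - 1) x)| ≤ 1 := by
      rw [abs_mul]
      exact mul_le_one₀ (abs_x_S_le le_rfl x) (abs_nonneg _) (abs_x_S_le (by omega) x)
    have a2 : |h * (x * S j x)| ≤ h := by
      rw [abs_mul, abs_of_nonneg hh]
      nlinarith [abs_x_S_le hj1 x]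
    have a3 := abs_sub (x * S 1 x * (x * S (j - 1) x)) (h * (x * S j x))
    linarith
  have h7 : -(h ^ 2 / 4) * P v (S j) h ≤ P v (fun x => (x - h) * (x * S j x)) h := by
    rw [← P_const_mul]
    apply P_mono ((LG_S j).const_mul _) (LG.bdd hcont hbd2)
    intro x
    have := S_nonneg j x
    have h8 : 0 ≤ (x - h / 2) ^ 2 * S j x := by positivity
    nlinarith
  rw [h5, h6] at h7
  rw [h3, h2] at h1
  -- combine
  set A := P v (fun x => S j x * Real.tanh x) h
  set B := P v (fun x => x * S j x * Real.tanh x) h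
  set s := P v (S j) h
  set s' := P v (S (j + 2)) h
  have hjh : 0 ≤ (j:ℝ) * h * A := by positivity
  -- h1 : j*h*A - j*B = v*(j^2 s - j(j+1)s')
  -- h7 : -(h^2/4) s ≤ v (s - j B)
  have h8 : v * (v * ((j : ℝ) * (j + 1) * s')) ≤ v * (v * ((j : ℝ) ^ 2 * s)) + v * s + h ^ 2 / 4 * s := by
    nlinarith
  have h9 : (v * v) * ((j : ℝ) * (j + 1) * s')
      ≤ (v * v) * (((j : ℝ) ^ 2 + 1 / v + (h / v) ^ 2 / 4) * s) := by
    have e1 : (v * v) * (((j : ℝ) ^ 2 + 1 / v + (h / v) ^ 2 / 4) * s)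
      = v * (v * ((j : ℝ) ^ 2 * s)) + v * s + h ^ 2 / 4 * s := by
      field_simp
    rw [e1]; linarith
  exact le_of_mul_le_mul_left h9 (by positivity)

end

/-! ### Lemma B -/

theorem tanh_concave {θ : ℝ} (h0 : 0 ≤ θ) (h1 : θ ≤ 1) {x : ℝ} (hx : 0 ≤ x) :
    θ * Real.tanh x ≤ Real.tanh (θ * x) := by
  have hd : ∀ y, HasDerivAt (fun y => Real.tanh (θ * y) - θ * Real.tanh y)
      (θ * (sech (θ * y) ^ 2 - sech y ^ 2)) y := by
    intro y
    have a1 : HasDerivAt (fun y : ℝ => θ * y) θ y := by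
      simpa using (hasDerivAt_id y).const_mul θ
    have a2 := (hasDerivAt_tanh (θ * y)).comp y a1
    have a3 := a2.sub ((hasDerivAt_tanh y).const_mul θ)
    refine a3.congr_deriv ?_
    ring
  have hmono : MonotoneOn (fun y => Real.tanh (θ * y) - θ * Real.tanh y) (Ici 0) := by
    apply monotoneOn_of_deriv_nonneg (convex_Ici 0)
    · exact fun y _ => (hd y).continuousAt.continuousWithinAt
    · exact fun y _ => (hd y).differentiableAt.differentiableWithinAt
    · intro y hy
      rw [interior_Ici] at hy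
      have hy : 0 < y := hy
      rw [(hd y).deriv]
      apply mul_nonneg h0
      have h2 : sech y ≤ sech (θ * y) := by
        unfold sech
        apply inv_anti₀ (Real.cosh_pos _)
        rw [Real.cosh_le_cosh, abs_of_nonneg hy.le, abs_of_nonneg (by positivity)]
        nlinarith
      have h3 := sech_nonneg y
      nlinarith
  have := hmono (mem_Ici.2 le_rfl) (mem_Ici.2 hx) hx
  simp only [mul_zero, Real.tanh_zero, sub_zero] at this
  linarith

theorem theta_rw {h v : ℝ} (hv : 0 < v) (z : ℝ) :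
    h / Real.sqrt v * z = (h / v) * (Real.sqrt v * z) := by
  have hs := Real.sqrt_pos.2 hv
  rw [div_mul_eq_mul_div, div_mul_eq_mul_div, div_eq_div_iff hs.ne' hv.ne']
  calc h * z * v = h * z * (Real.sqrt v * Real.sqrt v) := by rw [Real.mul_self_sqrt hv.le]
    _ = _ := by ring

theorem lemmaB {h v : ℝ} (hh : 0 ≤ h) (hv : 0 < v) {θ : ℝ} (h0 : 0 ≤ θ) (h1 : θ ≤ 1)
    (hθ : θ ≤ h / v) :
    θ * P v (fun x => Real.tanh x ^ 2) h ≤ P v Real.tanh h := by
  rw [P_odd measurable_tanh abs_tanh_le_one Real.tanh_neg h hv,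
    P_even (measurable_tanh.pow_const 2) abs_tanh_sq_le (fun x => by rw [Real.tanh_neg]; ring) h hv]
  have key : θ * ∫ z, Real.tanh (Real.sqrt v * z) ^ 2 * Real.cosh (h / Real.sqrt v * z) ∂gam
      ≤ ∫ z, Real.tanh (Real.sqrt v * z) * Real.sinh (h / Real.sqrt v * z) ∂gam := by
    rw [← integral_const_mul]
    have icosh : ∀ {ψ : ℝ → ℝ}, Measurable ψ → (∀ x, |ψ x| ≤ 1) → ∀ s : ℝ,
        Integrable (fun z => ψ z * Real.cosh (s * z)) gam := by
      intro ψ hψ hC s
      have := ((integrable_bdd_mul_exp hψ hC s).add (integrable_bdd_mul_exp hψ hC (-s))).const_mul (1/2)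
      refine this.congr (Eventually.of_forall fun z => ?_)
      simp only [Pi.add_apply]
      rw [Real.cosh_eq]; ring_nf
    have isinh : ∀ {ψ : ℝ → ℝ}, Measurable ψ → (∀ x, |ψ x| ≤ 1) → ∀ s : ℝ,
        Integrable (fun z => ψ z * Real.sinh (s * z)) gam := by
      intro ψ hψ hC s
      have := ((integrable_bdd_mul_exp hψ hC s).sub (integrable_bdd_mul_exp hψ hC (-s))).const_mul (1/2)
      refine this.congr (Eventually.of_forall fun z => ?_)
      simp only [Pi.sub_apply]
      rw [Real.sinh_eq]; ring_nf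
    apply integral_mono
    · exact (icosh ((measurable_tanh.comp (by fun_prop)).pow_const 2) (fun x => abs_tanh_sq_le _) _).const_mul θ
    · exact isinh (measurable_tanh.comp (by fun_prop)) (fun x => abs_tanh_le_one _) _
    · intro z
      simp only
      rw [theta_rw hv z]
      set x := Real.sqrt v * z
      -- tanh x sinh (θ0 x) ≥ θ tanh² x cosh (θ0 x)
      have hpos : ∀ x, 0 ≤ x → θ * (Real.tanh x ^ 2 * Real.cosh (h / v * x))
          ≤ Real.tanh x * Real.sinh (h / v * x) := by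
        intro x hx
        have a1 := tanh_concave h0 h1 hx
        have a2 : Real.tanh (θ * x) ≤ Real.tanh (h / v * x) :=
          tanh_mono (mul_le_mul_of_nonneg_right hθ hx)
        have a3 : Real.sinh (h / v * x) = Real.tanh (h / v * x) * Real.cosh (h / v * x) := by
          rw [Real.tanh_eq_sinh_div_cosh, div_mul_cancel₀ _ (Real.cosh_pos _).ne']
        rw [a3]
        have a4 := tanh_nonneg' hx
        have a5 := Real.cosh_pos (h / v * x)
        have a6 : θ * Real.tanh x ≤ Real.tanh (h / v * x) := a1.trans a2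
        calc θ * (Real.tanh x ^ 2 * Real.cosh (h / v * x))
            = (θ * Real.tanh x) * (Real.tanh x * Real.cosh (h / v * x)) := by ring
          _ ≤ Real.tanh (h / v * x) * (Real.tanh x * Real.cosh (h / v * x)) :=
              mul_le_mul_of_nonneg_right a6 (by positivity)
          _ = _ := by ring
      rcases le_total 0 x with hx | hx
      · exact hpos x hx
      · have := hpos (-x) (by linarith)
        rw [Real.tanh_neg, mul_neg, Real.cosh_neg, Real.sinh_neg] at this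
        linarith [this]
  calc θ * (Real.exp (-(h / v) ^ 2 * v / 2) *
        ∫ z, Real.tanh (Real.sqrt v * z) ^ 2 * Real.cosh (h / Real.sqrt v * z) ∂gam)
      = Real.exp (-(h / v) ^ 2 * v / 2) *
        (θ * ∫ z, Real.tanh (Real.sqrt v * z) ^ 2 * Real.cosh (h / Real.sqrt v * z) ∂gam) := by ring
    _ ≤ _ := mul_le_mul_of_nonneg_left key (Real.exp_nonneg _)

/-- `v s₂² ≤ u - T₁²` -/
theorem cs_static (h : ℝ) {v : ℝ} (hv : 0 ≤ v) :
    v * P v (S 2) h ^ 2 ≤ P v (fun x => Real.tanh x ^ 2) h - P v Real.tanh h ^ 2 := by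
  set T := P v Real.tanh h
  have hm : Measurable (fun z => Real.tanh (h + Real.sqrt v * z)) :=
    measurable_tanh.comp (by fun_prop)
  have i1 : Integrable (fun z => Real.tanh (h + Real.sqrt v * z)) gam :=
    integrable_bdd hm fun x => abs_tanh_le_one _
  have i2 : Integrable (fun z => Real.tanh (h + Real.sqrt v * z) ^ 2) gam :=
    integrable_bdd (hm.pow_const 2) fun x => abs_tanh_sq_le _
  have hTb : |T| ≤ 1 := P_abs_le abs_tanh_le_one v h
  have i3 : Integrable (fun z => (Real.tanh (h + Real.sqrt v * z) - T) ^ 2) gam := by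
    apply integrable_bdd (C := 4) ((hm.sub_const T).pow_const 2)
    intro z
    rw [abs_of_nonneg (sq_nonneg _)]
    have a1 := abs_le.1 (abs_tanh_le_one (h + Real.sqrt v * z))
    have a2 := abs_le.1 hTb
    nlinarith
  have i4 : Integrable (fun z => z * (Real.tanh (h + Real.sqrt v * z) - T)) gam := by
    apply integrable_mul_bdd (C := 2) (hm.sub_const T)
    intro z
    have a1 := abs_le.1 (abs_tanh_le_one (h + Real.sqrt v * z))
    have a2 := abs_le.1 hTb
    rw [abs_le]; constructor <;> linarith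
  have key := cs_integral integrable_sq_gam i3 i4
  rw [integral_sq_gam, one_mul] at key
  have i5 : Integrable (fun z => z * Real.tanh (h + Real.sqrt v * z)) gam :=
    integrable_mul_bdd hm fun x => abs_tanh_le_one _
  have e1 : ∫ z, z * (Real.tanh (h + Real.sqrt v * z) - T) ∂gam
      = Real.sqrt v * P v (S 2) h := by
    have : ∀ z, z * (Real.tanh (h + Real.sqrt v * z) - T)
        = z * Real.tanh (h + Real.sqrt v * z) - T * z := by intro z; ring
    simp only [this]
    rw [integral_sub i5 (integrable_id_gam.const_mul T), integral_const_mul, integral_id_gam,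
      mul_zero, sub_zero]
    have h2 := stein2 hasDerivAt_tanh abs_tanh_le_one (abs_S_le 2) h (Real.sqrt v)
    rw [h2]; rfl
  have e2 : ∫ z, (Real.tanh (h + Real.sqrt v * z) - T) ^ 2 ∂gam
      = P v (fun x => Real.tanh x ^ 2) h - T ^ 2 := by
    have : ∀ z, (Real.tanh (h + Real.sqrt v * z) - T) ^ 2
        = (Real.tanh (h + Real.sqrt v * z) ^ 2 - (2 * T) * Real.tanh (h + Real.sqrt v * z)) + T ^ 2 := by
      intro z; ring
    simp only [this]
    have i6 : Integrable (fun z => Real.tanh (h + Real.sqrt v * z) ^ 2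
        - (2 * T) * Real.tanh (h + Real.sqrt v * z)) gam := i2.sub (i1.const_mul _)
    rw [integral_add i6 (integrable_const _), integral_sub i2 (i1.const_mul _),
      integral_const_mul]
    have : ∫ z, Real.tanh (h + Real.sqrt v * z) ∂gam = T := rfl
    rw [this]
    simp only [integral_const, probReal_univ, smul_eq_mul, one_mul]
    unfold P
    ring
  rw [e1, e2, mul_pow, Real.sq_sqrt hv] at key
  exact key

end Pool.Agent.N942.AT
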