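import Pool.Agent.N942.ATc

set_option autoImplicit false
open MeasureTheory ProbabilityTheory Set Filter Topology

namespace Pool.Agent.N942.AT

theorem whole_line_le {f f' : ℝ → ℝ} (hd : ∀ x, HasDerivAt f (f' x) x) (hc : Continuous f')
    (hnn : ∀ x, 0 ≤ f' x) {I : ℝ} (hI : ∀ a b, f b - f a ≤ I) :
    Integrable f' volume ∧ ∫ x, f' x ≤ I := by
  have hint : ∀ a b : ℝ, ∫ x in a..b, f' x = f b - f a := fun a b =>
    intervalIntegral.integral_eq_sub_of_hasDerivAt (fun x _ => hd x) (hc.intervalIntegrable a b)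
  have hA : Tendsto (fun n : ℕ => -(n:ℝ)) atTop atBot :=
    tendsto_neg_atTop_atBot.comp tendsto_natCast_atTop_atTop
  have hB : Tendsto (fun n : ℕ => (n:ℝ)) atTop atTop := tendsto_natCast_atTop_atTop
  have h1 : Integrable f' volume := by
    apply integrable_of_intervalIntegral_norm_bounded (l := (atTop : Filter ℕ)) I
      (a := fun n => -(n:ℝ)) (b := fun n => (n:ℝ)) _ hA hB
    · refine Eventually.of_forall fun n => ?_
      have : ∀ x, ‖f' x‖ = f' x := fun x => by rw [Real.norm_eq_abs, abs_of_nonneg (hnn x)]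
      simp only [this]
      rw [hint]; exact hI _ _
    · intro n
      have := hc.intervalIntegrable (μ := volume) (-(n:ℝ)) n
      exact this.1
  refine ⟨h1, ?_⟩
  have h2 := intervalIntegral_tendsto_integral h1 hA hB
  refine le_of_tendsto h2 (Eventually.of_forall fun n => ?_)
  rw [hint]; exact hI _ _

theorem integral_S2_le : Integrable (S 2) volume ∧ ∫ x, S 2 x ≤ 2 := by
  apply whole_line_le (f := Real.tanh) (fun x => hasDerivAt_tanh x) (continuous_S 2) (S_nonneg 2)
  intro a b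
  have h1 := abs_le.1 (abs_tanh_le_one a)
  have h2 := abs_le.1 (abs_tanh_le_one b)
  linarith

theorem integral_sech_le : Integrable sech volume ∧ ∫ x, sech x ≤ Real.pi := by
  apply whole_line_le (f := fun x => Real.arctan (Real.sinh x)) _ continuous_sech sech_nonneg
  · intro a b
    have h1 := Real.neg_pi_div_two_lt_arctan (Real.sinh a)
    have h2 := Real.arctan_lt_pi_div_two (Real.sinh b)
    linarith
  · intro x
    have h := (Real.hasDerivAt_sinh x).arctan
    refine h.congr_deriv ?_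
    have h2 : 1 + Real.sinh x ^ 2 = Real.cosh x ^ 2 := by rw [Real.cosh_sq]; ring
    rw [h2, sech]
    have := (Real.cosh_pos x).ne'
    field_simp

theorem sinh_theta {θ : ℝ} (h0 : 0 ≤ θ) (h1 : θ ≤ 1) {x : ℝ} (hx : 0 ≤ x) :
    Real.sinh (θ * x) ≤ θ * Real.sinh x := by
  have hd : ∀ y, HasDerivAt (fun y => θ * Real.sinh y - Real.sinh (θ * y))
      (θ * (Real.cosh y - Real.cosh (θ * y))) y := by
    intro y
    have a1 : HasDerivAt (fun y : ℝ => θ * y) θ y := by
      simpa using (hasDerivAt_id y).const_mul θ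
    have a2 := (Real.hasDerivAt_sinh (θ * y)).comp y a1
    have a3 := ((Real.hasDerivAt_sinh y).const_mul θ).sub a2
    refine a3.congr_deriv ?_
    ring
  have hmono : MonotoneOn (fun y => θ * Real.sinh y - Real.sinh (θ * y)) (Ici 0) := by
    apply monotoneOn_of_deriv_nonneg (convex_Ici 0)
    · exact fun y _ => (hd y).continuousAt.continuousWithinAt
    · exact fun y _ => (hd y).differentiableAt.differentiableWithinAt
    · intro y hy
      rw [interior_Ici] at hy
      have hy : 0 < y := hy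
      rw [(hd y).deriv]
      apply mul_nonneg h0
      have h2 : Real.cosh (θ * y) ≤ Real.cosh y := by
        rw [Real.cosh_le_cosh, abs_of_nonneg hy.le, abs_of_nonneg (by positivity)]
        nlinarith
      linarith
  have := hmono (mem_Ici.2 le_rfl) (mem_Ici.2 hx) hx
  simp only [mul_zero, Real.sinh_zero, sub_zero] at this
  linarith

theorem cosh_theta {θ : ℝ} (h0 : 0 ≤ θ) (h1 : θ ≤ 1) (x : ℝ) :
    Real.cosh (θ * x) ≤ 1 + θ ^ 2 * (Real.cosh x - 1) := by
  have key : ∀ x, 0 ≤ x → Real.cosh (θ * x) ≤ 1 + θ ^ 2 * (Real.cosh x - 1) := by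
    intro x hx
    have h2 := sinh_theta h0 h1 (show 0 ≤ x / 2 by linarith)
    have e1 : Real.cosh (θ * x) = 1 + 2 * Real.sinh (θ * (x / 2)) ^ 2 := by
      have : θ * x = 2 * (θ * (x / 2)) := by ring
      rw [this, Real.cosh_two_mul, Real.cosh_sq]; ring
    have e2 : Real.cosh x = 1 + 2 * Real.sinh (x / 2) ^ 2 := by
      have : x = 2 * (x / 2) := by ring
      conv_lhs => rw [this]
      rw [Real.cosh_two_mul, Real.cosh_sq]; ring
    rw [e1, e2]
    have h3 : 0 ≤ Real.sinh (θ * (x / 2)) := Real.sinh_nonneg_iff.2 (by positivity)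
    have h4 : Real.sinh (θ * (x / 2)) ^ 2 ≤ (θ * Real.sinh (x / 2)) ^ 2 :=
      pow_le_pow_left₀ h3 h2 2
    have e3 : (θ * Real.sinh (x / 2)) ^ 2 = θ ^ 2 * Real.sinh (x / 2) ^ 2 := by ring
    rw [e3] at h4
    linarith
  rcases le_total 0 x with hx | hx
  · exact key x hx
  · have := key (-x) (by linarith)
    rw [mul_neg, Real.cosh_neg, Real.cosh_neg] at this
    exact this

theorem pdf_le (z : ℝ) : gaussianPDFReal 0 1 z ≤ (Real.sqrt (2 * Real.pi))⁻¹ := by
  unfold gaussianPDFReal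
  have h1 : Real.exp (-(z - 0) ^ 2 / (2 * ((1 : NNReal) : ℝ))) ≤ 1 := by
    rw [Real.exp_le_one_iff]
    have : 0 ≤ (z - 0) ^ 2 / (2 * ((1 : NNReal) : ℝ)) := by positivity
    have e : -(z - 0) ^ 2 / (2 * ((1 : NNReal) : ℝ)) = -((z - 0) ^ 2 / (2 * ((1 : NNReal) : ℝ))) := by ring
    rw [e]; linarith
  have h2 : 0 ≤ (Real.sqrt (2 * Real.pi * ((1 : NNReal) : ℝ)))⁻¹ := by positivity
  calc _ ≤ (Real.sqrt (2 * Real.pi * ((1 : NNReal) : ℝ)))⁻¹ * 1 := mul_le_mul_of_nonneg_left h1 h2
    _ = _ := by simp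

theorem gauss_le_lebesgue {k : ℝ → ℝ} (hk : Continuous k) (hnn : ∀ x, 0 ≤ k x)
    (hi : Integrable k volume) {v : ℝ} (hv : 0 < v) :
    ∫ z, k (Real.sqrt v * z) ∂gam ≤ (Real.sqrt (2 * Real.pi * v))⁻¹ * ∫ x, k x := by
  have hs := Real.sqrt_pos.2 hv
  rw [integral_gaussianReal_eq_integral_smul (by norm_num)]
  have hi2 : Integrable (fun z => k (Real.sqrt v * z)) volume := hi.comp_mul_left' hs.ne'
  have h1 : ∫ z, gaussianPDFReal 0 1 z • k (Real.sqrt v * z)
      ≤ ∫ z, (Real.sqrt (2 * Real.pi))⁻¹ * k (Real.sqrt v * z) := by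
    apply integral_mono_of_nonneg
    · exact Eventually.of_forall fun z => by
        simp only [smul_eq_mul, Pi.zero_apply]
        exact mul_nonneg (gaussianPDFReal_nonneg _ _ _) (hnn _)
    · exact hi2.const_mul _
    · exact Eventually.of_forall fun z => by
        simp only [smul_eq_mul]
        exact mul_le_mul_of_nonneg_right (pdf_le z) (hnn _)
  refine h1.trans ?_
  rw [integral_const_mul, Measure.integral_comp_mul_left k (Real.sqrt v), smul_eq_mul,
    abs_of_pos (inv_pos.2 hs), ← mul_assoc, ← mul_inv,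
    ← Real.sqrt_mul (by positivity : (0:ℝ) ≤ 2 * Real.pi)]

/-- crude upper bound for `E[sech² X]` -/
theorem crude {h v : ℝ} (hh : 0 ≤ h) (hv : 0 < v) (hθ : h / v ≤ 1) :
    P v (S 2) h ≤ Real.exp (-(h / v) ^ 2 * v / 2) *
      ((Real.sqrt (2 * Real.pi * v))⁻¹ * (2 + (Real.pi - 2) * (h / v) ^ 2)) := by
  rw [P_even (measurable_S 2) (abs_S_le 2) (S_neg 2) h hv]
  apply mul_le_mul_of_nonneg_left _ (Real.exp_nonneg _)
  set θ := h / v with hθd
  have h0 : 0 ≤ θ := by positivity
  have hs := Real.sqrt_pos.2 hv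
  have hcs : Continuous (fun z : ℝ => Real.sqrt v * z) := by fun_prop
  have i1 : Integrable (fun z => S 2 (Real.sqrt v * z)) gam :=
    integrable_bdd ((continuous_S 2).comp hcs).measurable (fun x => abs_S_le 2 _)
  have i2 : Integrable (fun z => sech (Real.sqrt v * z)) gam :=
    integrable_bdd (C := 1) (continuous_sech.comp hcs).measurable (fun x => by
      rw [abs_of_nonneg (sech_nonneg _)]; exact sech_le_one _)
  have h1 : ∫ z, S 2 (Real.sqrt v * z) * Real.cosh (h / Real.sqrt v * z) ∂gam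
      ≤ ∫ z, ((1 - θ ^ 2) * S 2 (Real.sqrt v * z) + θ ^ 2 * sech (Real.sqrt v * z)) ∂gam := by
    apply integral_mono_of_nonneg
    · exact Eventually.of_forall fun z => mul_nonneg (S_nonneg _ _) (Real.cosh_pos _).le
    · exact (i1.const_mul _).add (i2.const_mul _)
    · refine Eventually.of_forall fun z => ?_
      simp only
      rw [theta_rw hv z]
      set x := Real.sqrt v * z
      have a1 := cosh_theta h0 hθ x
      have a2 : S 2 x * Real.cosh x = sech x := by
        unfold S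
        rw [pow_two, mul_assoc, sech_mul_cosh, mul_one]
      calc S 2 x * Real.cosh (θ * x) ≤ S 2 x * (1 + θ ^ 2 * (Real.cosh x - 1)) :=
            mul_le_mul_of_nonneg_left a1 (S_nonneg 2 x)
        _ = (1 - θ ^ 2) * S 2 x + θ ^ 2 * (S 2 x * Real.cosh x) := by ring
        _ = _ := by rw [a2]
  refine h1.trans ?_
  rw [integral_add (i1.const_mul _) (i2.const_mul _), integral_const_mul, integral_const_mul]
  have h2 := gauss_le_lebesgue (continuous_S 2) (S_nonneg 2) integral_S2_le.1 hv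
  have h3 := gauss_le_lebesgue continuous_sech sech_nonneg integral_sech_le.1 hv
  have hc : 0 ≤ (Real.sqrt (2 * Real.pi * v))⁻¹ := by positivity
  have h4 := h2.trans (mul_le_mul_of_nonneg_left integral_S2_le.2 hc)
  have h5 := h3.trans (mul_le_mul_of_nonneg_left integral_sech_le.2 hc)
  have ht : 0 ≤ 1 - θ ^ 2 := by nlinarith
  calc (1 - θ ^ 2) * ∫ z, S 2 (Real.sqrt v * z) ∂gam + θ ^ 2 * ∫ z, sech (Real.sqrt v * z) ∂gam
      ≤ (1 - θ ^ 2) * ((Real.sqrt (2 * Real.pi * v))⁻¹ * 2)
        + θ ^ 2 * ((Real.sqrt (2 * Real.pi * v))⁻¹ * Real.pi) :=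
        add_le_add (mul_le_mul_of_nonneg_left h4 ht) (mul_le_mul_of_nonneg_left h5 (sq_nonneg θ))
    _ = _ := by ring

end Pool.Agent.N942.AT
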