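import Mathlib

/-!
# Definitions for the de Almeida-Thouless line of the SK model with external field

Everything the final statement uses is declared in this file.
-/

set_option autoImplicit false
open MeasureTheory ProbabilityTheory Set Filter Topology

namespace Pool.Agent.N942.AT

/-- `f` is a (classical, one-sided in time) solution of the Parisi PDE
`∂_t f = -β² (∂_x² f + ζ(t) (∂_x f)²)` on `[0,1] × ℝ` with terminal value `f(1,x) = log cosh x`:
each `f(t,·)` is twice continuously differentiable with first two derivatives bounded uniformly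
in `t ∈ [0,1]`, `f(·,x)` is continuous on `[0,1]`, and the equation holds at every `t ∈ [0,1)`
with the right derivative in time. -/
structure IsParisiSol (β : ℝ) (ζ : ℝ → ℝ) (f : ℝ → ℝ → ℝ) : Prop where
  terminal : ∀ x, f 1 x = Real.log (Real.cosh x)
  smooth : ∀ t ∈ Icc (0 : ℝ) 1, ContDiff ℝ 2 (f t)
  bdd : ∃ C, ∀ t ∈ Icc (0 : ℝ) 1, ∀ x, |deriv (f t) x| ≤ C ∧ |deriv (deriv (f t)) x| ≤ C
  cont : ∀ x, ContinuousOn (fun t => f t x) (Icc 0 1)
  pde : ∀ t ∈ Ico (0 : ℝ) 1, ∀ x, HasDerivWithinAt (fun s => f s x)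
    (-β ^ 2 * (deriv (deriv (f t)) x + ζ t * (deriv (f t) x) ^ 2)) (Ici t) t

/-- the Parisi functional `log 2 + f(0,h) - β² ∫₀¹ ζ(t) t dt` evaluated on a solution `f` -/
noncomputable def val (β h : ℝ) (ζ : ℝ → ℝ) (f : ℝ → ℝ → ℝ) : ℝ :=
  Real.log 2 + f 0 h - β ^ 2 * ∫ t in (0:ℝ)..1, ζ t * t

/-- `μ` is a Parisi measure at `(β, h)`: a probability measure on `[0,1]` that minimises the
Parisi functional over all probability measures `ν` on `[0,1]` and all solutions of the Parisi PDE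
driven by the distribution function of `ν`. -/
def IsParisiMeasure (β h : ℝ) (μ : Measure ℝ) : Prop :=
  IsProbabilityMeasure μ ∧ μ (Icc 0 1)ᶜ = 0 ∧
    ∃ f, IsParisiSol β (cdf μ) f ∧
      ∀ ν : Measure ℝ, IsProbabilityMeasure ν → ν (Icc 0 1)ᶜ = 0 →
        ∀ g, IsParisiSol β (cdf ν) g → val β h (cdf μ) f ≤ val β h (cdf ν) g

/-- the solutions `q ∈ [0,1]` of `q = E tanh²(β z √(2q) + h)`, `z` standard Gaussian -/
def fixedSet (β h : ℝ) : Set ℝ :=
  {q | q ∈ Icc (0:ℝ) 1 ∧ q = ∫ z, Real.tanh (β * z * Real.sqrt (2 * q) + h) ^ 2 ∂(gaussianReal 0 1)}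

/-- the de Almeida-Thouless condition at `q`: `β² E cosh⁻⁴(β z √(2q) + h) ≤ 1/2` -/
def ATcond (β h q : ℝ) : Prop :=
  β ^ 2 * ∫ z, (Real.cosh (β * z * Real.sqrt (2 * q) + h) ^ 4)⁻¹ ∂(gaussianReal 0 1) ≤ 1 / 2

end Pool.Agent.N942.AT
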