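import Pool.Agent.N942.ATd

set_option autoImplicit false
open MeasureTheory ProbabilityTheory Set Filter Topology

namespace Pool.Agent.N942.AT

theorem u_eq (v h : ℝ) : P v (fun x => Real.tanh x ^ 2) h = 1 - P v (S 2) h := by
  have e : (fun x => Real.tanh x ^ 2) = fun x => 1 - S 2 x := by
    ext x; rw [tanh_sq]; rfl
  rw [e, P_sub (LG.const 1) (LG_S 2), P_const]

/-- numeric contradiction lemma -/
theorem num_contra {b0 t0 v0 E0 c0 b t v : ℝ} (hb0 : 1 < b0) (ht0 : 0 < t0)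
    (hv0 : 0 < v0) (hv0' : v0 * (1 - t0) = b0 * (b0 - 1))
    (hc0 : c0 = 2 + (Real.pi - 2) * t0) (hE0 : E0 = 1 + t0 * v0 + (t0 * v0) ^ 2 / 2)
    (hcv : 2 * (Real.pi - 2) ≤ c0 * v0)
    (n1 : c0 ^ 2 * (v0 + b0) ^ 2 < 2 * Real.pi * b0 ^ 2 * E0 * v0)
    (n2 : 2 * c0 ^ 2 * (v0 + b0) ≤ 2 * Real.pi * b0 ^ 2 * E0 * (1 + t0 * v0))
    (n3 : c0 ^ 2 ≤ 2 * Real.pi * b0 ^ 2 * E0 * t0)
    (hb : b0 ≤ b) (ht : t0 ≤ t) (ht1 : t < 1) (hv : 0 < v)
    (h1 : b * (b - 1) ≤ v * (1 - t))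
    (h2 : b ^ 2 * (2 * Real.pi * v) * Real.exp (t * v) ≤ (2 + (Real.pi - 2) * t) ^ 2 * (v + b) ^ 2) :
    False := by
  have hpi := Real.pi_gt_three
  have hb1 : 1 < b := lt_of_lt_of_le hb0 hb
  have hc0p : 0 < c0 := by
    rw [hc0]
    have : 0 ≤ (Real.pi - 2) * t0 := mul_nonneg (by linarith) (by linarith)
    linarith
  -- v ≥ v0
  have hvv0 : v0 ≤ v := by
    have a1 : b0 * (b0 - 1) ≤ b * (b - 1) :=
      mul_le_mul hb (by linarith) (by linarith) (by linarith)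
    have a2 : v * (1 - t) ≤ v * (1 - t0) := mul_le_mul_of_nonneg_left (by linarith) hv.le
    have a3 : v0 * (1 - t0) ≤ v * (1 - t0) := by linarith
    exact le_of_mul_le_mul_right a3 (by linarith)
  -- c(t)^2 ≤ c0^2 exp((t-t0) v)
  have hct : (2 + (Real.pi - 2) * t) ^ 2 ≤ c0 ^ 2 * Real.exp ((t - t0) * v) := by
    have a1 : 1 + (t - t0) * v / 2 ≤ Real.exp ((t - t0) * v / 2) := by
      have := Real.add_one_le_exp ((t - t0) * v / 2); linarith
    have a2 : 2 + (Real.pi - 2) * t ≤ c0 * (1 + (t - t0) * v / 2) := by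
      have a3 : 2 + (Real.pi - 2) * t = c0 + (Real.pi - 2) * (t - t0) := by rw [hc0]; ring
      have a4 : c0 * v0 ≤ c0 * v := mul_le_mul_of_nonneg_left hvv0 hc0p.le
      have a5 : (t - t0) * (2 * (Real.pi - 2)) ≤ (t - t0) * (c0 * v) :=
        mul_le_mul_of_nonneg_left (hcv.trans a4) (by linarith)
      rw [a3]; linarith
    have a6 : 0 ≤ 2 + (Real.pi - 2) * t := by
      have : 0 ≤ (Real.pi - 2) * t := mul_nonneg (by linarith) (by linarith)
      linarith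
    have a7 : 2 + (Real.pi - 2) * t ≤ c0 * Real.exp ((t - t0) * v / 2) :=
      a2.trans (mul_le_mul_of_nonneg_left a1 hc0p.le)
    calc (2 + (Real.pi - 2) * t) ^ 2 ≤ (c0 * Real.exp ((t - t0) * v / 2)) ^ 2 :=
          pow_le_pow_left₀ a6 a7 2
      _ = c0 ^ 2 * Real.exp ((t - t0) * v) := by
          rw [mul_pow, ← Real.exp_nat_mul]; congr 2; push_cast; ring
  -- b0 version
  have hb0' : b0 * (v + b) ≤ b * (v + b0) := by
    have := mul_le_mul_of_nonneg_right hb hv.le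
    linarith
  have h3 : b0 ^ 2 * (2 * Real.pi * v) * Real.exp (t * v)
      ≤ (2 + (Real.pi - 2) * t) ^ 2 * (v + b0) ^ 2 := by
    have hvb : 0 < v + b := by linarith
    have hvb0 : 0 < v + b0 := by linarith
    have a1 : (b0 * (v + b)) ^ 2 ≤ (b * (v + b0)) ^ 2 :=
      pow_le_pow_left₀ (by positivity) hb0' 2
    have hK : 0 ≤ (2 * Real.pi * v) * Real.exp (t * v) := by positivity
    have a2 : (b0 ^ 2 * (2 * Real.pi * v) * Real.exp (t * v)) * (v + b) ^ 2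
        ≤ ((2 + (Real.pi - 2) * t) ^ 2 * (v + b0) ^ 2) * (v + b) ^ 2 := by
      calc (b0 ^ 2 * (2 * Real.pi * v) * Real.exp (t * v)) * (v + b) ^ 2
          = (b0 * (v + b)) ^ 2 * ((2 * Real.pi * v) * Real.exp (t * v)) := by ring
        _ ≤ (b * (v + b0)) ^ 2 * ((2 * Real.pi * v) * Real.exp (t * v)) :=
            mul_le_mul_of_nonneg_right a1 hK
        _ = (b ^ 2 * (2 * Real.pi * v) * Real.exp (t * v)) * (v + b0) ^ 2 := by ring
        _ ≤ ((2 + (Real.pi - 2) * t) ^ 2 * (v + b) ^ 2) * (v + b0) ^ 2 :=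
            mul_le_mul_of_nonneg_right h2 (by positivity)
        _ = _ := by ring
    exact le_of_mul_le_mul_right a2 (by positivity)
  have h4 : b0 ^ 2 * (2 * Real.pi * v) * Real.exp (t0 * v) ≤ c0 ^ 2 * (v + b0) ^ 2 := by
    have a1 : Real.exp (t * v) = Real.exp (t0 * v) * Real.exp ((t - t0) * v) := by
      rw [← Real.exp_add]; congr 1; ring
    rw [a1] at h3
    have a2 : (b0 ^ 2 * (2 * Real.pi * v) * Real.exp (t0 * v)) * Real.exp ((t - t0) * v)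
        ≤ (c0 ^ 2 * (v + b0) ^ 2) * Real.exp ((t - t0) * v) := by
      calc _ = b0 ^ 2 * (2 * Real.pi * v) * (Real.exp (t0 * v) * Real.exp ((t - t0) * v)) := by ring
        _ ≤ (2 + (Real.pi - 2) * t) ^ 2 * (v + b0) ^ 2 := h3
        _ ≤ (c0 ^ 2 * Real.exp ((t - t0) * v)) * (v + b0) ^ 2 :=
            mul_le_mul_of_nonneg_right hct (by positivity)
        _ = _ := by ring
    exact le_of_mul_le_mul_right a2 (Real.exp_pos _)
  obtain ⟨w, hw⟩ : ∃ w, v = v0 + w := ⟨v - v0, by ring⟩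
  have hw0 : 0 ≤ w := by linarith
  have hE : E0 * (1 + t0 * w) ≤ Real.exp (t0 * v) := by
    have a1 : E0 ≤ Real.exp (t0 * v0) := by
      rw [hE0]; exact Real.quadratic_le_exp_of_nonneg (by positivity)
    have a2 : 1 + t0 * w ≤ Real.exp (t0 * w) := by
      have := Real.add_one_le_exp (t0 * w); linarith
    have a3 : Real.exp (t0 * v) = Real.exp (t0 * v0) * Real.exp (t0 * w) := by
      rw [← Real.exp_add]; congr 1; rw [hw]; ring
    rw [a3]
    exact mul_le_mul a1 a2 (by positivity) (Real.exp_nonneg _)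
  have h5 : b0 ^ 2 * (2 * Real.pi * v) * (E0 * (1 + t0 * w)) ≤ c0 ^ 2 * (v + b0) ^ 2 :=
    (mul_le_mul_of_nonneg_left hE (by positivity)).trans h4
  rw [hw] at h5
  have n2' := mul_le_mul_of_nonneg_right n2 hw0
  have n3' := mul_le_mul_of_nonneg_right n3 (sq_nonneg w)
  have e1 : b0 ^ 2 * (2 * Real.pi * (v0 + w)) * (E0 * (1 + t0 * w))
      = 2 * Real.pi * b0 ^ 2 * E0 * v0 + 2 * Real.pi * b0 ^ 2 * E0 * (1 + t0 * v0) * w
        + 2 * Real.pi * b0 ^ 2 * E0 * t0 * w ^ 2 := by ring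
  have e2 : c0 ^ 2 * (v0 + w + b0) ^ 2 = c0 ^ 2 * (v0 + b0) ^ 2 + 2 * c0 ^ 2 * (v0 + b0) * w
      + c0 ^ 2 * w ^ 2 := by ring
  rw [e1, e2] at h5
  linarith

theorem contra1 {b t v : ℝ} (hb : 12 / 7 ≤ b) (ht : 1 / 2 ≤ t) (ht1 : t < 1) (hv : 0 < v)
    (h1 : b * (b - 1) ≤ v * (1 - t))
    (h2 : b ^ 2 * (2 * Real.pi * v) * Real.exp (t * v) ≤ (2 + (Real.pi - 2) * t) ^ 2 * (v + b) ^ 2) :
    False := by
  have p1 := Real.pi_gt_d4
  have p2 := Real.pi_lt_d4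
  have c1 : (2 + (Real.pi - 2) * (1 / 2)) ≤ 2.571 := by linarith
  have c2 : 0 ≤ (2 + (Real.pi - 2) * (1 / 2)) := by linarith
  have c3 : (2 + (Real.pi - 2) * (1 / 2)) ^ 2 ≤ 6.611 := by nlinarith
  refine num_contra (b0 := 12 / 7) (t0 := 1 / 2) (v0 := 120 / 49) (c0 := 2 + (Real.pi - 2) * (1 / 2))
    (E0 := 1 + (1 / 2) * (120 / 49) + ((1 / 2) * (120 / 49)) ^ 2 / 2) (by norm_num) (by norm_num)
    (by norm_num) (by norm_num) rfl rfl (by nlinarith) ?_ ?_ ?_ hb ht ht1 hv h1 h2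
  · nlinarith
  · nlinarith
  · nlinarith

theorem contra2 {b t v : ℝ} (hb : 3 / 2 ≤ b) (ht : 13 / 20 ≤ t) (ht1 : t < 1) (hv : 0 < v)
    (h1 : b * (b - 1) ≤ v * (1 - t))
    (h2 : b ^ 2 * (2 * Real.pi * v) * Real.exp (t * v) ≤ (2 + (Real.pi - 2) * t) ^ 2 * (v + b) ^ 2) :
    False := by
  have p1 := Real.pi_gt_d4
  have p2 := Real.pi_lt_d4
  have c1 : (2 + (Real.pi - 2) * (13 / 20)) ≤ 2.7421 := by linarith
  have c2 : 0 ≤ (2 + (Real.pi - 2) * (13 / 20)) := by linarith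
  have c3 : (2 + (Real.pi - 2) * (13 / 20)) ^ 2 ≤ 7.5192 := by nlinarith
  refine num_contra (b0 := 3 / 2) (t0 := 13 / 20) (v0 := 15 / 7)
    (c0 := 2 + (Real.pi - 2) * (13 / 20))
    (E0 := 1 + (13 / 20) * (15 / 7) + ((13 / 20) * (15 / 7)) ^ 2 / 2) (by norm_num) (by norm_num)
    (by norm_num) (by norm_num) rfl rfl (by nlinarith) ?_ ?_ ?_ hb ht ht1 hv h1 h2
  · nlinarith
  · nlinarith
  · nlinarith

section
variable {h v q κ : ℝ}

theorem E1 (hh : 0 ≤ h) (hv : 0 < v) (hκ : v = κ * q) (hq0 : 0 < q)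
    (hq : q = P v (fun x => Real.tanh x ^ 2) h) {θ : ℝ} (h0 : 0 ≤ θ) (h1 : θ ≤ 1) (hθ : θ ≤ h / v) :
    (κ * (1 - q)) * (κ * (1 - q) - 1) ≤ v * (1 - θ ^ 2) := by
  have hκ0 : 0 < κ := by
    by_contra hcon
    have : κ * q ≤ 0 := mul_nonpos_of_nonpos_of_nonneg (not_lt.1 hcon) hq0.le
    linarith
  have a1 := cs_static h hv.le
  have a2 := lemmaB hh hv h0 h1 hθ
  rw [← hq] at a1 a2
  have a3 : P v (S 2) h = 1 - q := by
    have := u_eq v h; rw [← hq] at this; linarith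
  rw [a3] at a1
  have a4 : (θ * q) ^ 2 ≤ P v Real.tanh h ^ 2 := pow_le_pow_left₀ (by positivity) a2 2
  have a5 : v * (1 - q) ^ 2 ≤ q - (θ * q) ^ 2 := by linarith
  have a6 : q * (κ * (1 - q) ^ 2) ≤ q * (1 - θ ^ 2 * q) := by
    rw [hκ] at a5
    calc q * (κ * (1 - q) ^ 2) = κ * q * (1 - q) ^ 2 := by ring
      _ ≤ q - (θ * q) ^ 2 := a5
      _ = _ := by ring
  have a7 : κ * (1 - q) ^ 2 ≤ 1 - θ ^ 2 * q := le_of_mul_le_mul_left a6 hq0
  have a8 : κ * (κ * (1 - q) ^ 2) ≤ κ * (1 - θ ^ 2 * q) := mul_le_mul_of_nonneg_left a7 hκ0.le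
  have e1 : κ * (κ * (1 - q) ^ 2) = (κ * (1 - q)) ^ 2 := by ring
  have e2 : κ * (1 - θ ^ 2 * q) = v + κ * (1 - q) - v * θ ^ 2 := by rw [hκ]; ring
  rw [e1, e2] at a8
  linarith

theorem E2 (hh : 0 ≤ h) (hv : 0 < v) (hκ : v = κ * q) (hq0 : 0 < q)
    (hq : q = P v (fun x => Real.tanh x ^ 2) h) (hθ : h / v ≤ 1) :
    (κ * (1 - q)) ^ 2 * (2 * Real.pi * v) * Real.exp ((h / v) ^ 2 * v)
      ≤ (2 + (Real.pi - 2) * (h / v) ^ 2) ^ 2 * (v + κ * (1 - q)) ^ 2 := by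
  have hκ0 : 0 < κ := by
    by_contra hcon
    have : κ * q ≤ 0 := mul_nonpos_of_nonpos_of_nonneg (not_lt.1 hcon) hq0.le
    linarith
  have a1 := crude hh hv hθ
  have a3 : P v (S 2) h = 1 - q := by
    have := u_eq v h; rw [← hq] at this; linarith
  have hq1 : 0 ≤ 1 - q := by rw [← a3]; exact P_nonneg (S_nonneg 2) v h
  rw [a3] at a1
  set t := (h / v) ^ 2
  set c := 2 + (Real.pi - 2) * t
  have e0 : v + κ * (1 - q) = κ := by rw [hκ]; ring
  rw [e0]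
  have a4 : (1 - q) ^ 2 ≤ (Real.exp (-t * v / 2) * ((Real.sqrt (2 * Real.pi * v))⁻¹ * c)) ^ 2 :=
    pow_le_pow_left₀ hq1 a1 2
  have hpv : 0 < 2 * Real.pi * v := by positivity
  have e1 : (Real.exp (-t * v / 2) * ((Real.sqrt (2 * Real.pi * v))⁻¹ * c)) ^ 2
      = Real.exp (-(t * v)) * ((2 * Real.pi * v)⁻¹ * c ^ 2) := by
    rw [mul_pow, mul_pow, inv_pow, Real.sq_sqrt hpv.le, ← Real.exp_nat_mul]
    congr 2
    push_cast; ring
  rw [e1] at a4
  have a5 := mul_le_mul_of_nonneg_left a4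
    (by positivity : 0 ≤ κ ^ 2 * (2 * Real.pi * v) * Real.exp (t * v))
  calc (κ * (1 - q)) ^ 2 * (2 * Real.pi * v) * Real.exp (t * v)
      = κ ^ 2 * (2 * Real.pi * v) * Real.exp (t * v) * (1 - q) ^ 2 := by ring
    _ ≤ κ ^ 2 * (2 * Real.pi * v) * Real.exp (t * v)
        * (Real.exp (-(t * v)) * ((2 * Real.pi * v)⁻¹ * c ^ 2)) := a5
    _ = κ ^ 2 * ((2 * Real.pi * v) * (2 * Real.pi * v)⁻¹)
        * (Real.exp (t * v) * Real.exp (-(t * v))) * c ^ 2 := by ring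
    _ = c ^ 2 * κ ^ 2 := by
        rw [mul_inv_cancel₀ hpv.ne', ← Real.exp_add, add_neg_cancel, Real.exp_zero]; ring

/-- the static package -/
theorem static_package (hh : 0 ≤ h) (hv : 0 < v) (hκ : v = κ * q) (hq0 : 0 < q)
    (hq : q = P v (fun x => Real.tanh x ^ 2) h) (hAT : κ * P v (S 4) h ≤ 1)
    (hb : 3 / 2 < κ * (1 - q)) :
    κ * (1 - q) ≤ 12 / 7 ∧ 307 / 400 * P v (S 4) h ≤ P v (S 6) h ∧
      13 * P v (S 8) h ≤ 12 * P v (S 6) h := by
  have hκ0 : 0 < κ := by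
    by_contra hcon
    have : κ * q ≤ 0 := mul_nonpos_of_nonpos_of_nonneg (not_lt.1 hcon) hq0.le
    linarith
  set b := κ * (1 - q) with hbd
  have hs2 : P v (S 2) h = 1 - q := by
    have := u_eq v h; rw [← hq] at this; linarith
  have hθ0 : 0 ≤ h / v := by positivity
  -- θ < 1
  have hθ1 : h / v < 1 := by
    by_contra hcon
    have := E1 hh hv hκ hq0 hq zero_le_one le_rfl (not_lt.1 hcon)
    rw [← hbd] at this
    have h3 : 0 < b * (b - 1) := mul_pos (by linarith) (by linarith)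
    linarith
  have e1 := E1 hh hv hκ hq0 hq hθ0 hθ1.le le_rfl
  have e2 := E2 hh hv hκ hq0 hq hθ1.le
  rw [← hbd] at e1 e2
  have ht1 : (h / v) ^ 2 < 1 := by nlinarith
  have ht : (h / v) ^ 2 < 13 / 20 := by
    by_contra hcon
    exact contra2 hb.le (not_lt.1 hcon) ht1 hv e1 e2
  have hs6 : 0 ≤ P v (S 6) h := P_nonneg (S_nonneg 6) v h
  have hs4 : 0 ≤ P v (S 4) h := P_nonneg (S_nonneg 4) v h
  have st2 := static_lower hh hv (j := 2) (by norm_num)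
  have st4 := static_lower hh hv (j := 4) (by norm_num)
  have st6 := static_upper hh hv (j := 6) (by norm_num)
  norm_num at st2 st4 st6
  refine ⟨?_, ?_, ?_⟩
  · by_contra hcon
    have hcon := not_le.1 hcon
    rcases le_total (1 / 2) ((h / v) ^ 2) with hc | hc
    · exact contra1 hcon.le hc ht1 hv e1 e2
    · -- 6 s4 ≥ (4 - t) s2 ≥ 7/2 s2
      rw [hs2] at st2
      have hq1 : 0 < 1 - q := by
        by_contra hcc
        have : κ * (1 - q) ≤ 0 := mul_nonpos_of_nonneg_of_nonpos hκ0.le (not_lt.1 hcc)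
        linarith
      have a1 : 7 / 2 * (1 - q) ≤ 6 * P v (S 4) h := by nlinarith
      have a2 : 7 / 2 * (κ * (1 - q)) ≤ 6 * (κ * P v (S 4) h) := by nlinarith
      rw [← hbd] at a2
      linarith
  · nlinarith
  · -- 1/v ≤ 4/3
    have hv34 : 3 / 4 ≤ v := by nlinarith
    have hv' : v⁻¹ ≤ 4 / 3 := by
      rw [inv_le_comm₀ hv (by norm_num)]; linarith
    have a1 : (36 + v⁻¹ + (h / v) ^ 2 / 4) * P v (S 6) h ≤ (38 : ℝ) * P v (S 6) h :=
      mul_le_mul_of_nonneg_right (by linarith) hs6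
    linarith

end

end Pool.Agent.N942.AT
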