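import Mathlib

set_option autoImplicit false
open Set Filter Topology

namespace Pool.Agent.N942.AT

theorem anti_of {f f' : ℝ → ℝ} (hc : ContinuousOn f (Ici 0))
    (hd : ∀ τ, 0 < τ → HasDerivAt f (f' τ) τ) (hneg : ∀ τ, 0 < τ → f' τ ≤ 0) :
    AntitoneOn f (Ici 0) := by
  apply antitoneOn_of_deriv_nonpos (convex_Ici 0) hc
  · intro x hx
    rw [interior_Ici] at hx
    exact (hd x hx).differentiableAt.differentiableWithinAt
  · intro x hx
    rw [interior_Ici] at hx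
    rw [(hd x hx).deriv]; exact hneg x hx

theorem mono_of {f f' : ℝ → ℝ} (hc : ContinuousOn f (Ici 0))
    (hd : ∀ τ, 0 < τ → HasDerivAt f (f' τ) τ) (hpos : ∀ τ, 0 < τ → 0 ≤ f' τ) :
    MonotoneOn f (Ici 0) := by
  apply monotoneOn_of_deriv_nonneg (convex_Ici 0) hc
  · intro x hx
    rw [interior_Ici] at hx
    exact (hd x hx).differentiableAt.differentiableWithinAt
  · intro x hx
    rw [interior_Ici] at hx
    rw [(hd x hx).deriv]; exact hpos x hx

theorem six_tangent (z s : ℝ) (hz : 0 ≤ z) (hs : 0 ≤ s) : 6 * s ^ 5 * z - 5 * s ^ 6 ≤ z ^ 6 := by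
  have e : z ^ 6 - (6 * s ^ 5 * z - 5 * s ^ 6)
      = (z - s) ^ 2 * (z ^ 4 + 2 * s * z ^ 3 + 3 * s ^ 2 * z ^ 2 + 4 * s ^ 3 * z + 5 * s ^ 4) := by ring
  have : 0 ≤ (z - s) ^ 2 * (z ^ 4 + 2 * s * z ^ 3 + 3 * s ^ 2 * z ^ 2 + 4 * s ^ 3 * z + 5 * s ^ 4) := by
    positivity
  linarith

/-- data of the moment system -/
structure Sys (A M N K L : ℝ → ℝ) : Prop where
  cA : ContinuousOn A (Ici 0)
  cM : ContinuousOn M (Ici 0)
  cN : ContinuousOn N (Ici 0)
  cK : ContinuousOn K (Ici 0)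
  dA : ∀ τ, 0 < τ → HasDerivAt A (-2 * M τ) τ
  dM : ∀ τ, 0 < τ → HasDerivAt M (8 * M τ - 12 * N τ) τ
  dN : ∀ τ, 0 < τ → HasDerivAt N (24 * N τ - 30 * K τ) τ
  dK : ∀ τ, 0 < τ → HasDerivAt K (48 * K τ - 56 * L τ) τ
  pA : ∀ τ, 0 < A τ
  pM : ∀ τ, 0 < M τ
  pN : ∀ τ, 0 < N τ
  pK : ∀ τ, 0 < K τ
  cs1 : ∀ τ, M τ ^ 2 ≤ A τ * N τ
  cs2 : ∀ τ, K τ ^ 2 ≤ N τ * L τ
  le : ∀ τ, N τ ≤ M τ

namespace Sys

variable {A M N K L : ℝ → ℝ}

theorem antiA (h : Sys A M N K L) : AntitoneOn A (Ici 0) :=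
  anti_of h.cA h.dA fun τ _ => by have := h.pM τ; linarith

/-- `(M - (4/5) A)/A^6` is antitone -/
theorem antiC (h : Sys A M N K L) :
    AntitoneOn (fun τ => (M τ - 4 / 5 * A τ) / A τ ^ 6) (Ici 0) := by
  apply anti_of (f' := fun τ => (((8 * M τ - 12 * N τ) - 4 / 5 * (-2 * M τ)) * A τ ^ 6
      - (M τ - 4 / 5 * A τ) * ((6 : ℕ) * A τ ^ (6 - 1) * (-2 * M τ))) / (A τ ^ 6) ^ 2)
  · apply ContinuousOn.div (h.cM.sub (continuousOn_const.mul h.cA)) (h.cA.pow 6)
    intro x _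
    exact (pow_pos (h.pA x) 6).ne'
  · intro τ hτ
    exact (((h.dM τ hτ).sub ((h.dA τ hτ).const_mul (4 / 5))).div ((h.dA τ hτ).pow 6)
      (pow_pos (h.pA τ) 6).ne')
  · intro τ _
    apply div_nonpos_of_nonpos_of_nonneg _ (by positivity)
    have hA := h.pA τ
    have hM := h.pM τ
    have hcs := h.cs1 τ
    have e : ((8 * M τ - 12 * N τ) - 4 / 5 * (-2 * M τ)) * A τ ^ 6
      - (M τ - 4 / 5 * A τ) * ((6 : ℕ) * A τ ^ (6 - 1) * (-2 * M τ))
      = 12 * A τ ^ 5 * (M τ ^ 2 - A τ * N τ) := by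
      push_cast
      ring
    rw [e]
    apply mul_nonpos_of_nonneg_of_nonpos (by positivity)
    linarith

/-- the a priori bound after time `τ₁` -/
theorem bound_after (h : Sys A M N K L) {τ₁ τ : ℝ} (h1 : 0 ≤ τ₁) (h2 : τ₁ ≤ τ) :
    ∃ z, 0 < z ∧ z ≤ 1 ∧ M τ ≤ 4 / 5 * A τ₁ * (z - z ^ 6) + M τ₁ * z ^ 6 := by
  have hA1 := h.pA τ₁
  have hAτ := h.pA τ
  refine ⟨A τ / A τ₁, by positivity, ?_, ?_⟩
  · rw [div_le_one hA1]
    exact h.antiA (mem_Ici.2 h1) (mem_Ici.2 (h1.trans h2)) h2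
  · have h3 := h.antiC (mem_Ici.2 h1) (mem_Ici.2 (h1.trans h2)) h2
    simp only at h3
    rw [div_le_iff₀ (by positivity)] at h3
    have e : (M τ₁ - 4 / 5 * A τ₁) / A τ₁ ^ 6 * A τ ^ 6
        = (M τ₁ - 4 / 5 * A τ₁) * (A τ / A τ₁) ^ 6 := by
      rw [div_pow]; ring
    rw [e] at h3
    have e2 : 4 / 5 * A τ = 4 / 5 * A τ₁ * (A τ / A τ₁) := by
      field_simp
    nlinarith

theorem z6_le {z : ℝ} (h0 : 0 < z) (h1 : z ≤ 1) : z ^ 6 ≤ z := by
  have : z ^ 5 ≤ 1 := pow_le_one₀ h0.le h1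
  calc z ^ 6 = z * z ^ 5 := by ring
    _ ≤ z * 1 := mul_le_mul_of_nonneg_left this h0.le
    _ = z := mul_one z

theorem case1 (h : Sys A M N K L) {W : ℝ} (hM0 : M 0 ≤ W) (hA0 : 2 / 3 * A 0 ≤ W) :
    ∀ τ, 0 ≤ τ → M τ ≤ W := by
  intro τ hτ
  obtain ⟨z, hz0, hz1, hz⟩ := h.bound_after le_rfl hτ
  have h6 := z6_le hz0 hz1
  have hW : 0 < W := lt_of_lt_of_le (h.pM 0) hM0
  have a1 : 4 / 5 * A 0 * (z - z ^ 6) ≤ 6 / 5 * W * (z - z ^ 6) :=
    mul_le_mul_of_nonneg_right (by linarith) (by linarith)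
  have a2 : M 0 * z ^ 6 ≤ W * z ^ 6 := mul_le_mul_of_nonneg_right hM0 (by positivity)
  have a3 := six_tangent z 1 hz0.le zero_le_one
  have a4 : W * (6 / 5 * z - 1 / 5 * z ^ 6) ≤ W * 1 :=
    mul_le_mul_of_nonneg_left (by linarith) hW.le
  linarith

/-- `13 K ≤ 12 N` is preserved -/
theorem KN (h : Sys A M N K L) (h0 : 13 * K 0 ≤ 12 * N 0) : ∀ τ, 0 ≤ τ → 13 * K τ ≤ 12 * N τ := by
  have hm : MonotoneOn (fun τ => Real.exp (24 * τ) * (N τ / K τ - 13 / 12)) (Ici 0) := by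
    apply mono_of (f' := fun τ => (Real.exp (24 * τ) * 24) * (N τ / K τ - 13 / 12)
      + Real.exp (24 * τ) * (((24 * N τ - 30 * K τ) * K τ - N τ * (48 * K τ - 56 * L τ)) / K τ ^ 2))
    · apply ContinuousOn.mul (by fun_prop)
      apply ContinuousOn.sub _ continuousOn_const
      exact h.cN.div h.cK fun x _ => (h.pK x).ne'
    · intro τ hτ
      have e1 : HasDerivAt (fun τ : ℝ => Real.exp (24 * τ)) (Real.exp (24 * τ) * 24) τ := by
        have := ((hasDerivAt_id τ).const_mul (24:ℝ)).exp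
        simpa using this
      exact e1.mul (((h.dN τ hτ).div (h.dK τ hτ) (h.pK τ).ne').sub_const (13 / 12))
    · intro τ _
      have hK := h.pK τ
      have hcs := h.cs2 τ
      have e : (Real.exp (24 * τ) * 24) * (N τ / K τ - 13 / 12)
        + Real.exp (24 * τ) * (((24 * N τ - 30 * K τ) * K τ - N τ * (48 * K τ - 56 * L τ)) / K τ ^ 2)
        = Real.exp (24 * τ) * (56 * (N τ * L τ - K τ ^ 2) / K τ ^ 2) := by
        field_simp
        ring
      rw [e]
      apply mul_nonneg (Real.exp_nonneg _)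
      apply div_nonneg _ (by positivity)
      linarith
  intro τ hτ
  have h1 := hm (mem_Ici.2 le_rfl) (mem_Ici.2 hτ) hτ
  simp only [mul_zero, Real.exp_zero, one_mul] at h1
  have h2 : 0 ≤ N 0 / K 0 - 13 / 12 := by
    have : 13 / 12 ≤ N 0 / K 0 := by
      rw [le_div_iff₀ (h.pK 0)]; linarith
    linarith
  have h3 : 0 ≤ N τ / K τ - 13 / 12 := by
    have := h2.trans h1
    exact nonneg_of_mul_nonneg_right this (Real.exp_pos _)
  have h4 : 13 / 12 ≤ N τ / K τ := by linarith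
  rw [le_div_iff₀ (h.pK τ)] at h4
  linarith

theorem N_lower (h : Sys A M N K L) (h0 : 13 * K 0 ≤ 12 * N 0) :
    ∀ τ, 0 ≤ τ → N 0 * Real.exp (-(48 / 13) * τ) ≤ N τ := by
  have hKN := h.KN h0
  have hm : MonotoneOn (fun τ => Real.exp (48 / 13 * τ) * N τ) (Ici 0) := by
    apply mono_of (f' := fun τ => (Real.exp (48 / 13 * τ) * (48 / 13)) * N τ
      + Real.exp (48 / 13 * τ) * (24 * N τ - 30 * K τ))
    · exact ContinuousOn.mul (by fun_prop) h.cN
    · intro τ hτ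
      have e1 : HasDerivAt (fun τ : ℝ => Real.exp (48 / 13 * τ)) (Real.exp (48 / 13 * τ) * (48 / 13)) τ := by
        have := ((hasDerivAt_id τ).const_mul (48 / 13:ℝ)).exp
        simpa using this
      exact e1.mul (h.dN τ hτ)
    · intro τ hτ
      have := hKN τ hτ.le
      have e : (Real.exp (48 / 13 * τ) * (48 / 13)) * N τ
        + Real.exp (48 / 13 * τ) * (24 * N τ - 30 * K τ)
        = Real.exp (48 / 13 * τ) * (30 / 13) * (12 * N τ - 13 * K τ) := by ring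
      rw [e]
      exact mul_nonneg (by positivity) (by linarith)
  intro τ hτ
  have h1 := hm (mem_Ici.2 le_rfl) (mem_Ici.2 hτ) hτ
  simp only [mul_zero, Real.exp_zero, one_mul] at h1
  calc N 0 * Real.exp (-(48 / 13) * τ) ≤ (Real.exp (48 / 13 * τ) * N τ) * Real.exp (-(48 / 13) * τ) :=
        mul_le_mul_of_nonneg_right h1 (Real.exp_nonneg _)
    _ = (Real.exp (48 / 13 * τ) * Real.exp (-(48 / 13) * τ)) * N τ := by ring
    _ = N τ := by
        rw [← Real.exp_add]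
        have : 48 / 13 * τ + -(48 / 13) * τ = 0 := by ring
        rw [this, Real.exp_zero, one_mul]

theorem M_upper (h : Sys A M N K L) (h0 : 13 * K 0 ≤ 12 * N 0) :
    ∀ τ, 0 ≤ τ → M τ ≤ (M 0 - 39 / 38 * N 0) * Real.exp (8 * τ)
      + 39 / 38 * N 0 * Real.exp (-(48 / 13) * τ) := by
  have hN := h.N_lower h0
  have hm : AntitoneOn (fun τ => Real.exp (-8 * τ) * M τ
      - 39 / 38 * N 0 * Real.exp (-(152 / 13) * τ)) (Ici 0) := by
    apply anti_of (f' := fun τ => ((Real.exp (-8 * τ) * (-8)) * M τ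
      + Real.exp (-8 * τ) * (8 * M τ - 12 * N τ))
      - 39 / 38 * N 0 * (Real.exp (-(152 / 13) * τ) * (-(152 / 13))))
    · apply ContinuousOn.sub (ContinuousOn.mul (by fun_prop) h.cM) (by fun_prop)
    · intro τ hτ
      have e1 : HasDerivAt (fun τ : ℝ => Real.exp (-8 * τ)) (Real.exp (-8 * τ) * (-8)) τ := by
        have := ((hasDerivAt_id τ).const_mul (-8:ℝ)).exp
        simpa using this
      have e2 : HasDerivAt (fun τ : ℝ => Real.exp (-(152 / 13) * τ))
          (Real.exp (-(152 / 13) * τ) * (-(152 / 13))) τ := by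
        have := ((hasDerivAt_id τ).const_mul (-(152 / 13):ℝ)).exp
        simpa using this
      exact (e1.mul (h.dM τ hτ)).sub (e2.const_mul _)
    · intro τ hτ
      have h1 := hN τ hτ.le
      have e3 : Real.exp (-(152 / 13) * τ) = Real.exp (-8 * τ) * Real.exp (-(48 / 13) * τ) := by
        rw [← Real.exp_add]; congr 1; ring
      have e : ((Real.exp (-8 * τ) * (-8)) * M τ
        + Real.exp (-8 * τ) * (8 * M τ - 12 * N τ))
        - 39 / 38 * N 0 * (Real.exp (-(152 / 13) * τ) * (-(152 / 13)))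
        = -(12 * Real.exp (-8 * τ) * (N τ - N 0 * Real.exp (-(48 / 13) * τ))) := by
        rw [e3]; ring
      rw [e]
      have : 0 ≤ 12 * Real.exp (-8 * τ) * (N τ - N 0 * Real.exp (-(48 / 13) * τ)) :=
        mul_nonneg (by positivity) (by linarith)
      linarith
  intro τ hτ
  have h1 := hm (mem_Ici.2 le_rfl) (mem_Ici.2 hτ) hτ
  simp only [mul_zero, Real.exp_zero, one_mul, mul_one] at h1
  have h2 := mul_le_mul_of_nonneg_right h1 (Real.exp_nonneg (8 * τ))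
  have e1 : Real.exp (-8 * τ) * Real.exp (8 * τ) = 1 := by
    rw [← Real.exp_add]
    have : -8 * τ + 8 * τ = 0 := by ring
    rw [this, Real.exp_zero]
  have e2 : Real.exp (-(152 / 13) * τ) * Real.exp (8 * τ) = Real.exp (-(48 / 13) * τ) := by
    rw [← Real.exp_add]; congr 1; ring
  have e3 : (Real.exp (-8 * τ) * M τ - 39 / 38 * N 0 * Real.exp (-(152 / 13) * τ)) * Real.exp (8 * τ)
      = M τ - 39 / 38 * N 0 * Real.exp (-(48 / 13) * τ) := by
    calc _ = (Real.exp (-8 * τ) * Real.exp (8 * τ)) * M τ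
        - 39 / 38 * N 0 * (Real.exp (-(152 / 13) * τ) * Real.exp (8 * τ)) := by ring
      _ = _ := by rw [e1, e2, one_mul]
  rw [e3] at h2
  linarith

theorem M_lower (h : Sys A M N K L) : ∀ τ, 0 ≤ τ → M 0 * Real.exp (-4 * τ) ≤ M τ := by
  have hm : MonotoneOn (fun τ => Real.exp (4 * τ) * M τ) (Ici 0) := by
    apply mono_of (f' := fun τ => (Real.exp (4 * τ) * 4) * M τ
      + Real.exp (4 * τ) * (8 * M τ - 12 * N τ))
    · exact ContinuousOn.mul (by fun_prop) h.cM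
    · intro τ hτ
      have e1 : HasDerivAt (fun τ : ℝ => Real.exp (4 * τ)) (Real.exp (4 * τ) * 4) τ := by
        have := ((hasDerivAt_id τ).const_mul (4:ℝ)).exp
        simpa using this
      exact e1.mul (h.dM τ hτ)
    · intro τ _
      have := h.le τ
      have e : (Real.exp (4 * τ) * 4) * M τ + Real.exp (4 * τ) * (8 * M τ - 12 * N τ)
        = Real.exp (4 * τ) * 12 * (M τ - N τ) := by ring
      rw [e]
      exact mul_nonneg (by positivity) (by linarith)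
  intro τ hτ
  have h1 := hm (mem_Ici.2 le_rfl) (mem_Ici.2 hτ) hτ
  simp only [mul_zero, Real.exp_zero, one_mul] at h1
  calc M 0 * Real.exp (-4 * τ) ≤ (Real.exp (4 * τ) * M τ) * Real.exp (-4 * τ) :=
        mul_le_mul_of_nonneg_right h1 (Real.exp_nonneg _)
    _ = (Real.exp (4 * τ) * Real.exp (-4 * τ)) * M τ := by ring
    _ = M τ := by
        rw [← Real.exp_add]
        have : 4 * τ + -4 * τ = 0 := by ring
        rw [this, Real.exp_zero, one_mul]

theorem A_upper (h : Sys A M N K L) :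
    ∀ τ, 0 ≤ τ → A τ ≤ A 0 - M 0 / 2 * (1 - Real.exp (-4 * τ)) := by
  have hM := h.M_lower
  have hm : AntitoneOn (fun τ => A τ - M 0 / 2 * Real.exp (-4 * τ)) (Ici 0) := by
    apply anti_of (f' := fun τ => -2 * M τ - M 0 / 2 * (Real.exp (-4 * τ) * (-4)))
    · exact ContinuousOn.sub h.cA (by fun_prop)
    · intro τ hτ
      have e1 : HasDerivAt (fun τ : ℝ => Real.exp (-4 * τ)) (Real.exp (-4 * τ) * (-4)) τ := by
        have := ((hasDerivAt_id τ).const_mul (-4:ℝ)).exp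
        simpa using this
      exact (h.dA τ hτ).sub (e1.const_mul _)
    · intro τ hτ
      have := hM τ hτ.le
      linarith
  intro τ hτ
  have h1 := hm (mem_Ici.2 le_rfl) (mem_Ici.2 hτ) hτ
  simp only [mul_zero, Real.exp_zero, mul_one] at h1
  linarith

end Sys

/-! ### numerical facts -/

theorem exp_048 : Real.exp (0.48 : ℝ) ≤ 1.6165 := by
  have h := Real.exp_bound' (x := 0.48) (by norm_num) (by norm_num) (n := 5) (by norm_num)
  refine h.trans ?_
  simp only [Finset.sum_range_succ, Finset.sum_range_zero, Nat.factorial]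
  norm_num

theorem exp_n022 : Real.exp (-(2.88 / 13) : ℝ) ≤ 0.8015 := by
  rw [Real.exp_neg]
  have h : (1 / 0.8015 : ℝ) ≤ Real.exp (2.88 / 13) := by
    have := Real.sum_le_exp_of_nonneg (x := 2.88 / 13) (by norm_num) 4
    refine le_trans ?_ this
    simp only [Finset.sum_range_succ, Finset.sum_range_zero, Nat.factorial]
    norm_num
  rw [inv_le_comm₀ (Real.exp_pos _) (by norm_num)]
  refine le_trans (le_of_eq ?_) h
  norm_num

theorem exp_n024 : Real.exp (-0.24 : ℝ) ≤ 0.79 := by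
  rw [Real.exp_neg]
  have h : (1 / 0.79 : ℝ) ≤ Real.exp 0.24 := by
    have := Real.sum_le_exp_of_nonneg (x := 0.24) (by norm_num) 4
    refine le_trans ?_ this
    simp only [Finset.sum_range_succ, Finset.sum_range_zero, Nat.factorial]
    norm_num
  rw [inv_le_comm₀ (Real.exp_pos _) (by norm_num)]
  refine le_trans (le_of_eq ?_) h
  norm_num

theorem exp_chord (y s : ℝ) (h0 : 0 ≤ s) (h1 : s ≤ 1) :
    Real.exp (s * y) ≤ (1 - s) + s * Real.exp y := by
  have h := convexOn_exp.2 (mem_univ 0) (mem_univ y) (by linarith : 0 ≤ 1 - s) h0 (by ring)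
  simp only [smul_eq_mul, mul_zero, zero_add, Real.exp_zero, mul_one] at h
  exact h

namespace Sys

variable {A M N K L : ℝ → ℝ}

theorem M_g (h : Sys A M N K L) (h0 : 13 * K 0 ≤ 12 * N 0) (h1 : 307 / 400 * M 0 ≤ N 0) {s : ℝ}
    (hs0 : 0 ≤ s) (hs1 : s ≤ 1) : M (0.06 * s) ≤ M 0 * (1 - s + s * 0.975) := by
  have h2 := h.M_upper h0 (0.06 * s) (by positivity)
  have hM0 := h.pM 0
  set κ : ℝ := 39 / 38 * (307 / 400) with hκ
  have e1 : Real.exp (8 * (0.06 * s)) ≤ (1 - s) + s * 1.6165 := by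
    have := exp_chord 0.48 s hs0 hs1
    have e : 8 * (0.06 * s) = s * 0.48 := by ring
    rw [e]
    refine this.trans ?_
    have := mul_le_mul_of_nonneg_left exp_048 hs0
    linarith
  have e2 : Real.exp (-(48 / 13) * (0.06 * s)) ≤ (1 - s) + s * 0.8015 := by
    have := exp_chord (-(2.88 / 13)) s hs0 hs1
    have e : -(48 / 13) * (0.06 * s) = s * (-(2.88 / 13)) := by ring
    rw [e]
    refine this.trans ?_
    have := mul_le_mul_of_nonneg_left exp_n022 hs0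
    linarith
  have e3 : Real.exp (-(48 / 13) * (0.06 * s)) ≤ Real.exp (8 * (0.06 * s)) := by
    apply Real.exp_le_exp.2
    nlinarith
  set E1 := Real.exp (8 * (0.06 * s))
  set E2 := Real.exp (-(48 / 13) * (0.06 * s))
  have hE2 : 0 ≤ E2 := Real.exp_nonneg _
  -- replace N 0 by (307/400) M 0
  have h3 : (M 0 - 39 / 38 * N 0) * E1 + 39 / 38 * N 0 * E2
      ≤ M 0 * ((1 - κ) * E1 + κ * E2) := by
    have a1 : 0 ≤ (39 / 38 * (N 0 - 307 / 400 * M 0)) * (E1 - E2) :=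
      mul_nonneg (by linarith) (by linarith)
    rw [hκ]
    nlinarith
  have h4 : (1 - κ) * E1 + κ * E2 ≤ 1 - s + s * 0.975 := by
    have a1 : (1 - κ) * E1 ≤ (1 - κ) * ((1 - s) + s * 1.6165) :=
      mul_le_mul_of_nonneg_left e1 (by rw [hκ]; norm_num)
    have a2 : κ * E2 ≤ κ * ((1 - s) + s * 0.8015) :=
      mul_le_mul_of_nonneg_left e2 (by rw [hκ]; norm_num)
    rw [hκ] at a1 a2 ⊢
    linarith
  calc M (0.06 * s) ≤ _ := h2
    _ ≤ M 0 * ((1 - κ) * E1 + κ * E2) := h3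
    _ ≤ _ := mul_le_mul_of_nonneg_left h4 hM0.le

theorem case2 (h : Sys A M N K L) {W : ℝ} (hM0 : M 0 ≤ W) (hA0 : A 0 ≤ 12 / 7 * W)
    (h0 : 13 * K 0 ≤ 12 * N 0) (h1 : 307 / 400 * M 0 ≤ N 0) :
    ∀ τ, 0 ≤ τ → M τ ≤ W := by
  intro τ hτ
  have hMp := h.pM 0
  have hW : 0 < W := lt_of_lt_of_le hMp hM0
  rcases le_total τ 0.06 with hle | hle
  · have h2 := h.M_g h0 h1 (s := τ / 0.06) (by positivity) (by rw [div_le_one (by norm_num)]; exact hle)
    have e : 0.06 * (τ / 0.06) = τ := by field_simp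
    rw [e] at h2
    refine h2.trans ?_
    have hs : 0 ≤ τ / 0.06 := by positivity
    have : M 0 * (1 - τ / 0.06 + τ / 0.06 * 0.975) ≤ M 0 * 1 :=
      mul_le_mul_of_nonneg_left (by linarith) hMp.le
    linarith
  · obtain ⟨z, hz0, hz1, hz⟩ := h.bound_after (τ₁ := 0.06) (by norm_num) hle
    have h6 := z6_le hz0 hz1
    have h3 := h.M_g h0 h1 (s := 1) zero_le_one le_rfl
    have h4 := h.A_upper 0.06 (by norm_num)
    have e1 : (-4 * 0.06 : ℝ) = -0.24 := by norm_num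
    rw [e1] at h4
    have h5 := exp_n024
    have hA1 : A 0.06 ≤ A 0 - 0.105 * M 0 := by
      have : M 0 / 2 * 0.21 ≤ M 0 / 2 * (1 - Real.exp (-0.24)) :=
        mul_le_mul_of_nonneg_left (by linarith) (by linarith)
      linarith
    have hM1 : M 0.06 ≤ 0.975 * M 0 := by
      have e : (0.06 * 1 : ℝ) = 0.06 := by norm_num
      rw [e] at h3
      linarith
    have hz6 : 0 < z ^ 6 := by positivity
    have a1 : 4 / 5 * A 0.06 * (z - z ^ 6) ≤ 4 / 5 * (A 0 - 0.105 * M 0) * (z - z ^ 6) :=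
      mul_le_mul_of_nonneg_right (by linarith) (by linarith)
    have a2 : M 0.06 * z ^ 6 ≤ 0.975 * M 0 * z ^ 6 := mul_le_mul_of_nonneg_right hM1 hz6.le
    have a3 : 4 / 5 * A 0 * (z - z ^ 6) ≤ 48 / 35 * W * (z - z ^ 6) :=
      mul_le_mul_of_nonneg_right (by linarith) (by linarith)
    -- p = 0.975 z^6 - 0.084 (z - z^6)
    have a4 : M τ ≤ 48 / 35 * W * (z - z ^ 6) + M 0 * (0.975 * z ^ 6 - 0.084 * (z - z ^ 6)) := by
      linarith
    rcases le_total 0 (0.975 * z ^ 6 - 0.084 * (z - z ^ 6)) with hp | hp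
    · have a5 : M 0 * (0.975 * z ^ 6 - 0.084 * (z - z ^ 6))
          ≤ W * (0.975 * z ^ 6 - 0.084 * (z - z ^ 6)) := mul_le_mul_of_nonneg_right hM0 hp
      have a6 := six_tangent z 0.928 hz0.le (by norm_num)
      norm_num at a6
      have a7 : W * (48 / 35 * (z - z ^ 6) + (0.975 * z ^ 6 - 0.084 * (z - z ^ 6))) ≤ W * 1 := by
        apply mul_le_mul_of_nonneg_left _ hW.le
        nlinarith
      linarith
    · have a5 : M 0 * (0.975 * z ^ 6 - 0.084 * (z - z ^ 6)) ≤ 0 :=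
        mul_nonpos_of_nonneg_of_nonpos hMp.le hp
      have a6 := six_tangent z 0.7 hz0.le (by norm_num)
      norm_num at a6
      have a7 : W * (48 / 35 * (z - z ^ 6)) ≤ W * 1 := by
        apply mul_le_mul_of_nonneg_left _ hW.le
        nlinarith
      linarith

end Sys

end Pool.Agent.N942.AT
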