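import Pool.Agent.N942.ATe
import Pool.Agent.N942.ATf

set_option autoImplicit false
open MeasureTheory ProbabilityTheory Set Filter Topology

namespace Pool.Agent.N942.AT

theorem P_pos {f : ℝ → ℝ} (hf : LG f) (hpos : ∀ y, 0 < f y) (a x : ℝ) : 0 < P a f x := by
  unfold P
  rw [integral_pos_iff_support_of_nonneg (fun z => (hpos _).le) (integrable_P hf a x)]
  have : Function.support (fun z => f (x + Real.sqrt a * z)) = univ := by
    ext z; simp [Function.mem_support, (hpos _).ne']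
  rw [this, measure_univ]
  exact one_pos

/-- bounded integrand `sech * P a φ`. -/
theorem LG_sech_P {φ : ℝ → ℝ} (hφ : LG φ) {C : ℝ} (hC : ∀ x, |φ x| ≤ C) (a : ℝ) :
    LG (fun x => sech x * P a φ x) := by
  have hc : Continuous (fun x => sech x * P a φ x) := continuous_sech.mul (hφ.P a).1
  apply LG.bdd hc (C := C)
  intro x
  rw [abs_mul, abs_of_nonneg (sech_nonneg x)]
  have h1 := P_abs_le hC a x
  have h2 := sech_le_one x
  have h3 := sech_nonneg x
  have h4 : 0 ≤ |P a φ x| := abs_nonneg _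
  nlinarith

/-- `B v h j τ = E[sech(X) (P_{2τ} sech^j)(X)]`. -/
noncomputable def B (v h : ℝ) (j : ℕ) (τ : ℝ) : ℝ := P v (fun x => sech x * P (2 * τ) (S j) x) h

/-- `m v h j τ = e^{-τ} B`. -/
noncomputable def m (v h : ℝ) (j : ℕ) (τ : ℝ) : ℝ := Real.exp (-τ) * B v h j τ

theorem LG_B (j : ℕ) (τ : ℝ) : LG (fun x => sech x * P (2 * τ) (S j) x) :=
  LG_sech_P (LG_S j) (abs_S_le j) _

theorem m_zero (v h : ℝ) (j : ℕ) : m v h j 0 = P v (S (j + 1)) h := by
  unfold m B
  have : (fun x => sech x * P (2 * 0) (S j) x) = S (j + 1) := by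
    ext x
    rw [mul_zero, P_zero]
    unfold S; rw [pow_succ]; ring
  rw [this]; simp

theorem B_pos (v h : ℝ) (j : ℕ) (τ : ℝ) : 0 < B v h j τ :=
  P_pos (LG_B j τ) (fun y => mul_pos (sech_pos y) (P_pos (LG_S j) (S_pos j) _ _)) v h

theorem m_pos (v h : ℝ) (j : ℕ) (τ : ℝ) : 0 < m v h j τ :=
  mul_pos (Real.exp_pos _) (B_pos v h j τ)

theorem B_anti (v h : ℝ) {i j : ℕ} (hij : i ≤ j) (τ : ℝ) : B v h j τ ≤ B v h i τ := by
  apply P_mono (LG_B j τ) (LG_B i τ)
  intro x
  apply mul_le_mul_of_nonneg_left _ (sech_nonneg x)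
  exact P_mono (LG_S j) (LG_S i) (S_anti hij) _ _

theorem B_cs (v h : ℝ) (j : ℕ) (τ : ℝ) : B v h (j + 2) τ ^ 2 ≤ B v h j τ * B v h (j + 4) τ := by
  have key : ∀ t : ℝ, 0 ≤ B v h j τ * (t * t) + (-2 * B v h (j + 2) τ) * t + B v h (j + 4) τ := by
    intro t
    have e : ∀ x, S j x * (sech x ^ 2 - t) ^ 2
        = ((t * t) * S j x + (-2 * t) * S (j + 2) x) + S (j + 4) x := by
      intro x; unfold S; ring
    have l1 : LG (fun x => (t * t) * S j x) := (LG_S j).const_mul _
    have l2 : LG (fun x => (-2 * t) * S (j + 2) x) := (LG_S (j + 2)).const_mul _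
    have h1 : ∀ x, P (2 * τ) (fun x => S j x * (sech x ^ 2 - t) ^ 2) x
        = ((t * t) * P (2 * τ) (S j) x + (-2 * t) * P (2 * τ) (S (j + 2)) x)
          + P (2 * τ) (S (j + 4)) x := by
      intro x
      simp only [e]
      rw [P_add (l1.add l2) (LG_S (j + 4)), P_add l1 l2, P_const_mul, P_const_mul]
    have h2 : ∀ x, 0 ≤ P (2 * τ) (fun x => S j x * (sech x ^ 2 - t) ^ 2) x := fun x =>
      P_nonneg (fun y => mul_nonneg (S_nonneg j y) (sq_nonneg _)) _ _
    have h3 : 0 ≤ P v (fun x => sech x * P (2 * τ) (fun x => S j x * (sech x ^ 2 - t) ^ 2) x) h :=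
      P_nonneg (fun y => mul_nonneg (sech_nonneg y) (h2 y)) _ _
    have h4 : P v (fun x => sech x * P (2 * τ) (fun x => S j x * (sech x ^ 2 - t) ^ 2) x) h
        = ((t * t) * B v h j τ + (-2 * t) * B v h (j + 2) τ) + B v h (j + 4) τ := by
      have e2 : (fun x => sech x * P (2 * τ) (fun x => S j x * (sech x ^ 2 - t) ^ 2) x)
          = fun x => ((t * t) * (sech x * P (2 * τ) (S j) x)
            + (-2 * t) * (sech x * P (2 * τ) (S (j + 2)) x)) + sech x * P (2 * τ) (S (j + 4)) x := by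
        ext x; rw [h1]; ring
      rw [e2, P_add (((LG_B j τ).const_mul _).add ((LG_B (j + 2) τ).const_mul _)) (LG_B (j + 4) τ),
        P_add ((LG_B j τ).const_mul _) ((LG_B (j + 2) τ).const_mul _), P_const_mul, P_const_mul]
      rfl
    rw [h4] at h3
    linarith
  have := discrim_le_zero key
  unfold discrim at this
  nlinarith

theorem hasDerivAt_B (v h : ℝ) (j : ℕ) {τ : ℝ} (hτ : 0 < τ) :
    HasDerivAt (B v h j) ((j : ℝ) ^ 2 * B v h j τ - (j : ℝ) * (j + 1) * B v h (j + 2) τ) τ := by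
  set φ : ℝ → ℝ := fun x => (j : ℝ) ^ 2 * S j x - (j : ℝ) * (j + 1) * S (j + 2) x with hφ
  set C : ℝ := max (j : ℝ) ((j : ℝ) ^ 2 + (j : ℝ) * (j + 1)) with hC
  have lφ : LG φ := ((LG_S j).const_mul _).sub ((LG_S (j + 2)).const_mul _)
  have hφb : ∀ x, |φ x| ≤ C := fun x => (abs_S2_le j x).trans (le_max_right _ _)
  have hpt : ∀ x, ∀ s, 0 < s → HasDerivAt (fun s => P (2 * s) (S j) x) (P (2 * s) φ x) s := by
    intro x s hs
    have h1 := hasDerivAt_P_a (LG_S j) (hasDerivAt_S j) (hasDerivAt_S1 j) (C := C)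
      (fun t => (abs_S1_le j t).trans (le_max_left _ _)) hφb (a := 2 * s) (by positivity) x
    have h2 : HasDerivAt (fun s : ℝ => 2 * s) 2 s := by
      simpa using (hasDerivAt_id s).const_mul (2:ℝ)
    have h3 := h1.comp s h2
    refine h3.congr_deriv ?_
    ring
  have key := (hasDerivAt_integral_of_dominated_loc_of_deriv_le (μ := gam) (𝕜 := ℝ)
    (F := fun s z => sech (h + Real.sqrt v * z) * P (2 * s) (S j) (h + Real.sqrt v * z))
    (F' := fun s z => sech (h + Real.sqrt v * z) * P (2 * s) φ (h + Real.sqrt v * z))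
    (x₀ := τ) (bound := fun _ => C) (s := Ioi 0) (Ioi_mem_nhds hτ) ?_ ?_ ?_ ?_ ?_ ?_).2
  · refine HasDerivAt.congr_deriv (f := B v h j) key ?_
    have e : (fun x => sech x * P (2 * τ) φ x)
        = fun x => (j : ℝ) ^ 2 * (sech x * P (2 * τ) (S j) x)
          - (j : ℝ) * (j + 1) * (sech x * P (2 * τ) (S (j + 2)) x) := by
      ext x
      rw [hφ, P_sub ((LG_S j).const_mul _) ((LG_S (j + 2)).const_mul _), P_const_mul, P_const_mul]
      ring
    show P v (fun x => sech x * P (2 * τ) φ x) h = _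
    rw [e, P_sub ((LG_B j τ).const_mul _) ((LG_B (j + 2) τ).const_mul _), P_const_mul, P_const_mul]
    rfl
  · refine Eventually.of_forall fun s => ?_
    have := (LG_B j s).1
    exact (this.comp (by fun_prop : Continuous fun z : ℝ => h + Real.sqrt v * z)).aestronglyMeasurable
  · exact integrable_P (LG_B j τ) v h
  · have := (LG_sech_P lφ hφb (2 * τ)).1
    exact (this.comp (by fun_prop : Continuous fun z : ℝ => h + Real.sqrt v * z)).aestronglyMeasurable
  · refine Eventually.of_forall fun z s _ => ?_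
    rw [Real.norm_eq_abs, abs_mul, abs_of_nonneg (sech_nonneg _)]
    have h1 := P_abs_le hφb (2 * s) (h + Real.sqrt v * z)
    have h2 := sech_le_one (h + Real.sqrt v * z)
    calc sech (h + Real.sqrt v * z) * |P (2 * s) φ (h + Real.sqrt v * z)|
        ≤ 1 * |P (2 * s) φ (h + Real.sqrt v * z)| := mul_le_mul_of_nonneg_right h2 (abs_nonneg _)
      _ ≤ C := by rw [one_mul]; exact h1
  · exact integrable_const _
  · refine Eventually.of_forall fun z s hs => ?_
    exact (hpt _ s hs).const_mul _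

theorem continuous_B (v h : ℝ) (j : ℕ) : Continuous (B v h j) := by
  unfold B P
  apply continuous_of_dominated (bound := fun _ => (1:ℝ))
  · intro s
    have := (LG_B j s).1
    exact (this.comp (by fun_prop : Continuous fun z : ℝ => h + Real.sqrt v * z)).aestronglyMeasurable
  · intro s
    refine Eventually.of_forall fun z => ?_
    rw [Real.norm_eq_abs, abs_mul, abs_of_nonneg (sech_nonneg _)]
    have h1 : |∫ w, S j (h + Real.sqrt v * z + Real.sqrt (2 * s) * w) ∂gam| ≤ 1 :=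
      P_abs_le (abs_S_le j) (2 * s) (h + Real.sqrt v * z)
    have h2 := sech_le_one (h + Real.sqrt v * z)
    calc _ ≤ 1 * |∫ w, S j (h + Real.sqrt v * z + Real.sqrt (2 * s) * w) ∂gam| :=
          mul_le_mul_of_nonneg_right h2 (abs_nonneg _)
      _ ≤ 1 := by rw [one_mul]; exact h1
  · exact integrable_const _
  · refine Eventually.of_forall fun z => ?_
    have h1 := continuous_P (LG_S j)
    have h2 : Continuous (fun s : ℝ => ((2 * s : ℝ), h + Real.sqrt v * z)) := by fun_prop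
    exact continuous_const.mul (h1.comp h2)

theorem hasDerivAt_m (v h : ℝ) (j : ℕ) {τ : ℝ} (hτ : 0 < τ) :
    HasDerivAt (m v h j) (((j : ℝ) ^ 2 - 1) * m v h j τ - (j : ℝ) * (j + 1) * m v h (j + 2) τ) τ := by
  have e1 : HasDerivAt (fun τ : ℝ => Real.exp (-τ)) (-Real.exp (-τ)) τ := by
    have := ((hasDerivAt_id τ).neg).exp
    simpa using this
  have h1 := e1.mul (hasDerivAt_B v h j hτ)
  refine HasDerivAt.congr_deriv (f := m v h j) h1 ?_
  unfold m
  ring

theorem continuous_m (v h : ℝ) (j : ℕ) : Continuous (m v h j) := by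
  unfold m
  have := continuous_B v h j
  fun_prop

theorem m_cs (v h : ℝ) (j : ℕ) (τ : ℝ) : m v h (j + 2) τ ^ 2 ≤ m v h j τ * m v h (j + 4) τ := by
  have := B_cs v h j τ
  unfold m
  have e1 : (Real.exp (-τ) * B v h (j + 2) τ) ^ 2 = Real.exp (-τ) ^ 2 * B v h (j + 2) τ ^ 2 := by ring
  have e2 : Real.exp (-τ) * B v h j τ * (Real.exp (-τ) * B v h (j + 4) τ)
    = Real.exp (-τ) ^ 2 * (B v h j τ * B v h (j + 4) τ) := by ring
  rw [e1, e2]
  exact mul_le_mul_of_nonneg_left this (sq_nonneg _)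

theorem sys (v h : ℝ) : Sys (m v h 1) (m v h 3) (m v h 5) (m v h 7) (m v h 9) where
  cA := (continuous_m v h 1).continuousOn
  cM := (continuous_m v h 3).continuousOn
  cN := (continuous_m v h 5).continuousOn
  cK := (continuous_m v h 7).continuousOn
  dA := fun τ hτ => (hasDerivAt_m v h 1 hτ).congr_deriv (by norm_num)
  dM := fun τ hτ => (hasDerivAt_m v h 3 hτ).congr_deriv (by norm_num)
  dN := fun τ hτ => (hasDerivAt_m v h 5 hτ).congr_deriv (by norm_num)
  dK := fun τ hτ => (hasDerivAt_m v h 7 hτ).congr_deriv (by norm_num)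
  pA := m_pos v h 1
  pM := m_pos v h 3
  pN := m_pos v h 5
  pK := m_pos v h 7
  cs1 := m_cs v h 1
  cs2 := m_cs v h 5
  le := fun τ => mul_le_mul_of_nonneg_left (B_anti v h (by norm_num) τ) (Real.exp_nonneg _)

/-- Core inequality, `h ≥ 0`. -/
theorem core_M {h κ q : ℝ} (hh : 0 ≤ h) (hκ : 0 < κ) (hq0 : 0 ≤ q)
    (hq : q = P (κ * q) (fun x => Real.tanh x ^ 2) h) (hAT : κ * P (κ * q) (S 4) h ≤ 1) :
    ∀ τ, 0 ≤ τ → m (κ * q) h 3 τ ≤ 1 / κ := by
  have hs2 : P (κ * q) (S 2) h = 1 - q := by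
    have := u_eq (κ * q) h; rw [← hq] at this; linarith
  have hM0 : m (κ * q) h 3 0 ≤ 1 / κ := by
    rw [m_zero, le_div_iff₀ hκ]; linarith
  have hA0 : m (κ * q) h 1 0 = 1 - q := by rw [m_zero]; exact hs2
  rcases le_or_gt (κ * (1 - q)) (3 / 2) with hb | hb
  · apply (sys (κ * q) h).case1 hM0
    rw [hA0, le_div_iff₀ hκ]; linarith
  · have hqpos : 0 < q := by
      rcases hq0.lt_or_eq with h1 | h1
      · exact h1
      · exfalso
        rw [← h1, mul_zero, P_zero] at hq hAT
        have h2 : sech h ^ 2 = 1 := by have := tanh_sq h; linarith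
        have h3 : S 4 h = 1 := by
          unfold S
          calc sech h ^ 4 = (sech h ^ 2) ^ 2 := by ring
            _ = 1 := by rw [h2]; norm_num
        rw [h3] at hAT
        rw [← h1] at hb
        linarith
    have hv : 0 < κ * q := mul_pos hκ hqpos
    obtain ⟨p1, p2, p3⟩ := static_package hh hv rfl hqpos hq hAT hb
    apply (sys (κ * q) h).case2 hM0
    · rw [hA0]
      have : 12 / 7 * (1 / κ) = (12 / 7) / κ := by ring
      rw [this, le_div_iff₀ hκ]; linarith
    · rw [m_zero, m_zero]; exact p3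
    · rw [m_zero, m_zero]; exact p2

theorem P_reflect {g : ℝ → ℝ} (hg : ∀ x, g (-x) = g x) (a x : ℝ) : P a g (-x) = P a g x := by
  unfold P
  rw [← integral_neg_gam]
  congr 1; ext z
  have : -x + Real.sqrt a * -z = -(x + Real.sqrt a * z) := by ring
  rw [this, hg]

theorem m_reflect (v h : ℝ) (j : ℕ) (τ : ℝ) : m v (-h) j τ = m v h j τ := by
  unfold m B
  rw [P_reflect]
  intro x
  rw [sech_neg, P_reflect (S_neg j)]

/-- Core inequality: `1 - q - t ≤ e^{-κ t/2} E[sech X (P_{κ t} sech)(X)]`. -/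
theorem core_A {h κ q : ℝ} (hκ : 0 < κ) (hq0 : 0 ≤ q)
    (hq : q = P (κ * q) (fun x => Real.tanh x ^ 2) h) (hAT : κ * P (κ * q) (S 4) h ≤ 1) :
    ∀ t, 0 ≤ t → 1 - q - t ≤ m (κ * q) h 1 (κ * t / 2) := by
  -- reduce to h ≥ 0
  have hM : ∀ τ, 0 ≤ τ → m (κ * q) h 3 τ ≤ 1 / κ := by
    rcases le_total 0 h with hh | hh
    · exact core_M hh hκ hq0 hq hAT
    · intro τ hτ
      rw [← neg_neg h, m_reflect]
      refine core_M (h := -h) (by linarith) hκ hq0 ?_ ?_ τ hτ
      · rw [P_reflect (fun x => by rw [Real.tanh_neg]; ring)]; exact hq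
      · rw [P_reflect (S_neg 4)]; exact hAT
  have hs2 : P (κ * q) (S 2) h = 1 - q := by
    have := u_eq (κ * q) h; rw [← hq] at this; linarith
  have hm : MonotoneOn (fun τ => m (κ * q) h 1 τ + 2 * τ / κ) (Ici 0) := by
    apply mono_of (f' := fun τ => -2 * m (κ * q) h 3 τ + 2 / κ)
    · exact ((continuous_m _ _ 1).continuousOn).add (by fun_prop)
    · intro τ hτ
      have e : HasDerivAt (fun τ : ℝ => 2 * τ / κ) (2 / κ) τ := by
        have := ((hasDerivAt_id τ).const_mul (2:ℝ)).div_const κ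
        simpa using this
      exact ((sys (κ * q) h).dA τ hτ).add e
    · intro τ hτ
      have h1 := hM τ hτ.le
      have e : (2:ℝ) / κ = 2 * (1 / κ) := by ring
      rw [e]; linarith
  intro t ht
  have h1 := hm (mem_Ici.2 le_rfl) (mem_Ici.2 (by positivity : 0 ≤ κ * t / 2))
    (by positivity : 0 ≤ κ * t / 2)
  simp only [mul_zero, zero_div, add_zero] at h1
  rw [m_zero, hs2] at h1
  have e : 2 * (κ * t / 2) / κ = t := by field_simp
  rw [e] at h1
  linarith

end Pool.Agent.N942.AT
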