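import Pool.Agent.N942.ATc

set_option autoImplicit false
open MeasureTheory ProbabilityTheory Set Filter Topology

namespace Pool.Agent.N942.AT

/-- antiderivative of `sech⁴` -/
noncomputable def G4 (x : ℝ) : ℝ := Real.tanh x - Real.tanh x ^ 3 / 3

theorem hasDerivAt_G4 (x : ℝ) : HasDerivAt G4 (S 4 x) x := by
  have h := (hasDerivAt_tanh x).sub (((hasDerivAt_tanh x).pow 3).div_const 3)
  refine h.congr_deriv ?_
  have h2 := tanh_sq x
  unfold S
  push_cast
  have : (3 * Real.tanh x ^ (3 - 1) * sech x ^ 2) / 3 = Real.tanh x ^ 2 * sech x ^ 2 := by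
    norm_num
    ring
  rw [this, h2]
  ring

theorem abs_G4_le (x : ℝ) : |G4 x| ≤ 2 := by
  unfold G4
  have h1 := abs_tanh_le_one x
  have h2 : |Real.tanh x ^ 3| ≤ 1 := by
    rw [abs_pow]; exact pow_le_one₀ (abs_nonneg _) h1
  have h3 : |Real.tanh x ^ 3 / 3| ≤ 1 := by
    rw [abs_div, abs_of_pos (by norm_num : (0:ℝ) < 3)]
    linarith
  calc _ ≤ |Real.tanh x| + |Real.tanh x ^ 3 / 3| := abs_sub _ _
    _ ≤ 2 := by linarith

theorem poin_pt_aux {a b : ℝ} (hab : b ≤ a) :
    (Real.tanh a - Real.tanh b) ^ 2 ≤ (a - b) * (G4 a - G4 b) := by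
  -- first auxiliary: for each x ≥ b
  have aux : ∀ x, b ≤ x → 0 ≤ (G4 x - G4 b) + (x - b) * S 4 x
      - 2 * (Real.tanh x - Real.tanh b) * S 2 x := by
    intro x hx
    set c := S 2 x
    have hd : ∀ y, HasDerivAt (fun y => G4 y - 2 * c * Real.tanh y + c ^ 2 * y)
        ((S 2 y - c) ^ 2) y := by
      intro y
      have h := ((hasDerivAt_G4 y).sub ((hasDerivAt_tanh y).const_mul (2 * c))).add
        ((hasDerivAt_id y).const_mul (c ^ 2))
      refine h.congr_deriv ?_
      unfold S; ring
    have hm : Monotone (fun y => G4 y - 2 * c * Real.tanh y + c ^ 2 * y) := by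
      apply monotone_of_deriv_nonneg (fun y => (hd y).differentiableAt)
      intro y
      rw [(hd y).deriv]; positivity
    have := hm hx
    simp only at this
    have e : S 4 x = c ^ 2 := by simp only [c, S]; ring
    rw [e]
    linarith
  have hd : ∀ y, HasDerivAt (fun y => (y - b) * (G4 y - G4 b) - (Real.tanh y - Real.tanh b) ^ 2)
      ((G4 y - G4 b) + (y - b) * S 4 y - 2 * (Real.tanh y - Real.tanh b) * S 2 y) y := by
    intro y
    have h := (((hasDerivAt_id y).sub_const b).mul ((hasDerivAt_G4 y).sub_const (G4 b))).sub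
      (((hasDerivAt_tanh y).sub_const (Real.tanh b)).pow 2)
    refine h.congr_deriv ?_
    simp only [id, S]
    push_cast
    ring
  have hm : MonotoneOn (fun y => (y - b) * (G4 y - G4 b) - (Real.tanh y - Real.tanh b) ^ 2) (Ici b) := by
    apply monotoneOn_of_deriv_nonneg (convex_Ici b)
    · exact fun y _ => (hd y).continuousAt.continuousWithinAt
    · exact fun y _ => (hd y).differentiableAt.differentiableWithinAt
    · intro y hy
      rw [interior_Ici] at hy
      rw [(hd y).deriv]
      exact aux y (le_of_lt hy)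
  have := hm (mem_Ici.2 le_rfl) (mem_Ici.2 hab) hab
  simp only [sub_self, zero_mul] at this
  linarith

theorem poin_pt (a b : ℝ) : (Real.tanh a - Real.tanh b) ^ 2 ≤ (a - b) * (G4 a - G4 b) := by
  rcases le_total b a with h | h
  · exact poin_pt_aux h
  · have := poin_pt_aux h
    linarith [this, show (Real.tanh a - Real.tanh b) ^ 2 = (Real.tanh b - Real.tanh a) ^ 2 by ring,
      show (a - b) * (G4 a - G4 b) = (b - a) * (G4 b - G4 a) by ring]

/-- Gaussian Poincaré inequality for `tanh`. -/
theorem poincare_tanh {a : ℝ} (ha : 0 ≤ a) (x : ℝ) :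
    P a (fun y => Real.tanh y ^ 2) x - P a Real.tanh x ^ 2 ≤ a * P a (S 4) x := by
  set s := Real.sqrt a with hs
  have hs0 : 0 ≤ s := Real.sqrt_nonneg a
  set T : ℝ → ℝ := fun z => Real.tanh (x + s * z) with hT
  set G : ℝ → ℝ := fun z => G4 (x + s * z) with hG
  have hGc : Continuous G4 := continuous_iff_continuousAt.2 fun x => (hasDerivAt_G4 x).continuousAt
  have hTm : Measurable T := measurable_tanh.comp (by fun_prop)
  have hGm : Measurable G := hGc.measurable.comp (by fun_prop)
  have iT : Integrable T gam := integrable_bdd hTm fun _ => abs_tanh_le_one _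
  have iT2 : Integrable (fun z => T z ^ 2) gam := integrable_bdd (hTm.pow_const 2) fun _ => abs_tanh_sq_le _
  have iG : Integrable G gam := integrable_bdd hGm fun _ => abs_G4_le _
  have izG : Integrable (fun z => z * G z) gam := integrable_mul_bdd hGm fun _ => abs_G4_le _
  set mT := ∫ z, T z ∂gam with hmT
  set U := ∫ z, T z ^ 2 ∂gam with hU
  set mG := ∫ z, G z ∂gam with hmG
  set J := ∫ z, z * G z ∂gam with hJ
  have inner1 : ∀ z, ∫ w, (T z - T w) ^ 2 ∂gam = T z ^ 2 - 2 * mT * T z + U := by
    intro z
    have e : ∀ w, (T z - T w) ^ 2 = (T z ^ 2 - (2 * T z) * T w) + T w ^ 2 := by intro w; ring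
    have i1 : Integrable (fun w => T z ^ 2 - (2 * T z) * T w) gam :=
      (integrable_const _).sub (iT.const_mul _)
    simp only [e]
    rw [integral_add i1 iT2, integral_sub (integrable_const _) (iT.const_mul _), integral_const_mul,
      integral_const]
    simp only [probReal_univ, smul_eq_mul, one_mul]
    ring
  have inner2 : ∀ z, ∫ w, s * (z - w) * (G z - G w) ∂gam = s * (z * G z) - s * mG * z + s * J := by
    intro z
    have e : ∀ w, s * (z - w) * (G z - G w)
        = ((s * (z * G z) - (s * z) * G w) - (s * G z) * w) + s * (w * G w) := by intro w; ring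
    have i1 : Integrable (fun w => s * (z * G z) - (s * z) * G w) gam :=
      (integrable_const _).sub (iG.const_mul _)
    have i2 : Integrable (fun w => (s * (z * G z) - (s * z) * G w) - (s * G z) * w) gam :=
      i1.sub (integrable_id_gam.const_mul _)
    simp only [e]
    rw [integral_add i2 (izG.const_mul _), integral_sub i1 (integrable_id_gam.const_mul _),
      integral_sub (integrable_const _) (iG.const_mul _), integral_const, integral_const_mul,
      integral_const_mul, integral_const_mul, integral_id_gam]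
    simp only [probReal_univ, smul_eq_mul, one_mul, mul_zero, sub_zero]
    ring
  have hle : ∀ z, ∫ w, (T z - T w) ^ 2 ∂gam ≤ ∫ w, s * (z - w) * (G z - G w) ∂gam := by
    intro z
    apply integral_mono
    · have e : (fun w => (T z - T w) ^ 2) = fun w => (T z ^ 2 - (2 * T z) * T w) + T w ^ 2 := by
        ext w; ring
      rw [e]
      exact ((integrable_const _).sub (iT.const_mul _)).add iT2
    · have e : (fun w => s * (z - w) * (G z - G w))
        = fun w => ((s * (z * G z) - (s * z) * G w) - (s * G z) * w) + s * (w * G w) := by ext w; ring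
      rw [e]
      exact (((integrable_const _).sub (iG.const_mul _)).sub (integrable_id_gam.const_mul _)).add
        (izG.const_mul _)
    · intro w
      have := poin_pt (x + s * z) (x + s * w)
      have e : (x + s * z - (x + s * w)) = s * (z - w) := by ring
      rw [e] at this
      exact this
  have hle2 : ∫ z, (T z ^ 2 - 2 * mT * T z + U) ∂gam
      ≤ ∫ z, (s * (z * G z) - s * mG * z + s * J) ∂gam := by
    apply integral_mono
    · exact (iT2.sub (iT.const_mul _)).add (integrable_const _)
    · exact ((izG.const_mul _).sub (integrable_id_gam.const_mul _)).add (integrable_const _)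
    · intro z
      have := hle z
      rw [inner1, inner2] at this
      exact this
  have i3 : Integrable (fun z => T z ^ 2 - 2 * mT * T z) gam := iT2.sub (iT.const_mul _)
  have i4 : Integrable (fun z => s * (z * G z) - s * mG * z) gam :=
    (izG.const_mul _).sub (integrable_id_gam.const_mul _)
  rw [integral_add i3 (integrable_const _), integral_sub iT2 (iT.const_mul _), integral_const_mul,
    integral_add i4 (integrable_const _),
    integral_sub (izG.const_mul _) (integrable_id_gam.const_mul _), integral_const_mul,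
    integral_const_mul, integral_id_gam] at hle2
  simp only [integral_const, probReal_univ, smul_eq_mul, one_mul, mul_zero, sub_zero] at hle2
  rw [← hU, ← hmT, ← hJ] at hle2
  have hst := stein2 hasDerivAt_G4 abs_G4_le (abs_S_le 4) x s
  have hJ' : J = s * P a (S 4) x := hst
  have hss : s * s = a := Real.mul_self_sqrt ha
  have e1 : P a (fun y => Real.tanh y ^ 2) x = U := rfl
  have e2 : P a Real.tanh x = mT := rfl
  rw [e1, e2]
  have e3 : s * J = a * P a (S 4) x := by rw [hJ', ← mul_assoc, hss]
  nlinarith

/-- The order parameter profile below `q`. -/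
noncomputable def F (κ q h s : ℝ) : ℝ := P (κ * s) (fun y => P (κ * (q - s)) Real.tanh y ^ 2) h

theorem LG_P_tanh_sq (a : ℝ) : LG (fun y => P a Real.tanh y ^ 2) := by
  have hc : Continuous (fun y => P a Real.tanh y ^ 2) := (LG_tanh.P a).1.pow 2
  apply LG.bdd hc (C := 1)
  intro y
  have := P_abs_le abs_tanh_le_one a y
  rw [abs_pow]
  exact pow_le_one₀ (abs_nonneg _) this

theorem F_ge {κ q h : ℝ} (hκ : 0 < κ)
    (hq : q = P (κ * q) (fun x => Real.tanh x ^ 2) h) (hAT : κ * P (κ * q) (S 4) h ≤ 1)
    {s : ℝ} (hs0 : 0 ≤ s) (hs : s ≤ q) : s ≤ F κ q h s := by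
  have h1 : 0 ≤ κ * s := by positivity
  have h2 : 0 ≤ κ * (q - s) := mul_nonneg hκ.le (by linarith)
  have e : κ * s + κ * (q - s) = κ * q := by ring
  have hA : P (κ * s) (fun y => P (κ * (q - s)) (fun x => Real.tanh x ^ 2) y) h = q := by
    have := P_P LG_tanh_sq h1 h2 h
    rw [e, ← hq] at this
    exact this
  have hB : P (κ * s) (fun y => (κ * (q - s)) * P (κ * (q - s)) (S 4) y) h
      = (q - s) * (κ * P (κ * q) (S 4) h) := by
    rw [P_const_mul]
    have := P_P (LG_S 4) h1 h2 h
    rw [e] at this
    have e3 : P (κ * s) (fun y => P (κ * (q - s)) (S 4) y) h = P (κ * q) (S 4) h := this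
    rw [e3]; ring
  have hC : P (κ * s) (fun y => P (κ * (q - s)) (fun x => Real.tanh x ^ 2) y
        - P (κ * (q - s)) Real.tanh y ^ 2) h
      ≤ P (κ * s) (fun y => (κ * (q - s)) * P (κ * (q - s)) (S 4) y) h := by
    apply P_mono ((LG_tanh_sq.P _).sub (LG_P_tanh_sq _)) (((LG_S 4).P _).const_mul _)
    intro y
    exact poincare_tanh h2 y
  rw [P_sub (LG_tanh_sq.P _) (LG_P_tanh_sq _)] at hC
  have hA' : P (κ * s) (P (κ * (q - s)) (fun x => Real.tanh x ^ 2)) h = q := hA
  rw [hA', hB] at hC
  have h3 : (q - s) * (κ * P (κ * q) (S 4) h) ≤ (q - s) * 1 :=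
    mul_le_mul_of_nonneg_left hAT (by linarith)
  have h4 : F κ q h s = P (κ * s) (fun y => P (κ * (q - s)) Real.tanh y ^ 2) h := rfl
  rw [h4]
  linarith

end Pool.Agent.N942.AT
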