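import Pool.Agent.N942.ATc
import Pool.Agent.N942.ATdefs

set_option autoImplicit false
open MeasureTheory ProbabilityTheory Set Filter Topology

namespace Pool.Agent.N942.AT

/-- one-sided differentiation under the integral sign -/
theorem hasDerivWithinAt_integral_right {F : ℝ → ℝ → ℝ} {F' bound : ℝ → ℝ} {τ t : ℝ} (hτ : τ < t)
    (hint : ∀ s ∈ Icc τ t, Integrable (F s) gam) (hb : Integrable bound gam)
    (hlip : ∀ s ∈ Ioc τ t, ∀ z, |F s z - F τ z| ≤ bound z * (s - τ))
    (hd : ∀ z, HasDerivWithinAt (fun s => F s z) (F' z) (Ici τ) τ) :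
    HasDerivWithinAt (fun s => ∫ z, F s z ∂gam) (∫ z, F' z ∂gam) (Ici τ) τ := by
  rw [← hasDerivWithinAt_Ioi_iff_Ici, hasDerivWithinAt_iff_tendsto_slope' (by simp)]
  have hev : ∀ᶠ s in 𝓝[>] τ, s ∈ Ioc τ t := Ioc_mem_nhdsGT hτ
  have heq : ∀ᶠ s in 𝓝[>] τ, slope (fun s => ∫ z, F s z ∂gam) τ s
      = ∫ z, slope (fun s => F s z) τ s ∂gam := by
    filter_upwards [hev] with s hs
    simp only [slope_def_field]
    rw [integral_div, integral_sub (hint s ⟨hs.1.le, hs.2⟩) (hint τ ⟨le_rfl, hτ.le⟩)]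
  rw [tendsto_congr' heq]
  apply tendsto_integral_filter_of_dominated_convergence bound
  · filter_upwards [hev] with s hs
    simp only [slope_def_field]
    exact (((hint s ⟨hs.1.le, hs.2⟩).sub (hint τ ⟨le_rfl, hτ.le⟩)).div_const _).aestronglyMeasurable
  · filter_upwards [hev] with s hs
    refine Eventually.of_forall fun z => ?_
    have hpos : 0 < s - τ := by linarith [hs.1]
    rw [slope_def_field, Real.norm_eq_abs, abs_div, abs_of_pos hpos, div_le_iff₀ hpos]
    exact hlip s hs z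
  · exact hb
  · refine Eventually.of_forall fun z => ?_
    have := hd z
    rwa [← hasDerivWithinAt_Ioi_iff_Ici, hasDerivWithinAt_iff_tendsto_slope' (by simp)] at this

namespace IsParisiSol

variable {β : ℝ} {ζ : ℝ → ℝ} {f : ℝ → ℝ → ℝ}

theorem hd1 (hf : IsParisiSol β ζ f) {t : ℝ} (ht : t ∈ Icc (0 : ℝ) 1) (x : ℝ) :
    HasDerivAt (f t) (deriv (f t) x) x :=
  ((hf.smooth t ht).differentiable (by norm_num) x).hasDerivAt

theorem hd2 (hf : IsParisiSol β ζ f) {t : ℝ} (ht : t ∈ Icc (0 : ℝ) 1) (x : ℝ) :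
    HasDerivAt (deriv (f t)) (deriv (deriv (f t)) x) x := by
  have h1 : ContDiff ℝ 1 (deriv (f t)) := by
    have h := hf.smooth t ht
    have h2 : (2 : WithTop ℕ∞) = 1 + 1 := by norm_num
    rw [h2, contDiff_succ_iff_deriv] at h
    exact h.2.2
  exact (h1.differentiable (by norm_num) x).hasDerivAt

/-- Lipschitz in `x` -/
theorem lip_x (hf : IsParisiSol β ζ f) {C : ℝ}
    (hC : ∀ t ∈ Icc (0 : ℝ) 1, ∀ x, |deriv (f t) x| ≤ C ∧ |deriv (deriv (f t)) x| ≤ C)
    {t : ℝ} (ht : t ∈ Icc (0 : ℝ) 1) (x y : ℝ) : |f t x - f t y| ≤ C * |x - y| := by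
  have := Convex.norm_image_sub_le_of_norm_hasDerivWithin_le (f := f t) (f' := deriv (f t)) (C := C)
    (s := univ) (x := y) (y := x) (fun x _ => (hf.hd1 ht x).hasDerivWithinAt)
    (fun x _ => (hC t ht x).1) convex_univ (mem_univ _) (mem_univ _)
  simpa using this

/-- first order Taylor in `x` -/
theorem taylor_x (hf : IsParisiSol β ζ f) {C : ℝ}
    (hC : ∀ t ∈ Icc (0 : ℝ) 1, ∀ x, |deriv (f t) x| ≤ C ∧ |deriv (deriv (f t)) x| ≤ C)
    {t : ℝ} (ht : t ∈ Icc (0 : ℝ) 1) (x y : ℝ) :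
    |f t y - f t x - deriv (f t) x * (y - x)| ≤ C * (y - x) ^ 2 := by
  have hC0 : 0 ≤ C := (abs_nonneg _).trans (hC t ht 0).1
  have hlip : ∀ w, |deriv (f t) w - deriv (f t) x| ≤ C * |w - x| := by
    intro w
    have := Convex.norm_image_sub_le_of_norm_hasDerivWithin_le (f := deriv (f t))
      (f' := deriv (deriv (f t))) (C := C)
      (s := univ) (x := x) (y := w) (fun x _ => (hf.hd2 ht x).hasDerivWithinAt)
      (fun x _ => (hC t ht x).2) convex_univ (mem_univ _) (mem_univ _)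
    simpa using this
  have h1 := Convex.norm_image_sub_le_of_norm_hasDerivWithin_le
    (f := fun w => f t w - deriv (f t) x * w) (f' := fun w => deriv (f t) w - deriv (f t) x)
    (C := C * |y - x|) (s := uIcc x y) (x := x) (y := y)
    (fun w _ => ((hf.hd1 ht w).sub (by simpa using (hasDerivAt_id w).const_mul (deriv (f t) x))).hasDerivWithinAt)
    (fun w hw => ?_) (convex_uIcc x y) left_mem_uIcc right_mem_uIcc
  · rw [Real.norm_eq_abs, Real.norm_eq_abs] at h1
    calc |f t y - f t x - deriv (f t) x * (y - x)|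
        = |f t y - deriv (f t) x * y - (f t x - deriv (f t) x * x)| := by congr 1; ring
      _ ≤ C * |y - x| * |y - x| := h1
      _ = C * (y - x) ^ 2 := by rw [mul_assoc, abs_mul_abs_self]; ring
  · rw [Real.norm_eq_abs]
    refine (hlip w).trans (mul_le_mul_of_nonneg_left ?_ hC0)
    have := abs_sub_left_of_mem_uIcc hw
    exact this

/-- Lipschitz in time -/
theorem lip_t (hf : IsParisiSol β ζ f) (hζ : ∀ t ∈ Icc (0 : ℝ) 1, 0 ≤ ζ t ∧ ζ t ≤ 1) {C : ℝ}
    (hC : ∀ t ∈ Icc (0 : ℝ) 1, ∀ x, |deriv (f t) x| ≤ C ∧ |deriv (deriv (f t)) x| ≤ C)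
    {s t : ℝ} (hs : s ∈ Icc (0 : ℝ) 1) (ht : t ∈ Icc (0 : ℝ) 1) (x : ℝ) :
    |f t x - f s x| ≤ β ^ 2 * (C + C ^ 2) * |t - s| := by
  have key : ∀ s t : ℝ, s ∈ Icc (0 : ℝ) 1 → t ∈ Icc (0 : ℝ) 1 → s ≤ t →
      |f t x - f s x| ≤ β ^ 2 * (C + C ^ 2) * |t - s| := by
    intro s t hs ht hst
    have h := norm_image_sub_le_of_norm_deriv_right_le_segment (f := fun t => f t x)
      (f' := fun t => -β ^ 2 * (deriv (deriv (f t)) x + ζ t * (deriv (f t) x) ^ 2))
      (a := s) (b := t) (C := β ^ 2 * (C + C ^ 2))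
      ((hf.cont x).mono (Icc_subset_Icc hs.1 ht.2))
      (fun r hr => hf.pde r ⟨hs.1.trans hr.1, lt_of_lt_of_le hr.2 ht.2⟩ x)
      (fun r hr => ?_) t ⟨hst, le_rfl⟩
    · rw [abs_of_nonneg (by linarith : 0 ≤ t - s)]
      simpa using h
    · have hr' : r ∈ Icc (0 : ℝ) 1 := ⟨hs.1.trans hr.1, hr.2.le.trans ht.2⟩
      obtain ⟨c1, c2⟩ := hC r hr' x
      obtain ⟨z1, z2⟩ := hζ r hr'
      rw [Real.norm_eq_abs, abs_mul, abs_neg, abs_of_nonneg (sq_nonneg β)]
      apply mul_le_mul_of_nonneg_left _ (sq_nonneg β)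
      have h1 : |ζ r * (deriv (f r) x) ^ 2| ≤ C ^ 2 := by
        rw [abs_mul, abs_of_nonneg z1, abs_of_nonneg (sq_nonneg _), ← sq_abs]
        have : |deriv (f r) x| ^ 2 ≤ C ^ 2 := pow_le_pow_left₀ (abs_nonneg _) c1 2
        nlinarith [sq_nonneg |deriv (f r) x|]
      calc _ ≤ |deriv (deriv (f r)) x| + |ζ r * (deriv (f r) x) ^ 2| := abs_add_le _ _
        _ ≤ _ := by linarith
  rcases le_total s t with h | h
  · exact key s t hs ht h
  · rw [abs_sub_comm, abs_sub_comm t s]; exact key t s ht hs h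

/-- the first `x`-derivative is continuous in time -/
theorem deriv_cont (hf : IsParisiSol β ζ f) (hζ : ∀ t ∈ Icc (0 : ℝ) 1, 0 ≤ ζ t ∧ ζ t ≤ 1)
    {t : ℝ} (ht : t ∈ Icc (0 : ℝ) 1) (x : ℝ) :
    ContinuousWithinAt (fun s => deriv (f s) x) (Icc 0 1) t := by
  obtain ⟨C, hC⟩ := hf.bdd
  have hC0 : 0 ≤ C := (abs_nonneg _).trans (hC t ht 0).1
  set L := β ^ 2 * (C + C ^ 2) with hL
  have hL0 : 0 ≤ L := by positivity
  rw [Metric.continuousWithinAt_iff]
  intro ε hε
  -- η with 2 C η ≤ ε/4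
  obtain ⟨η, hη0, hη⟩ : ∃ η : ℝ, 0 < η ∧ 2 * C * η ≤ ε / 4 := by
    refine ⟨ε / (8 * (C + 1)), by positivity, ?_⟩
    rw [mul_div_assoc', div_le_div_iff₀ (by positivity) (by norm_num)]
    nlinarith
  refine ⟨ε * η / (8 * (L + 1)), by positivity, ?_⟩
  intro s hs hst
  rw [Real.dist_eq] at hst ⊢
  have t1 := hf.taylor_x hC hs x (x + η)
  have t2 := hf.taylor_x hC ht x (x + η)
  have l1 := hf.lip_t hζ hC ht hs (x + η)
  have l2 := hf.lip_t hζ hC ht hs x
  have e : x + η - x = η := by ring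
  rw [e] at t1 t2
  have hLs : L * |s - t| ≤ ε * η / 8 := by
    have h1 : |s - t| ≤ ε * η / (8 * (L + 1)) := hst.le
    calc L * |s - t| ≤ (L + 1) * (ε * η / (8 * (L + 1))) :=
          mul_le_mul (by linarith) h1 (abs_nonneg _) (by positivity)
      _ = ε * η / 8 := by field_simp
  rw [← hL] at l1 l2
  have key : |(deriv (f s) x - deriv (f t) x) * η| ≤ 2 * C * η ^ 2 + ε * η / 4 := by
    have e2 : (deriv (f s) x - deriv (f t) x) * η
        = -(f s (x + η) - f s x - deriv (f s) x * η) + (f t (x + η) - f t x - deriv (f t) x * η)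
          + (f s (x + η) - f t (x + η)) - (f s x - f t x) := by ring
    rw [e2, abs_le]
    rw [abs_le] at t1 t2 l1 l2
    constructor <;> linarith [t1.1, t1.2, t2.1, t2.2, l1.1, l1.2, l2.1, l2.2]
  rw [abs_mul, abs_of_pos hη0] at key
  have h3 : 2 * C * η ^ 2 + ε * η / 4 ≤ (ε / 2) * η := by
    have : 2 * C * η * η ≤ ε / 4 * η := mul_le_mul_of_nonneg_right hη hη0.le
    nlinarith
  have h4 : |deriv (f s) x - deriv (f t) x| ≤ ε / 2 := le_of_mul_le_mul_right (key.trans h3) hη0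
  linarith

/-- chain rule from the right along a differentiable path -/
theorem chain_right (hf : IsParisiSol β ζ f) (hζ : ∀ t ∈ Icc (0 : ℝ) 1, 0 ≤ ζ t ∧ ζ t ≤ 1)
    {t : ℝ} (ht : t ∈ Ico (0 : ℝ) 1) {y : ℝ → ℝ} {y' : ℝ} (hy : HasDerivAt y y' t) :
    HasDerivWithinAt (fun s => f s (y s))
      (-β ^ 2 * (deriv (deriv (f t)) (y t) + ζ t * (deriv (f t) (y t)) ^ 2)
        + deriv (f t) (y t) * y') (Ici t) t := by
  obtain ⟨C, hC⟩ := hf.bdd
  have htI : t ∈ Icc (0 : ℝ) 1 := ⟨ht.1, ht.2.le⟩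
  have hC0 : 0 ≤ C := (abs_nonneg _).trans (hC t htI 0).1
  have h3 := hf.pde t ht (y t)
  -- first piece
  have hev : ∀ᶠ s in 𝓝[>] t, s ∈ Ioo t 1 := Ioo_mem_nhdsGT ht.2
  have hslope : Tendsto (slope y t) (𝓝[>] t) (𝓝 y') := by
    have := hy.hasDerivWithinAt (s := Ioi t)
    rwa [hasDerivWithinAt_iff_tendsto_slope' (by simp)] at this
  have hycont : Tendsto (fun s => y s - y t) (𝓝[>] t) (𝓝 0) := by
    have : ContinuousAt (fun s => y s - y t) t := hy.continuousAt.sub continuousAt_const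
    have h := this.tendsto
    simp only [sub_self] at h
    exact h.mono_left nhdsWithin_le_nhds
  have h1 : HasDerivWithinAt (fun s => f s (y s) - f s (y t) - deriv (f s) (y t) * (y s - y t)) 0
      (Ici t) t := by
    rw [← hasDerivWithinAt_Ioi_iff_Ici, hasDerivWithinAt_iff_tendsto_slope' (by simp)]
    have hlim : Tendsto (fun s => C * |slope y t s| * |y s - y t|) (𝓝[>] t) (𝓝 0) := by
      have := (hslope.abs.const_mul C).mul hycont.abs
      simpa using this
    apply squeeze_zero_norm' _ hlim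
    filter_upwards [hev] with s hs
    have hsI : s ∈ Icc (0 : ℝ) 1 := ⟨ht.1.trans hs.1.le, hs.2.le⟩
    have hpos : 0 < s - t := by linarith [hs.1]
    have h := hf.taylor_x hC hsI (y t) (y s)
    rw [slope_def_field, Real.norm_eq_abs, slope_def_field, abs_div, abs_div, abs_of_pos hpos]
    simp only [sub_self, mul_zero, sub_zero]
    rw [div_le_iff₀ hpos]
    calc _ ≤ C * (y s - y t) ^ 2 := h
      _ = C * (|y s - y t| / (s - t)) * |y s - y t| * (s - t) := by
          rw [← sq_abs]; field_simp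
  have h2 : HasDerivWithinAt (fun s => deriv (f s) (y t) * (y s - y t)) (deriv (f t) (y t) * y')
      (Ici t) t := by
    rw [← hasDerivWithinAt_Ioi_iff_Ici, hasDerivWithinAt_iff_tendsto_slope' (by simp)]
    have hD : Tendsto (fun s => deriv (f s) (y t)) (𝓝[>] t) (𝓝 (deriv (f t) (y t))) := by
      have := hf.deriv_cont hζ htI (y t)
      refine this.tendsto.mono_left ?_
      rw [nhdsWithin_le_iff]
      filter_upwards [hev] with s hs
      exact ⟨ht.1.trans hs.1.le, hs.2.le⟩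
    refine (hD.mul hslope).congr' ?_
    filter_upwards with s
    simp only [slope_def_field, sub_self, mul_zero, sub_zero]
    ring
  have h4 := (h1.add h2).add h3
  have h5 := h4.congr (f₁ := fun s => f s (y s)) (fun s _ => by simp only [Pi.add_apply]; ring)
    (by simp only [Pi.add_apply]; ring)
  refine h5.congr_deriv ?_
  ring

/-- **Step inequality.** -/
theorem step (hf : IsParisiSol β ζ f) (hζ : ∀ t ∈ Icc (0 : ℝ) 1, 0 ≤ ζ t ∧ ζ t ≤ 1)
    {s t m : ℝ} (hs : 0 ≤ s) (hst : s < t) (ht : t ≤ 1) (hm0 : 0 ≤ m)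
    (hm : ∀ r ∈ Ico s t, m ≤ ζ r) (p x : ℝ) (hβ : 0 < β) :
    (∫ z, f t (x + 2 * β ^ 2 * m * p * (t - s) + Real.sqrt (2 * β ^ 2 * (t - s)) * z) ∂gam)
      - β ^ 2 * m * p ^ 2 * (t - s) ≤ f s x := by
  obtain ⟨C, hC⟩ := hf.bdd
  have h0I : (0:ℝ) ∈ Icc (0:ℝ) 1 := ⟨le_rfl, zero_le_one⟩
  have hC0 : 0 ≤ C := (abs_nonneg _).trans (hC 0 h0I 0).1
  set L := β ^ 2 * (C + C ^ 2) with hL
  have hL0 : 0 ≤ L := by positivity
  set c := 2 * β ^ 2 * m * p with hc
  set y : ℝ → ℝ → ℝ := fun z τ => x + c * (τ - s) + Real.sqrt (2 * β ^ 2 * (τ - s)) * z with hy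
  set φ : ℝ → ℝ := fun τ => ∫ z, f τ (y z τ) ∂gam with hφ
  have hinI : ∀ τ ∈ Icc s t, τ ∈ Icc (0:ℝ) 1 := fun τ hτ => ⟨hs.trans hτ.1, hτ.2.trans ht⟩
  have hfc : ∀ τ ∈ Icc s t, Continuous (f τ) := fun τ hτ => (hf.smooth τ (hinI τ hτ)).continuous
  have hLG : ∀ τ ∈ Icc s t, LG (f τ) := by
    intro τ hτ
    refine ⟨hfc τ hτ, |f τ 0| + C, by positivity, fun w => ?_⟩
    have h1 := hf.lip_x hC (hinI τ hτ) w 0
    rw [sub_zero] at h1
    have h2 : |f τ w| ≤ |f τ 0| + |f τ w - f τ 0| := by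
      have := abs_add_le (f τ 0) (f τ w - f τ 0)
      rwa [add_sub_cancel] at this
    have := abs_nonneg w
    have := abs_nonneg (f τ 0)
    nlinarith
  have hint : ∀ τ ∈ Icc s t, Integrable (fun z => f τ (y z τ)) gam := fun τ hτ =>
    (hLG τ hτ).integrable _ _
  -- continuity of φ
  have hφc : ContinuousOn φ (Icc s t) := by
    apply continuousOn_of_dominated
      (bound := fun z => (|f 1 0| + L + C * (|x| + |c| * (t - s))) + (C * Real.sqrt (2 * β ^ 2 * (t - s))) * |z|)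
    · intro τ hτ; exact (hint τ hτ).aestronglyMeasurable
    · intro τ hτ
      refine Eventually.of_forall fun z => ?_
      rw [Real.norm_eq_abs]
      have h1 := hf.lip_t hζ hC (hinI τ hτ) ⟨zero_le_one, le_rfl⟩ 0
      have h2 := hf.lip_x hC (hinI τ hτ) (y z τ) 0
      rw [sub_zero] at h2
      have h3 : |y z τ| ≤ |x| + |c| * (t - s) + Real.sqrt (2 * β ^ 2 * (t - s)) * |z| := by
        have a1 : |c * (τ - s)| ≤ |c| * (t - s) := by
          rw [abs_mul, abs_of_nonneg (by linarith [hτ.1] : 0 ≤ τ - s)]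
          exact mul_le_mul_of_nonneg_left (by linarith [hτ.2]) (abs_nonneg c)
        have a2 : |Real.sqrt (2 * β ^ 2 * (τ - s)) * z| ≤ Real.sqrt (2 * β ^ 2 * (t - s)) * |z| := by
          rw [abs_mul, abs_of_nonneg (Real.sqrt_nonneg _)]
          apply mul_le_mul_of_nonneg_right _ (abs_nonneg z)
          apply Real.sqrt_le_sqrt
          exact mul_le_mul_of_nonneg_left (by linarith [hτ.2]) (by positivity)
        calc |y z τ| ≤ |x + c * (τ - s)| + |Real.sqrt (2 * β ^ 2 * (τ - s)) * z| := abs_add_le _ _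
          _ ≤ |x| + |c * (τ - s)| + |Real.sqrt (2 * β ^ 2 * (τ - s)) * z| := by
              linarith [abs_add_le x (c * (τ - s))]
          _ ≤ _ := by linarith
      have h4 : |1 - τ| ≤ 1 := by
        have := hinI τ hτ
        rw [abs_of_nonneg (by linarith [this.2])]; linarith [this.1]
      have h5 : L * |1 - τ| ≤ L := by nlinarith
      rw [← hL] at h1
      have h6 : C * |y z τ| ≤ C * (|x| + |c| * (t - s) + Real.sqrt (2 * β ^ 2 * (t - s)) * |z|) :=
        mul_le_mul_of_nonneg_left h3 hC0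
      have h7 : |f τ (y z τ)| ≤ |f 1 0| + |f 1 0 - f τ 0| + |f τ (y z τ) - f τ 0| := by
        have e : f τ (y z τ) = f 1 0 + (-(f 1 0 - f τ 0)) + (f τ (y z τ) - f τ 0) := by ring
        calc |f τ (y z τ)| = |f 1 0 + (-(f 1 0 - f τ 0)) + (f τ (y z τ) - f τ 0)| := by rw [← e]
          _ ≤ |f 1 0 + (-(f 1 0 - f τ 0))| + |f τ (y z τ) - f τ 0| := abs_add_le _ _
          _ ≤ |f 1 0| + |(-(f 1 0 - f τ 0))| + |f τ (y z τ) - f τ 0| := by
              linarith [abs_add_le (f 1 0) (-(f 1 0 - f τ 0))]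
          _ = _ := by rw [abs_neg]
      linarith
    · exact (integrable_const _).add (integrable_abs_gam.const_mul _)
    · refine Eventually.of_forall fun z => ?_
      intro τ hτ
      have hyc : Continuous (y z) := by rw [hy]; fun_prop
      rw [ContinuousWithinAt, Metric.tendsto_nhdsWithin_nhds]
      intro ε hε
      obtain ⟨δ₁, hδ₁, hδ₁'⟩ := Metric.continuousAt_iff.1 hyc.continuousAt (ε / (2 * (C + 1))) (by positivity)
      refine ⟨min δ₁ (ε / (2 * (L + 1))), by positivity, ?_⟩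
      intro r hr hrd
      rw [Real.dist_eq] at hrd ⊢
      have b1 := hδ₁' (lt_of_lt_of_le (by rwa [Real.dist_eq]) (min_le_left _ _))
      rw [Real.dist_eq] at b1
      have b2 : |r - τ| < ε / (2 * (L + 1)) := lt_of_lt_of_le hrd (min_le_right _ _)
      have l1 := hf.lip_x hC (hinI r hr) (y z r) (y z τ)
      have l2 := hf.lip_t hζ hC (hinI τ hτ) (hinI r hr) (y z τ)
      rw [← hL] at l2
      have c1 : C * |y z r - y z τ| ≤ (C + 1) * |y z r - y z τ| :=
        mul_le_mul_of_nonneg_right (by linarith) (abs_nonneg _)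
      have c2 : (C + 1) * |y z r - y z τ| < ε / 2 := by
        calc _ < (C + 1) * (ε / (2 * (C + 1))) := mul_lt_mul_of_pos_left b1 (by linarith)
          _ = ε / 2 := by field_simp
      have c3 : L * |r - τ| ≤ (L + 1) * |r - τ| :=
        mul_le_mul_of_nonneg_right (by linarith) (abs_nonneg _)
      have c4 : (L + 1) * |r - τ| < ε / 2 := by
        calc _ < (L + 1) * (ε / (2 * (L + 1))) := mul_lt_mul_of_pos_left b2 (by linarith)
          _ = ε / 2 := by field_simp
      have e : f r (y z r) - f τ (y z τ) = (f r (y z r) - f r (y z τ)) + (f r (y z τ) - f τ (y z τ)) := by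
        ring
      rw [e]
      linarith [abs_add_le (f r (y z r) - f r (y z τ)) (f r (y z τ) - f τ (y z τ))]
  -- right derivative of φ on (s, t)
  have hφd : ∀ τ ∈ Ioo s t, ∃ d, HasDerivWithinAt φ d (Ici τ) τ ∧ d ≤ β ^ 2 * m * p ^ 2 := by
    intro τ hτ
    have hτI : τ ∈ Icc s t := ⟨hτ.1.le, hτ.2.le⟩
    have hτ01 : τ ∈ Ico (0:ℝ) 1 := ⟨hs.trans hτ.1.le, lt_of_lt_of_le hτ.2 ht⟩
    have hpos : 0 < 2 * β ^ 2 * (τ - s) := mul_pos (by positivity) (by linarith [hτ.1])
    set σ := Real.sqrt (2 * β ^ 2 * (τ - s)) with hσ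
    have hσ0 : 0 < σ := Real.sqrt_pos.2 hpos
    set k := 2 * β ^ 2 / (2 * σ) with hk
    have hk0 : 0 < k := by positivity
    have hyd : ∀ z, HasDerivAt (y z) (c + k * z) τ := by
      intro z
      have e1 : HasDerivAt (fun r : ℝ => 2 * β ^ 2 * (r - s)) (2 * β ^ 2) τ := by
        simpa using ((hasDerivAt_id τ).sub_const s).const_mul (2 * β ^ 2)
      have e2 := (e1.sqrt hpos.ne').mul_const z
      have e3 : HasDerivAt (fun r : ℝ => x + c * (r - s)) c τ := by
        simpa using (((hasDerivAt_id τ).sub_const s).const_mul c).const_add x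
      exact e3.add e2
    have hptd : ∀ z, HasDerivWithinAt (fun r => f r (y z r))
      (-β ^ 2 * (deriv (deriv (f τ)) (y z τ) + ζ τ * (deriv (f τ) (y z τ)) ^ 2)
        + deriv (f τ) (y z τ) * (c + k * z)) (Ici τ) τ := fun z => hf.chain_right hζ hτ01 (hyd z)
    have hD := hasDerivWithinAt_integral_right (F := fun r z => f r (y z r))
      (F' := fun z => -β ^ 2 * (deriv (deriv (f τ)) (y z τ) + ζ τ * (deriv (f τ) (y z τ)) ^ 2)
        + deriv (f τ) (y z τ) * (c + k * z))
      (bound := fun z => (L + C * |c|) + (C * k) * |z|) (τ := τ) (t := t) hτ.2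
      (fun r hr => hint r ⟨hτ.1.le.trans hr.1, hr.2⟩)
      ((integrable_const _).add (integrable_abs_gam.const_mul _)) ?_ hptd
    · refine ⟨_, hD, ?_⟩
      -- compute and bound the derivative
      have m2 : Measurable (deriv (deriv (f τ))) := measurable_deriv _
      have m1 : Measurable (deriv (f τ)) := measurable_deriv _
      have hyz : ∀ z, y z τ = (x + c * (τ - s)) + σ * z := fun z => rfl
      have i1 : Integrable (fun z => deriv (deriv (f τ)) (y z τ)) gam := by
        simp only [hyz]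
        exact integrable_bdd (m2.comp (by fun_prop)) fun z => (hC τ (hinI τ hτI) _).2
      have i2 : Integrable (fun z => (deriv (f τ) (y z τ)) ^ 2) gam := by
        simp only [hyz]
        refine integrable_bdd (C := C ^ 2) ((m1.comp (by fun_prop)).pow_const 2) fun z => ?_
        rw [abs_pow]
        exact pow_le_pow_left₀ (abs_nonneg _) (hC τ (hinI τ hτI) _).1 2
      have i3 : Integrable (fun z => deriv (f τ) (y z τ)) gam := by
        simp only [hyz]
        exact integrable_bdd (m1.comp (by fun_prop)) fun z => (hC τ (hinI τ hτI) _).1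
      have i4 : Integrable (fun z => z * deriv (f τ) (y z τ)) gam := by
        simp only [hyz]
        exact integrable_mul_bdd (m1.comp (by fun_prop)) fun z => (hC τ (hinI τ hτI) _).1
      have hst := stein2 (hf.hd2 (hinI τ hτI)) (fun w => (hC τ (hinI τ hτI) w).1)
        (fun w => (hC τ (hinI τ hτI) w).2) (x + c * (τ - s)) σ
      have hst' : ∫ z, z * deriv (f τ) (y z τ) ∂gam = σ * ∫ z, deriv (deriv (f τ)) (y z τ) ∂gam := hst
      have e : ∀ z, -β ^ 2 * (deriv (deriv (f τ)) (y z τ) + ζ τ * (deriv (f τ) (y z τ)) ^ 2)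
          + deriv (f τ) (y z τ) * (c + k * z)
          = (((-β ^ 2) * deriv (deriv (f τ)) (y z τ) + (-β ^ 2 * ζ τ) * (deriv (f τ) (y z τ)) ^ 2)
            + c * deriv (f τ) (y z τ)) + k * (z * deriv (f τ) (y z τ)) := by intro z; ring
      have j1 : Integrable (fun z => (-β ^ 2) * deriv (deriv (f τ)) (y z τ)
          + (-β ^ 2 * ζ τ) * (deriv (f τ) (y z τ)) ^ 2) gam := (i1.const_mul _).add (i2.const_mul _)
      have j2 : Integrable (fun z => ((-β ^ 2) * deriv (deriv (f τ)) (y z τ)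
          + (-β ^ 2 * ζ τ) * (deriv (f τ) (y z τ)) ^ 2) + c * deriv (f τ) (y z τ)) gam :=
        j1.add (i3.const_mul _)
      have hval : ∫ z, (-β ^ 2 * (deriv (deriv (f τ)) (y z τ) + ζ τ * (deriv (f τ) (y z τ)) ^ 2)
          + deriv (f τ) (y z τ) * (c + k * z)) ∂gam
          = (-β ^ 2 * ζ τ) * ∫ z, (deriv (f τ) (y z τ)) ^ 2 ∂gam + c * ∫ z, deriv (f τ) (y z τ) ∂gam := by
        simp only [e]
        rw [integral_add j2 (i4.const_mul _), integral_add j1 (i3.const_mul _),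
          integral_add (i1.const_mul _) (i2.const_mul _), integral_const_mul, integral_const_mul,
          integral_const_mul, integral_const_mul, hst']
        have : k * σ = β ^ 2 := by rw [hk]; field_simp
        rw [← mul_assoc, this]
        ring
      rw [hval]
      have hmz := hm τ ⟨hτ.1.le, hτ.2⟩
      have hI2 : 0 ≤ ∫ z, (deriv (f τ) (y z τ)) ^ 2 ∂gam := integral_nonneg fun z => sq_nonneg _
      have hmain : -β ^ 2 * m * ∫ z, (deriv (f τ) (y z τ)) ^ 2 ∂gam + c * ∫ z, deriv (f τ) (y z τ) ∂gam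
          ≤ β ^ 2 * m * p ^ 2 := by
        have q1 : 0 ≤ ∫ z, (deriv (f τ) (y z τ) - p) ^ 2 ∂gam := integral_nonneg fun z => sq_nonneg _
        have q2 : ∫ z, (deriv (f τ) (y z τ) - p) ^ 2 ∂gam
            = (∫ z, (deriv (f τ) (y z τ)) ^ 2 ∂gam - (2 * p) * ∫ z, deriv (f τ) (y z τ) ∂gam) + p ^ 2 := by
          have e5 : ∀ z, (deriv (f τ) (y z τ) - p) ^ 2
              = ((deriv (f τ) (y z τ)) ^ 2 - (2 * p) * deriv (f τ) (y z τ)) + p ^ 2 := by
            intro z; ring
          have j3 : Integrable (fun z => (deriv (f τ) (y z τ)) ^ 2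
              - (2 * p) * deriv (f τ) (y z τ)) gam := i2.sub (i3.const_mul _)
          simp only [e5]
          rw [integral_add j3 (integrable_const _), integral_sub i2 (i3.const_mul _),
            integral_const_mul, integral_const]
          simp
        rw [q2] at q1
        have q3 : 0 ≤ (β ^ 2 * m) * ((∫ z, (deriv (f τ) (y z τ)) ^ 2 ∂gam
            - (2 * p) * ∫ z, deriv (f τ) (y z τ) ∂gam) + p ^ 2) := mul_nonneg (by positivity) q1
        have q4 : -β ^ 2 * m * ∫ z, (deriv (f τ) (y z τ)) ^ 2 ∂gam + c * ∫ z, deriv (f τ) (y z τ) ∂gam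
            = β ^ 2 * m * p ^ 2 - (β ^ 2 * m) * ((∫ z, (deriv (f τ) (y z τ)) ^ 2 ∂gam
            - (2 * p) * ∫ z, deriv (f τ) (y z τ) ∂gam) + p ^ 2) := by
          rw [hc]; ring
        rw [q4]; linarith
      have hfin : (-β ^ 2 * ζ τ) * ∫ z, (deriv (f τ) (y z τ)) ^ 2 ∂gam
          ≤ -β ^ 2 * m * ∫ z, (deriv (f τ) (y z τ)) ^ 2 ∂gam := by
        apply mul_le_mul_of_nonneg_right _ hI2
        nlinarith [sq_nonneg β]
      linarith
    · intro r hr z
      have hrI : r ∈ Icc s t := ⟨hτ.1.le.trans hr.1.le, hr.2⟩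
      have hrτ : 0 < r - τ := by linarith [hr.1]
      have l1 := hf.lip_x hC (hinI r hrI) (y z r) (y z τ)
      have l2 := hf.lip_t hζ hC (hinI τ hτI) (hinI r hrI) (y z τ)
      rw [← hL, abs_of_pos hrτ] at l2
      have hyr : |y z r - y z τ| ≤ (|c| + k * |z|) * (r - τ) := by
        have e1 : y z r - y z τ = c * (r - τ)
            + (Real.sqrt (2 * β ^ 2 * (r - s)) - σ) * z := by
          simp only [hy, hσ]; ring
        have hsq : |Real.sqrt (2 * β ^ 2 * (r - s)) - σ| ≤ k * (r - τ) := by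
          have g1 : σ ≤ Real.sqrt (2 * β ^ 2 * (r - s)) := by
            apply Real.sqrt_le_sqrt
            exact mul_le_mul_of_nonneg_left (by linarith) (by positivity)
          rw [abs_of_nonneg (by linarith)]
          have g2 : Real.sqrt (2 * β ^ 2 * (r - s)) ^ 2 = 2 * β ^ 2 * (r - s) :=
            Real.sq_sqrt (mul_nonneg (by positivity) (by linarith [hrI.1]))
          have g3 : σ ^ 2 = 2 * β ^ 2 * (τ - s) := Real.sq_sqrt hpos.le
          set R := Real.sqrt (2 * β ^ 2 * (r - s))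
          have g4 : (R - σ) * (R + σ) = 2 * β ^ 2 * (r - τ) := by
            calc (R - σ) * (R + σ) = R ^ 2 - σ ^ 2 := by ring
              _ = _ := by rw [g2, g3]; ring
          have g5 : (R - σ) * (2 * σ) ≤ (R - σ) * (R + σ) :=
            mul_le_mul_of_nonneg_left (by linarith) (by linarith)
          rw [g4] at g5
          rw [hk, div_mul_eq_mul_div, le_div_iff₀ (by positivity)]
          linarith
        rw [e1]
        calc |c * (r - τ) + (Real.sqrt (2 * β ^ 2 * (r - s)) - σ) * z|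
            ≤ |c * (r - τ)| + |(Real.sqrt (2 * β ^ 2 * (r - s)) - σ) * z| := abs_add_le _ _
          _ = |c| * (r - τ) + |Real.sqrt (2 * β ^ 2 * (r - s)) - σ| * |z| := by
              rw [abs_mul c, abs_mul _ z, abs_of_pos hrτ]
          _ ≤ |c| * (r - τ) + (k * (r - τ)) * |z| := by
              linarith [mul_le_mul_of_nonneg_right hsq (abs_nonneg z)]
          _ = _ := by ring
      have e : f r (y z r) - f τ (y z τ) = (f r (y z r) - f r (y z τ)) + (f r (y z τ) - f τ (y z τ)) := by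
        ring
      rw [e]
      have h8 := mul_le_mul_of_nonneg_left hyr hC0
      calc |(f r (y z r) - f r (y z τ)) + (f r (y z τ) - f τ (y z τ))|
          ≤ |f r (y z r) - f r (y z τ)| + |f r (y z τ) - f τ (y z τ)| := abs_add_le _ _
        _ ≤ C * ((|c| + k * |z|) * (r - τ)) + L * (r - τ) := by linarith
        _ = _ := by ring
  choose! d hd1 hd2 using hφd
  have hstep : ∀ a ∈ Ioo s t, φ t ≤ φ a + β ^ 2 * m * p ^ 2 * (t - a) := by
    intro a ha
    have h1 := image_le_of_deriv_right_le_deriv_boundary (f := φ) (f' := d) (a := a) (b := t)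
      (hφc.mono (Icc_subset_Icc_left ha.1.le))
      (fun r hr => hd1 r ⟨lt_of_lt_of_le ha.1 hr.1, hr.2⟩)
      (B := fun r => φ a + β ^ 2 * m * p ^ 2 * (r - a)) (B' := fun _ => β ^ 2 * m * p ^ 2)
      (by simp) (by fun_prop)
      (fun r _ => by
        have : HasDerivAt (fun r : ℝ => φ a + β ^ 2 * m * p ^ 2 * (r - a)) (β ^ 2 * m * p ^ 2) r := by
          simpa using (((hasDerivAt_id r).sub_const a).const_mul (β ^ 2 * m * p ^ 2)).const_add (φ a)
        exact this.hasDerivWithinAt)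
      (fun r hr => hd2 r ⟨lt_of_lt_of_le ha.1 hr.1, hr.2⟩)
    exact h1 ⟨ha.2.le, le_rfl⟩
  have hlim : Tendsto (fun a => φ a + β ^ 2 * m * p ^ 2 * (t - a)) (𝓝[>] s)
      (𝓝 (φ s + β ^ 2 * m * p ^ 2 * (t - s))) := by
    apply Tendsto.add
    · have := hφc s ⟨le_rfl, hst.le⟩
      refine this.tendsto.mono_left ?_
      rw [nhdsWithin_le_iff]
      filter_upwards [Ioo_mem_nhdsGT hst] with r hr
      exact ⟨hr.1.le, hr.2.le⟩
    · have : Continuous (fun a : ℝ => β ^ 2 * m * p ^ 2 * (t - a)) := by fun_prop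
      exact this.continuousAt.tendsto.mono_left nhdsWithin_le_nhds
  have hfin : φ t ≤ φ s + β ^ 2 * m * p ^ 2 * (t - s) := by
    refine ge_of_tendsto hlim ?_
    filter_upwards [Ioo_mem_nhdsGT hst] with r hr
    exact hstep r hr
  have hφs : φ s = f s x := by simp [hφ, hy]
  have hφt : φ t = ∫ z, f t (x + 2 * β ^ 2 * m * p * (t - s) + Real.sqrt (2 * β ^ 2 * (t - s)) * z) ∂gam :=
    rfl
  rw [hφs, hφt] at hfin
  linarith

end IsParisiSol

end Pool.Agent.N942.AT
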