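import Pool.Agent.N942.ATg

set_option autoImplicit false
open MeasureTheory ProbabilityTheory Set Filter Topology

namespace Pool.Agent.N942.AT

theorem integral_exp_gam (s : ℝ) : ∫ z, Real.exp (s * z) ∂gam = Real.exp (s ^ 2 / 2) := by
  have h := cm_shift (fun _ => (1:ℝ)) s
  simp only [integral_const, probReal_univ, smul_eq_mul, one_mul] at h
  have e : ∀ z, Real.exp (s * z - s ^ 2 / 2) = Real.exp (-(s ^ 2 / 2)) * Real.exp (s * z) := by
    intro z; rw [← Real.exp_add]; congr 1; ring
  simp only [e] at h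
  rw [integral_const_mul] at h
  have h2 : Real.exp (s ^ 2 / 2) * Real.exp (-(s ^ 2 / 2)) = 1 := by
    rw [← Real.exp_add, add_neg_cancel, Real.exp_zero]
  calc ∫ z, Real.exp (s * z) ∂gam
      = (Real.exp (s ^ 2 / 2) * Real.exp (-(s ^ 2 / 2))) * ∫ z, Real.exp (s * z) ∂gam := by
        rw [h2, one_mul]
    _ = Real.exp (s ^ 2 / 2) * (Real.exp (-(s ^ 2 / 2)) * ∫ z, Real.exp (s * z) ∂gam) := by ring
    _ = _ := by rw [← h, mul_one]

theorem integrable_LG_mul_exp {φ : ℝ → ℝ} (hφ : LG φ) (x r s : ℝ) :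
    Integrable (fun z => φ (x + r * z) * Real.exp (s * z)) gam := by
  obtain ⟨hc, C, hC0, hC⟩ := hφ
  have hb : Integrable (fun z : ℝ => (C * (1 + |x| + |r|)) *
      (Real.exp ((s + 1) * z) + Real.exp ((s - 1) * z))) gam :=
    ((integrable_exp_gam (s + 1)).add (integrable_exp_gam (s - 1))).const_mul _
  apply hb.mono'
  · exact (by fun_prop : Continuous (fun z => φ (x + r * z) * Real.exp (s * z))).aestronglyMeasurable
  · refine Eventually.of_forall fun z => ?_
    rw [Real.norm_eq_abs, abs_mul, abs_of_pos (Real.exp_pos _)]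
    have h1 : |x + r * z| ≤ |x| + |r| * |z| := by
      rw [← abs_mul]; exact abs_add_le _ _
    have h2 : |φ (x + r * z)| ≤ C * (1 + |x| + |r| * |z|) :=
      (hC _).trans (mul_le_mul_of_nonneg_left (by linarith) hC0)
    have h3 : 1 + |z| ≤ Real.exp |z| := by
      have := Real.add_one_le_exp |z|; linarith
    have h4 : Real.exp |z| * Real.exp (s * z)
        ≤ Real.exp ((s + 1) * z) + Real.exp ((s - 1) * z) := by
      rw [← Real.exp_add]
      rcases le_total 0 z with hz | hz
      · rw [abs_of_nonneg hz]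
        have : z + s * z = (s + 1) * z := by ring
        rw [this]
        linarith [Real.exp_pos ((s - 1) * z)]
      · rw [abs_of_nonpos hz]
        have : -z + s * z = (s - 1) * z := by ring
        rw [this]
        linarith [Real.exp_pos ((s + 1) * z)]
    have h5 : C * (1 + |x| + |r| * |z|) ≤ (C * (1 + |x| + |r|)) * Real.exp |z| := by
      have a1 : 1 + |x| + |r| * |z| ≤ (1 + |x| + |r|) * (1 + |z|) := by
        have := abs_nonneg x; have := abs_nonneg r; have := abs_nonneg z
        nlinarith [mul_nonneg (abs_nonneg x) (abs_nonneg z)]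
      have a2 : (1 + |x| + |r|) * (1 + |z|) ≤ (1 + |x| + |r|) * Real.exp |z| :=
        mul_le_mul_of_nonneg_left h3 (by positivity)
      calc C * (1 + |x| + |r| * |z|) ≤ C * ((1 + |x| + |r|) * Real.exp |z|) :=
            mul_le_mul_of_nonneg_left (a1.trans a2) hC0
        _ = _ := by ring
    calc |φ (x + r * z)| * Real.exp (s * z)
        ≤ ((C * (1 + |x| + |r|)) * Real.exp |z|) * Real.exp (s * z) :=
          mul_le_mul_of_nonneg_right (h2.trans h5) (Real.exp_nonneg _)
      _ = (C * (1 + |x| + |r|)) * (Real.exp |z| * Real.exp (s * z)) := by ring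
      _ ≤ _ := mul_le_mul_of_nonneg_left h4 (by positivity)

/-- weight -/
noncomputable def wt (s y : ℝ) : ℝ := Real.exp (s * y) / (2 * Real.cosh y)

theorem wt_add (y : ℝ) : wt 1 y + wt (-1) y = 1 := by
  unfold wt
  have := Real.cosh_pos y
  rw [← add_div, one_mul, neg_one_mul, div_eq_one_iff_eq (by positivity), Real.cosh_eq]
  ring

theorem wt_sub (y : ℝ) : wt 1 y - wt (-1) y = Real.tanh y := by
  unfold wt
  have := Real.cosh_pos y
  rw [← sub_div, one_mul, neg_one_mul, Real.tanh_eq_sinh_div_cosh, Real.sinh_eq,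
    div_eq_div_iff (by positivity) (by positivity)]
  ring

theorem wt_nonneg (s y : ℝ) : 0 ≤ wt s y := by
  unfold wt
  have := Real.cosh_pos y
  positivity

/-- the `h`-transformed semigroup as a mixture -/
noncomputable def Q (a : ℝ) (φ : ℝ → ℝ) (y : ℝ) : ℝ :=
  wt 1 y * P a φ (y + a) + wt (-1) y * P a φ (y - a)

theorem Q_const (a c y : ℝ) : Q a (fun _ => c) y = c := by
  unfold Q
  rw [P_const, P_const, ← add_mul, wt_add, one_mul]

theorem Q_add {f g : ℝ → ℝ} (hf : LG f) (hg : LG g) (a y : ℝ) :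
    Q a (fun y => f y + g y) y = Q a f y + Q a g y := by
  unfold Q
  rw [P_add hf hg, P_add hf hg]; ring

theorem Q_sub {f g : ℝ → ℝ} (hf : LG f) (hg : LG g) (a y : ℝ) :
    Q a (fun y => f y - g y) y = Q a f y - Q a g y := by
  unfold Q
  rw [P_sub hf hg, P_sub hf hg]; ring

theorem Q_const_mul (f : ℝ → ℝ) (c a y : ℝ) : Q a (fun y => c * f y) y = c * Q a f y := by
  unfold Q
  rw [P_const_mul, P_const_mul]; ring

theorem Q_sum {ι : Type} (s : Finset ι) {f : ι → ℝ → ℝ} (hf : ∀ i ∈ s, LG (f i)) (a y : ℝ) :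
    Q a (fun y => ∑ i ∈ s, f i y) y = ∑ i ∈ s, Q a (f i) y := by
  unfold Q
  rw [P_sum s hf, P_sum s hf, Finset.mul_sum, Finset.mul_sum, ← Finset.sum_add_distrib]

theorem P_shift_cm {a : ℝ} (ha : 0 ≤ a) (φ : ℝ → ℝ) (y : ℝ) (ε : ℝ) (hε : ε ^ 2 = 1) :
    P a φ (y + ε * a) = Real.exp (-(a / 2)) *
      ∫ z, φ (y + Real.sqrt a * z) * Real.exp ((ε * Real.sqrt a) * z) ∂gam := by
  have h := cm_shift (fun z => φ (y + Real.sqrt a * z)) (ε * Real.sqrt a)
  have e1 : ∀ z, φ (y + Real.sqrt a * (z + ε * Real.sqrt a)) = φ (y + ε * a + Real.sqrt a * z) := by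
    intro z
    congr 1
    have := Real.mul_self_sqrt ha
    calc y + Real.sqrt a * (z + ε * Real.sqrt a) = y + Real.sqrt a * z + ε * (Real.sqrt a * Real.sqrt a) := by ring
      _ = _ := by rw [this]; ring
  simp only [e1] at h
  unfold P
  rw [h, ← integral_const_mul]
  congr 1; ext z
  have e2 : Real.exp (ε * Real.sqrt a * z - (ε * Real.sqrt a) ^ 2 / 2)
      = Real.exp (-(a / 2)) * Real.exp (ε * Real.sqrt a * z) := by
    rw [← Real.exp_add]
    congr 1
    rw [mul_pow, hε, Real.sq_sqrt ha]; ring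
  rw [e2]; ring

/-- key formula: the mixture is the `cosh`-transform -/
theorem Q_eq {a : ℝ} (ha : 0 ≤ a) {φ : ℝ → ℝ} (hφ : LG φ) (y : ℝ) :
    Q a φ y = Real.exp (-(a / 2)) * sech y *
      ∫ z, φ (y + Real.sqrt a * z) * Real.cosh (y + Real.sqrt a * z) ∂gam := by
  have h1 := P_shift_cm ha φ y 1 (by norm_num)
  have h2 := P_shift_cm ha φ y (-1) (by norm_num)
  rw [one_mul] at h1
  have e0 : y + -1 * a = y - a := by ring
  rw [e0] at h2
  unfold Q
  rw [h1, h2]
  have i1 := integrable_LG_mul_exp hφ y (Real.sqrt a) (1 * Real.sqrt a)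
  have i2 := integrable_LG_mul_exp hφ y (Real.sqrt a) (-1 * Real.sqrt a)
  have h3 : ∫ z, φ (y + Real.sqrt a * z) * Real.cosh (y + Real.sqrt a * z) ∂gam
      = (Real.exp y / 2) * ∫ z, φ (y + Real.sqrt a * z) * Real.exp (1 * Real.sqrt a * z) ∂gam
        + (Real.exp (-y) / 2) * ∫ z, φ (y + Real.sqrt a * z) * Real.exp (-1 * Real.sqrt a * z) ∂gam := by
    rw [← integral_const_mul, ← integral_const_mul,
      ← integral_add (i1.const_mul _) (i2.const_mul _)]
    congr 1; ext z
    have e1 : Real.exp (y + Real.sqrt a * z) = Real.exp y * Real.exp (1 * Real.sqrt a * z) := by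
      rw [← Real.exp_add]; congr 1; ring
    have e2 : Real.exp (-(y + Real.sqrt a * z)) = Real.exp (-y) * Real.exp (-1 * Real.sqrt a * z) := by
      rw [← Real.exp_add]; congr 1; ring
    rw [Real.cosh_eq, e1, e2]; ring
  rw [h3]
  unfold wt sech
  have := (Real.cosh_pos y).ne'
  have e3 : (-1 : ℝ) * y = -y := by ring
  rw [one_mul, one_mul, e3]
  field_simp

/-- the odd version of the mixture -/
theorem Q_odd_eq {a : ℝ} (ha : 0 ≤ a) {φ : ℝ → ℝ} (hφ : LG φ) (y : ℝ) :
    wt 1 y * P a φ (y + a) - wt (-1) y * P a φ (y - a) = Real.exp (-(a / 2)) * sech y *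
      ∫ z, φ (y + Real.sqrt a * z) * Real.sinh (y + Real.sqrt a * z) ∂gam := by
  have h1 := P_shift_cm ha φ y 1 (by norm_num)
  have h2 := P_shift_cm ha φ y (-1) (by norm_num)
  rw [one_mul] at h1
  have e0 : y + -1 * a = y - a := by ring
  rw [e0] at h2
  rw [h1, h2]
  have i1 := integrable_LG_mul_exp hφ y (Real.sqrt a) (1 * Real.sqrt a)
  have i2 := integrable_LG_mul_exp hφ y (Real.sqrt a) (-1 * Real.sqrt a)
  have h3 : ∫ z, φ (y + Real.sqrt a * z) * Real.sinh (y + Real.sqrt a * z) ∂gam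
      = (Real.exp y / 2) * ∫ z, φ (y + Real.sqrt a * z) * Real.exp (1 * Real.sqrt a * z) ∂gam
        - (Real.exp (-y) / 2) * ∫ z, φ (y + Real.sqrt a * z) * Real.exp (-1 * Real.sqrt a * z) ∂gam := by
    rw [← integral_const_mul, ← integral_const_mul,
      ← integral_sub (i1.const_mul _) (i2.const_mul _)]
    congr 1; ext z
    have e1 : Real.exp (y + Real.sqrt a * z) = Real.exp y * Real.exp (1 * Real.sqrt a * z) := by
      rw [← Real.exp_add]; congr 1; ring
    have e2 : Real.exp (-(y + Real.sqrt a * z)) = Real.exp (-y) * Real.exp (-1 * Real.sqrt a * z) := by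
      rw [← Real.exp_add]; congr 1; ring
    rw [Real.sinh_eq, e1, e2]; ring
  rw [h3]
  unfold wt sech
  have := (Real.cosh_pos y).ne'
  have e3 : (-1 : ℝ) * y = -y := by ring
  rw [one_mul, one_mul, e3]
  field_simp

theorem tanh_mul_cosh (x : ℝ) : Real.tanh x * Real.cosh x = Real.sinh x := by
  rw [Real.tanh_eq_sinh_div_cosh, div_mul_cancel₀ _ (Real.cosh_pos x).ne']

/-- (Q1) `tanh` is harmonic -/
theorem Q_tanh {a : ℝ} (ha : 0 ≤ a) (y : ℝ) : Q a Real.tanh y = Real.tanh y := by
  rw [Q_eq ha LG_tanh]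
  simp only [tanh_mul_cosh]
  have e : ∀ z, Real.sinh (y + Real.sqrt a * z)
      = (Real.exp y / 2) * Real.exp (Real.sqrt a * z) - (Real.exp (-y) / 2) * Real.exp (-Real.sqrt a * z) := by
    intro z
    have e1 : Real.exp (y + Real.sqrt a * z) = Real.exp y * Real.exp (Real.sqrt a * z) := by
      rw [← Real.exp_add]
    have e2 : Real.exp (-(y + Real.sqrt a * z)) = Real.exp (-y) * Real.exp (-Real.sqrt a * z) := by
      rw [← Real.exp_add]; congr 1; ring
    rw [Real.sinh_eq, e1, e2]; ring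
  simp only [e]
  rw [integral_sub ((integrable_exp_gam _).const_mul _) ((integrable_exp_gam _).const_mul _),
    integral_const_mul, integral_const_mul, integral_exp_gam, integral_exp_gam, neg_sq,
    Real.sq_sqrt ha]
  have h2 : Real.exp (-(a / 2)) * Real.exp (a / 2) = 1 := by
    rw [← Real.exp_add, neg_add_cancel, Real.exp_zero]
  calc Real.exp (-(a / 2)) * sech y * (Real.exp y / 2 * Real.exp (a / 2) - Real.exp (-y) / 2 * Real.exp (a / 2))
      = (Real.exp (-(a / 2)) * Real.exp (a / 2)) * (((Real.exp y - Real.exp (-y)) / 2) * sech y) := by ring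
    _ = _ := by rw [h2, one_mul, ← Real.sinh_eq, tanh_eq]

/-- (Q2) -/
theorem Q_sigma_tanh {a : ℝ} (ha : 0 ≤ a) (y : ℝ) :
    wt 1 y * P a Real.tanh (y + a) - wt (-1) y * P a Real.tanh (y - a)
      = Q a (fun x => Real.tanh x ^ 2) y := by
  rw [Q_odd_eq ha LG_tanh, Q_eq ha LG_tanh_sq]
  congr 2
  ext z
  rw [← tanh_mul_cosh]; ring

theorem Q_id {a : ℝ} (y : ℝ) : Q a (fun x => x) y = y + a * Real.tanh y := by
  have h : ∀ x, P a (fun x => x) x = x := by
    intro x
    unfold P
    rw [integral_add (integrable_const _) (integrable_id_gam.const_mul _), integral_const_mul,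
      integral_id_gam]
    simp
  unfold Q
  rw [h, h]
  have h1 := wt_add y
  have h2 := wt_sub y
  calc wt 1 y * (y + a) + wt (-1) y * (y - a) = (wt 1 y + wt (-1) y) * y + a * (wt 1 y - wt (-1) y) := by ring
    _ = _ := by rw [h1, h2, one_mul]

theorem LG_id : LG (fun x : ℝ => x) :=
  ⟨continuous_id, 1, zero_le_one, fun x => by have := abs_nonneg x; linarith⟩

/-- (Q3) entropy inequality -/
theorem Q_lc {a : ℝ} (ha : 0 ≤ a) (y : ℝ) :
    lc y + a / 2 * (1 + Real.tanh y ^ 2) ≤ Q a lc y := by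
  set u := Real.tanh y with hu
  set s := Real.sqrt a with hs
  set c := Real.exp (-(a / 2)) * sech y with hc
  have hc0 : 0 < c := mul_pos (Real.exp_pos _) (sech_pos y)
  have hss : s ^ 2 = a := Real.sq_sqrt ha
  -- density
  set w : ℝ → ℝ := fun z => c * Real.cosh (y + s * z) with hw
  have hwpos : ∀ z, 0 < w z := fun z => mul_pos hc0 (Real.cosh_pos _)
  set r : ℝ → ℝ := fun z => Real.exp (u * s * z - u ^ 2 * a / 2) with hr
  have hlogw : ∀ z, Real.log (w z) = lc (y + s * z) - lc y - a / 2 := by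
    intro z
    have e1 : Real.log (w z) = Real.log c + lc (y + s * z) := by
      simp only [hw]
      rw [Real.log_mul hc0.ne' (Real.cosh_pos _).ne']; rfl
    have e2 : Real.log c = -(a / 2) - lc y := by
      simp only [hc, sech]
      rw [Real.log_mul (Real.exp_pos _).ne' (inv_pos.2 (Real.cosh_pos y)).ne', Real.log_exp,
        Real.log_inv]
      unfold lc
      ring
    rw [e1, e2]; ring
  have hpt : ∀ z, w z - r z ≤ w z * ((lc (y + s * z) - lc y - a / 2) - (u * s * z - u ^ 2 * a / 2)) := by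
    intro z
    have h1 : Real.log (r z / w z) ≤ r z / w z - 1 :=
      Real.log_le_sub_one_of_pos (div_pos (Real.exp_pos _) (hwpos z))
    rw [Real.log_div (Real.exp_pos _).ne' (hwpos z).ne', hlogw] at h1
    have h2 : Real.log (r z) = u * s * z - u ^ 2 * a / 2 := Real.log_exp _
    rw [h2] at h1
    have h3 := mul_le_mul_of_nonneg_left h1 (hwpos z).le
    have h4 : w z * (r z / w z - 1) = r z - w z := by
      field_simp [(hwpos z).ne']
    rw [h4] at h3
    linarith
  -- integrals against w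
  have hQ : ∀ {φ : ℝ → ℝ}, LG φ → ∫ z, w z * φ (y + s * z) ∂gam = Q a φ y := by
    intro φ hφ
    rw [Q_eq ha hφ, ← hc, ← integral_const_mul]
    congr 1; ext z; simp only [hw]; ring
  have hQi : ∀ {φ : ℝ → ℝ}, LG φ → Integrable (fun z => w z * φ (y + s * z)) gam := by
    intro φ hφ
    have i1 := integrable_LG_mul_exp hφ y s s
    have i2 := integrable_LG_mul_exp hφ y s (-s)
    have := ((i1.const_mul (Real.exp y / 2)).add (i2.const_mul (Real.exp (-y) / 2))).const_mul c
    refine this.congr (Eventually.of_forall fun z => ?_)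
    simp only [Pi.add_apply, hw]
    have e1 : Real.exp (y + s * z) = Real.exp y * Real.exp (s * z) := by rw [← Real.exp_add]
    have e2 : Real.exp (-(y + s * z)) = Real.exp (-y) * Real.exp (-s * z) := by
      rw [← Real.exp_add]; congr 1; ring
    rw [Real.cosh_eq, e1, e2]; ring
  have hri : ∫ z, r z ∂gam = 1 := by
    have e : ∀ z, r z = Real.exp (-(u ^ 2 * a / 2)) * Real.exp ((u * s) * z) := by
      intro z; simp only [hr]; rw [← Real.exp_add]; congr 1; ring
    simp only [e]
    rw [integral_const_mul, integral_exp_gam, ← Real.exp_add, mul_pow, hss]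
    rw [Real.exp_eq_one_iff]; ring
  have hrint : Integrable r gam := by
    have e : r = fun z => Real.exp (-(u ^ 2 * a / 2)) * Real.exp ((u * s) * z) := by
      ext z; simp only [hr]; rw [← Real.exp_add]; congr 1; ring
    rw [e]; exact (integrable_exp_gam _).const_mul _
  have hw1 : ∫ z, w z ∂gam = 1 := by
    have := hQ (LG.const 1)
    rw [Q_const] at this
    simpa using this
  have hwint : Integrable w gam := by
    have := hQi (LG.const 1)
    simpa using this
  -- the function on the right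
  set ψ : ℝ → ℝ := fun x => (lc x - u * x) + (-(lc y) - a / 2 + u * y + u ^ 2 * a / 2) with hψ
  have hψe : ∀ z, (lc (y + s * z) - lc y - a / 2) - (u * s * z - u ^ 2 * a / 2) = ψ (y + s * z) := by
    intro z; simp only [hψ]; ring
  have lψ1 : LG (fun x => lc x - u * x) := LG_lc.sub (LG_id.const_mul u)
  have lψ : LG ψ := lψ1.add (LG.const _)
  have key : ∫ z, (w z - r z) ∂gam ≤ ∫ z, w z * ψ (y + s * z) ∂gam := by
    apply integral_mono (hwint.sub hrint) (hQi lψ)
    intro z
    have := hpt z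
    rw [hψe] at this
    exact this
  rw [integral_sub hwint hrint, hw1, hri, sub_self, hQ lψ] at key
  have hQψ : Q a ψ y = Q a lc y - u * (y + a * u) + (-(lc y) - a / 2 + u * y + u ^ 2 * a / 2) := by
    rw [hψ, Q_add lψ1 (LG.const _), Q_sub LG_lc (LG_id.const_mul u), Q_const_mul, Q_const, Q_id]
  rw [hQψ] at key
  nlinarith

/-- `Ψ_b(y) = 1 - e^{-b/2} sech(y) (P_b sech)(y)` -/
noncomputable def Psi (b y : ℝ) : ℝ := 1 - Real.exp (-(b / 2)) * (sech y * P b sech y)

theorem Psi_zero (y : ℝ) : Psi 0 y = Real.tanh y ^ 2 := by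
  unfold Psi
  rw [P_zero, tanh_sq]; simp; ring

theorem abs_sech_le (x : ℝ) : |sech x| ≤ 1 := by
  rw [abs_of_nonneg (sech_nonneg x)]; exact sech_le_one x

theorem Psi_bounds {b : ℝ} (hb : 0 ≤ b) (y : ℝ) : 0 ≤ Psi b y ∧ Psi b y ≤ 1 := by
  have h1 : 0 ≤ P b sech y := P_nonneg sech_nonneg b y
  have h2 : P b sech y ≤ 1 := by
    have := P_abs_le abs_sech_le b y
    exact (le_abs_self _).trans this
  have h3 : Real.exp (-(b / 2)) ≤ 1 := Real.exp_le_one_iff.2 (by linarith)
  have h4 := Real.exp_pos (-(b / 2))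
  have h5 := sech_nonneg y
  have h6 := sech_le_one y
  have h7 : sech y * P b sech y ≤ 1 := mul_le_one₀ h6 h1 h2
  have h8 : 0 ≤ sech y * P b sech y := mul_nonneg h5 h1
  unfold Psi
  constructor
  · have := mul_le_one₀ h3 h8 h7
    linarith
  · have := mul_nonneg h4.le h8
    linarith

theorem LG_Psi {b : ℝ} (hb : 0 ≤ b) : LG (Psi b) := by
  have hc : Continuous (Psi b) := by
    unfold Psi
    have := (LG_sech.P b).1
    have := continuous_sech
    fun_prop
  apply LG.bdd hc (C := 1)
  intro y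
  have := Psi_bounds hb y
  rw [abs_of_nonneg this.1]; exact this.2

theorem Q_Psi {a b : ℝ} (ha : 0 ≤ a) (hb : 0 ≤ b) (y : ℝ) : Q a (Psi b) y = Psi (a + b) y := by
  have l1 : LG (fun y => sech y * P b sech y) := LG_sech_P LG_sech abs_sech_le b
  have e : Psi b = fun y => 1 - Real.exp (-(b / 2)) * (sech y * P b sech y) := rfl
  rw [e, Q_sub (LG.const 1) (l1.const_mul _), Q_const, Q_const_mul, Q_eq ha l1]
  have h1 : ∀ z, sech (y + Real.sqrt a * z) * P b sech (y + Real.sqrt a * z)
      * Real.cosh (y + Real.sqrt a * z) = P b sech (y + Real.sqrt a * z) := by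
    intro z
    have := sech_mul_cosh (y + Real.sqrt a * z)
    calc _ = (sech (y + Real.sqrt a * z) * Real.cosh (y + Real.sqrt a * z))
          * P b sech (y + Real.sqrt a * z) := by ring
      _ = _ := by rw [this, one_mul]
  simp only [h1]
  have h2 : ∫ z, P b sech (y + Real.sqrt a * z) ∂gam = P (a + b) sech y := P_P LG_sech ha hb y
  rw [h2]
  unfold Psi
  have h3 : Real.exp (-((a + b) / 2)) = Real.exp (-(b / 2)) * Real.exp (-(a / 2)) := by
    rw [← Real.exp_add]; congr 1; ring
  rw [h3]; ring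

/-- link with the moment `m`. -/
theorem P_Psi {b : ℝ} (v h : ℝ) : P v (Psi b) h = 1 - m v h 1 (b / 2) := by
  have l1 : LG (fun y => sech y * P b sech y) := LG_sech_P LG_sech abs_sech_le b
  have e : Psi b = fun y => 1 - Real.exp (-(b / 2)) * (sech y * P b sech y) := rfl
  rw [e, P_sub (LG.const 1) (l1.const_mul _), P_const, P_const_mul]
  unfold m B
  have : 2 * (b / 2) = b := by ring
  rw [this, S_one]

end Pool.Agent.N942.AT
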