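import Pool.Agent.N942.ATh
import Pool.Agent.N942.ATi
import Pool.Agent.N942.ATj

set_option autoImplicit false
open MeasureTheory ProbabilityTheory Set Filter Topology

namespace Pool.Agent.N942.AT

variable {β : ℝ} {ζ : ℝ → ℝ} {f : ℝ → ℝ → ℝ}

theorem IsParisiSol.stepP (hf : IsParisiSol β ζ f)
    (hζ : ∀ t ∈ Icc (0 : ℝ) 1, 0 ≤ ζ t ∧ ζ t ≤ 1) (hmono : MonotoneOn ζ (Icc 0 1)) (hβ : 0 < β)
    {s δ a : ℝ} (hs : 0 ≤ s) (hδ : 0 < δ) (ht : s + δ ≤ 1) (ha : a = 2 * β ^ 2 * δ) (p x : ℝ) :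
    P a (f (s + δ)) (x + a * ζ s * p) - a / 2 * ζ s * p ^ 2 ≤ f s x := by
  have hs1 : s ∈ Icc (0:ℝ) 1 := ⟨hs, by linarith⟩
  have h := hf.step hζ (s := s) (t := s + δ) (m := ζ s) hs (by linarith) ht (hζ s hs1).1
    (fun r hr => hmono hs1 ⟨hs.trans hr.1, by linarith [hr.2]⟩ hr.1) p x hβ
  have e : s + δ - s = δ := by ring
  rw [e] at h
  have e2 : P a (f (s + δ)) (x + a * ζ s * p)
      = ∫ z, f (s + δ) (x + 2 * β ^ 2 * ζ s * p * δ + Real.sqrt (2 * β ^ 2 * δ) * z) ∂gam := by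
    unfold P
    rw [ha]
    congr 1; ext z
    congr 1; ring
  rw [e2]
  have e3 : a / 2 * ζ s * p ^ 2 = β ^ 2 * ζ s * p ^ 2 * δ := by rw [ha]; ring
  rw [e3]; exact h

theorem IsParisiSol.LG (hf : IsParisiSol β ζ f) {t : ℝ} (ht : t ∈ Icc (0:ℝ) 1) : LG (f t) := by
  obtain ⟨C, hC⟩ := hf.bdd
  have hC0 : 0 ≤ C := (abs_nonneg _).trans (hC t ht 0).1
  refine ⟨(hf.smooth t ht).continuous, |f t 0| + C, by positivity, fun w => ?_⟩
  have h1 := hf.lip_x hC ht w 0
  rw [sub_zero] at h1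
  have h2 : |f t w| ≤ |f t 0| + |f t w - f t 0| := by
    have := abs_add_le (f t 0) (f t w - f t 0)
    rwa [add_sub_cancel] at this
  have := abs_nonneg w
  have := abs_nonneg (f t 0)
  nlinarith

/-- error function of stage A -/
noncomputable def RA (ζ : ℝ → ℝ) (a δ : ℝ) (k : ℕ) (y : ℝ) : ℝ :=
  -(a / 2) * ∑ i ∈ Finset.range k, (1 - ζ (1 - k * δ + i * δ)) * Psi (i * a) y
    + a * (Psi 0 y - Psi (k * a) y)

theorem LG_RA (ζ : ℝ → ℝ) {a : ℝ} (ha : 0 ≤ a) (δ : ℝ) (k : ℕ) : LG (RA ζ a δ k) := by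
  unfold RA
  apply LG.add
  · apply LG.const_mul
    apply LG.sum
    intro i _
    exact (LG_Psi (by positivity)).const_mul _
  · apply LG.const_mul
    exact (LG_Psi le_rfl).sub (LG_Psi (by positivity))

theorem Q_RA (ζ : ℝ → ℝ) {a : ℝ} (ha : 0 ≤ a) (δ : ℝ) (k : ℕ) (y : ℝ) :
    Q a (RA ζ a δ k) y
      = -(a / 2) * ∑ i ∈ Finset.range k, (1 - ζ (1 - k * δ + i * δ)) * Psi ((i + 1) * a) y
        + a * (Psi a y - Psi ((k + 1) * a) y) := by
  have l1 : ∀ i ∈ Finset.range k, LG (fun y => (1 - ζ (1 - k * δ + i * δ)) * Psi (i * a) y) :=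
    fun i _ => (LG_Psi (by positivity)).const_mul _
  have l2 : LG (fun y => ∑ i ∈ Finset.range k, (1 - ζ (1 - k * δ + i * δ)) * Psi (i * a) y) :=
    LG.sum _ l1
  have l3 : LG (fun y => Psi 0 y - Psi (k * a) y) :=
    (LG_Psi le_rfl).sub (LG_Psi (by positivity))
  have e : RA ζ a δ k = fun y => -(a / 2) * ∑ i ∈ Finset.range k,
      (1 - ζ (1 - k * δ + i * δ)) * Psi (i * a) y + a * (Psi 0 y - Psi (k * a) y) := rfl
  rw [e, Q_add (l2.const_mul _) (l3.const_mul _), Q_const_mul, Q_const_mul, Q_sum _ l1,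
    Q_sub (LG_Psi le_rfl) (LG_Psi (by positivity))]
  have e1 : Q a (fun y => Psi 0 y) y = Psi a y := by
    have := Q_Psi ha le_rfl y; rwa [add_zero] at this
  have e2 : Q a (fun y => Psi (k * a) y) y = Psi ((k + 1) * a) y := by
    have := Q_Psi ha (by positivity : 0 ≤ (k:ℝ) * a) y
    have e3 : a + k * a = (k + 1) * a := by ring
    rwa [e3] at this
  rw [e1, e2]
  congr 2
  apply Finset.sum_congr rfl
  intro i _
  rw [Q_const_mul]
  congr 1
  have := Q_Psi ha (by positivity : 0 ≤ (i:ℝ) * a) y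
  have e3 : a + i * a = (i + 1) * a := by ring
  rwa [e3] at this

theorem RA_succ (ζ : ℝ → ℝ) (a δ : ℝ) (k : ℕ) (y : ℝ) :
    RA ζ a δ (k + 1) y = a / 2 * (1 + ζ (1 - (k + 1) * δ)) * Real.tanh y ^ 2
      + (-(a / 2) * ∑ i ∈ Finset.range k, (1 - ζ (1 - k * δ + i * δ)) * Psi ((i + 1) * a) y
        - a * Psi ((k + 1) * a) y) := by
  unfold RA
  rw [Finset.sum_range_succ']
  push_cast
  have e : ∀ i : ℕ, 1 - ((k:ℝ) + 1) * δ + ((i:ℝ) + 1) * δ = 1 - k * δ + i * δ := by intro i; ring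
  simp only [e]
  rw [zero_mul, zero_mul, add_zero, Psi_zero]
  ring

theorem stageA (hf : IsParisiSol β ζ f)
    (hζ : ∀ t ∈ Icc (0 : ℝ) 1, 0 ≤ ζ t ∧ ζ t ≤ 1) (hmono : MonotoneOn ζ (Icc 0 1)) (hβ : 0 < β)
    {δ : ℝ} (hδ : 0 < δ) (k : ℕ) (hk : k * δ ≤ 1) : ∀ x y,
    lc y + β ^ 2 * (k * δ) + Real.tanh y * (x - y) + RA ζ (2 * β ^ 2 * δ) δ k y
      ≤ f (1 - k * δ) x := by
  induction k with
  | zero =>
    intro x y
    have h1 := lc_tangent x y
    have h2 : f 1 x = lc x := hf.terminal x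
    unfold RA
    simp only [Nat.cast_zero, zero_mul, sub_zero, mul_zero, add_zero, Finset.range_zero,
      Finset.sum_empty, sub_self]
    rw [h2]
    linarith
  | succ k ih =>
    intro x y
    have hk' : (k:ℝ) * δ ≤ 1 := by
      push_cast at hk; nlinarith
    have ih := ih hk'
    set a := 2 * β ^ 2 * δ with ha
    have ha0 : 0 ≤ a := by positivity
    set s : ℝ := 1 - ((k + 1 : ℕ) : ℝ) * δ with hs
    have hs0 : 0 ≤ s := by rw [hs]; linarith
    have hsd : s + δ = 1 - k * δ := by rw [hs]; push_cast; ring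
    have hsd1 : s + δ ≤ 1 := by rw [hsd]; have : 0 ≤ (k:ℝ) * δ := by positivity
                                linarith
    have hsdI : s + δ ∈ Icc (0:ℝ) 1 := ⟨by linarith, hsd1⟩
    set u := Real.tanh y with hu
    set mm := ζ s with hmm
    have hstep := hf.stepP hζ hmono hβ hs0 hδ hsd1 ha u x
    rw [← hmm] at hstep
    -- lower bounds for P a (f (s+δ)) (x + a m u), for each sign
    have lR := LG_RA ζ ha0 δ k
    have hlow : ∀ y', P a (f (s + δ)) (x + a * mm * u)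
        ≥ P a lc y' + β ^ 2 * (k * δ) + (x + a * mm * u - y') * P a Real.tanh y'
          + P a (RA ζ a δ k) y' := by
      intro y'
      set d := x + a * mm * u - y' with hd
      have l1 : LG (fun w => d * Real.tanh w) := LG_tanh.const_mul d
      have l2 : LG (fun w => lc w + β ^ 2 * (k * δ)) := LG_lc.add (LG.const _)
      have l3 : LG (fun w => lc w + β ^ 2 * (k * δ) + d * Real.tanh w) := l2.add l1
      have h1 : P a (fun w => lc w + β ^ 2 * (k * δ) + d * Real.tanh w + RA ζ a δ k w) y'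
          = P a lc y' + β ^ 2 * (k * δ) + d * P a Real.tanh y' + P a (RA ζ a δ k) y' := by
        rw [P_add l3 lR, P_add l2 l1, P_add LG_lc (LG.const _), P_const, P_const_mul]
      rw [← h1]
      unfold P
      apply integral_mono ((l3.add lR).integrable _ _) ((hf.LG hsdI).integrable _ _)
      intro z
      have h2 := ih (x + a * mm * u + Real.sqrt a * z) (y' + Real.sqrt a * z)
      rw [hsd]
      have e : x + a * mm * u + Real.sqrt a * z - (y' + Real.sqrt a * z) = d := by rw [hd]; ring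
      rw [e] at h2
      simp only
      linarith
    -- average
    have hp := hlow (y + a)
    have hm := hlow (y - a)
    have w1 := wt_nonneg 1 y
    have w2 := wt_nonneg (-1) y
    have wa := wt_add y
    set PF := P a (f (s + δ)) (x + a * mm * u) with hPF
    have havg : PF ≥ Q a lc y + β ^ 2 * (k * δ) + (x + a * mm * u - y) * Q a Real.tanh y
        - a * (wt 1 y * P a Real.tanh (y + a) - wt (-1) y * P a Real.tanh (y - a))
        + Q a (RA ζ a δ k) y := by
      have e1 : PF = wt 1 y * PF + wt (-1) y * PF := by rw [← add_mul, wa, one_mul]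
      have e2 : β ^ 2 * (k * δ) = wt 1 y * (β ^ 2 * (k * δ)) + wt (-1) y * (β ^ 2 * (k * δ)) := by
        rw [← add_mul, wa, one_mul]
      have b1 := mul_le_mul_of_nonneg_left hp w1
      have b2 := mul_le_mul_of_nonneg_left hm w2
      unfold Q
      linarith
    rw [Q_tanh ha0, Q_sigma_tanh ha0, Q_RA ζ ha0] at havg
    have hQt : Q a (fun x => Real.tanh x ^ 2) y = Psi a y := by
      have h1 : (fun x => Real.tanh x ^ 2) = Psi 0 := by ext x; rw [Psi_zero]
      rw [h1, Q_Psi ha0 le_rfl, add_zero]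
    rw [hQt] at havg
    have hQl := Q_lc ha0 y
    have hRs := RA_succ ζ a δ k y
    have e5 : ζ (1 - ((k:ℝ) + 1) * δ) = mm := by rw [hmm, hs]; push_cast; rfl
    rw [e5, ← hu] at hRs
    rw [← hu] at hQl havg
    rw [hRs]
    have e6 : β ^ 2 * (((k + 1 : ℕ) : ℝ) * δ) = β ^ 2 * (k * δ) + a / 2 := by
      rw [ha]; push_cast; ring
    rw [e6]
    have e7 : (x + a * mm * u - y) * u = u * (x - y) + a * mm * u ^ 2 := by ring
    rw [e7] at havg
    linarith

/-- error function of stage B -/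
noncomputable def RB (ζ : ℝ → ℝ) (q a δ : ℝ) (R0 : ℝ → ℝ) (k : ℕ) (y : ℝ) : ℝ :=
  P (k * a) R0 y + a / 2 * ∑ i ∈ Finset.range k, ζ (q - k * δ + i * δ) *
    P (i * a) (fun w => P ((k - i) * a) Real.tanh w ^ 2) y

theorem LG_RB (ζ : ℝ → ℝ) (q a δ : ℝ) {R0 : ℝ → ℝ} (hR : LG R0) (k : ℕ) :
    LG (RB ζ q a δ R0 k) := by
  unfold RB
  apply LG.add (hR.P _)
  apply LG.const_mul
  apply LG.sum
  intro i _
  exact ((LG_P_tanh_sq _).P _).const_mul _

theorem P_RB (ζ : ℝ → ℝ) (q δ : ℝ) {a : ℝ} (ha : 0 ≤ a) {R0 : ℝ → ℝ} (hR : LG R0) (k : ℕ) (y : ℝ) :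
    P a (RB ζ q a δ R0 k) y = P ((k + 1) * a) R0 y + a / 2 * ∑ i ∈ Finset.range k,
      ζ (q - k * δ + i * δ) * P ((i + 1) * a) (fun w => P ((k - i) * a) Real.tanh w ^ 2) y := by
  have l1 : ∀ i ∈ Finset.range k, LG (fun y => ζ (q - k * δ + i * δ) *
      P (i * a) (fun w => P ((k - i) * a) Real.tanh w ^ 2) y) :=
    fun i _ => ((LG_P_tanh_sq _).P _).const_mul _
  have l2 := LG.sum _ l1
  have e : RB ζ q a δ R0 k = fun y => P (k * a) R0 y + a / 2 * ∑ i ∈ Finset.range k,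
    ζ (q - k * δ + i * δ) * P (i * a) (fun w => P ((k - i) * a) Real.tanh w ^ 2) y := rfl
  rw [e, P_add (hR.P _) (l2.const_mul _), P_const_mul, P_sum _ l1]
  have e1 : P a (fun y => P (k * a) R0 y) y = P ((k + 1) * a) R0 y := by
    have := P_P hR ha (by positivity : 0 ≤ (k:ℝ) * a) y
    have e3 : a + k * a = (k + 1) * a := by ring
    rwa [e3] at this
  rw [e1]
  congr 2
  apply Finset.sum_congr rfl
  intro i _
  rw [P_const_mul]
  congr 1
  have := P_P (LG_P_tanh_sq ((k - i) * a)) ha (by positivity : 0 ≤ (i:ℝ) * a) y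
  have e3 : a + i * a = (i + 1) * a := by ring
  rwa [e3] at this

theorem RB_succ (ζ : ℝ → ℝ) (q a δ : ℝ) (R0 : ℝ → ℝ) (k : ℕ) (y : ℝ) :
    RB ζ q a δ R0 (k + 1) y = P ((k + 1) * a) R0 y
      + a / 2 * (∑ i ∈ Finset.range k, ζ (q - k * δ + i * δ) *
          P ((i + 1) * a) (fun w => P ((k - i) * a) Real.tanh w ^ 2) y
        + ζ (q - (k + 1) * δ) * P ((k + 1) * a) Real.tanh y ^ 2) := by
  unfold RB
  rw [Finset.sum_range_succ']
  push_cast
  have e : ∀ i : ℕ, q - ((k:ℝ) + 1) * δ + ((i:ℝ) + 1) * δ = q - k * δ + i * δ := by intro i; ring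
  have e2 : ∀ i : ℕ, ((k:ℝ) + 1 - ((i:ℝ) + 1)) * a = (k - i) * a := by intro i; ring
  simp only [e, e2]
  rw [zero_mul, zero_mul, add_zero, sub_zero, P_zero]

theorem stageB (hf : IsParisiSol β ζ f)
    (hζ : ∀ t ∈ Icc (0 : ℝ) 1, 0 ≤ ζ t ∧ ζ t ≤ 1) (hmono : MonotoneOn ζ (Icc 0 1)) (hβ : 0 < β)
    {q c : ℝ} (hq : q ≤ 1) {R0 : ℝ → ℝ} (hR : LG R0)
    (h0 : ∀ x y, lc y + c + Real.tanh y * (x - y) + R0 y ≤ f q x)
    {δ : ℝ} (hδ : 0 < δ) (k : ℕ) (hk : k * δ ≤ q) : ∀ x y,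
    P (k * (2 * β ^ 2 * δ)) lc y + c + P (k * (2 * β ^ 2 * δ)) Real.tanh y * (x - y)
      + RB ζ q (2 * β ^ 2 * δ) δ R0 k y ≤ f (q - k * δ) x := by
  induction k with
  | zero =>
    intro x y
    have := h0 x y
    unfold RB
    simp only [Nat.cast_zero, zero_mul, sub_zero, Finset.range_zero, Finset.sum_empty, mul_zero,
      add_zero, P_zero]
    exact this
  | succ k ih =>
    intro x y
    have hk' : (k:ℝ) * δ ≤ q := by push_cast at hk; nlinarith
    have ih := ih hk'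
    set a := 2 * β ^ 2 * δ with ha
    have ha0 : 0 ≤ a := by positivity
    set s : ℝ := q - ((k + 1 : ℕ) : ℝ) * δ with hs
    have hs0 : 0 ≤ s := by rw [hs]; linarith
    have hsd : s + δ = q - k * δ := by rw [hs]; push_cast; ring
    have hsd1 : s + δ ≤ 1 := by rw [hsd]; have : 0 ≤ (k:ℝ) * δ := by positivity
                                linarith
    have hsdI : s + δ ∈ Icc (0:ℝ) 1 := ⟨by linarith, hsd1⟩
    have hka : (0:ℝ) ≤ k * a := by positivity
    set p := P ((k + 1) * a) Real.tanh y with hp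
    set mm := ζ s with hmm
    have hstep := hf.stepP hζ hmono hβ hs0 hδ hsd1 ha p x
    rw [← hmm] at hstep
    have lR := LG_RB ζ q a δ hR k
    set d := x + a * mm * p - y with hd
    have l1 : LG (fun w => d * P (k * a) Real.tanh w) := (LG_tanh.P _).const_mul d
    have l2 : LG (fun w => P (k * a) lc w + c) := (LG_lc.P _).add (LG.const _)
    have l3 : LG (fun w => P (k * a) lc w + c + d * P (k * a) Real.tanh w) := l2.add l1
    have e1 : P a (fun w => P (k * a) lc w) y = P ((k + 1) * a) lc y := by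
      have := P_P LG_lc ha0 hka y
      have e3 : a + k * a = (k + 1) * a := by ring
      rwa [e3] at this
    have e2 : P a (fun w => P (k * a) Real.tanh w) y = p := by
      have := P_P LG_tanh ha0 hka y
      have e3 : a + k * a = (k + 1) * a := by ring
      rwa [e3] at this
    have h1 : P a (fun w => P (k * a) lc w + c + d * P (k * a) Real.tanh w + RB ζ q a δ R0 k w) y
        = P ((k + 1) * a) lc y + c + d * p + P a (RB ζ q a δ R0 k) y := by
      rw [P_add l3 lR, P_add l2 l1, P_add (LG_lc.P _) (LG.const _), P_const, P_const_mul, e1, e2]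
    have hlow : P a (fun w => P (k * a) lc w + c + d * P (k * a) Real.tanh w + RB ζ q a δ R0 k w) y
        ≤ P a (f (s + δ)) (x + a * mm * p) := by
      unfold P
      apply integral_mono ((l3.add lR).integrable _ _) ((hf.LG hsdI).integrable _ _)
      intro z
      have h2 := ih (x + a * mm * p + Real.sqrt a * z) (y + Real.sqrt a * z)
      rw [hsd]
      have e : x + a * mm * p + Real.sqrt a * z - (y + Real.sqrt a * z) = d := by rw [hd]; ring
      rw [e] at h2
      simp only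
      linarith
    rw [h1, P_RB ζ q δ ha0 hR k] at hlow
    have hRs := RB_succ ζ q a δ R0 k y
    have e5 : ζ (q - ((k:ℝ) + 1) * δ) = mm := by rw [hmm, hs]; push_cast; rfl
    rw [e5, ← hp] at hRs
    rw [hRs]
    have e6 : (((k + 1 : ℕ) : ℝ)) = (k:ℝ) + 1 := by push_cast; ring
    rw [e6, ← hp]
    have e7 : d * p = p * (x - y) + a * mm * p ^ 2 := by rw [hd]; ring
    rw [e7] at hlow
    linarith

end Pool.Agent.N942.AT
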