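import Pool.Agent.N942.ATk

set_option autoImplicit false
open MeasureTheory ProbabilityTheory Set Filter Topology

namespace Pool.Agent.N942.AT

/-- upper Riemann-type bound for monotone functions by left sums -/
theorem riemann_mono {φ : ℝ → ℝ} {a b : ℝ} (hφ : MonotoneOn φ (Icc a b)) {n : ℕ} (hn : 0 < n)
    (hab : a ≤ b) :
    ∫ t in a..b, φ t ≤ (b - a) / n * ∑ i ∈ Finset.range n, φ (a + i * ((b - a) / n))
      + (b - a) / n * (φ b - φ a) := by
  set δ := (b - a) / n with hδ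
  have hn' : (0:ℝ) < n := by exact_mod_cast hn
  have hδ0 : 0 ≤ δ := div_nonneg (by linarith) hn'.le
  have hnδ : n * δ = b - a := by rw [hδ]; field_simp
  have key : ∀ k : ℕ, k ≤ n → ∫ t in a..(a + k * δ), φ t
      ≤ δ * ∑ i ∈ Finset.range k, φ (a + i * δ) + δ * (φ (a + k * δ) - φ a) := by
    intro k
    induction k with
    | zero => intro _; simp
    | succ k ih =>
      intro hk
      have ih := ih (by omega)
      have hk1 : ((k:ℝ) + 1) * δ ≤ n * δ := by
        apply mul_le_mul_of_nonneg_right _ hδ0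
        exact_mod_cast hk
      have hkδ : 0 ≤ (k:ℝ) * δ := by positivity
      have hmem0 : a + k * δ ∈ Icc a b := ⟨by linarith, by linarith⟩
      have hmem1 : a + ((k:ℝ) + 1) * δ ∈ Icc a b := ⟨by linarith, by linarith⟩
      have hamem : a ∈ Icc a b := ⟨le_rfl, hab⟩
      have i1 : IntervalIntegrable φ volume a (a + k * δ) := by
        apply MonotoneOn.intervalIntegrable
        rw [uIcc_of_le (by linarith)]
        exact hφ.mono (Icc_subset_Icc le_rfl hmem0.2)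
      have i2 : IntervalIntegrable φ volume (a + k * δ) (a + ((k:ℝ) + 1) * δ) := by
        apply MonotoneOn.intervalIntegrable
        rw [uIcc_of_le (by linarith)]
        exact hφ.mono (Icc_subset_Icc hmem0.1 hmem1.2)
      have h1 := intervalIntegral.integral_add_adjacent_intervals i1 i2
      have h2 : ∫ t in (a + k * δ)..(a + ((k:ℝ) + 1) * δ), φ t ≤ δ * φ (a + ((k:ℝ) + 1) * δ) := by
        have h3 : ∫ t in (a + k * δ)..(a + ((k:ℝ) + 1) * δ), φ t
            ≤ ∫ _t in (a + k * δ)..(a + ((k:ℝ) + 1) * δ), φ (a + ((k:ℝ) + 1) * δ) := by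
          apply intervalIntegral.integral_mono_on (by linarith) i2 (by simp)
          intro t ht
          exact hφ ⟨hmem0.1.trans ht.1, ht.2.trans hmem1.2⟩ hmem1 ht.2
        rw [intervalIntegral.integral_const] at h3
        have e : a + ((k:ℝ) + 1) * δ - (a + k * δ) = δ := by ring
        rw [e, smul_eq_mul] at h3
        exact h3
      push_cast
      rw [← h1, Finset.sum_range_succ]
      linarith
  have := key n le_rfl
  rw [hnδ] at this
  have e : a + (b - a) = b := by ring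
  rw [e] at this
  exact this

theorem riemann_id {a b : ℝ} {n : ℕ} (hn : 0 < n) :
    (b - a) / n * ∑ i ∈ Finset.range n, (a + i * ((b - a) / n)) ≤ ∫ t in a..b, t := by
  rw [integral_id]
  have hn' : (0:ℝ) < n := by exact_mod_cast hn
  have h1 : ∀ m : ℕ, ∑ i ∈ Finset.range m, (a + i * ((b - a) / n))
      = m * a + ((b - a) / n) * (m * (m - 1) / 2) := by
    intro m
    induction m with
    | zero => simp
    | succ m ih => rw [Finset.sum_range_succ, ih]; push_cast; ring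
  rw [h1]
  have h2 : (b - a) / n * (n * a + (b - a) / n * (n * (n - 1) / 2))
      = (b ^ 2 - a ^ 2) / 2 - (b - a) ^ 2 / (2 * n) := by
    field_simp
    ring
  rw [h2]
  have : 0 ≤ (b - a) ^ 2 / (2 * n) := by positivity
  linarith

variable {β : ℝ} {ζ : ℝ → ℝ} {f : ℝ → ℝ → ℝ}

theorem RA_lower {h q κ : ℝ} (hκ : 0 < κ) (hq0 : 0 ≤ q)
    (hq : q = P (κ * q) (fun x => Real.tanh x ^ 2) h) (hAT : κ * P (κ * q) (S 4) h ≤ 1)
    (hζ : ∀ t ∈ Icc (0 : ℝ) 1, 0 ≤ ζ t ∧ ζ t ≤ 1) {δ : ℝ} (hδ : 0 ≤ δ) {n : ℕ}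
    (hn : n * δ = 1 - q) :
    -(κ * δ / 2) * ∑ i ∈ Finset.range n, (1 - ζ (q + i * δ)) * (q + i * δ) - κ * δ
      ≤ P (κ * q) (RA ζ (κ * δ) δ n) h := by
  have ha : 0 ≤ κ * δ := by positivity
  have l1 : ∀ i ∈ Finset.range n, LG (fun y => (1 - ζ (1 - n * δ + i * δ)) * Psi (i * (κ * δ)) y) :=
    fun i _ => (LG_Psi (by positivity)).const_mul _
  have l3 : LG (fun y => Psi 0 y - Psi (n * (κ * δ)) y) :=
    (LG_Psi le_rfl).sub (LG_Psi (by positivity))
  have e : RA ζ (κ * δ) δ n = fun y => -(κ * δ / 2) * ∑ i ∈ Finset.range n,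
      (1 - ζ (1 - n * δ + i * δ)) * Psi (i * (κ * δ)) y + κ * δ * (Psi 0 y - Psi (n * (κ * δ)) y) := rfl
  rw [e, P_add ((LG.sum _ l1).const_mul _) (l3.const_mul _), P_const_mul, P_const_mul, P_sum _ l1]
  have h1 : -1 ≤ P (κ * q) (fun y => Psi 0 y - Psi (n * (κ * δ)) y) h := by
    have := P_mono (LG.const (-1)) l3 (fun y => by
      have a1 := (Psi_bounds le_rfl y).1
      have a2 := (Psi_bounds (b := n * (κ * δ)) (by positivity) y).2
      linarith) (κ * q) h
    rwa [P_const] at this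
  have hn1 : (n:ℝ) * δ ≤ 1 := by linarith
  have h2 : ∑ i ∈ Finset.range n, P (κ * q) (fun y => (1 - ζ (1 - n * δ + i * δ)) * Psi (i * (κ * δ)) y) h
      ≤ ∑ i ∈ Finset.range n, (1 - ζ (q + i * δ)) * (q + i * δ) := by
    apply Finset.sum_le_sum
    intro i hi
    have hi' : (i:ℝ) ≤ n := by exact_mod_cast (Finset.mem_range.1 hi).le
    rw [P_const_mul]
    have e1 : 1 - n * δ + i * δ = q + i * δ := by rw [hn]; ring
    rw [e1]
    have hiδ : 0 ≤ (i:ℝ) * δ := by positivity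
    have hiδ2 : (i:ℝ) * δ ≤ n * δ := mul_le_mul_of_nonneg_right hi' hδ
    have hz := hζ (q + i * δ) ⟨by linarith, by linarith⟩
    apply mul_le_mul_of_nonneg_left _ (by linarith)
    have h3 := core_A hκ hq0 hq hAT (i * δ) hiδ
    have h4 := P_Psi (b := i * (κ * δ)) (κ * q) h
    have e2 : (i:ℝ) * (κ * δ) / 2 = κ * (i * δ) / 2 := by ring
    rw [e2] at h4
    have h5 : P (κ * q) (fun y => Psi (i * (κ * δ)) y) h = 1 - m (κ * q) h 1 (κ * (i * δ) / 2) := h4
    rw [h5]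
    linarith
  have h6 := mul_le_mul_of_nonneg_left h2 (by positivity : 0 ≤ κ * δ / 2)
  have h7 := mul_le_mul_of_nonneg_left h1 ha
  linarith

theorem lower_discrete (hf : IsParisiSol β ζ f)
    (hζ : ∀ t ∈ Icc (0 : ℝ) 1, 0 ≤ ζ t ∧ ζ t ≤ 1) (hmono : MonotoneOn ζ (Icc 0 1)) (hβ : 0 < β)
    {h q : ℝ} (hq0 : 0 ≤ q) (hq1 : q < 1)
    (hq : q = P (2 * β ^ 2 * q) (fun x => Real.tanh x ^ 2) h)
    (hAT : 2 * β ^ 2 * P (2 * β ^ 2 * q) (S 4) h ≤ 1) {n : ℕ} (hn : 0 < n) :
    P (2 * β ^ 2 * q) lc h + β ^ 2 * (1 - q)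
      + β ^ 2 * (q / n) * ∑ i ∈ Finset.range n, ζ (i * (q / n)) * (i * (q / n))
      - β ^ 2 * ((1 - q) / n) * ∑ i ∈ Finset.range n,
          (1 - ζ (q + i * ((1 - q) / n))) * (q + i * ((1 - q) / n))
      - 2 * β ^ 2 * ((1 - q) / n) ≤ f 0 h := by
  set κ := 2 * β ^ 2 with hκd
  have hκ : 0 < κ := by positivity
  have hn' : (0:ℝ) < n := by exact_mod_cast hn
  set δ := (1 - q) / n with hδ
  have hδ0 : 0 < δ := div_pos (by linarith) hn'
  have hnδ : n * δ = 1 - q := by rw [hδ]; field_simp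
  have hA := stageA hf hζ hmono hβ hδ0 n (by linarith)
  have e1 : 1 - (n:ℝ) * δ = q := by linarith
  rw [e1, ← hκd, hnδ] at hA
  have hRA := RA_lower hκ hq0 hq hAT hζ hδ0.le hnδ
  have lRA := LG_RA ζ (by positivity : 0 ≤ κ * δ) δ n
  rcases hq0.lt_or_eq with hqp | hqp
  · set δ' := q / n with hδ'
    have hδ'0 : 0 < δ' := div_pos hqp hn'
    have hnδ' : n * δ' = q := by rw [hδ']; field_simp
    have hB := stageB hf hζ hmono hβ hq1.le lRA hA hδ'0 n hnδ'.le h h
    rw [sub_self, mul_zero, add_zero, hnδ', sub_self, ← hκd] at hB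
    have e2 : (n:ℝ) * (κ * δ') = κ * q := by rw [← hnδ']; ring
    rw [e2] at hB
    have hRB : P (κ * q) (RA ζ (κ * δ) δ n) h
        + β ^ 2 * δ' * ∑ i ∈ Finset.range n, ζ (i * δ') * (i * δ')
        ≤ RB ζ q (κ * δ') δ' (RA ζ (κ * δ) δ n) n h := by
      unfold RB
      rw [e2]
      have e3 : κ * δ' / 2 = β ^ 2 * δ' := by rw [hκd]; ring
      rw [e3]
      have h1 : ∑ i ∈ Finset.range n, ζ (i * δ') * (i * δ')
          ≤ ∑ i ∈ Finset.range n, ζ (q - n * δ' + i * δ') *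
            P (i * (κ * δ')) (fun w => P ((n - i) * (κ * δ')) Real.tanh w ^ 2) h := by
        apply Finset.sum_le_sum
        intro i hi
        have hi' : (i:ℝ) ≤ n := by exact_mod_cast (Finset.mem_range.1 hi).le
        have hiδ : 0 ≤ (i:ℝ) * δ' := by positivity
        have hiδ2 : (i:ℝ) * δ' ≤ q := by rw [← hnδ']; exact mul_le_mul_of_nonneg_right hi' hδ'0.le
        have e4 : q - n * δ' + i * δ' = i * δ' := by rw [hnδ']; ring
        rw [e4]
        apply mul_le_mul_of_nonneg_left _ (hζ _ ⟨hiδ, by linarith⟩).1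
        have hF := F_ge hκ hq hAT hiδ hiδ2
        unfold F at hF
        have e5 : κ * (i * δ') = i * (κ * δ') := by ring
        have e6 : κ * (q - i * δ') = (n - i) * (κ * δ') := by
          rw [show κ * (q - i * δ') = κ * q - κ * (i * δ') by ring, ← hnδ']; ring
        rw [e5, e6] at hF
        exact hF
      have h2 := mul_le_mul_of_nonneg_left h1 (by positivity : 0 ≤ β ^ 2 * δ')
      linarith
    have e7 : κ * δ / 2 = β ^ 2 * δ := by rw [hκd]; ring
    rw [e7] at hRA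
    linarith
  · -- q = 0
    have h1 := hA h h
    rw [sub_self, mul_zero, add_zero, ← hqp] at h1
    rw [← hqp] at hRA ⊢
    rw [mul_zero, P_zero] at hRA ⊢
    have e7 : κ * δ / 2 = β ^ 2 * δ := by rw [hκd]; ring
    rw [e7] at hRA
    simp only [zero_div, mul_zero, add_zero, Finset.sum_const_zero]
    linarith

/-- The main lower bound: any competitor has value at least that of the point mass. -/
theorem lower (hf : IsParisiSol β ζ f)
    (hζ : ∀ t ∈ Icc (0 : ℝ) 1, 0 ≤ ζ t ∧ ζ t ≤ 1) (hmono : MonotoneOn ζ (Icc 0 1)) (hβ : 0 < β)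
    {h q : ℝ} (hq0 : 0 ≤ q) (hq1 : q < 1)
    (hq : q = P (2 * β ^ 2 * q) (fun x => Real.tanh x ^ 2) h)
    (hAT : 2 * β ^ 2 * P (2 * β ^ 2 * q) (S 4) h ≤ 1) :
    Real.log 2 + (P (2 * β ^ 2 * q) lc h + β ^ 2 * (1 - q)) - β ^ 2 * (∫ t in q..1, t)
      ≤ val β h ζ f := by
  unfold val
  have hφ : MonotoneOn (fun t => ζ t * t) (Icc 0 1) := by
    intro s hs t ht hst
    exact mul_le_mul (hmono hs ht hst) hst hs.1 (hζ t ht).1
  have hφI : ∀ a b : ℝ, 0 ≤ a → a ≤ b → b ≤ 1 → IntervalIntegrable (fun t => ζ t * t) volume a b := by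
    intro a b ha hab hb
    apply MonotoneOn.intervalIntegrable
    rw [uIcc_of_le hab]
    exact hφ.mono (Icc_subset_Icc ha hb)
  have hφb : ∀ t ∈ Icc (0:ℝ) 1, 0 ≤ ζ t * t ∧ ζ t * t ≤ 1 := by
    intro t ht
    have := hζ t ht
    exact ⟨mul_nonneg this.1 ht.1, mul_le_one₀ this.2 ht.1 ht.2⟩
  have key : ∀ n : ℕ, 0 < n →
      (P (2 * β ^ 2 * q) lc h + β ^ 2 * (1 - q)) - β ^ 2 * (∫ t in q..1, t)
        - 4 * β ^ 2 / n ≤ f 0 h - β ^ 2 * (∫ t in (0:ℝ)..1, ζ t * t) := by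
    intro n hn
    have hn' : (0:ℝ) < n := by exact_mod_cast hn
    have h1 := lower_discrete hf hζ hmono hβ hq0 hq1 hq hAT hn
    have h2 := riemann_mono (φ := fun t => ζ t * t) (a := 0) (b := q)
      (hφ.mono (Icc_subset_Icc le_rfl hq1.le)) hn hq0
    have h3 := riemann_mono (φ := fun t => ζ t * t) (a := q) (b := 1)
      (hφ.mono (Icc_subset_Icc hq0 le_rfl)) hn hq1.le
    have h4 := riemann_id (a := q) (b := 1) hn
    have h5 := intervalIntegral.integral_add_adjacent_intervals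
      (hφI 0 q le_rfl hq0 hq1.le) (hφI q 1 hq0 hq1.le le_rfl)
    simp only [sub_zero, zero_add, mul_zero] at h2
    have b0 := hφb q ⟨hq0, hq1.le⟩
    have b1 := hφb 1 ⟨zero_le_one, le_rfl⟩
    -- error terms
    have c1 : q / n * (ζ q * q) ≤ 1 / n := by
      have : q / n ≤ 1 / n := div_le_div_of_nonneg_right hq1.le hn'.le
      calc q / n * (ζ q * q) ≤ 1 / n * 1 := mul_le_mul this b0.2 b0.1 (by positivity)
        _ = 1 / n := mul_one _
    have hd0 : 0 ≤ (1 - q) / n := div_nonneg (by linarith) hn'.le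
    have hd1 : (1 - q) / n ≤ 1 / n := div_le_div_of_nonneg_right (by linarith) hn'.le
    have c2 : (1 - q) / n * (ζ 1 * 1 - ζ q * q) ≤ 1 / n := by
      calc (1 - q) / n * (ζ 1 * 1 - ζ q * q) ≤ (1 - q) / n * 1 :=
            mul_le_mul_of_nonneg_left (by linarith) hd0
        _ ≤ 1 / n := by linarith
    have e1 : ∑ i ∈ Finset.range n, (1 - ζ (q + i * ((1 - q) / n))) * (q + i * ((1 - q) / n))
        = ∑ i ∈ Finset.range n, (q + i * ((1 - q) / n))
          - ∑ i ∈ Finset.range n, ζ (q + i * ((1 - q) / n)) * (q + i * ((1 - q) / n)) := by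
      rw [← Finset.sum_sub_distrib]
      apply Finset.sum_congr rfl
      intro i _; ring
    rw [e1] at h1
    have hb2 : 0 ≤ β ^ 2 := sq_nonneg β
    have g2 := mul_le_mul_of_nonneg_left h2 hb2
    have g3 := mul_le_mul_of_nonneg_left h3 hb2
    have g4 := mul_le_mul_of_nonneg_left h4 hb2
    have g5 : β ^ 2 * (q / n * (ζ q * q)) ≤ β ^ 2 * (1 / n) := mul_le_mul_of_nonneg_left c1 hb2
    have g6 : β ^ 2 * ((1 - q) / n * (ζ 1 * 1 - ζ q * q)) ≤ β ^ 2 * (1 / n) :=
      mul_le_mul_of_nonneg_left c2 hb2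
    have g7 : 2 * β ^ 2 * ((1 - q) / n) ≤ 2 * β ^ 2 * (1 / n) :=
      mul_le_mul_of_nonneg_left hd1 (by positivity)
    have e2 : 4 * β ^ 2 / n = β ^ 2 * (1 / n) + β ^ 2 * (1 / n) + 2 * β ^ 2 * (1 / n) := by ring
    rw [← h5, e2]
    linarith
  have hlim : Tendsto (fun n : ℕ => (P (2 * β ^ 2 * q) lc h + β ^ 2 * (1 - q))
      - β ^ 2 * (∫ t in q..1, t) - 4 * β ^ 2 / n) atTop
      (𝓝 ((P (2 * β ^ 2 * q) lc h + β ^ 2 * (1 - q)) - β ^ 2 * (∫ t in q..1, t) - 0)) := by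
    apply Tendsto.sub tendsto_const_nhds
    exact tendsto_const_div_atTop_nhds_zero_nat _
  have hfin := le_of_tendsto hlim (Filter.eventually_atTop.2 ⟨1, fun n hn => key n hn⟩)
  linarith

end Pool.Agent.N942.AT
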