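import Pool.Agent.N942.ATl

set_option autoImplicit false
open MeasureTheory ProbabilityTheory Set Filter Topology

namespace Pool.Agent.N942.AT

/-- solution for the point mass at `q` -/
noncomputable def f0 (β q t x : ℝ) : ℝ :=
  P (2 * β ^ 2 * (q - t)) lc x + β ^ 2 * (1 - max q t)

theorem deriv_P_lc (b : ℝ) : deriv (P b lc) = P b Real.tanh := by
  ext x; exact (hasDerivAt_P_x LG_lc hasDerivAt_lc abs_tanh_le_one b x).deriv

theorem deriv_P_tanh (b : ℝ) : deriv (P b Real.tanh) = P b (S 2) := by
  ext x; exact (hasDerivAt_P_x LG_tanh hasDerivAt_tanh (abs_S_le 2) b x).deriv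

theorem contDiff_P_lc (b : ℝ) : ContDiff ℝ 2 (P b lc) := by
  have h2 : (2 : WithTop ℕ∞) = 1 + 1 := by norm_num
  rw [h2, contDiff_succ_iff_deriv]
  refine ⟨fun x => (hasDerivAt_P_x LG_lc hasDerivAt_lc abs_tanh_le_one b x).differentiableAt,
    by simp, ?_⟩
  rw [deriv_P_lc, contDiff_one_iff_deriv]
  refine ⟨fun x => (hasDerivAt_P_x LG_tanh hasDerivAt_tanh (abs_S_le 2) b x).differentiableAt, ?_⟩
  rw [deriv_P_tanh]
  exact ((LG_S 2).P b).1

theorem deriv_f0 (β q t : ℝ) : deriv (f0 β q t) = P (2 * β ^ 2 * (q - t)) Real.tanh := by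
  have : f0 β q t = fun x => P (2 * β ^ 2 * (q - t)) lc x + β ^ 2 * (1 - max q t) := rfl
  rw [this]
  ext x
  rw [deriv_add_const, deriv_P_lc]

theorem isParisiSol_f0 {β q : ℝ} (hβ : 0 < β) (hq1 : q ≤ 1) :
    IsParisiSol β (fun t => if q ≤ t then 1 else 0) (f0 β q) where
  terminal := by
    intro x
    unfold f0
    have h1 : Real.sqrt (2 * β ^ 2 * (q - 1)) = 0 :=
      Real.sqrt_eq_zero_of_nonpos (mul_nonpos_of_nonneg_of_nonpos (by positivity) (by linarith))
    unfold P
    rw [h1, max_eq_right hq1]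
    simp [lc]
  smooth := by
    intro t _
    have : f0 β q t = fun x => P (2 * β ^ 2 * (q - t)) lc x + β ^ 2 * (1 - max q t) := rfl
    rw [this]
    exact (contDiff_P_lc _).add contDiff_const
  bdd := by
    refine ⟨1, fun t _ x => ?_⟩
    rw [deriv_f0, deriv_P_tanh]
    exact ⟨P_abs_le abs_tanh_le_one _ _, P_abs_le (abs_S_le 2) _ _⟩
  cont := by
    intro x
    unfold f0
    apply Continuous.continuousOn
    have h1 := continuous_P LG_lc
    have h2 : Continuous (fun t : ℝ => ((2 * β ^ 2 * (q - t) : ℝ), x)) := by fun_prop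
    have h3 := h1.comp h2
    have h4 : Continuous (fun t : ℝ => β ^ 2 * (1 - max q t)) := by fun_prop
    exact h3.add h4
  pde := by
    intro t ht x
    rw [deriv_f0, deriv_P_tanh]
    rcases lt_or_ge t q with htq | htq
    · rw [if_neg (not_le.2 htq)]
      have hpos : 0 < 2 * β ^ 2 * (q - t) := mul_pos (by positivity) (by linarith)
      have h1 : HasDerivAt (fun a => P a lc x) (1 / 2 * P (2 * β ^ 2 * (q - t)) (S 2) x)
          (2 * β ^ 2 * (q - t)) :=
        hasDerivAt_P_a LG_lc hasDerivAt_lc hasDerivAt_tanh abs_tanh_le_one (abs_S_le 2) hpos x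
      have h2 : HasDerivAt (fun s : ℝ => 2 * β ^ 2 * (q - s)) (-(2 * β ^ 2)) t := by
        have := ((hasDerivAt_id t).const_sub q).const_mul (2 * β ^ 2)
        simpa using this
      have h3 := (h1.comp t h2).add_const (β ^ 2 * (1 - q))
      have h4 : (fun s => f0 β q s x) =ᶠ[𝓝 t]
          fun s => ((fun a => P a lc x) ∘ fun s => 2 * β ^ 2 * (q - s)) s + β ^ 2 * (1 - q) := by
        filter_upwards [Iio_mem_nhds htq] with s hs
        unfold f0
        rw [max_eq_left (le_of_lt hs)]
        rfl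
      have h5 := (h3.congr_of_eventuallyEq h4).hasDerivWithinAt (s := Ici t)
      refine h5.congr_deriv ?_
      ring
    · rw [if_pos htq]
      have e0 : Real.sqrt (2 * β ^ 2 * (q - t)) = 0 :=
        Real.sqrt_eq_zero_of_nonpos (mul_nonpos_of_nonneg_of_nonpos (by positivity) (by linarith))
      have e1 : P (2 * β ^ 2 * (q - t)) Real.tanh x = Real.tanh x := by
        unfold P; rw [e0]; simp
      have e2 : P (2 * β ^ 2 * (q - t)) (S 2) x = S 2 x := by
        unfold P; rw [e0]; simp
      rw [e1, e2]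
      have h1 : HasDerivAt (fun s : ℝ => lc x + β ^ 2 * (1 - s)) (-β ^ 2) t := by
        have := (((hasDerivAt_id t).const_sub 1).const_mul (β ^ 2)).const_add (lc x)
        simpa using this
      have h2 : ∀ s ∈ Ici t, f0 β q s x = lc x + β ^ 2 * (1 - s) := by
        intro s hs
        have hs' : q ≤ s := htq.trans hs
        unfold f0
        have e3 : Real.sqrt (2 * β ^ 2 * (q - s)) = 0 :=
          Real.sqrt_eq_zero_of_nonpos (mul_nonpos_of_nonneg_of_nonpos (by positivity) (by linarith))
        rw [max_eq_right hs']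
        unfold P; rw [e3]; simp
      have h3 := (h1.hasDerivWithinAt (s := Ici t)).congr h2 (h2 t (mem_Ici.2 le_rfl))
      refine h3.congr_deriv ?_
      have := tanh_sq x
      unfold S
      rw [this]; ring

theorem val_f0 {β h q : ℝ} (hq0 : 0 ≤ q) (hq1 : q ≤ 1) :
    val β h (fun t => if q ≤ t then 1 else 0) (f0 β q)
      = Real.log 2 + (P (2 * β ^ 2 * q) lc h + β ^ 2 * (1 - q)) - β ^ 2 * (∫ t in q..1, t) := by
  unfold val f0
  have h1 : ∫ t in (0:ℝ)..1, (if q ≤ t then (1:ℝ) else 0) * t = ∫ t in q..1, t := by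
    have hmono : Monotone (fun t : ℝ => if q ≤ t then (1:ℝ) else 0) := by
      intro s t hst
      simp only
      split_ifs with h1 h2
      · exact le_rfl
      · exact absurd (h1.trans hst) h2
      · exact zero_le_one
      · exact le_rfl
    have hI : ∀ a b : ℝ, IntervalIntegrable (fun t : ℝ => (if q ≤ t then (1:ℝ) else 0) * t) volume a b := by
      intro a b
      have h2 : IntervalIntegrable (fun t : ℝ => if q ≤ t then (1:ℝ) else 0) volume a b :=
        hmono.intervalIntegrable
      exact h2.mul_continuousOn continuousOn_id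
    rw [← intervalIntegral.integral_add_adjacent_intervals (hI 0 q) (hI q 1)]
    have h3 : ∫ t in (0:ℝ)..q, (if q ≤ t then (1:ℝ) else 0) * t = 0 := by
      have hne : ∀ᵐ t ∂(volume : Measure ℝ), t ≠ q := by simp [ae_iff, measure_singleton]
      rw [intervalIntegral.integral_congr_ae (g := fun _ => (0:ℝ))]
      · simp
      · filter_upwards [hne] with t ht hmem
        rw [uIoc_of_le hq0] at hmem
        have : ¬ q ≤ t := not_le.2 (lt_of_le_of_ne hmem.2 ht)
        simp [this]
    have h4 : ∫ t in q..1, (if q ≤ t then (1:ℝ) else 0) * t = ∫ t in q..1, t := by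
      apply intervalIntegral.integral_congr
      intro t ht
      rw [uIcc_of_le hq1] at ht
      simp [ht.1]
    rw [h3, h4, zero_add]
  rw [h1, sub_zero, max_eq_left hq0]

end Pool.Agent.N942.AT
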