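import Pool.Agent.N942.ATm

set_option autoImplicit false
open MeasureTheory ProbabilityTheory Set Filter Topology

namespace Pool.Agent.N942.AT

/-- the largest solution -/
noncomputable def qmax (β h : ℝ) : ℝ := sSup (fixedSet β h)

theorem arg_eq {β : ℝ} (hβ : 0 ≤ β) (h q z : ℝ) :
    β * z * Real.sqrt (2 * q) + h = h + Real.sqrt (2 * β ^ 2 * q) * z := by
  have : Real.sqrt (2 * β ^ 2 * q) = β * Real.sqrt (2 * q) := by
    have e : 2 * β ^ 2 * q = β ^ 2 * (2 * q) := by ring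
    rw [e, Real.sqrt_mul (sq_nonneg β), Real.sqrt_sq hβ]
  rw [this]; ring

theorem phi_eq {β : ℝ} (hβ : 0 ≤ β) (h q : ℝ) :
    ∫ z, Real.tanh (β * z * Real.sqrt (2 * q) + h) ^ 2 ∂(gaussianReal 0 1)
      = P (2 * β ^ 2 * q) (fun x => Real.tanh x ^ 2) h := by
  unfold P
  congr 1; ext z; rw [arg_eq hβ]

theorem AT_eq {β : ℝ} (hβ : 0 ≤ β) (h q : ℝ) :
    ∫ z, (Real.cosh (β * z * Real.sqrt (2 * q) + h) ^ 4)⁻¹ ∂(gaussianReal 0 1)
      = P (2 * β ^ 2 * q) (S 4) h := by
  unfold P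
  congr 1; ext z; rw [arg_eq hβ]; unfold S sech; rw [inv_pow]

theorem P_tanh_sq_lt_one (a x : ℝ) : P a (fun x => Real.tanh x ^ 2) x < 1 := by
  rw [u_eq]
  have := P_pos (LG_S 2) (S_pos 2) a x
  linarith

theorem isGreatest_qmax {β : ℝ} (hβ : 0 ≤ β) (h : ℝ) : IsGreatest (fixedSet β h) (qmax β h) := by
  set g : ℝ → ℝ := fun q => P (2 * β ^ 2 * q) (fun x => Real.tanh x ^ 2) h - q with hg
  have hgc : Continuous g := by
    have h1 := continuous_P LG_tanh_sq
    have h2 : Continuous (fun q : ℝ => ((2 * β ^ 2 * q : ℝ), h)) := by fun_prop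
    exact (h1.comp h2).sub continuous_id
  have hset : fixedSet β h = Icc 0 1 ∩ g ⁻¹' {0} := by
    ext q
    simp only [fixedSet, mem_ofPred_eq, mem_inter_iff, mem_preimage, mem_singleton_iff, hg]
    rw [phi_eq hβ]
    constructor
    · rintro ⟨h1, h2⟩; exact ⟨h1, by linarith⟩
    · rintro ⟨h1, h2⟩; exact ⟨h1, by linarith⟩
  have hcompact : IsCompact (fixedSet β h) := by
    rw [hset]
    exact isCompact_Icc.inter_right (isClosed_singleton.preimage hgc)
  have hne : (fixedSet β h).Nonempty := by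
    have h0 : 0 ≤ g 0 := by
      simp only [hg, sub_zero]
      exact P_nonneg (fun y => sq_nonneg _) _ _
    have h1 : g 1 ≤ 0 := by
      simp only [hg]
      have := P_tanh_sq_lt_one (2 * β ^ 2 * 1) h
      linarith
    have hiv := intermediate_value_Icc' (zero_le_one' ℝ) hgc.continuousOn
    obtain ⟨q, hq, hq0⟩ := hiv ⟨h1, h0⟩
    rw [hset]
    exact ⟨q, hq, hq0⟩
  exact ⟨hcompact.sSup_mem hne, fun q hq => le_csSup hcompact.bddAbove hq⟩

theorem cdf_dirac' (q : ℝ) : (cdf (Measure.dirac q) : ℝ → ℝ) = fun t => if q ≤ t then 1 else 0 := by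
  ext t
  rw [cdf_eq_real, measureReal_def, Measure.dirac_apply' q measurableSet_Iic]
  simp only [indicator, mem_Iic, Pi.one_apply]
  split_ifs <;> simp

/-- At any solution `q` satisfying the AT condition, the point mass at `q` is a Parisi measure. -/
theorem parisi_of_AT {β h q : ℝ} (hβ : 0 < β) (hq : q ∈ fixedSet β h) (hAT : ATcond β h q) :
    IsParisiMeasure β h (Measure.dirac q) := by
  obtain ⟨hqI, hqe⟩ := hq
  rw [phi_eq hβ.le] at hqe
  unfold ATcond at hAT
  rw [AT_eq hβ.le] at hAT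
  have hq1 : q < 1 := by rw [hqe]; exact P_tanh_sq_lt_one _ _
  refine ⟨inferInstance, ?_, f0 β q, ?_, ?_⟩
  · rw [Measure.dirac_apply' q measurableSet_Icc.compl]
    simp [hqI.1, hqI.2]
  · rw [cdf_dirac']; exact isParisiSol_f0 hβ hq1.le
  · intro ν hν hν0 g hg
    rw [cdf_dirac', val_f0 hqI.1 hq1.le]
    exact lower hg (fun t _ => ⟨cdf_nonneg ν t, cdf_le_one ν t⟩)
      ((monotone_cdf ν).monotoneOn _) hβ hqI.1 hq1 hqe (by linarith)

end Pool.Agent.N942.AT
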