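import Pool.Agent.N942.ATj

set_option autoImplicit false
open MeasureTheory ProbabilityTheory Set Filter Topology

namespace Pool.Agent.N942.AT

/-- continuous of exponential growth -/
def EG (g : ℝ → ℝ) : Prop := Continuous g ∧ ∃ A, 0 ≤ A ∧ ∀ x, |g x| ≤ A * Real.exp (2 * |x|)

theorem LG.EG {g : ℝ → ℝ} (hg : LG g) : EG g := by
  obtain ⟨hc, C, hC0, hC⟩ := hg
  refine ⟨hc, C, hC0, fun x => (hC x).trans (mul_le_mul_of_nonneg_left ?_ hC0)⟩
  have := Real.add_one_le_exp (2 * |x|)
  have := abs_nonneg x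
  linarith

theorem integrable_exp_abs (c : ℝ) : Integrable (fun z : ℝ => Real.exp (c * |z|)) gam := by
  have h := (integrable_exp_gam c).add (integrable_exp_gam (-c))
  apply h.mono' (by fun_prop)
  refine Eventually.of_forall fun z => ?_
  rw [Real.norm_eq_abs, abs_of_pos (Real.exp_pos _)]
  simp only [Pi.add_apply]
  rcases le_total 0 z with hz | hz
  · rw [abs_of_nonneg hz]
    linarith [Real.exp_pos (-c * z)]
  · rw [abs_of_nonpos hz]
    have : c * -z = -c * z := by ring
    rw [this]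
    linarith [Real.exp_pos (c * z)]

theorem exp_abs_le (x s z : ℝ) :
    Real.exp (2 * |x + s * z|) ≤ Real.exp (2 * |x|) * Real.exp (2 * |s| * |z|) := by
  rw [← Real.exp_add]
  apply Real.exp_le_exp.2
  have h1 : |x + s * z| ≤ |x| + |s| * |z| := by
    rw [← abs_mul]; exact abs_add_le _ _
  linarith

theorem EG.integrable {g : ℝ → ℝ} (hg : EG g) (x s : ℝ) :
    Integrable (fun z => g (x + s * z)) gam := by
  obtain ⟨hc, A, hA0, hA⟩ := hg
  have h := (integrable_exp_abs (2 * |s|)).const_mul (A * Real.exp (2 * |x|))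
  apply h.mono' (by fun_prop)
  refine Eventually.of_forall fun z => ?_
  rw [Real.norm_eq_abs]
  calc |g (x + s * z)| ≤ A * Real.exp (2 * |x + s * z|) := hA _
    _ ≤ A * (Real.exp (2 * |x|) * Real.exp (2 * |s| * |z|)) :=
        mul_le_mul_of_nonneg_left (exp_abs_le x s z) hA0
    _ = _ := by ring

theorem abs_le_exp_abs (z : ℝ) : |z| ≤ Real.exp |z| := by
  have := Real.add_one_le_exp |z|; linarith

theorem EG.integrable_mul {g : ℝ → ℝ} (hg : EG g) (x s : ℝ) :
    Integrable (fun z => z * g (x + s * z)) gam := by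
  obtain ⟨hc, A, hA0, hA⟩ := hg
  have h := (integrable_exp_abs (2 * |s| + 1)).const_mul (A * Real.exp (2 * |x|))
  apply h.mono' (by fun_prop)
  refine Eventually.of_forall fun z => ?_
  rw [Real.norm_eq_abs, abs_mul]
  have h1 : |g (x + s * z)| ≤ A * (Real.exp (2 * |x|) * Real.exp (2 * |s| * |z|)) :=
    (hA _).trans (mul_le_mul_of_nonneg_left (exp_abs_le x s z) hA0)
  have h2 : Real.exp ((2 * |s| + 1) * |z|) = Real.exp (2 * |s| * |z|) * Real.exp |z| := by
    rw [← Real.exp_add]; congr 1; ring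
  rw [h2]
  calc |z| * |g (x + s * z)| ≤ Real.exp |z| * (A * (Real.exp (2 * |x|) * Real.exp (2 * |s| * |z|))) :=
        mul_le_mul (abs_le_exp_abs z) h1 (abs_nonneg _) (Real.exp_nonneg _)
    _ = _ := by ring

theorem continuous_P_EG {g : ℝ → ℝ} (hg : EG g) : Continuous (fun p : ℝ × ℝ => P p.1 g p.2) := by
  obtain ⟨hc, A, hA0, hA⟩ := hg
  rw [continuous_iff_continuousAt]
  rintro ⟨a, x⟩
  unfold P
  have hev1 : ∀ᶠ p : ℝ × ℝ in 𝓝 (a, x), |p.2| ≤ |x| + 1 := by
    have : Tendsto (fun p : ℝ × ℝ => |p.2|) (𝓝 (a, x)) (𝓝 |x|) := by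
      have : Continuous (fun p : ℝ × ℝ => |p.2|) := by fun_prop
      exact this.continuousAt
    exact (this.eventually (gt_mem_nhds (by linarith : |x| < |x| + 1))).mono fun p hp => hp.le
  have hev2 : ∀ᶠ p : ℝ × ℝ in 𝓝 (a, x), Real.sqrt p.1 ≤ Real.sqrt a + 1 := by
    have : Tendsto (fun p : ℝ × ℝ => Real.sqrt p.1) (𝓝 (a, x)) (𝓝 (Real.sqrt a)) := by
      have : Continuous (fun p : ℝ × ℝ => Real.sqrt p.1) := by fun_prop
      exact this.continuousAt
    exact (this.eventually (gt_mem_nhds (by linarith))).mono fun p hp => hp.le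
  refine continuousAt_of_dominated
    (bound := fun z => (A * Real.exp (2 * (|x| + 1))) * Real.exp (2 * (Real.sqrt a + 1) * |z|)) ?_ ?_ ?_ ?_
  · exact Eventually.of_forall fun p => (hc.measurable.comp (by fun_prop)).aestronglyMeasurable
  · filter_upwards [hev1, hev2] with p hp1 hp2
    refine Eventually.of_forall fun z => ?_
    rw [Real.norm_eq_abs]
    refine (hA _).trans ?_
    have h1 := exp_abs_le p.2 (Real.sqrt p.1) z
    rw [abs_of_nonneg (Real.sqrt_nonneg _)] at h1
    have h2 : Real.exp (2 * |p.2|) ≤ Real.exp (2 * (|x| + 1)) := Real.exp_le_exp.2 (by linarith)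
    have h3 : Real.exp (2 * Real.sqrt p.1 * |z|) ≤ Real.exp (2 * (Real.sqrt a + 1) * |z|) :=
      Real.exp_le_exp.2 (mul_le_mul_of_nonneg_right (by linarith) (abs_nonneg z))
    calc A * Real.exp (2 * |p.2 + Real.sqrt p.1 * z|)
        ≤ A * (Real.exp (2 * (|x| + 1)) * Real.exp (2 * (Real.sqrt a + 1) * |z|)) :=
          mul_le_mul_of_nonneg_left (h1.trans (mul_le_mul h2 h3 (Real.exp_nonneg _)
            (Real.exp_nonneg _))) hA0
      _ = _ := by ring
  · exact (integrable_exp_abs _).const_mul _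
  · refine Eventually.of_forall fun z => ?_
    have : Continuous (fun p : ℝ × ℝ => g (p.2 + Real.sqrt p.1 * z)) := by fun_prop
    exact this.continuousAt

theorem continuous_P_x_EG {g : ℝ → ℝ} (hg : EG g) (a : ℝ) : Continuous (P a g) := by
  have h := continuous_P_EG hg
  have h2 : Continuous (fun x : ℝ => (a, x)) := by fun_prop
  exact h.comp h2

theorem hasDerivAt_P_x_EG {g g' : ℝ → ℝ} (hg : EG g) (hg' : EG g')
    (hd : ∀ t, HasDerivAt g (g' t) t) (a x : ℝ) : HasDerivAt (P a g) (P a g' x) x := by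
  have hgg := hg
  obtain ⟨hc', A, hA0, hA⟩ := hg'
  have := (hasDerivAt_integral_of_dominated_loc_of_deriv_le (μ := gam) (𝕜 := ℝ)
    (F := fun y z => g (y + Real.sqrt a * z)) (F' := fun y z => g' (y + Real.sqrt a * z))
    (x₀ := x) (bound := fun z => (A * Real.exp (2 * (|x| + 1))) * Real.exp (2 * Real.sqrt a * |z|))
    (s := Metric.ball x 1) (Metric.ball_mem_nhds x one_pos) ?_ ?_ ?_ ?_ ?_ ?_).2
  · exact this
  · exact Eventually.of_forall fun y => (hgg.1.measurable.comp (by fun_prop)).aestronglyMeasurable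
  · exact hgg.integrable x _
  · exact (hc'.measurable.comp (by fun_prop)).aestronglyMeasurable
  · refine Eventually.of_forall fun z y hy => ?_
    rw [Real.norm_eq_abs]
    refine (hA _).trans ?_
    have h1 := exp_abs_le y (Real.sqrt a) z
    rw [abs_of_nonneg (Real.sqrt_nonneg _)] at h1
    have h2 : |y| ≤ |x| + 1 := by
      rw [Metric.mem_ball, Real.dist_eq] at hy
      have := abs_add_le x (y - x)
      rw [add_sub_cancel] at this
      linarith
    calc A * Real.exp (2 * |y + Real.sqrt a * z|)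
        ≤ A * (Real.exp (2 * (|x| + 1)) * Real.exp (2 * Real.sqrt a * |z|)) :=
          mul_le_mul_of_nonneg_left (h1.trans (mul_le_mul_of_nonneg_right
            (Real.exp_le_exp.2 (by linarith)) (Real.exp_nonneg _))) hA0
      _ = _ := by ring
  · exact (integrable_exp_abs _).const_mul _
  · refine Eventually.of_forall fun z y _ => ?_
    have h1 : HasDerivAt (fun y : ℝ => y + Real.sqrt a * z) 1 y := (hasDerivAt_id y).add_const _
    have h2 := (hd (y + Real.sqrt a * z)).comp y h1
    rw [mul_one] at h2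
    exact h2

theorem stein_EG {g g' : ℝ → ℝ} (hg : EG g) (hg' : EG g') (hd : ∀ t, HasDerivAt g (g' t) t)
    (x s : ℝ) : ∫ z, z * g (x + s * z) ∂gam = s * ∫ z, g' (x + s * z) ∂gam := by
  have i1 := hg.integrable_mul x s
  have i2 : Integrable (fun z => s * g' (x + s * z)) gam := (hg'.integrable x s).const_mul s
  have i3 := hg.integrable x s
  have j1 := integrable_gauss_iff _ i1
  have j2 := integrable_gauss_iff _ i2
  have j3 := integrable_gauss_iff _ i3
  have hd' : ∀ z, HasDerivAt (fun z => g (x + s * z)) (s * g' (x + s * z)) z := by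
    intro t
    have h1 : HasDerivAt (fun z : ℝ => x + s * z) s t := by
      simpa using ((hasDerivAt_id t).const_mul s).const_add x
    have := (hd (x + s * t)).comp t h1
    simpa [Function.comp_def, mul_comm] using this
  have key := integral_mul_deriv_eq_deriv_mul_of_integrable (u := fun z => g (x + s * z))
    (u' := fun z => s * g' (x + s * z))
    (v := gaussianPDFReal 0 1) (v' := fun t => -(t * gaussianPDFReal 0 1 t))
    (fun x _ => hd' x) (fun x _ => pdf_deriv x)
    (j1.neg.congr (Eventually.of_forall fun t => by simp only [Pi.neg_apply, Pi.mul_apply]; ring))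
    (j2.congr (Eventually.of_forall fun t => by simp only [Pi.mul_apply]))
    (j3.congr (Eventually.of_forall fun t => by simp only [Pi.mul_apply]))
  rw [← integral_const_mul, integral_gaussianReal_eq_integral_smul (by norm_num),
    integral_gaussianReal_eq_integral_smul (by norm_num)]
  have e1 : ∫ z, gaussianPDFReal 0 1 z • (z * g (x + s * z)) =
      -∫ z, g (x + s * z) * -(z * gaussianPDFReal 0 1 z) := by
    rw [← integral_neg]
    congr 1; ext z; simp only [smul_eq_mul]; ring
  have e2 : ∫ z, gaussianPDFReal 0 1 z • (s * g' (x + s * z))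
      = ∫ z, (s * g' (x + s * z)) * gaussianPDFReal 0 1 z := by
    congr 1; ext z; simp only [smul_eq_mul]; ring
  rw [e1, e2, key, neg_neg]

theorem hasDerivAt_P_a_EG {g g' g'' : ℝ → ℝ} (hg : EG g) (hg' : EG g') (hg'' : EG g'')
    (hd : ∀ t, HasDerivAt g (g' t) t) (hd' : ∀ t, HasDerivAt g' (g'' t) t)
    {a : ℝ} (ha : 0 < a) (x : ℝ) :
    HasDerivAt (fun a => P a g x) (1 / 2 * P a g'' x) a := by
  have hgg' := hg'
  obtain ⟨hc', A, hA0, hA⟩ := hg'
  have hs0 : 0 < Real.sqrt (a / 2) := Real.sqrt_pos.2 (by linarith)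
  have hs : ∀ b ∈ Ioo (a / 2) (2 * a), Real.sqrt (a / 2) ≤ Real.sqrt b := fun b hb =>
    Real.sqrt_le_sqrt (le_of_lt hb.1)
  have hs2 : ∀ b ∈ Ioo (a / 2) (2 * a), Real.sqrt b ≤ Real.sqrt (2 * a) := fun b hb =>
    Real.sqrt_le_sqrt (le_of_lt hb.2)
  have := (hasDerivAt_integral_of_dominated_loc_of_deriv_le (μ := gam) (𝕜 := ℝ)
    (F := fun b z => g (x + Real.sqrt b * z))
    (F' := fun b z => g' (x + Real.sqrt b * z) * (1 / (2 * Real.sqrt b) * z))
    (x₀ := a) (bound := fun z => (A * Real.exp (2 * |x|) * (1 / (2 * Real.sqrt (a / 2)))) *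
      Real.exp ((2 * Real.sqrt (2 * a) + 1) * |z|)) (s := Ioo (a / 2) (2 * a))
    (Ioo_mem_nhds (by linarith) (by linarith)) ?_ ?_ ?_ ?_ ?_ ?_).2
  · refine this.congr_deriv ?_
    have h1 : ∫ z, g' (x + Real.sqrt a * z) * (1 / (2 * Real.sqrt a) * z) ∂gam
        = (1 / (2 * Real.sqrt a)) * ∫ z, z * g' (x + Real.sqrt a * z) ∂gam := by
      rw [← integral_const_mul]
      congr 1; ext z; ring
    rw [h1, stein_EG hgg' hg'' hd' x (Real.sqrt a)]
    have : Real.sqrt a ≠ 0 := (Real.sqrt_pos.2 ha).ne'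
    unfold P
    field_simp
  · exact Eventually.of_forall fun y => (hg.1.measurable.comp (by fun_prop)).aestronglyMeasurable
  · exact hg.integrable x _
  · exact ((hc'.measurable.comp (by fun_prop)).mul (by fun_prop)).aestronglyMeasurable
  · refine Eventually.of_forall fun z b hb => ?_
    rw [Real.norm_eq_abs, abs_mul, abs_mul]
    have hb0 : 0 < Real.sqrt b := lt_of_lt_of_le hs0 (hs b hb)
    have h1 : |1 / (2 * Real.sqrt b)| ≤ 1 / (2 * Real.sqrt (a / 2)) := by
      rw [abs_of_pos (by positivity)]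
      apply one_div_le_one_div_of_le (by positivity)
      linarith [hs b hb]
    have h2 := exp_abs_le x (Real.sqrt b) z
    rw [abs_of_pos hb0] at h2
    have h3 : Real.exp (2 * Real.sqrt b * |z|) ≤ Real.exp (2 * Real.sqrt (2 * a) * |z|) :=
      Real.exp_le_exp.2 (mul_le_mul_of_nonneg_right (by linarith [hs2 b hb]) (abs_nonneg z))
    have h4 : |g' (x + Real.sqrt b * z)|
        ≤ A * (Real.exp (2 * |x|) * Real.exp (2 * Real.sqrt (2 * a) * |z|)) :=
      (hA _).trans (mul_le_mul_of_nonneg_left (h2.trans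
        (mul_le_mul_of_nonneg_left h3 (Real.exp_nonneg _))) hA0)
    have h5 : |1 / (2 * Real.sqrt b)| * |z| ≤ 1 / (2 * Real.sqrt (a / 2)) * Real.exp |z| :=
      mul_le_mul h1 (abs_le_exp_abs z) (abs_nonneg z) (by positivity)
    have h6 : Real.exp ((2 * Real.sqrt (2 * a) + 1) * |z|)
        = Real.exp (2 * Real.sqrt (2 * a) * |z|) * Real.exp |z| := by
      rw [← Real.exp_add]; congr 1; ring
    rw [h6]
    calc |g' (x + Real.sqrt b * z)| * (|1 / (2 * Real.sqrt b)| * |z|)
        ≤ (A * (Real.exp (2 * |x|) * Real.exp (2 * Real.sqrt (2 * a) * |z|)))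
          * (1 / (2 * Real.sqrt (a / 2)) * Real.exp |z|) :=
          mul_le_mul h4 h5 (by positivity) (by positivity)
      _ = _ := by ring
  · exact (integrable_exp_abs _).const_mul _
  · refine Eventually.of_forall fun z b hb => ?_
    have hb0 : b ≠ 0 := by
      have : a / 2 < b := hb.1
      intro h; rw [h] at this; linarith
    have h1 : HasDerivAt (fun b : ℝ => x + Real.sqrt b * z) (1 / (2 * Real.sqrt b) * z) b :=
      ((Real.hasDerivAt_sqrt hb0).mul_const z).const_add x
    exact (hd _).comp b h1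

theorem EG.mul_bdd {g φ : ℝ → ℝ} (hg : EG g) (hφ : Continuous φ) {C : ℝ} (hC : ∀ x, |φ x| ≤ C) :
    EG (fun x => φ x * g x) := by
  obtain ⟨hc, A, hA0, hA⟩ := hg
  have hC0 : 0 ≤ C := (abs_nonneg _).trans (hC 0)
  refine ⟨hφ.mul hc, C * A, by positivity, fun x => ?_⟩
  rw [abs_mul]
  calc |φ x| * |g x| ≤ C * (A * Real.exp (2 * |x|)) :=
        mul_le_mul (hC x) (hA x) (abs_nonneg _) hC0
    _ = _ := by ring

theorem EG.add {f g : ℝ → ℝ} (hf : EG f) (hg : EG g) : EG (fun x => f x + g x) := by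
  obtain ⟨hf, C, hC0, hC⟩ := hf
  obtain ⟨hg, D, hD0, hD⟩ := hg
  refine ⟨hf.add hg, C + D, by linarith, fun x => ?_⟩
  have h1 := abs_add_le (f x) (g x)
  have h2 := hC x
  have h3 := hD x
  have : (C + D) * Real.exp (2 * |x|) = C * Real.exp (2 * |x|) + D * Real.exp (2 * |x|) := by ring
  rw [this]; linarith

end Pool.Agent.N942.AT
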