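import Pool.Agent.N942.ATo
import Pool.Agent.N942.ATn

set_option autoImplicit false
open MeasureTheory ProbabilityTheory Set Filter Topology

namespace Pool.Agent.N942.AT

theorem P_pos_EG {f : ℝ → ℝ} (hf : EG f) (hpos : ∀ y, 0 < f y) (a x : ℝ) : 0 < P a f x := by
  unfold P
  rw [integral_pos_iff_support_of_nonneg (fun z => (hpos _).le) (hf.integrable x _)]
  have : Function.support (fun z => f (x + Real.sqrt a * z)) = univ := by
    ext z; simp [Function.mem_support, (hpos _).ne']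
  rw [this, measure_univ]
  exact one_pos

theorem P_mono_EG {f g : ℝ → ℝ} (hf : EG f) (hg : EG g) (h : ∀ y, f y ≤ g y) (a x : ℝ) :
    P a f x ≤ P a g x :=
  integral_mono (hf.integrable x _) (hg.integrable x _) (fun _ => h _)

theorem P_abs_le_EG {f g : ℝ → ℝ} (hf : EG f) (hg : EG g) (h : ∀ y, |f y| ≤ g y) (a x : ℝ) :
    |P a f x| ≤ P a g x := by
  rw [abs_le]
  constructor
  · have h1 : P a (fun y => -1 * g y) x ≤ P a f x := by
      apply P_mono_EG _ hf
      · intro y; have := (abs_le.1 (h y)).1; linarith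
      · exact hg.mul_bdd continuous_const (C := 1) (fun x => by simp)
    rw [P_const_mul] at h1; linarith
  · exact P_mono_EG hf hg (fun y => (abs_le.1 (h y)).2) a x

/-- `cosh^m` -/
noncomputable def Em (m x : ℝ) : ℝ := Real.exp (m * lc x)
noncomputable def Em1 (m x : ℝ) : ℝ := (m * Real.tanh x) * Em m x
noncomputable def Em2 (m x : ℝ) : ℝ := (m * S 2 x + m ^ 2 * Real.tanh x ^ 2) * Em m x

section
variable {m : ℝ}

theorem Em_pos (m x : ℝ) : 0 < Em m x := Real.exp_pos _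

theorem hasDerivAt_Em (m x : ℝ) : HasDerivAt (Em m) (Em1 m x) x := by
  have h := ((hasDerivAt_lc x).const_mul m).exp
  refine h.congr_deriv ?_
  unfold Em1 Em; ring

theorem hasDerivAt_Em1 (m x : ℝ) : HasDerivAt (Em1 m) (Em2 m x) x := by
  have h := ((hasDerivAt_tanh x).const_mul m).mul (hasDerivAt_Em m x)
  refine h.congr_deriv ?_
  unfold Em2 Em1 S; ring

theorem EG_Em (h0 : 0 ≤ m) (h1 : m ≤ 1) : EG (Em m) := by
  refine ⟨?_, 1, zero_le_one, fun x => ?_⟩
  · unfold Em; have := continuous_lc; fun_prop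
  · rw [abs_of_pos (Em_pos m x), one_mul]
    apply Real.exp_le_exp.2
    have a1 := lc_nonneg x
    have a2 := lc_le_abs x
    have a3 : m * lc x ≤ 1 * lc x := mul_le_mul_of_nonneg_right h1 a1
    have := abs_nonneg x
    linarith

theorem abs_coef1 (h0 : 0 ≤ m) (x : ℝ) : |m * Real.tanh x| ≤ m := by
  rw [abs_mul, abs_of_nonneg h0]
  have := abs_tanh_le_one x
  nlinarith

theorem abs_coef2 (h0 : 0 ≤ m) (h1 : m ≤ 1) (x : ℝ) :
    |m * S 2 x + m ^ 2 * Real.tanh x ^ 2| ≤ m := by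
  have a1 := S_nonneg 2 x
  have a2 := tanh_sq x
  have a3 : S 2 x = sech x ^ 2 := rfl
  have a4 : 0 ≤ Real.tanh x ^ 2 := sq_nonneg _
  rw [abs_of_nonneg (by positivity)]
  have a5 : m ^ 2 ≤ m := by nlinarith
  have a6 : m ^ 2 * Real.tanh x ^ 2 ≤ m * Real.tanh x ^ 2 := mul_le_mul_of_nonneg_right a5 a4
  calc _ ≤ m * S 2 x + m * Real.tanh x ^ 2 := by linarith
    _ = m := by rw [a2, a3]; ring

theorem EG_Em1 (h0 : 0 ≤ m) (h1 : m ≤ 1) : EG (Em1 m) :=
  (EG_Em h0 h1).mul_bdd (φ := fun x => m * Real.tanh x)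
    (by have := continuous_tanh; fun_prop) (abs_coef1 h0)

theorem EG_Em2 (h0 : 0 ≤ m) (h1 : m ≤ 1) : EG (Em2 m) :=
  (EG_Em h0 h1).mul_bdd (φ := fun x => m * S 2 x + m ^ 2 * Real.tanh x ^ 2)
    (by have := continuous_tanh; have := continuous_S 2; fun_prop) (abs_coef2 h0 h1)

theorem PEm_pos (h0 : 0 ≤ m) (h1 : m ≤ 1) (b x : ℝ) : 0 < P b (Em m) x :=
  P_pos_EG (EG_Em h0 h1) (Em_pos m) b x

theorem PEm1_le (h0 : 0 ≤ m) (h1 : m ≤ 1) (b x : ℝ) : |P b (Em1 m) x| ≤ m * P b (Em m) x := by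
  rw [← P_const_mul]
  apply P_abs_le_EG (EG_Em1 h0 h1) ((EG_Em h0 h1).mul_bdd continuous_const (C := m)
    (fun _ => by rw [abs_of_nonneg h0]))
  intro y
  unfold Em1
  rw [abs_mul, abs_of_pos (Em_pos m y)]
  exact mul_le_mul_of_nonneg_right (abs_coef1 h0 y) (Em_pos m y).le

theorem PEm2_le (h0 : 0 ≤ m) (h1 : m ≤ 1) (b x : ℝ) : |P b (Em2 m) x| ≤ m * P b (Em m) x := by
  rw [← P_const_mul]
  apply P_abs_le_EG (EG_Em2 h0 h1) ((EG_Em h0 h1).mul_bdd continuous_const (C := m)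
    (fun _ => by rw [abs_of_nonneg h0]))
  intro y
  unfold Em2
  rw [abs_mul, abs_of_pos (Em_pos m y)]
  exact mul_le_mul_of_nonneg_right (abs_coef2 h0 h1 y) (Em_pos m y).le

/-- Hopf-Cole function and derivatives -/
noncomputable def hc (m b x : ℝ) : ℝ := (1 / m) * Real.log (P b (Em m) x)
noncomputable def hc1 (m b x : ℝ) : ℝ := (1 / m) * (P b (Em1 m) x / P b (Em m) x)
noncomputable def hc2 (m b x : ℝ) : ℝ :=
  (1 / m) * (P b (Em2 m) x / P b (Em m) x - (P b (Em1 m) x / P b (Em m) x) ^ 2)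

theorem hasDerivAt_hc (h0 : 0 < m) (h1 : m ≤ 1) (b x : ℝ) : HasDerivAt (hc m b) (hc1 m b x) x := by
  have h := hasDerivAt_P_x_EG (EG_Em h0.le h1) (EG_Em1 h0.le h1) (hasDerivAt_Em m) b x
  exact (h.log (PEm_pos h0.le h1 b x).ne').const_mul (1 / m)

theorem hasDerivAt_hc1 (h0 : 0 < m) (h1 : m ≤ 1) (b x : ℝ) :
    HasDerivAt (hc1 m b) (hc2 m b x) x := by
  have a := hasDerivAt_P_x_EG (EG_Em h0.le h1) (EG_Em1 h0.le h1) (hasDerivAt_Em m) b x
  have a' := hasDerivAt_P_x_EG (EG_Em1 h0.le h1) (EG_Em2 h0.le h1) (hasDerivAt_Em1 m) b x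
  have hp := (PEm_pos h0.le h1 b x).ne'
  have h := (a'.div a hp).const_mul (1 / m)
  refine h.congr_deriv ?_
  unfold hc2
  field_simp

theorem continuous_hc2 (h0 : 0 < m) (h1 : m ≤ 1) (b : ℝ) : Continuous (hc2 m b) := by
  have c0 := continuous_P_x_EG (EG_Em h0.le h1) b
  have c1 := continuous_P_x_EG (EG_Em1 h0.le h1) b
  have c2 := continuous_P_x_EG (EG_Em2 h0.le h1) b
  unfold hc2
  apply continuous_const.mul
  apply Continuous.sub
  · exact c2.div c0 fun x => (PEm_pos h0.le h1 b x).ne'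
  · exact (c1.div c0 fun x => (PEm_pos h0.le h1 b x).ne').pow 2

theorem abs_hc1_le (h0 : 0 < m) (h1 : m ≤ 1) (b x : ℝ) : |hc1 m b x| ≤ 1 := by
  unfold hc1
  have hp := PEm_pos h0.le h1 b x
  rw [abs_mul, abs_of_pos (by positivity : 0 < 1 / m), abs_div, abs_of_pos hp]
  have := PEm1_le h0.le h1 b x
  have h2 : |P b (Em1 m) x| / P b (Em m) x ≤ m := by rw [div_le_iff₀ hp]; exact this
  calc 1 / m * (|P b (Em1 m) x| / P b (Em m) x) ≤ 1 / m * m :=
        mul_le_mul_of_nonneg_left h2 (by positivity)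
    _ = 1 := by field_simp

theorem abs_hc2_le (h0 : 0 < m) (h1 : m ≤ 1) (b x : ℝ) : |hc2 m b x| ≤ 2 := by
  unfold hc2
  have hp := PEm_pos h0.le h1 b x
  rw [abs_mul, abs_of_pos (by positivity : 0 < 1 / m)]
  have b1 : |P b (Em1 m) x / P b (Em m) x| ≤ m := by
    rw [abs_div, abs_of_pos hp, div_le_iff₀ hp]; exact PEm1_le h0.le h1 b x
  have b2 : |P b (Em2 m) x / P b (Em m) x| ≤ m := by
    rw [abs_div, abs_of_pos hp, div_le_iff₀ hp]; exact PEm2_le h0.le h1 b x
  have b3 : (P b (Em1 m) x / P b (Em m) x) ^ 2 ≤ m ^ 2 := by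
    rw [← sq_abs]; exact pow_le_pow_left₀ (abs_nonneg _) b1 2
  have b4 : |P b (Em2 m) x / P b (Em m) x - (P b (Em1 m) x / P b (Em m) x) ^ 2| ≤ 2 * m := by
    have := abs_sub (P b (Em2 m) x / P b (Em m) x) ((P b (Em1 m) x / P b (Em m) x) ^ 2)
    rw [abs_of_nonneg (sq_nonneg (P b (Em1 m) x / P b (Em m) x))] at this
    nlinarith
  calc 1 / m * |P b (Em2 m) x / P b (Em m) x - (P b (Em1 m) x / P b (Em m) x) ^ 2|
      ≤ 1 / m * (2 * m) := mul_le_mul_of_nonneg_left b4 (by positivity)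
    _ = 2 := by field_simp

theorem hasDerivAt_hc_b (h0 : 0 < m) (h1 : m ≤ 1) {b : ℝ} (hb : 0 < b) (x : ℝ) :
    HasDerivAt (fun b => hc m b x) (1 / 2 * (hc2 m b x + m * hc1 m b x ^ 2)) b := by
  have h := hasDerivAt_P_a_EG (EG_Em h0.le h1) (EG_Em1 h0.le h1) (EG_Em2 h0.le h1)
    (hasDerivAt_Em m) (hasDerivAt_Em1 m) hb x
  have hp := (PEm_pos h0.le h1 b x).ne'
  have h2 := (h.log hp).const_mul (1 / m)
  refine h2.congr_deriv ?_
  unfold hc2 hc1
  field_simp
  ring

theorem continuous_hc_b (h0 : 0 < m) (h1 : m ≤ 1) (x : ℝ) : Continuous (fun b => hc m b x) := by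
  have c := continuous_P_EG (EG_Em h0.le h1)
  have c2 : Continuous (fun b : ℝ => P b (Em m) x) := by
    have h2 : Continuous (fun b : ℝ => (b, x)) := by fun_prop
    exact c.comp h2
  unfold hc
  exact continuous_const.mul (c2.log fun b => (PEm_pos h0.le h1 b x).ne')

theorem LG_hc (h0 : 0 < m) (h1 : m ≤ 1) (b : ℝ) : LG (hc m b) := by
  have hc' : Continuous (hc m b) :=
    continuous_iff_continuousAt.2 fun x => (hasDerivAt_hc h0 h1 b x).continuousAt
  refine ⟨hc', |hc m b 0| + 1, by positivity, fun x => ?_⟩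
  have := Convex.norm_image_sub_le_of_norm_hasDerivWithin_le (f := hc m b) (f' := hc1 m b) (C := 1)
    (s := univ) (x := 0) (y := x) (fun x _ => (hasDerivAt_hc h0 h1 b x).hasDerivWithinAt)
    (fun x _ => abs_hc1_le h0 h1 b x) convex_univ (mem_univ _) (mem_univ _)
  simp only [Real.norm_eq_abs, one_mul, sub_zero] at this
  have h2 : |hc m b x| ≤ |hc m b 0| + |hc m b x - hc m b 0| := by
    have := abs_add_le (hc m b 0) (hc m b x - hc m b 0)
    rwa [add_sub_cancel] at this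
  have := abs_nonneg x
  have := abs_nonneg (hc m b 0)
  nlinarith

theorem hc_nonpos {b : ℝ} (hb : b ≤ 0) (h0 : 0 < m) (x : ℝ) : hc m b x = lc x := by
  unfold hc P
  rw [Real.sqrt_eq_zero_of_nonpos hb]
  simp only [zero_mul, add_zero, integral_const, probReal_univ, smul_eq_mul, one_mul]
  unfold Em
  rw [Real.log_exp]
  field_simp

theorem hc1_nonpos {b : ℝ} (hb : b ≤ 0) (h0 : 0 < m) (x : ℝ) : hc1 m b x = Real.tanh x := by
  unfold hc1 P
  rw [Real.sqrt_eq_zero_of_nonpos hb]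
  simp only [zero_mul, add_zero, integral_const, probReal_univ, smul_eq_mul, one_mul]
  unfold Em1
  have := (Em_pos m x).ne'
  field_simp

theorem hc2_nonpos {b : ℝ} (hb : b ≤ 0) (h0 : 0 < m) (x : ℝ) : hc2 m b x = S 2 x := by
  unfold hc2 P
  rw [Real.sqrt_eq_zero_of_nonpos hb]
  simp only [zero_mul, add_zero, integral_const, probReal_univ, smul_eq_mul, one_mul]
  unfold Em1 Em2
  have := (Em_pos m x).ne'
  field_simp
  ring

end

/-- two-step solution: `ζ = 0` on `[0,r)`, `m` on `[r,s)`, `1` on `[s,1]`. -/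
noncomputable def f2 (β m r s t x : ℝ) : ℝ :=
  P (2 * β ^ 2 * (r - t)) (hc m (2 * β ^ 2 * (s - max r t))) x + β ^ 2 * (1 - max s t)

noncomputable def z2 (m r s t : ℝ) : ℝ := if t < r then 0 else if t < s then m else 1

theorem P_nonpos {a : ℝ} (ha : a ≤ 0) (g : ℝ → ℝ) (x : ℝ) : P a g x = g x := by
  unfold P
  rw [Real.sqrt_eq_zero_of_nonpos ha]
  simp

theorem deriv_P_hc {m : ℝ} (h0 : 0 < m) (h1 : m ≤ 1) (a b : ℝ) :
    deriv (P a (hc m b)) = P a (hc1 m b) := by
  ext x; exact (hasDerivAt_P_x (LG_hc h0 h1 b) (hasDerivAt_hc h0 h1 b) (abs_hc1_le h0 h1 b) a x).deriv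

theorem LG_hc1 {m : ℝ} (h0 : 0 < m) (h1 : m ≤ 1) (b : ℝ) : LG (hc1 m b) :=
  LG.bdd (continuous_iff_continuousAt.2 fun x => (hasDerivAt_hc1 h0 h1 b x).continuousAt)
    (abs_hc1_le h0 h1 b)

theorem LG_hc2 {m : ℝ} (h0 : 0 < m) (h1 : m ≤ 1) (b : ℝ) : LG (hc2 m b) :=
  LG.bdd (continuous_hc2 h0 h1 b) (abs_hc2_le h0 h1 b)

theorem deriv_P_hc1 {m : ℝ} (h0 : 0 < m) (h1 : m ≤ 1) (a b : ℝ) :
    deriv (P a (hc1 m b)) = P a (hc2 m b) := by
  ext x; exact (hasDerivAt_P_x (LG_hc1 h0 h1 b) (hasDerivAt_hc1 h0 h1 b) (abs_hc2_le h0 h1 b) a x).deriv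

theorem contDiff_P_hc {m : ℝ} (h0 : 0 < m) (h1 : m ≤ 1) (a b : ℝ) :
    ContDiff ℝ 2 (P a (hc m b)) := by
  have h2 : (2 : WithTop ℕ∞) = 1 + 1 := by norm_num
  rw [h2, contDiff_succ_iff_deriv]
  refine ⟨fun x => (hasDerivAt_P_x (LG_hc h0 h1 b) (hasDerivAt_hc h0 h1 b)
    (abs_hc1_le h0 h1 b) a x).differentiableAt, by simp, ?_⟩
  rw [deriv_P_hc h0 h1, contDiff_one_iff_deriv]
  refine ⟨fun x => (hasDerivAt_P_x (LG_hc1 h0 h1 b) (hasDerivAt_hc1 h0 h1 b)
    (abs_hc2_le h0 h1 b) a x).differentiableAt, ?_⟩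
  rw [deriv_P_hc1 h0 h1]
  exact ((LG_hc2 h0 h1 b).P a).1

theorem deriv_f2 {m : ℝ} (h0 : 0 < m) (h1 : m ≤ 1) (β r s t : ℝ) :
    deriv (f2 β m r s t) = P (2 * β ^ 2 * (r - t)) (hc1 m (2 * β ^ 2 * (s - max r t))) := by
  have : f2 β m r s t = fun x => P (2 * β ^ 2 * (r - t)) (hc m (2 * β ^ 2 * (s - max r t))) x
    + β ^ 2 * (1 - max s t) := rfl
  rw [this]
  ext x
  rw [deriv_add_const, deriv_P_hc h0 h1]

set_option maxHeartbeats 2000000 in
theorem isParisiSol_f2 {β m r s : ℝ} (hβ : 0 < β) (h0 : 0 < m) (h1 : m ≤ 1)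
    (hrs : r < s) (hs1 : s ≤ 1) : IsParisiSol β (z2 m r s) (f2 β m r s) where
  terminal := by
    intro x
    unfold f2
    have e1 : 2 * β ^ 2 * (r - 1) ≤ 0 :=
      mul_nonpos_of_nonneg_of_nonpos (by positivity) (by linarith)
    have e2 : 2 * β ^ 2 * (s - max r 1) ≤ 0 := by
      rw [max_eq_right (by linarith)]
      exact mul_nonpos_of_nonneg_of_nonpos (by positivity) (by linarith)
    rw [P_nonpos e1, hc_nonpos e2 h0, max_eq_right hs1]
    simp [lc]
  smooth := by
    intro t _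
    have : f2 β m r s t = fun x => P (2 * β ^ 2 * (r - t)) (hc m (2 * β ^ 2 * (s - max r t))) x
      + β ^ 2 * (1 - max s t) := rfl
    rw [this]
    exact (contDiff_P_hc h0 h1 _ _).add contDiff_const
  bdd := by
    refine ⟨2, fun t _ x => ?_⟩
    rw [deriv_f2 h0 h1, deriv_P_hc1 h0 h1]
    exact ⟨(P_abs_le (abs_hc1_le h0 h1 _) _ _).trans (by norm_num), P_abs_le (abs_hc2_le h0 h1 _) _ _⟩
  cont := by
    intro x
    apply Continuous.continuousOn
    have h4 : Continuous (fun t : ℝ => β ^ 2 * (1 - max s t)) := by fun_prop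
    have e : (fun t => f2 β m r s t x) = fun t =>
        (if t ≤ r then P (2 * β ^ 2 * (r - t)) (hc m (2 * β ^ 2 * (s - r))) x
          else hc m (2 * β ^ 2 * (s - t)) x) + β ^ 2 * (1 - max s t) := by
      ext t
      unfold f2
      split_ifs with hc
      · rw [max_eq_left hc]
      · have hc' := le_of_lt (not_le.1 hc)
        rw [max_eq_right hc', P_nonpos (mul_nonpos_of_nonneg_of_nonpos (by positivity) (by linarith))]
    rw [e]
    apply Continuous.add _ h4
    apply Continuous.if_le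
    · have c := continuous_P (LG_hc h0 h1 (2 * β ^ 2 * (s - r)))
      have c2 : Continuous (fun t : ℝ => ((2 * β ^ 2 * (r - t) : ℝ), x)) := by fun_prop
      exact c.comp c2
    · have c := continuous_hc_b h0 h1 x
      have c2 : Continuous (fun t : ℝ => (2 * β ^ 2 * (s - t) : ℝ)) := by fun_prop
      exact c.comp c2
    · exact continuous_id
    · exact continuous_const
    · intro t ht
      have ht' : t = r := ht
      rw [ht', sub_self, mul_zero, P_zero]
  pde := by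
    intro t ht x
    rw [deriv_f2 h0 h1, deriv_P_hc1 h0 h1]
    rcases lt_or_ge t r with htr | htr
    · -- t < r
      have hz : z2 m r s t = 0 := by simp [z2, htr]
      rw [hz, max_eq_left htr.le]
      have hpos : 0 < 2 * β ^ 2 * (r - t) := mul_pos (by positivity) (by linarith)
      set b := 2 * β ^ 2 * (s - r) with hb
      have d1 : HasDerivAt (fun a => P a (hc m b) x) (1 / 2 * P (2 * β ^ 2 * (r - t)) (hc2 m b) x)
          (2 * β ^ 2 * (r - t)) :=
        hasDerivAt_P_a (C := 2) (LG_hc h0 h1 b) (hasDerivAt_hc h0 h1 b) (hasDerivAt_hc1 h0 h1 b)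
          (fun t => (abs_hc1_le h0 h1 b t).trans (by norm_num)) (abs_hc2_le h0 h1 b) hpos x
      have d2 : HasDerivAt (fun w : ℝ => 2 * β ^ 2 * (r - w)) (-(2 * β ^ 2)) t := by
        have := ((hasDerivAt_id t).const_sub r).const_mul (2 * β ^ 2)
        simpa using this
      have d3 := (d1.comp t d2).add_const (β ^ 2 * (1 - s))
      have d4 : (fun w => f2 β m r s w x) =ᶠ[𝓝 t]
          fun w => ((fun a => P a (hc m b) x) ∘ fun w => 2 * β ^ 2 * (r - w)) w + β ^ 2 * (1 - s) := by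
        filter_upwards [Iio_mem_nhds htr] with w hw
        have hw' : w < r := hw
        unfold f2
        rw [max_eq_left hw'.le, max_eq_left (hw'.trans hrs).le]
        rfl
      refine ((d3.congr_of_eventuallyEq d4).hasDerivWithinAt (s := Ici t)).congr_deriv ?_
      ring
    · have e0 : 2 * β ^ 2 * (r - t) ≤ 0 :=
        mul_nonpos_of_nonneg_of_nonpos (by positivity) (by linarith)
      rw [P_nonpos e0, P_nonpos e0, max_eq_right htr]
      rcases lt_or_ge t s with hts | hts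
      · -- r ≤ t < s
        have hz : z2 m r s t = m := by simp [z2, not_lt.2 htr, hts]
        rw [hz]
        have hpos : 0 < 2 * β ^ 2 * (s - t) := mul_pos (by positivity) (by linarith)
        have d1 := hasDerivAt_hc_b h0 h1 hpos x
        have d2 : HasDerivAt (fun w : ℝ => 2 * β ^ 2 * (s - w)) (-(2 * β ^ 2)) t := by
          have := ((hasDerivAt_id t).const_sub s).const_mul (2 * β ^ 2)
          simpa using this
        have d3 := ((d1.comp t d2).add_const (β ^ 2 * (1 - s))).hasDerivWithinAt (s := Ici t)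
        have d4 : (fun w => f2 β m r s w x) =ᶠ[𝓝[≥] t]
            fun w => ((fun b => hc m b x) ∘ fun w => 2 * β ^ 2 * (s - w)) w + β ^ 2 * (1 - s) := by
          have hmem : ∀ᶠ w in 𝓝[≥] t, w ∈ Iio s :=
            nhdsWithin_le_nhds (Iio_mem_nhds hts)
          filter_upwards [hmem, self_mem_nhdsWithin] with w hw1 hw2
          have hw1' : w < s := hw1
          have hw2' : t ≤ w := hw2
          unfold f2
          rw [max_eq_right (htr.trans hw2'), max_eq_left hw1'.le,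
            P_nonpos (mul_nonpos_of_nonneg_of_nonpos (by positivity) (by linarith))]
          rfl
        refine (d3.congr_of_eventuallyEq_of_mem d4 (mem_Ici.2 le_rfl)).congr_deriv ?_
        ring
      · -- s ≤ t
        have hz : z2 m r s t = 1 := by simp [z2, not_lt.2 htr, not_lt.2 hts]
        rw [hz]
        have e1 : 2 * β ^ 2 * (s - t) ≤ 0 :=
          mul_nonpos_of_nonneg_of_nonpos (by positivity) (by linarith)
        rw [hc1_nonpos e1 h0, hc2_nonpos e1 h0]
        have d1 : HasDerivAt (fun w : ℝ => lc x + β ^ 2 * (1 - w)) (-β ^ 2) t := by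
          have := (((hasDerivAt_id t).const_sub 1).const_mul (β ^ 2)).const_add (lc x)
          simpa using this
        have d2 : ∀ w ∈ Ici t, f2 β m r s w x = lc x + β ^ 2 * (1 - w) := by
          intro w hw
          have hw' : t ≤ w := hw
          have g1 : 2 * β ^ 2 * (r - w) ≤ 0 :=
            mul_nonpos_of_nonneg_of_nonpos (by positivity) (by linarith)
          have g2 : 2 * β ^ 2 * (s - w) ≤ 0 :=
            mul_nonpos_of_nonneg_of_nonpos (by positivity) (by linarith)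
          unfold f2
          rw [max_eq_right (htr.trans hw'), max_eq_right (hts.trans hw'), P_nonpos g1,
            hc_nonpos g2 h0]
        have d3 := (d1.hasDerivWithinAt (s := Ici t)).congr d2 (d2 t (mem_Ici.2 le_rfl))
        refine d3.congr_deriv ?_
        have := tanh_sq x
        unfold S
        rw [this]; ring

end Pool.Agent.N942.AT
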