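import Pool.Agent.N942.ATp

set_option autoImplicit false
open MeasureTheory ProbabilityTheory Set Filter Topology

namespace Pool.Agent.N942.AT

theorem lc_lip (x y : ℝ) : |lc x - lc y| ≤ |x - y| := by
  have := Convex.norm_image_sub_le_of_norm_hasDerivWithin_le (f := lc) (f' := Real.tanh) (C := 1)
    (s := univ) (x := y) (y := x) (fun x _ => (hasDerivAt_lc x).hasDerivWithinAt)
    (fun x _ => abs_tanh_le_one x) convex_univ (mem_univ _) (mem_univ _)
  simpa using this

/-- log of the density of the `h`-transform -/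
noncomputable def Dl (a y z : ℝ) : ℝ := lc (y + Real.sqrt a * z) - lc y - a / 2

theorem exp_Dl (a y z : ℝ) :
    Real.exp (Dl a y z) = Real.exp (-(a / 2)) * sech y * Real.cosh (y + Real.sqrt a * z) := by
  unfold Dl
  have e : lc (y + Real.sqrt a * z) - lc y - a / 2 = -(a / 2) + (-lc y) + lc (y + Real.sqrt a * z) := by
    ring
  rw [e, Real.exp_add, Real.exp_add, exp_lc, Real.exp_neg (lc y), exp_lc]
  rfl

theorem integral_exp_Dl {a : ℝ} (ha : 0 ≤ a) {φ : ℝ → ℝ} (hφ : LG φ) (y : ℝ) :
    ∫ z, Real.exp (Dl a y z) * φ (y + Real.sqrt a * z) ∂gam = Q a φ y := by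
  rw [Q_eq ha hφ, ← integral_const_mul]
  congr 1; ext z; rw [exp_Dl]; ring

theorem integrable_exp_Dl {a : ℝ} {φ : ℝ → ℝ} (hφ : LG φ) (y : ℝ) :
    Integrable (fun z => Real.exp (Dl a y z) * φ (y + Real.sqrt a * z)) gam := by
  set s := Real.sqrt a
  have i1 := integrable_LG_mul_exp hφ y s s
  have i2 := integrable_LG_mul_exp hφ y s (-s)
  have := ((i1.const_mul (Real.exp y / 2)).add (i2.const_mul (Real.exp (-y) / 2))).const_mul
    (Real.exp (-(a / 2)) * sech y)
  refine this.congr (Eventually.of_forall fun z => ?_)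
  simp only [Pi.add_apply]
  have e1 : Real.exp (y + s * z) = Real.exp y * Real.exp (s * z) := by rw [← Real.exp_add]
  have e2 : Real.exp (-(y + s * z)) = Real.exp (-y) * Real.exp (-s * z) := by
    rw [← Real.exp_add]; congr 1; ring
  rw [exp_Dl, Real.cosh_eq, e1, e2]; ring

/-- the entropy function `H_a(y) = Q_a(log cosh)(y) - log cosh y - a/2` -/
noncomputable def Hf (a y : ℝ) : ℝ := Q a lc y - lc y - a / 2

noncomputable def Kc (a : ℝ) : ℝ := 2 * Real.exp (3 * (a / 2)) * ∫ z, Real.exp (3 * Real.sqrt a * |z|) ∂gam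

theorem exp_quad (u : ℝ) : Real.exp u ≤ 1 + u + u ^ 2 * Real.exp |u| := by
  -- e^u - 1 - u ≤ u (e^u - 1)
  have h1 : Real.exp u - 1 - u ≤ u * (Real.exp u - 1) := by
    have h2 : 1 - u ≤ Real.exp (-u) := by have := Real.add_one_le_exp (-u); linarith
    have h3 : Real.exp u * (1 - u) ≤ Real.exp u * Real.exp (-u) :=
      mul_le_mul_of_nonneg_left h2 (Real.exp_nonneg _)
    rw [← Real.exp_add, add_neg_cancel, Real.exp_zero] at h3
    nlinarith
  have h4 : |Real.exp u - 1| ≤ |u| * Real.exp |u| := by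
    rcases le_total 0 u with hu | hu
    · rw [abs_of_nonneg hu, abs_of_nonneg (by have := Real.add_one_le_exp u; linarith)]
      have h2 : 1 - u ≤ Real.exp (-u) := by have := Real.add_one_le_exp (-u); linarith
      have h3 : Real.exp u * (1 - u) ≤ Real.exp u * Real.exp (-u) :=
        mul_le_mul_of_nonneg_left h2 (Real.exp_nonneg _)
      rw [← Real.exp_add, add_neg_cancel, Real.exp_zero] at h3
      linarith
    · rw [abs_of_nonpos hu]
      have h5 : Real.exp u ≤ 1 := Real.exp_le_one_iff.2 hu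
      rw [abs_of_nonpos (by linarith)]
      have h6 := Real.add_one_le_exp u
      have h7 : 1 ≤ Real.exp (-u) := Real.one_le_exp (by linarith)
      nlinarith
  have h5 : u * (Real.exp u - 1) ≤ u ^ 2 * Real.exp |u| := by
    calc u * (Real.exp u - 1) ≤ |u * (Real.exp u - 1)| := le_abs_self _
      _ = |u| * |Real.exp u - 1| := abs_mul _ _
      _ ≤ |u| * (|u| * Real.exp |u|) := mul_le_mul_of_nonneg_left h4 (abs_nonneg u)
      _ = u ^ 2 * Real.exp |u| := by rw [← mul_assoc, abs_mul_abs_self]; ring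
  linarith

theorem hc_upper {m a : ℝ} (h0 : 0 < m) (h1 : m ≤ 1) (ha : 0 ≤ a) (y : ℝ) :
    hc m a y ≤ lc y + a / 2 - (1 - m) / m * Hf a y + (1 - m) ^ 2 / m * Kc a := by
  set ε := 1 - m with hε
  have hε0 : 0 ≤ ε := by linarith
  have hε1 : ε ≤ 1 := by linarith
  set I := ∫ z, Real.exp (m * Dl a y z) ∂gam with hI
  have hcont : Continuous (fun z => Dl a y z) := by
    unfold Dl; have := continuous_lc; fun_prop
  -- P a (Em m) y = exp(m (lc y + a/2)) * I
  have hP : P a (Em m) y = Real.exp (m * (lc y + a / 2)) * I := by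
    rw [hI, ← integral_const_mul]
    unfold P Em Dl
    congr 1; ext z
    rw [← Real.exp_add]; congr 1; ring
  have hPpos := PEm_pos h0.le h1 a y
  have hIpos : 0 < I := by
    rw [hP] at hPpos
    exact pos_of_mul_pos_right hPpos (Real.exp_nonneg _)
  have hlog : hc m a y = lc y + a / 2 + (1 / m) * Real.log I := by
    unfold hc
    rw [hP, Real.log_mul (Real.exp_pos _).ne' hIpos.ne', Real.log_exp]
    field_simp
  -- bound on I
  have hD : ∀ z, |Dl a y z| ≤ Real.sqrt a * |z| + a / 2 := by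
    intro z
    unfold Dl
    have h2 := lc_lip (y + Real.sqrt a * z) y
    have e : y + Real.sqrt a * z - y = Real.sqrt a * z := by ring
    rw [e, abs_mul, abs_of_nonneg (Real.sqrt_nonneg a)] at h2
    calc _ ≤ |lc (y + Real.sqrt a * z) - lc y| + |a / 2| := abs_sub _ _
      _ ≤ _ := by rw [abs_of_nonneg (by linarith : 0 ≤ a / 2)]; linarith
  have hpt : ∀ z, Real.exp (m * Dl a y z)
      ≤ (Real.exp (Dl a y z) * 1 - ε * (Real.exp (Dl a y z) * Dl a y z))
        + ε ^ 2 * (2 * Real.exp (3 * (a / 2)) * Real.exp (3 * Real.sqrt a * |z|)) := by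
    intro z
    set D := Dl a y z
    have e1 : Real.exp (m * D) = Real.exp D * Real.exp (-(ε * D)) := by
      rw [← Real.exp_add]; congr 1; rw [hε]; ring
    have h2 := exp_quad (-(ε * D))
    have h3 : (-(ε * D)) ^ 2 * Real.exp |-(ε * D)| ≤ ε ^ 2 * (D ^ 2 * Real.exp |D|) := by
      have e2 : (-(ε * D)) ^ 2 = ε ^ 2 * D ^ 2 := by ring
      rw [e2, abs_neg, abs_mul, abs_of_nonneg hε0, mul_assoc]
      apply mul_le_mul_of_nonneg_left _ (sq_nonneg ε)
      apply mul_le_mul_of_nonneg_left _ (sq_nonneg D)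
      apply Real.exp_le_exp.2
      have := abs_nonneg D
      nlinarith
    have h4 : D ^ 2 ≤ 2 * Real.exp |D| := by
      have := Real.quadratic_le_exp_of_nonneg (abs_nonneg D)
      rw [sq_abs] at this
      have := abs_nonneg D
      linarith
    have h5 : Real.exp D * (D ^ 2 * Real.exp |D|)
        ≤ 2 * Real.exp (3 * (a / 2)) * Real.exp (3 * Real.sqrt a * |z|) := by
      have h6 : Real.exp D ≤ Real.exp |D| := Real.exp_le_exp.2 (le_abs_self D)
      have h7 : Real.exp |D| * (2 * Real.exp |D| * Real.exp |D|) = 2 * Real.exp (3 * |D|) := by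
        have : Real.exp (3 * |D|) = Real.exp |D| * Real.exp |D| * Real.exp |D| := by
          rw [← Real.exp_add, ← Real.exp_add]; congr 1; ring
        rw [this]; ring
      have h8 : Real.exp (3 * |D|) ≤ Real.exp (3 * (a / 2)) * Real.exp (3 * Real.sqrt a * |z|) := by
        rw [← Real.exp_add]
        apply Real.exp_le_exp.2
        have := hD z
        linarith
      calc Real.exp D * (D ^ 2 * Real.exp |D|)
          ≤ Real.exp |D| * (2 * Real.exp |D| * Real.exp |D|) := by
            apply mul_le_mul h6 _ (by positivity) (Real.exp_nonneg _)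
            exact mul_le_mul_of_nonneg_right h4 (Real.exp_nonneg _)
        _ = 2 * Real.exp (3 * |D|) := h7
        _ ≤ _ := by rw [mul_assoc]; linarith
    rw [e1]
    have h9 : Real.exp D * Real.exp (-(ε * D))
        ≤ Real.exp D * (1 + -(ε * D) + ε ^ 2 * (D ^ 2 * Real.exp |D|)) :=
      mul_le_mul_of_nonneg_left (by linarith) (Real.exp_nonneg _)
    have h10 := mul_le_mul_of_nonneg_left h5 (sq_nonneg ε)
    calc Real.exp D * Real.exp (-(ε * D))
        ≤ Real.exp D * (1 + -(ε * D) + ε ^ 2 * (D ^ 2 * Real.exp |D|)) := h9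
      _ = (Real.exp D * 1 - ε * (Real.exp D * D)) + ε ^ 2 * (Real.exp D * (D ^ 2 * Real.exp |D|)) := by
          ring
      _ ≤ _ := by linarith
  -- integrals
  have lD : LG (fun x => lc x + (-(lc y) - a / 2)) := LG_lc.add (LG.const _)
  have hDint : ∫ z, Real.exp (Dl a y z) * Dl a y z ∂gam = Hf a y := by
    have h2 := integral_exp_Dl ha lD y
    have e : ∀ z, Real.exp (Dl a y z) * Dl a y z
        = Real.exp (Dl a y z) * (lc (y + Real.sqrt a * z) + (-(lc y) - a / 2)) := by
      intro z; congr 1; unfold Dl; ring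
    simp only [e]
    rw [h2, Q_add LG_lc (LG.const _), Q_const]
    unfold Hf; ring
  have iD : Integrable (fun z => Real.exp (Dl a y z) * Dl a y z) gam := by
    have := integrable_exp_Dl (a := a) lD y
    refine this.congr (Eventually.of_forall fun z => ?_)
    simp only; congr 1; unfold Dl; ring
  have i1 : Integrable (fun z => Real.exp (Dl a y z) * 1) gam :=
    integrable_exp_Dl (a := a) (LG.const 1) y
  have h1int : ∫ z, Real.exp (Dl a y z) * 1 ∂gam = 1 := by
    have := integral_exp_Dl ha (LG.const 1) y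
    rw [Q_const] at this; exact this
  have iE : Integrable (fun z : ℝ => 2 * Real.exp (3 * (a / 2)) * Real.exp (3 * Real.sqrt a * |z|)) gam :=
    (integrable_exp_abs _).const_mul _
  have iEm : Integrable (fun z => Real.exp (m * Dl a y z)) gam := by
    have := ((EG_Em h0.le h1).integrable y (Real.sqrt a)).const_mul (Real.exp (-(m * (lc y + a / 2))))
    refine this.congr (Eventually.of_forall fun z => ?_)
    simp only
    unfold Em Dl
    rw [← Real.exp_add]; congr 1; ring
  have iS : Integrable (fun z => Real.exp (Dl a y z) * 1 - ε * (Real.exp (Dl a y z) * Dl a y z)) gam :=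
    i1.sub (iD.const_mul ε)
  have hIle : I ≤ 1 - ε * Hf a y + ε ^ 2 * Kc a := by
    have h2 := integral_mono iEm (iS.add (iE.const_mul (ε ^ 2))) hpt
    rw [integral_add' iS (iE.const_mul (ε ^ 2)), integral_sub i1 (iD.const_mul ε), integral_const_mul,
      integral_const_mul, integral_const_mul, hDint, h1int] at h2
    exact h2
  have hlogle : Real.log I ≤ -ε * Hf a y + ε ^ 2 * Kc a := by
    have := Real.log_le_sub_one_of_pos hIpos
    linarith
  rw [hlog]
  have h3 := mul_le_mul_of_nonneg_left hlogle (by positivity : 0 ≤ 1 / m)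
  have e3 : 1 / m * (-ε * Hf a y + ε ^ 2 * Kc a) = -(ε / m * Hf a y) + ε ^ 2 / m * Kc a := by ring
  rw [e3] at h3
  linarith

/-! ### derivative of the entropy in time -/

noncomputable def g0 (x : ℝ) : ℝ := lc x * Real.cosh x
noncomputable def g1 (x : ℝ) : ℝ := Real.sinh x + lc x * Real.sinh x
noncomputable def g2 (x : ℝ) : ℝ := Real.cosh x + Real.tanh x * Real.sinh x + lc x * Real.cosh x

theorem abs_sinh_le (x : ℝ) : |Real.sinh x| ≤ Real.exp |x| := by
  have h1 : |Real.sinh x| ≤ Real.cosh x := by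
    rw [abs_le]
    constructor
    · have := Real.cosh_add_sinh x
      have := Real.exp_pos x
      linarith
    · exact (Real.sinh_lt_cosh x).le
  exact h1.trans (cosh_le_exp_abs x)

theorem exp_abs_le_two (x : ℝ) : Real.exp |x| ≤ Real.exp (2 * |x|) :=
  Real.exp_le_exp.2 (by linarith [abs_nonneg x])

theorem lc_mul_exp_le (x : ℝ) : lc x * Real.exp |x| ≤ Real.exp (2 * |x|) := by
  have h1 : lc x ≤ Real.exp |x| := (lc_le_abs x).trans (abs_le_exp_abs x)
  have e : Real.exp (2 * |x|) = Real.exp |x| * Real.exp |x| := by rw [← Real.exp_add]; congr 1; ring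
  rw [e]
  exact mul_le_mul_of_nonneg_right h1 (Real.exp_nonneg _)

theorem EG_cosh : EG Real.cosh := by
  refine ⟨Real.continuous_cosh, 1, zero_le_one, fun x => ?_⟩
  rw [abs_of_pos (Real.cosh_pos x), one_mul]
  exact (cosh_le_exp_abs x).trans (exp_abs_le_two x)

theorem EG_g0 : EG g0 := by
  refine ⟨continuous_lc.mul Real.continuous_cosh, 1, zero_le_one, fun x => ?_⟩
  unfold g0
  rw [abs_mul, abs_of_nonneg (lc_nonneg x), abs_of_pos (Real.cosh_pos x), one_mul]
  exact (mul_le_mul_of_nonneg_left (cosh_le_exp_abs x) (lc_nonneg x)).trans (lc_mul_exp_le x)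

theorem EG_g1 : EG g1 := by
  refine ⟨Real.continuous_sinh.add (continuous_lc.mul Real.continuous_sinh), 2, by norm_num,
    fun x => ?_⟩
  unfold g1
  have h1 := abs_sinh_le x
  have h2 : |lc x * Real.sinh x| ≤ Real.exp (2 * |x|) := by
    rw [abs_mul, abs_of_nonneg (lc_nonneg x)]
    exact (mul_le_mul_of_nonneg_left h1 (lc_nonneg x)).trans (lc_mul_exp_le x)
  have h3 := exp_abs_le_two x
  linarith [abs_add_le (Real.sinh x) (lc x * Real.sinh x)]

theorem EG_g2 : EG g2 := by
  refine ⟨(Real.continuous_cosh.add (continuous_tanh.mul Real.continuous_sinh)).add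
    (continuous_lc.mul Real.continuous_cosh), 3, by norm_num, fun x => ?_⟩
  unfold g2
  have h1 := abs_sinh_le x
  have h2 : |lc x * Real.cosh x| ≤ Real.exp (2 * |x|) := by
    rw [abs_mul, abs_of_nonneg (lc_nonneg x), abs_of_pos (Real.cosh_pos x)]
    exact (mul_le_mul_of_nonneg_left (cosh_le_exp_abs x) (lc_nonneg x)).trans (lc_mul_exp_le x)
  have h3 := exp_abs_le_two x
  have h4 : |Real.tanh x * Real.sinh x| ≤ Real.exp |x| := by
    rw [abs_mul]
    calc |Real.tanh x| * |Real.sinh x| ≤ 1 * Real.exp |x| :=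
          mul_le_mul (abs_tanh_le_one x) h1 (abs_nonneg _) zero_le_one
      _ = _ := one_mul _
  have h5 : |Real.cosh x| ≤ Real.exp |x| := by
    rw [abs_of_pos (Real.cosh_pos x)]; exact cosh_le_exp_abs x
  have h6 := abs_add_le (Real.cosh x + Real.tanh x * Real.sinh x) (lc x * Real.cosh x)
  have h7 := abs_add_le (Real.cosh x) (Real.tanh x * Real.sinh x)
  linarith

theorem hasDerivAt_g0 (x : ℝ) : HasDerivAt g0 (g1 x) x := by
  have h := (hasDerivAt_lc x).mul (Real.hasDerivAt_cosh x)
  refine h.congr_deriv ?_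
  unfold g1
  rw [tanh_mul_cosh]

theorem hasDerivAt_g1 (x : ℝ) : HasDerivAt g1 (g2 x) x := by
  have h := (Real.hasDerivAt_sinh x).add ((hasDerivAt_lc x).mul (Real.hasDerivAt_sinh x))
  refine h.congr_deriv ?_
  unfold g2; ring

theorem Q_lc_eq {b : ℝ} (hb : 0 ≤ b) (y : ℝ) :
    Q b lc y = Real.exp (-(b / 2)) * sech y * P b g0 y := by
  rw [Q_eq hb LG_lc]; rfl

theorem hasDerivAt_Hf {b : ℝ} (hb : 0 < b) (y : ℝ) :
    HasDerivAt (fun b => Hf b y) (1 / 2 * Psi b y) b := by
  have h1 := hasDerivAt_P_a_EG EG_g0 EG_g1 EG_g2 hasDerivAt_g0 hasDerivAt_g1 hb y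
  have h2 : HasDerivAt (fun b : ℝ => Real.exp (-(b / 2)) * sech y)
      (-(1 / 2) * (Real.exp (-(b / 2)) * sech y)) b := by
    have e1 : HasDerivAt (fun b : ℝ => -(b / 2)) (-(1 / 2)) b :=
      ((hasDerivAt_id b).div_const 2).neg
    have := (e1.exp).mul_const (sech y)
    refine this.congr_deriv ?_
    ring
  have h3 := h2.mul h1
  have h4 : HasDerivAt (fun b => Real.exp (-(b / 2)) * sech y * P b g0 y - lc y - b / 2)
      ((-(1 / 2) * (Real.exp (-(b / 2)) * sech y) * P b g0 y
        + Real.exp (-(b / 2)) * sech y * (1 / 2 * P b g2 y)) - 1 / 2) b := by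
    have := (h3.sub_const (lc y)).sub ((hasDerivAt_id b).div_const 2)
    refine this.congr_deriv ?_
    norm_num
  have h5 : (fun b => Hf b y) =ᶠ[𝓝 b]
      fun b => Real.exp (-(b / 2)) * sech y * P b g0 y - lc y - b / 2 := by
    filter_upwards [Ioi_mem_nhds hb] with c hc
    unfold Hf
    rw [Q_lc_eq (le_of_lt hc)]
  refine (h4.congr_of_eventuallyEq h5).congr_deriv ?_
  -- P b g2 = P b g0 + P b (cosh (1 + tanh²))
  have h6 : P b g2 y = P b g0 y + P b (fun x => (1 + Real.tanh x ^ 2) * Real.cosh x) y := by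
    have e : g2 = fun x => g0 x + (1 + Real.tanh x ^ 2) * Real.cosh x := by
      ext x; unfold g2 g0
      rw [← tanh_mul_cosh]; ring
    have l : EG (fun x => (1 + Real.tanh x ^ 2) * Real.cosh x) := by
      apply EG_cosh.mul_bdd (φ := fun x => 1 + Real.tanh x ^ 2)
        (by have := continuous_tanh; fun_prop) (C := 2)
      intro x
      have h7 := abs_tanh_sq_le x
      rw [abs_of_nonneg (sq_nonneg _)] at h7
      rw [abs_of_nonneg (by positivity)]
      linarith
    rw [e]
    exact integral_add (EG_g0.integrable y _) (l.integrable y _)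
  have lt : LG (fun x => 1 + Real.tanh x ^ 2) := (LG.const 1).add LG_tanh_sq
  have h7 : Real.exp (-(b / 2)) * sech y * P b (fun x => (1 + Real.tanh x ^ 2) * Real.cosh x) y
      = 1 + Psi b y := by
    have h8 := Q_eq hb.le lt y
    have h9 : Q b (fun x => 1 + Real.tanh x ^ 2) y = 1 + Psi b y := by
      rw [Q_add (LG.const 1) LG_tanh_sq, Q_const]
      have e : (fun x => Real.tanh x ^ 2) = Psi 0 := by ext x; rw [Psi_zero]
      rw [e, Q_Psi hb.le le_rfl, add_zero]
    rw [← h9, h8]; rfl
  rw [h6]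
  have e1 : (-(1 / 2) * (Real.exp (-(b / 2)) * sech y) * P b g0 y
      + Real.exp (-(b / 2)) * sech y * (1 / 2 * (P b g0 y
        + P b (fun x => (1 + Real.tanh x ^ 2) * Real.cosh x) y))) - 1 / 2
      = 1 / 2 * (Real.exp (-(b / 2)) * sech y * P b (fun x => (1 + Real.tanh x ^ 2) * Real.cosh x) y)
        - 1 / 2 := by ring
  rw [e1, h7]; ring

theorem continuousOn_Hf_b (y : ℝ) : ContinuousOn (fun b => Hf b y) (Ici 0) := by
  have c := continuous_P_EG EG_g0
  have c2 : Continuous (fun b : ℝ => P b g0 y) := by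
    have h2 : Continuous (fun b : ℝ => (b, y)) := by fun_prop
    exact c.comp h2
  have h : Continuous (fun b : ℝ => Real.exp (-(b / 2)) * sech y * P b g0 y - lc y - b / 2) := by
    fun_prop
  apply h.continuousOn.congr
  intro b hb
  simp only [Hf]
  rw [Q_lc_eq hb]

theorem Hf_zero (y : ℝ) : Hf 0 y = 0 := by
  unfold Hf
  rw [Q_lc_eq le_rfl, P_zero]
  unfold g0
  have h1 := sech_mul_cosh y
  have e : Real.exp (-(0 / 2)) * sech y * (lc y * Real.cosh y) = (sech y * Real.cosh y) * lc y := by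
    simp; ring
  rw [e, h1]; ring

theorem Hf_bounds {b : ℝ} (hb : 0 ≤ b) (y : ℝ) : 0 ≤ Hf b y ∧ Hf b y ≤ b / 2 := by
  have hm : MonotoneOn (fun b => Hf b y) (Ici 0) := by
    apply mono_of (continuousOn_Hf_b y) (fun b hb => hasDerivAt_Hf hb y)
    intro b hb
    have := (Psi_bounds hb.le y).1
    linarith
  have hm2 : AntitoneOn (fun b => Hf b y - b / 2) (Ici 0) := by
    apply anti_of (f' := fun b => 1 / 2 * Psi b y - 1 / 2)
    · exact (continuousOn_Hf_b y).sub (by fun_prop)
    · intro b hb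
      exact (hasDerivAt_Hf hb y).sub (by simpa using (hasDerivAt_id b).div_const 2)
    · intro b hb
      have := (Psi_bounds hb.le y).2
      linarith
  have h1 := hm (mem_Ici.2 le_rfl) (mem_Ici.2 hb) hb
  have h2 := hm2 (mem_Ici.2 le_rfl) (mem_Ici.2 hb) hb
  simp only [Hf_zero] at h1 h2
  exact ⟨h1, by linarith⟩

theorem continuous_Hf {b : ℝ} (hb : 0 ≤ b) : Continuous (Hf b) := by
  have c := continuous_P_x_EG EG_g0 b
  have := continuous_sech
  have := continuous_lc
  have h : Continuous (fun y : ℝ => Real.exp (-(b / 2)) * sech y * P b g0 y - lc y - b / 2) := by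
    fun_prop
  have e : Hf b = fun y : ℝ => Real.exp (-(b / 2)) * sech y * P b g0 y - lc y - b / 2 := by
    ext y; unfold Hf; rw [Q_lc_eq hb]
  rw [e]; exact h

theorem LG_Hf {b : ℝ} (hb : 0 ≤ b) : LG (Hf b) :=
  LG.bdd (continuous_Hf hb) (C := b / 2) fun y => by
    have := Hf_bounds hb y
    rw [abs_of_nonneg this.1]; exact this.2

/-- averaged entropy -/
noncomputable def kf (v h b : ℝ) : ℝ := P v (Hf b) h

theorem hasDerivAt_kf (v h : ℝ) {b : ℝ} (hb : 0 < b) :
    HasDerivAt (kf v h) (1 / 2 * (1 - m v h 1 (b / 2))) b := by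
  have key := (hasDerivAt_integral_of_dominated_loc_of_deriv_le (μ := gam) (𝕜 := ℝ)
    (F := fun c z => Hf c (h + Real.sqrt v * z))
    (F' := fun c z => 1 / 2 * Psi c (h + Real.sqrt v * z))
    (x₀ := b) (bound := fun _ => (1:ℝ)) (s := Ioi 0) (Ioi_mem_nhds hb) ?_ ?_ ?_ ?_ ?_ ?_).2
  · refine HasDerivAt.congr_deriv (f := kf v h) key ?_
    rw [integral_const_mul]
    have : ∫ z, Psi b (h + Real.sqrt v * z) ∂gam = 1 - m v h 1 (b / 2) := P_Psi v h
    rw [this]
  · filter_upwards [Ioi_mem_nhds hb] with c hc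
    exact ((continuous_Hf (le_of_lt hc)).comp (by fun_prop : Continuous fun z : ℝ => h + Real.sqrt v * z)).aestronglyMeasurable
  · exact (LG_Hf hb.le).integrable _ _
  · have := (LG_Psi hb.le).1
    exact (continuous_const.mul (this.comp (by fun_prop : Continuous fun z : ℝ => h + Real.sqrt v * z))).aestronglyMeasurable
  · refine Eventually.of_forall fun z c hc => ?_
    have := Psi_bounds (le_of_lt (show (0:ℝ) < c from hc)) (h + Real.sqrt v * z)
    rw [Real.norm_eq_abs, abs_of_nonneg (by linarith)]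
    linarith
  · exact integrable_const _
  · refine Eventually.of_forall fun z c hc => ?_
    exact hasDerivAt_Hf hc _

theorem continuousOn_kf (v h a : ℝ) : ContinuousOn (kf v h) (Icc 0 a) := by
  apply continuousOn_of_dominated (bound := fun _ => a / 2)
  · intro b hb
    exact ((LG_Hf hb.1).integrable _ _).aestronglyMeasurable
  · intro b hb
    refine Eventually.of_forall fun z => ?_
    have := Hf_bounds hb.1 (h + Real.sqrt v * z)
    rw [Real.norm_eq_abs, abs_of_nonneg this.1]
    linarith [this.2, hb.2]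
  · exact integrable_const _
  · refine Eventually.of_forall fun z => ?_
    exact (continuousOn_Hf_b _).mono fun b hb => hb.1

theorem kf_zero (v h : ℝ) : kf v h 0 = 0 := by
  unfold kf
  have e : Hf 0 = fun _ => (0:ℝ) := by ext y; exact Hf_zero y
  rw [e, P_const]

end Pool.Agent.N942.AT
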