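import Pool.Agent.N942.ATq

set_option autoImplicit false
open MeasureTheory ProbabilityTheory Set Filter Topology

namespace Pool.Agent.N942.AT

theorem intervalIntegrable_ind (q a b : ℝ) :
    IntervalIntegrable (fun t : ℝ => (if q ≤ t then (1:ℝ) else 0) * t) volume a b := by
  have hmono : Monotone (fun t : ℝ => if q ≤ t then (1:ℝ) else 0) := by
    intro s t hst
    simp only
    split_ifs with h1 h2
    · exact le_rfl
    · exact absurd (h1.trans hst) h2
    · exact zero_le_one
    · exact le_rfl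
  have h2 : IntervalIntegrable (fun t : ℝ => if q ≤ t then (1:ℝ) else 0) volume a b :=
    hmono.intervalIntegrable
  exact h2.mul_continuousOn continuousOn_id

theorem integral_ind {q : ℝ} (hq0 : 0 ≤ q) (hq1 : q ≤ 1) :
    ∫ t in (0:ℝ)..1, (if q ≤ t then (1:ℝ) else 0) * t = (1 - q ^ 2) / 2 := by
  rw [← intervalIntegral.integral_add_adjacent_intervals (intervalIntegrable_ind q 0 q)
    (intervalIntegrable_ind q q 1)]
  have h3 : ∫ t in (0:ℝ)..q, (if q ≤ t then (1:ℝ) else 0) * t = 0 := by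
    have hne : ∀ᵐ t ∂(volume : Measure ℝ), t ≠ q := by simp [ae_iff, measure_singleton]
    rw [intervalIntegral.integral_congr_ae (g := fun _ => (0:ℝ))]
    · simp
    · filter_upwards [hne] with t ht hmem
      rw [uIoc_of_le hq0] at hmem
      have : ¬ q ≤ t := not_le.2 (lt_of_le_of_ne hmem.2 ht)
      simp [this]
  have h4 : ∫ t in q..1, (if q ≤ t then (1:ℝ) else 0) * t = ∫ t in q..1, t := by
    apply intervalIntegral.integral_congr
    intro t ht
    rw [uIcc_of_le hq1] at ht
    simp [ht.1]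
  rw [h3, h4, zero_add, integral_id]
  ring

theorem z2_eq {m r s : ℝ} (hrs : r < s) (t : ℝ) :
    z2 m r s t = m * (if r ≤ t then (1:ℝ) else 0) + (1 - m) * (if s ≤ t then (1:ℝ) else 0) := by
  unfold z2
  rcases lt_or_ge t r with h1 | h1
  · have h2 : ¬ r ≤ t := not_le.2 h1
    have h3 : ¬ s ≤ t := not_le.2 (h1.trans hrs)
    simp [h1, h2, h3]
  · rcases lt_or_ge t s with h2 | h2
    · have h3 : ¬ s ≤ t := not_le.2 h2
      simp [not_lt.2 h1, h2, h1, h3]
    · simp [not_lt.2 h1, not_lt.2 h2, h1, h2]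

/-- the value of the one-point functional, as a function of the point -/
noncomputable def Vf (β h r : ℝ) : ℝ :=
  Real.log 2 + (P (2 * β ^ 2 * r) lc h + β ^ 2 * (1 - r)) - β ^ 2 * ((1 - r ^ 2) / 2)

theorem val_f0' {β h q : ℝ} (hq0 : 0 ≤ q) (hq1 : q ≤ 1) :
    val β h (fun t => if q ≤ t then 1 else 0) (f0 β q) = Vf β h q := by
  rw [val_f0 hq0 hq1]
  unfold Vf
  rw [integral_id]; ring

theorem val_f2 {β h m r s : ℝ} (hr0 : 0 ≤ r) (hrs : r < s) (hs1 : s ≤ 1) :
    val β h (z2 m r s) (f2 β m r s) = Real.log 2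
      + (P (2 * β ^ 2 * r) (hc m (2 * β ^ 2 * (s - r))) h + β ^ 2 * (1 - s))
      - β ^ 2 * (m * ((1 - r ^ 2) / 2) + (1 - m) * ((1 - s ^ 2) / 2)) := by
  unfold val f2
  have hs0 : 0 ≤ s := hr0.trans hrs.le
  have h1 : ∫ t in (0:ℝ)..1, z2 m r s t * t
      = m * ((1 - r ^ 2) / 2) + (1 - m) * ((1 - s ^ 2) / 2) := by
    have e : ∀ t, z2 m r s t * t = m * ((if r ≤ t then (1:ℝ) else 0) * t)
        + (1 - m) * ((if s ≤ t then (1:ℝ) else 0) * t) := by
      intro t; rw [z2_eq hrs]; ring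
    simp only [e]
    rw [intervalIntegral.integral_add ((intervalIntegrable_ind r 0 1).const_mul m)
      ((intervalIntegrable_ind s 0 1).const_mul (1 - m)), intervalIntegral.integral_const_mul,
      intervalIntegral.integral_const_mul, integral_ind hr0 (hrs.le.trans hs1),
      integral_ind hs0 hs1]
  rw [h1, sub_zero, max_eq_left hr0, max_eq_left hs0]

/-- the two-point measure -/
noncomputable def mu2 (m r s : ℝ) : Measure ℝ :=
  ENNReal.ofReal m • Measure.dirac r + ENNReal.ofReal (1 - m) • Measure.dirac s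

theorem isProb_mu2 {m r s : ℝ} (h0 : 0 ≤ m) (h1 : m ≤ 1) : IsProbabilityMeasure (mu2 m r s) := by
  constructor
  unfold mu2
  simp only [Measure.coe_add, Measure.coe_smul, Pi.add_apply, Pi.smul_apply, measure_univ,
    smul_eq_mul, mul_one]
  rw [← ENNReal.ofReal_add h0 (by linarith)]
  simp

theorem mu2_supp {m r s : ℝ} (hr : r ∈ Icc (0:ℝ) 1) (hs : s ∈ Icc (0:ℝ) 1) :
    mu2 m r s (Icc 0 1)ᶜ = 0 := by
  unfold mu2
  simp only [Measure.coe_add, Measure.coe_smul, Pi.add_apply, Pi.smul_apply, smul_eq_mul]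
  rw [Measure.dirac_apply' r measurableSet_Icc.compl, Measure.dirac_apply' s measurableSet_Icc.compl]
  simp [hr.1, hr.2, hs.1, hs.2]

theorem cdf_mu2 {m r s : ℝ} (h0 : 0 ≤ m) (h1 : m ≤ 1) (hrs : r < s) :
    (cdf (mu2 m r s) : ℝ → ℝ) = z2 m r s := by
  have := isProb_mu2 (r := r) (s := s) h0 h1
  ext t
  rw [cdf_eq_real, measureReal_def, z2_eq hrs]
  unfold mu2
  simp only [Measure.coe_add, Measure.coe_smul, Pi.add_apply, Pi.smul_apply, smul_eq_mul]
  rw [Measure.dirac_apply' r measurableSet_Iic, Measure.dirac_apply' s measurableSet_Iic]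
  simp only [indicator, mem_Iic, Pi.one_apply]
  rw [ENNReal.toReal_add (by split_ifs <;> simp) (by split_ifs <;> simp), ENNReal.toReal_mul,
    ENNReal.toReal_mul, ENNReal.toReal_ofReal h0, ENNReal.toReal_ofReal (by linarith)]
  congr 1
  · congr 1; split_ifs <;> simp
  · congr 1; split_ifs <;> simp

variable {β : ℝ} {f : ℝ → ℝ → ℝ}

/-- any solution for the point mass at `r` has value at least `Vf`. -/
theorem lower_self (hβ : 0 < β) {h r : ℝ} (hr0 : 0 ≤ r) (hr1 : r ≤ 1)
    (hf : IsParisiSol β (fun t => if r ≤ t then 1 else 0) f) :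
    Vf β h r ≤ val β h (fun t => if r ≤ t then 1 else 0) f := by
  set ζ : ℝ → ℝ := fun t => if r ≤ t then 1 else 0 with hζd
  have hζ : ∀ t ∈ Icc (0 : ℝ) 1, 0 ≤ ζ t ∧ ζ t ≤ 1 := by
    intro t _
    simp only [hζd]
    split_ifs <;> norm_num
  have hmono : MonotoneOn ζ (Icc 0 1) := by
    intro s _ t _ hst
    simp only [hζd]
    split_ifs with h1 h2
    · exact le_rfl
    · exact absurd (h1.trans hst) h2
    · exact zero_le_one
    · exact le_rfl
  set κ := 2 * β ^ 2 with hκd
  have hκ : 0 < κ := by positivity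
  have key : ∀ n : ℕ, 0 < n → P (κ * r) lc h + β ^ 2 * (1 - r) - κ / n ≤ f 0 h := by
    intro n hn
    have hn' : (0:ℝ) < n := by exact_mod_cast hn
    -- stage A bound at time r
    have hA : ∃ R : ℝ → ℝ, LG R ∧ (∀ y, -(κ / n) ≤ R y) ∧
        ∀ x y, lc y + β ^ 2 * (1 - r) + Real.tanh y * (x - y) + R y ≤ f r x := by
      rcases hr1.lt_or_eq with hr | hr
      · set δ := (1 - r) / n with hδ
        have hδ0 : 0 < δ := div_pos (by linarith) hn'
        have hnδ : n * δ = 1 - r := by rw [hδ]; field_simp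
        have h1 := stageA hf hζ hmono hβ hδ0 n (by linarith)
        have e1 : 1 - (n:ℝ) * δ = r := by linarith
        rw [e1, ← hκd, hnδ] at h1
        have hκδ : 0 ≤ κ * δ := by positivity
        refine ⟨RA ζ (κ * δ) δ n, LG_RA ζ hκδ δ n, ?_, h1⟩
        intro y
        unfold RA
        have e2 : ∑ i ∈ Finset.range n, (1 - ζ (1 - n * δ + i * δ)) * Psi (i * (κ * δ)) y = 0 := by
          apply Finset.sum_eq_zero
          intro i _
          have : r ≤ 1 - n * δ + i * δ := by
            rw [e1]; have : 0 ≤ (i:ℝ) * δ := by positivity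
            linarith
          simp [hζd, this]
        rw [e2, mul_zero, zero_add]
        have b1 := (Psi_bounds le_rfl y).1
        have b2 := (Psi_bounds (b := n * (κ * δ)) (by positivity) y).2
        have b3 : κ * δ ≤ κ / n := by
          have : δ ≤ 1 / n := div_le_div_of_nonneg_right (by linarith) hn'.le
          calc κ * δ ≤ κ * (1 / n) := mul_le_mul_of_nonneg_left this hκ.le
            _ = κ / n := by ring
        nlinarith
      · refine ⟨fun _ => 0, LG.const 0, fun y => ?_, fun x y => ?_⟩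
        · have : 0 ≤ κ / n := by positivity
          linarith
        · have h1 := lc_tangent x y
          have h2 : f 1 x = lc x := hf.terminal x
          rw [hr, h2, sub_self]; linarith
    obtain ⟨R, lR, hR1, hR2⟩ := hA
    have hPR : -(κ / n) ≤ P (κ * r) R h := by
      have := P_mono (LG.const (-(κ / n))) lR hR1 (κ * r) h
      rwa [P_const] at this
    rcases hr0.lt_or_eq with hrp | hrp
    · set δ' := r / n with hδ'
      have hδ'0 : 0 < δ' := div_pos hrp hn'
      have hnδ' : n * δ' = r := by rw [hδ']; field_simp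
      have hB := stageB hf hζ hmono hβ hr1 lR hR2 hδ'0 n hnδ'.le h h
      rw [sub_self, mul_zero, add_zero, hnδ', sub_self, ← hκd] at hB
      have e2 : (n:ℝ) * (κ * δ') = κ * r := by rw [← hnδ']; ring
      rw [e2] at hB
      have hRB : P (κ * r) R h ≤ RB ζ r (κ * δ') δ' R n h := by
        unfold RB
        rw [e2]
        have h1 : 0 ≤ ∑ i ∈ Finset.range n, ζ (r - n * δ' + i * δ') *
            P (i * (κ * δ')) (fun w => P ((n - i) * (κ * δ')) Real.tanh w ^ 2) h := by
          apply Finset.sum_nonneg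
          intro i hi
          apply mul_nonneg _ (P_nonneg (fun y => sq_nonneg _) _ _)
          simp only [hζd]; split_ifs <;> norm_num
        have h2 : 0 ≤ κ * δ' / 2 := by positivity
        nlinarith [mul_nonneg h2 h1]
      linarith
    · have h1 := hR2 h h
      rw [sub_self, mul_zero, add_zero, ← hrp] at h1
      rw [← hrp] at hPR ⊢
      rw [mul_zero, P_zero] at hPR ⊢
      linarith
  have hlim : Tendsto (fun n : ℕ => P (κ * r) lc h + β ^ 2 * (1 - r) - κ / n) atTop
      (𝓝 (P (κ * r) lc h + β ^ 2 * (1 - r) - 0)) :=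
    Tendsto.sub tendsto_const_nhds (tendsto_const_div_atTop_nhds_zero_nat _)
  have hfin := le_of_tendsto hlim (Filter.eventually_atTop.2 ⟨1, fun n hn => key n hn⟩)
  unfold Vf val
  rw [integral_ind hr0 hr1]
  linarith

/-- **Instability**: if `r` is a fixed point in `[0,1)` and the AT condition fails at `r`, some
two-point measure does strictly better. -/
theorem unstable (hβ : 0 < β) {h r : ℝ} (hr0 : 0 ≤ r) (hr1 : r < 1)
    (hr : r = P (2 * β ^ 2 * r) (fun x => Real.tanh x ^ 2) h)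
    (hAT : 1 < 2 * β ^ 2 * P (2 * β ^ 2 * r) (S 4) h) :
    ∃ ν : Measure ℝ, IsProbabilityMeasure ν ∧ ν (Icc 0 1)ᶜ = 0 ∧
      ∃ g, IsParisiSol β (cdf ν) g ∧ val β h (cdf ν) g < Vf β h r := by
  set κ := 2 * β ^ 2 with hκd
  have hκ : 0 < κ := by positivity
  set v := κ * r with hv
  -- choose c
  set s4 := P v (S 4) h with hs4
  have hm0 : m v h 3 0 = s4 := m_zero v h 3
  obtain ⟨c, hc0, hcc⟩ : ∃ c : ℝ, 0 < c ∧ (1 + c) / κ < m v h 3 0 := by
    refine ⟨(κ * s4 - 1) / 2, by linarith, ?_⟩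
    rw [hm0, div_lt_iff₀ hκ]; linarith
  -- M ≥ (1+c)/κ near 0
  have hcont := (continuous_m v h 3).continuousAt (x := (0:ℝ))
  have hev := hcont.eventually (lt_mem_nhds hcc)
  obtain ⟨τ0, hτ0, hball⟩ := Metric.eventually_nhds_iff.1 hev
  have hM : ∀ τ, 0 ≤ τ → τ < τ0 → (1 + c) / κ ≤ m v h 3 τ := by
    intro τ h1 h2
    exact (hball (by rw [Real.dist_eq, sub_zero, abs_of_nonneg h1]; exact h2)).le
  -- choose d
  obtain ⟨d, hd0, hd1, hd2⟩ : ∃ d : ℝ, 0 < d ∧ r + d ≤ 1 ∧ κ * d / 2 < τ0 := by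
    refine ⟨min (1 - r) (τ0 / κ), lt_min (by linarith) (by positivity), ?_, ?_⟩
    · have := min_le_left (1 - r) (τ0 / κ); linarith
    · have h1 := min_le_right (1 - r) (τ0 / κ)
      have h2 : κ * min (1 - r) (τ0 / κ) ≤ κ * (τ0 / κ) := mul_le_mul_of_nonneg_left h1 hκ.le
      have h3 : κ * (τ0 / κ) = τ0 := by field_simp
      linarith
  set a := κ * d with ha
  have ha0 : 0 < a := by positivity
  have hs2 : P v (S 2) h = 1 - r := by
    have := u_eq v h; rw [← hr] at this; linarith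
  -- A upper bound on [0, τ0)
  have hA : ∀ τ ∈ Icc (0:ℝ) (a / 2), m v h 1 τ ≤ (1 - r) - 2 * ((1 + c) / κ) * τ := by
    have hanti : AntitoneOn (fun τ => m v h 1 τ + 2 * ((1 + c) / κ) * τ) (Icc 0 (a / 2)) := by
      apply antitoneOn_of_deriv_nonpos (convex_Icc _ _)
      · exact ((continuous_m v h 1).continuousOn).add (by fun_prop)
      · intro τ hτ
        rw [interior_Icc] at hτ
        have h1 := ((sys v h).dA τ hτ.1).differentiableAt
        exact (h1.add (by fun_prop)).differentiableWithinAt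
      · intro τ hτ
        rw [interior_Icc] at hτ
        have h1 := (sys v h).dA τ hτ.1
        have h2 : HasDerivAt (fun τ : ℝ => 2 * ((1 + c) / κ) * τ) (2 * ((1 + c) / κ)) τ := by
          simpa using (hasDerivAt_id τ).const_mul (2 * ((1 + c) / κ))
        have h3 : deriv (fun τ => m v h 1 τ + 2 * ((1 + c) / κ) * τ) τ
            = -2 * m v h 3 τ + 2 * ((1 + c) / κ) := (h1.add h2).deriv
        rw [h3]
        have h4 := hM τ hτ.1.le (by linarith [hτ.2])
        linarith
    intro τ hτ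
    have h1 := hanti (⟨le_rfl, by positivity⟩ : (0:ℝ) ∈ Icc 0 (a / 2)) hτ hτ.1
    simp only [mul_zero, add_zero] at h1
    rw [m_zero, hs2] at h1
    linarith
  -- lower bound on kf
  have hk : 1 / 2 * (r * a + (1 + c) * a ^ 2 / (2 * κ)) ≤ kf v h a := by
    have hmono : MonotoneOn (fun b => kf v h b - 1 / 2 * (r * b + (1 + c) * b ^ 2 / (2 * κ))) (Icc 0 a) := by
      have hd : ∀ b ∈ Ioo 0 a, HasDerivAt
          (fun b => kf v h b - 1 / 2 * (r * b + (1 + c) * b ^ 2 / (2 * κ)))
          (1 / 2 * (1 - m v h 1 (b / 2)) - 1 / 2 * (r + (1 + c) * b / κ)) b := by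
        intro b hb
        have h1 := hasDerivAt_kf v h hb.1
        have h2 : HasDerivAt (fun b : ℝ => 1 / 2 * (r * b + (1 + c) * b ^ 2 / (2 * κ)))
            (1 / 2 * (r + (1 + c) * b / κ)) b := by
          have e1 : HasDerivAt (fun b : ℝ => r * b) r b := by
            simpa using (hasDerivAt_id b).const_mul r
          have e2 := (((hasDerivAt_id b).pow 2).const_mul (1 + c)).div_const (2 * κ)
          have e3 := (e1.add e2).const_mul (1 / 2)
          refine e3.congr_deriv ?_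
          simp only [id]
          push_cast
          field_simp
        exact h1.sub h2
      apply monotoneOn_of_deriv_nonneg (convex_Icc _ _)
      · exact (continuousOn_kf v h a).sub (by fun_prop)
      · intro b hb
        rw [interior_Icc] at hb
        exact (hd b hb).differentiableAt.differentiableWithinAt
      · intro b hb
        rw [interior_Icc] at hb
        rw [(hd b hb).deriv]
        have h1 := hA (b / 2) ⟨by linarith [hb.1], by linarith [hb.2]⟩
        have e : 2 * ((1 + c) / κ) * (b / 2) = (1 + c) * b / κ := by ring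
        rw [e] at h1
        linarith
    have h1 := hmono (⟨le_rfl, ha0.le⟩ : (0:ℝ) ∈ Icc 0 a) ⟨ha0.le, le_rfl⟩ ha0.le
    simp only [kf_zero] at h1
    norm_num at h1
    linarith
  -- K ≥ 0
  have hK0 : 0 ≤ Kc a := by
    unfold Kc
    have : 0 ≤ ∫ z, Real.exp (3 * Real.sqrt a * |z|) ∂gam := integral_nonneg fun z => Real.exp_nonneg _
    positivity
  -- choose ε
  obtain ⟨ε, hε0, hε1, hε2⟩ : ∃ ε : ℝ, 0 < ε ∧ ε ≤ 1 / 2 ∧ ε * (2 * Kc a) < β ^ 2 * (c * d ^ 2 / 2) := by
    have hpos : 0 < β ^ 2 * (c * d ^ 2 / 2) := by positivity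
    refine ⟨min (1 / 2) (β ^ 2 * (c * d ^ 2 / 2) / (2 * Kc a + 1)), lt_min (by norm_num) (by positivity),
      min_le_left _ _, ?_⟩
    have h1 := min_le_right (1 / 2) (β ^ 2 * (c * d ^ 2 / 2) / (2 * Kc a + 1))
    have h2 : (β ^ 2 * (c * d ^ 2 / 2) / (2 * Kc a + 1)) * (2 * Kc a) < β ^ 2 * (c * d ^ 2 / 2) := by
      rw [div_mul_eq_mul_div, div_lt_iff₀ (by positivity)]
      nlinarith
    exact lt_of_le_of_lt (mul_le_mul_of_nonneg_right h1 (by positivity)) h2
  set mm := 1 - ε with hmm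
  have hmm0 : 1 / 2 ≤ mm := by linarith
  have hmm0' : 0 < mm := by linarith
  have hmm1 : mm ≤ 1 := by linarith
  have hrs : r < r + d := by linarith
  refine ⟨mu2 mm r (r + d), isProb_mu2 hmm0'.le hmm1, mu2_supp ⟨hr0, hr1.le⟩ ⟨by linarith, hd1⟩,
    f2 β mm r (r + d), ?_, ?_⟩
  · rw [cdf_mu2 hmm0'.le hmm1 hrs]
    exact isParisiSol_f2 hβ hmm0' hmm1 hrs hd1
  · rw [cdf_mu2 hmm0'.le hmm1 hrs, val_f2 hr0 hrs hd1]
    have e1 : 2 * β ^ 2 * (r + d - r) = a := by rw [ha, hκd]; ring
    rw [e1]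
    -- upper bound for P v (hc mm a) h
    have hup : P v (hc mm a) h ≤ P v lc h + a / 2 - ε / mm * kf v h a + ε ^ 2 / mm * Kc a := by
      have l1 : LG (fun y => ε / mm * Hf a y) := (LG_Hf ha0.le).const_mul _
      have l2 : LG (fun y => lc y + a / 2) := LG_lc.add (LG.const _)
      have l3 : LG (fun y => lc y + a / 2 - ε / mm * Hf a y) := l2.sub l1
      have h1 := P_mono (LG_hc hmm0' hmm1 a) (l3.add (LG.const (ε ^ 2 / mm * Kc a)))
        (fun y => by
          have := hc_upper hmm0' hmm1 ha0.le y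
          have e2 : 1 - mm = ε := by rw [hmm]; ring
          rw [e2] at this
          exact this) v h
      rw [P_add l3 (LG.const _), P_sub l2 l1, P_add LG_lc (LG.const _), P_const, P_const,
        P_const_mul] at h1
      exact h1
    unfold Vf
    rw [← hκd, ← hv]
    have e3 : 1 / 2 * (r * a + (1 + c) * a ^ 2 / (2 * κ)) = β ^ 2 * (r * d + (1 + c) * d ^ 2 / 2) := by
      rw [ha]
      have h1 : (κ * d) ^ 2 / (2 * κ) = κ * d ^ 2 / 2 := by field_simp
      rw [mul_div_assoc, h1, hκd]; ring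
    rw [e3] at hk
    have hkpos : 0 ≤ kf v h a := le_trans (by positivity) hk
    have h4 : ε * kf v h a ≤ ε / mm * kf v h a := by
      apply mul_le_mul_of_nonneg_right _ hkpos
      rw [le_div_iff₀ hmm0']
      nlinarith
    have h5 : ε ^ 2 / mm * Kc a ≤ ε * (ε * (2 * Kc a)) := by
      have : ε ^ 2 / mm ≤ 2 * ε ^ 2 := by
        rw [div_le_iff₀ hmm0']
        nlinarith [sq_nonneg ε]
      nlinarith
    have h6 : ε * (ε * (2 * Kc a)) < ε * (β ^ 2 * (c * d ^ 2 / 2)) := mul_lt_mul_of_pos_left hε2 hε0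
    have h7 : ε * (β ^ 2 * (r * d + (1 + c) * d ^ 2 / 2)) ≤ ε * kf v h a :=
      mul_le_mul_of_nonneg_left hk hε0.le
    have e4 : a / 2 = β ^ 2 * d := by rw [ha, hκd]; ring
    rw [e4] at hup
    have e5 : mm = 1 - ε := hmm
    have e6 : β ^ 2 * (mm * ((1 - r ^ 2) / 2) + (1 - mm) * ((1 - (r + d) ^ 2) / 2))
        = β ^ 2 * ((1 - r ^ 2) / 2) - ε * (β ^ 2 * (r * d + d ^ 2 / 2)) := by
      rw [e5]; ring
    rw [e6]
    have e7 : ε * (β ^ 2 * (r * d + (1 + c) * d ^ 2 / 2))
        = ε * (β ^ 2 * (r * d + d ^ 2 / 2)) + ε * (β ^ 2 * (c * d ^ 2 / 2)) := by ring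
    rw [e7] at h7
    linarith

end Pool.Agent.N942.AT
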