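import Pool.Agent.N942.ATr

set_option autoImplicit false
open MeasureTheory ProbabilityTheory Set Filter Topology

namespace Pool.Agent.N942.AT

/-- strict positivity of expectations of functions positive off `0`. -/
theorem P_pos_off {g : ℝ → ℝ} (hnn : ∀ x, 0 ≤ g x) (hpos : ∀ x, x ≠ 0 → 0 < g x)
    {v : ℝ} (hv : 0 < v) (h : ℝ) (hi : Integrable (fun z => g (h + Real.sqrt v * z)) gam) :
    0 < P v g h := by
  unfold P
  rw [integral_pos_iff_support_of_nonneg (fun z => hnn _) hi]
  have hs := Real.sqrt_pos.2 hv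
  have hsub : ({-h / Real.sqrt v}ᶜ : Set ℝ) ⊆ Function.support (fun z => g (h + Real.sqrt v * z)) := by
    intro z hz
    rw [Function.mem_support]
    apply (hpos _ _).ne'
    intro h0
    apply hz
    rw [mem_singleton_iff, eq_div_iff hs.ne']
    linarith
  have h1 : gam ({-h / Real.sqrt v}ᶜ : Set ℝ) = 1 := by
    have := nullSingletonClass_gaussianReal (μ := 0) (v := 1) one_ne_zero
    rw [prob_compl_eq_one_iff (measurableSet_singleton _)]
    exact measure_singleton _
  calc (0 : ENNReal) < 1 := zero_lt_one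
    _ = gam ({-h / Real.sqrt v}ᶜ : Set ℝ) := h1.symm
    _ ≤ _ := measure_mono hsub

/-- `φ(t) = E tanh²(h + √(κ t) z)` -/
noncomputable def ph (κ h t : ℝ) : ℝ := P (κ * t) (fun x => Real.tanh x ^ 2) h

theorem ph_eq (κ h t : ℝ) : ph κ h t = 1 - P (κ * t) (S 2) h := u_eq _ _

theorem continuous_P_mul {g : ℝ → ℝ} (hg : LG g) (κ h : ℝ) :
    Continuous (fun t : ℝ => P (κ * t) g h) := by
  have h1 := continuous_P hg
  have h2 : Continuous (fun t : ℝ => ((κ * t : ℝ), h)) := by fun_prop
  exact h1.comp h2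

theorem continuous_ph (κ h : ℝ) : Continuous (ph κ h) := by
  have h3 := continuous_P_mul LG_tanh_sq κ h
  exact h3

theorem S2_dd (x : ℝ) : HasDerivAt (S1 2) ((2:ℝ) ^ 2 * S 2 x - (2:ℝ) * (2 + 1) * S 4 x) x := by
  have h1 := hasDerivAt_S1 2 x
  refine h1.congr_deriv ?_
  norm_num

theorem S2_dd_le (x : ℝ) : |(2:ℝ) ^ 2 * S 2 x - (2:ℝ) * (2 + 1) * S 4 x| ≤ 10 := by
  have a1 := S_nonneg 2 x
  have a2 := S_le_one 2 x
  have a3 := S_nonneg 4 x
  have a4 := S_le_one 4 x
  rw [abs_le]; constructor <;> nlinarith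

theorem hasDerivAt_ph {κ : ℝ} (hκ : 0 < κ) (h : ℝ) {t : ℝ} (ht : 0 < t) :
    HasDerivAt (ph κ h)
      (-(κ / 2) * P (κ * t) (fun x => (2:ℝ) ^ 2 * S 2 x - (2:ℝ) * (2 + 1) * S 4 x) h) t := by
  have hpos : 0 < κ * t := mul_pos hκ ht
  have h1 : HasDerivAt (fun a => P a (S 2) h)
      (1 / 2 * P (κ * t) (fun x => (2:ℝ) ^ 2 * S 2 x - (2:ℝ) * (2 + 1) * S 4 x) h) (κ * t) :=
    hasDerivAt_P_a (g' := S1 2) (g'' := fun x => (2:ℝ) ^ 2 * S 2 x - (2:ℝ) * (2 + 1) * S 4 x)
    (C := 10) (LG_S 2) (hasDerivAt_S 2) S2_dd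
    (fun t => (abs_S1_le 2 t).trans (by norm_num)) S2_dd_le hpos h
  have h2 : HasDerivAt (fun t : ℝ => κ * t) κ t := by simpa using (hasDerivAt_id t).const_mul κ
  have h3 := (h1.comp t h2).const_sub 1
  have h4 : ph κ h = fun t => 1 - ((fun a => P a (S 2) h) ∘ fun t => κ * t) t := by
    ext s; rw [ph_eq]; rfl
  rw [h4]
  refine h3.congr_deriv ?_
  ring

theorem tanh_gt {x : ℝ} (hx : 0 < x) : x * S 2 x < Real.tanh x := by
  have hd : ∀ y, HasDerivAt (fun y => Real.tanh y - y * S 2 y) (2 * (y * (S 2 y * Real.tanh y))) y := by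
    intro y
    have h := (hasDerivAt_tanh y).sub ((hasDerivAt_id y).mul (hasDerivAt_S 2 y))
    refine h.congr_deriv ?_
    simp only [id, S1, S]; push_cast; ring
  have hm : StrictMonoOn (fun y => Real.tanh y - y * S 2 y) (Ici 0) := by
    apply strictMonoOn_of_deriv_pos (convex_Ici 0)
    · exact fun y _ => (hd y).continuousAt.continuousWithinAt
    · intro y hy
      rw [interior_Ici] at hy
      have hy : 0 < y := hy
      rw [(hd y).deriv]
      have h1 : 0 < Real.tanh y := by
        rw [tanh_eq]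
        exact mul_pos (Real.sinh_pos_iff.2 hy) (sech_pos y)
      have := S_pos 2 y
      positivity
  have := hm (mem_Ici.2 le_rfl) (mem_Ici.2 hx.le) hx
  simp only [Real.tanh_zero, zero_mul, sub_zero] at this
  linarith

theorem tanh_pos' {x : ℝ} (hx : 0 < x) : 0 < Real.tanh x := by
  rw [tanh_eq]; exact mul_pos (Real.sinh_pos_iff.2 hx) (sech_pos x)

/-- Latala-Guerra, derivative form: `t φ'(t) < φ(t)` -/
theorem LG_ineq {κ h t : ℝ} (hκ : 0 < κ) (hh : 0 ≤ h) (ht : 0 < t) :
    t * (-(κ / 2) * P (κ * t) (fun x => (2:ℝ) ^ 2 * S 2 x - (2:ℝ) * (2 + 1) * S 4 x) h)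
      < ph κ h t := by
  set v := κ * t with hv
  have hv0 : 0 < v := by positivity
  have h1 := stein_P S2_dd (abs_S1_le 2) S2_dd_le h hv0.le
  -- P v ((x-h) S1 2) = -2 E[(X-h) S2 tanh]
  have h3 : P v (fun x => (x - h) * S1 2 x) h
      = (2 * h) * P v (fun x => S 2 x * Real.tanh x) h
        - 2 * P v (fun x => x * S 2 x * Real.tanh x) h := by
    have e : (fun x => (x - h) * S1 2 x)
        = fun x => (2 * h) * (S 2 x * Real.tanh x) - 2 * (x * S 2 x * Real.tanh x) := by
      ext x; unfold S1; push_cast; ring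
    rw [e, P_sub ((LG_S_tanh 2).const_mul _) ((LG_x_S_tanh (by norm_num)).const_mul _), P_const_mul,
      P_const_mul]
  have h4 := S_tanh_nonneg hh hv0 2
  have lx : LG (fun x => x * S 2 x * Real.tanh x) := LG_x_S_tanh (by norm_num)
  have lg : LG (fun x => Real.tanh x ^ 2 - x * S 2 x * Real.tanh x) := LG_tanh_sq.sub lx
  have h5 : 0 < P v (fun x => Real.tanh x ^ 2 - x * S 2 x * Real.tanh x) h := by
    have hpt : ∀ x, 0 < x → 0 < Real.tanh x ^ 2 - x * S 2 x * Real.tanh x := by
      intro x hx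
      have a1 := tanh_gt hx
      have a2 := tanh_pos' hx
      have e : Real.tanh x ^ 2 - x * S 2 x * Real.tanh x = Real.tanh x * (Real.tanh x - x * S 2 x) := by
        ring
      rw [e]; exact mul_pos a2 (by linarith)
    have hpt' : ∀ x, x ≠ 0 → 0 < Real.tanh x ^ 2 - x * S 2 x * Real.tanh x := by
      intro x hx
      rcases lt_or_gt_of_ne hx with h0 | h0
      · have := hpt (-x) (by linarith)
        rw [Real.tanh_neg, S_neg] at this
        linarith [this, show (-Real.tanh x) ^ 2 - -x * S 2 x * -Real.tanh x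
          = Real.tanh x ^ 2 - x * S 2 x * Real.tanh x by ring]
      · exact hpt x h0
    apply P_pos_off _ hpt' hv0 h (lg.integrable _ _)
    intro x
    rcases eq_or_ne x 0 with h0 | h0
    · rw [h0]; simp
    · exact (hpt' x h0).le
  rw [P_sub LG_tanh_sq lx] at h5
  have h6 : ph κ h t = P v (fun x => Real.tanh x ^ 2) h := rfl
  rw [h6]
  have e : t * (-(κ / 2) * P v (fun x => (2:ℝ) ^ 2 * S 2 x - (2:ℝ) * (2 + 1) * S 4 x) h)
      = -(1 / 2) * (v * P v (fun x => (2:ℝ) ^ 2 * S 2 x - (2:ℝ) * (2 + 1) * S 4 x) h) := by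
    rw [hv]; ring
  rw [e, ← h1, h3]
  have : 0 ≤ h * P v (fun x => S 2 x * Real.tanh x) h := mul_nonneg hh h4
  linarith

theorem ratio_anti {κ h : ℝ} (hκ : 0 < κ) (hh : 0 ≤ h) :
    StrictAntiOn (fun t => ph κ h t / t) (Ioi 0) := by
  apply strictAntiOn_of_deriv_neg (convex_Ioi 0)
  · apply ContinuousOn.div (continuous_ph κ h).continuousOn continuousOn_id
    intro t ht; exact (ne_of_gt (show (0:ℝ) < t from ht))
  · intro t ht
    rw [interior_Ioi] at ht
    have ht : 0 < t := ht
    have h1 := (hasDerivAt_ph hκ h ht).div (hasDerivAt_id t) ht.ne'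
    have h2 : deriv (fun t => ph κ h t / t) t = _ := h1.deriv
    rw [h2]
    apply div_neg_of_neg_of_pos _ (by positivity)
    have h3 := LG_ineq hκ hh ht
    simp only [id, mul_one]
    linarith

theorem ph_reflect (κ h t : ℝ) : ph κ (-h) t = ph κ h t := by
  unfold ph
  exact P_reflect (fun x => by rw [Real.tanh_neg]; ring) _ _

/-- uniqueness of the positive fixed point -/
theorem unique_pos {κ h : ℝ} (hκ : 0 < κ) {r q : ℝ} (hr : 0 < r) (hrq : r < q)
    (h1 : r = ph κ h r) (h2 : q = ph κ h q) : False := by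
  have key : ∀ h', 0 ≤ h' → r = ph κ h' r → q = ph κ h' q → False := by
    intro h' hh' h1 h2
    have := ratio_anti hκ hh' (mem_Ioi.2 hr) (mem_Ioi.2 (hr.trans hrq)) hrq
    simp only at this
    rw [← h1, ← h2, div_self hr.ne', div_self (hr.trans hrq).ne'] at this
    exact lt_irrefl _ this
  rcases le_total 0 h with hh | hh
  · exact key h hh h1 h2
  · apply key (-h) (by linarith)
    · rw [ph_reflect]; exact h1
    · rw [ph_reflect]; exact h2

theorem tanh_lt_self {x : ℝ} (hx : 0 < x) : Real.tanh x < x := by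
  have h1 := abs_le.1 (abs_tanh_le_one x)
  have hd : ∀ y, HasDerivAt (fun y => y - Real.tanh y) (Real.tanh y ^ 2) y := by
    intro y
    have h := (hasDerivAt_id y).sub (hasDerivAt_tanh y)
    refine h.congr_deriv ?_
    rw [tanh_sq]
  have hm : StrictMonoOn (fun y => y - Real.tanh y) (Ici 0) := by
    apply strictMonoOn_of_deriv_pos (convex_Ici 0)
    · exact fun y _ => (hd y).continuousAt.continuousWithinAt
    · intro y hy
      rw [interior_Ici] at hy
      have hy : 0 < y := hy
      rw [(hd y).deriv]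
      have := tanh_pos' hy
      positivity
  have := hm (mem_Ici.2 le_rfl) (mem_Ici.2 hx.le) hx
  simp only [Real.tanh_zero, sub_zero] at this
  linarith

/-- no positive fixed point when `h = 0` and `κ ≤ 1`. -/
theorem no_pos {κ q : ℝ} (hκ : 0 < κ) (hκ1 : κ ≤ 1) (hq : 0 < q) (h2 : q = ph κ 0 q) : False := by
  have hv : 0 < κ * q := by positivity
  have hsq : Integrable (fun z : ℝ => (0 + Real.sqrt (κ * q) * z) ^ 2) gam := by
    have := integrable_sq_gam.const_mul (κ * q)
    refine this.congr (Eventually.of_forall fun z => ?_)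
    simp only [zero_add]
    rw [mul_pow, Real.sq_sqrt hv.le]
  have hi : Integrable (fun z : ℝ => (fun x : ℝ => x ^ 2 - Real.tanh x ^ 2) (0 + Real.sqrt (κ * q) * z)) gam :=
    hsq.sub (LG_tanh_sq.integrable 0 _)
  have hpt : ∀ x : ℝ, 0 < x → 0 < x ^ 2 - Real.tanh x ^ 2 := by
    intro x hx
    have a1 := tanh_lt_self hx
    have a2 := tanh_pos' hx
    nlinarith
  have hpt' : ∀ x : ℝ, x ≠ 0 → 0 < x ^ 2 - Real.tanh x ^ 2 := by
    intro x hx
    rcases lt_or_gt_of_ne hx with h0 | h0
    · have := hpt (-x) (by linarith)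
      rw [Real.tanh_neg] at this
      linarith [this, show (-x) ^ 2 - (-Real.tanh x) ^ 2 = x ^ 2 - Real.tanh x ^ 2 by ring]
    · exact hpt x h0
  have h1 := P_pos_off (g := fun x : ℝ => x ^ 2 - Real.tanh x ^ 2) (fun x => by
    rcases eq_or_ne x 0 with h0 | h0
    · rw [h0]; simp
    · exact (hpt' x h0).le) hpt' hv 0 hi
  have h3 : P (κ * q) (fun x : ℝ => x ^ 2 - Real.tanh x ^ 2) 0 = κ * q - q := by
    unfold P
    rw [integral_sub hsq (LG_tanh_sq.integrable 0 _)]
    have e1 : ∫ z, (0 + Real.sqrt (κ * q) * z) ^ 2 ∂gam = κ * q := by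
      have : ∀ z : ℝ, (0 + Real.sqrt (κ * q) * z) ^ 2 = (κ * q) * z ^ 2 := by
        intro z; rw [zero_add, mul_pow, Real.sq_sqrt hv.le]
      simp only [this]
      rw [integral_const_mul, integral_sq_gam, mul_one]
    have e2 : ∫ z, Real.tanh (0 + Real.sqrt (κ * q) * z) ^ 2 ∂gam = q := h2.symm
    rw [e1, e2]
  rw [h3] at h1
  nlinarith

/-! ### minimisers of the one-point functional are fixed points -/

theorem continuous_Vf (β h : ℝ) : Continuous (Vf β h) := by
  have h1 := continuous_P LG_lc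
  have h2 : Continuous (fun t : ℝ => ((2 * β ^ 2 * t : ℝ), h)) := by fun_prop
  have h3 : Continuous (fun t : ℝ => P (2 * β ^ 2 * t) lc h) := h1.comp h2
  unfold Vf
  fun_prop

theorem hasDerivAt_Vf {β : ℝ} (hβ : 0 < β) (h : ℝ) {t : ℝ} (ht : 0 < t) :
    HasDerivAt (Vf β h) (β ^ 2 * (t - ph (2 * β ^ 2) h t)) t := by
  have h1 : HasDerivAt (fun a => P a lc h) (1 / 2 * P (2 * β ^ 2 * t) (S 2) h) (2 * β ^ 2 * t) :=
    hasDerivAt_P_a LG_lc hasDerivAt_lc hasDerivAt_tanh abs_tanh_le_one (abs_S_le 2)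
      (by positivity) h
  have h2 : HasDerivAt (fun t : ℝ => 2 * β ^ 2 * t) (2 * β ^ 2) t := by
    simpa using (hasDerivAt_id t).const_mul (2 * β ^ 2)
  have h3 := h1.comp t h2
  have h4 : HasDerivAt (fun t : ℝ => β ^ 2 * (1 - t)) (-β ^ 2) t := by
    simpa using ((hasDerivAt_id t).const_sub 1).const_mul (β ^ 2)
  have h5 : HasDerivAt (fun t : ℝ => β ^ 2 * ((1 - t ^ 2) / 2)) (-(β ^ 2 * t)) t := by
    have := ((((hasDerivAt_id t).pow 2).const_sub 1).div_const 2).const_mul (β ^ 2)
    refine this.congr_deriv ?_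
    simp only [id]; push_cast; ring
  have h6 := ((h3.add h4).const_add (Real.log 2)).sub h5
  refine HasDerivAt.congr_deriv (f := Vf β h) h6 ?_
  rw [ph_eq]
  ring

theorem min_fixed {β : ℝ} (hβ : 0 < β) {h r : ℝ} (hr : r ∈ Icc (0:ℝ) 1)
    (hmin : ∀ s ∈ Icc (0:ℝ) 1, Vf β h r ≤ Vf β h s) : r = ph (2 * β ^ 2) h r := by
  set g : ℝ → ℝ := fun s => s - ph (2 * β ^ 2) h s with hg
  have hgc : Continuous g := continuous_id.sub (continuous_ph _ _)
  have hph0 : ∀ t, 0 ≤ ph (2 * β ^ 2) h t := fun t => P_nonneg (fun y => sq_nonneg _) _ _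
  have hph1 : ∀ t, ph (2 * β ^ 2) h t < 1 := fun t => P_tanh_sq_lt_one _ _
  rcases lt_trichotomy (g r) 0 with hlt | heq | hgt
  · exfalso
    have hr1 : r < 1 := by
      rcases hr.2.lt_or_eq with h1 | h1
      · exact h1
      · exfalso
        have := hph1 1
        simp only [hg, h1] at hlt
        linarith
    have hev := hgc.continuousAt.eventually (gt_mem_nhds hlt)
    obtain ⟨η, hη, hball⟩ := Metric.eventually_nhds_iff.1 hev
    set d := min (η / 2) (1 - r) with hd
    have hd0 : 0 < d := lt_min (by linarith) (by linarith)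
    have hdη : d < η := lt_of_le_of_lt (min_le_left _ _) (by linarith)
    have hd1 : r + d ≤ 1 := by have := min_le_right (η / 2) (1 - r); linarith
    have hanti : StrictAntiOn (Vf β h) (Icc r (r + d)) := by
      apply strictAntiOn_of_deriv_neg (convex_Icc _ _) (continuous_Vf β h).continuousOn
      intro t ht
      rw [interior_Icc] at ht
      rw [(hasDerivAt_Vf hβ h (lt_of_le_of_lt hr.1 ht.1)).deriv]
      have h1 : g t < 0 := hball (by
        rw [Real.dist_eq, abs_of_pos (by linarith [ht.1])]; linarith [ht.2])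
      exact mul_neg_of_pos_of_neg (by positivity) h1
    have h1 := hanti (⟨le_rfl, by linarith⟩ : r ∈ Icc r (r + d)) ⟨by linarith, le_rfl⟩ (by linarith)
    have h2 := hmin (r + d) ⟨by linarith [hr.1], hd1⟩
    linarith
  · simp only [hg] at heq; linarith
  · exfalso
    have hr0 : 0 < r := by
      rcases hr.1.lt_or_eq with h1 | h1
      · exact h1
      · exfalso
        have := hph0 0
        simp only [hg, ← h1] at hgt
        linarith
    have hev := hgc.continuousAt.eventually (lt_mem_nhds hgt)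
    obtain ⟨η, hη, hball⟩ := Metric.eventually_nhds_iff.1 hev
    set d := min (η / 2) r with hd
    have hd0 : 0 < d := lt_min (by linarith) hr0
    have hdη : d < η := lt_of_le_of_lt (min_le_left _ _) (by linarith)
    have hd1 : 0 ≤ r - d := by have := min_le_right (η / 2) r; linarith
    have hmono : StrictMonoOn (Vf β h) (Icc (r - d) r) := by
      apply strictMonoOn_of_deriv_pos (convex_Icc _ _) (continuous_Vf β h).continuousOn
      intro t ht
      rw [interior_Icc] at ht
      rw [(hasDerivAt_Vf hβ h (lt_of_le_of_lt hd1 ht.1)).deriv]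
      have h1 : 0 < g t := hball (by
        rw [Real.dist_eq, abs_of_neg (by linarith [ht.2])]; linarith [ht.1])
      exact mul_pos (by positivity) h1
    have h1 := hmono (⟨le_rfl, by linarith⟩ : r - d ∈ Icc (r - d) r) ⟨by linarith, le_rfl⟩
      (by linarith)
    have h2 := hmin (r - d) ⟨hd1, by linarith [hr.2]⟩
    linarith

/-- **Converse (Toninelli's direction).** -/
theorem AT_of_parisi {β h r : ℝ} (hβ : 0 < β) (hP : IsParisiMeasure β h (Measure.dirac r)) :
    r = qmax β h ∧ ATcond β h (qmax β h) := by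
  obtain ⟨_, hsupp, f, hf, hmin⟩ := hP
  have hr : r ∈ Icc (0:ℝ) 1 := by
    rw [Measure.dirac_apply' r measurableSet_Icc.compl] at hsupp
    by_contra hcon
    simp [indicator, hcon] at hsupp
  rw [cdf_dirac'] at hf hmin
  have hlow := lower_self (h := h) hβ hr.1 hr.2 hf
  have hVmin : ∀ s ∈ Icc (0:ℝ) 1, Vf β h r ≤ Vf β h s := by
    intro s hs
    have h1 := hmin (Measure.dirac s) inferInstance (by
      rw [Measure.dirac_apply' s measurableSet_Icc.compl]
      simp [hs.1, hs.2]) (f0 β s) (by rw [cdf_dirac']; exact isParisiSol_f0 hβ hs.2)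
    rw [cdf_dirac', val_f0' hs.1 hs.2] at h1
    exact hlow.trans h1
  have hfix := min_fixed hβ hr hVmin
  have hκ : 0 < 2 * β ^ 2 := by positivity
  have hr1 : r < 1 := by
    have : ph (2 * β ^ 2) h r < 1 := P_tanh_sq_lt_one _ _
    linarith
  have hATr : 2 * β ^ 2 * P (2 * β ^ 2 * r) (S 4) h ≤ 1 := by
    by_contra hcon
    obtain ⟨ν, hν, hν0, g, hg, hlt⟩ := unstable hβ hr.1 hr1 hfix (not_le.1 hcon)
    have := hmin ν hν hν0 g hg
    linarith
  have hgr := isGreatest_qmax hβ.le h
  have hrmem : r ∈ fixedSet β h := ⟨hr, by rw [phi_eq hβ.le]; exact hfix⟩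
  have hrq : r ≤ qmax β h := hgr.2 hrmem
  have hqmem := hgr.1
  have hqfix : qmax β h = ph (2 * β ^ 2) h (qmax β h) := by
    have := hqmem.2
    rw [phi_eq hβ.le] at this
    exact this
  have hreq : r = qmax β h := by
    rcases hrq.lt_or_eq with hlt | heq
    · exfalso
      rcases hr.1.lt_or_eq with hrp | hrp
      · exact unique_pos hκ hrp hlt hfix hqfix
      · -- r = 0
        rw [← hrp] at hfix hATr hlt
        unfold ph at hfix
        rw [mul_zero, P_zero] at hfix hATr
        have h1 : sech h ^ 2 = 1 := by have := tanh_sq h; linarith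
        have h2 : S 4 h = 1 := by
          unfold S
          calc sech h ^ 4 = (sech h ^ 2) ^ 2 := by ring
            _ = 1 := by rw [h1]; norm_num
        rw [h2, mul_one] at hATr
        have h3 : h = 0 := by
          by_contra hne
          have h4 : Real.tanh h ^ 2 = 0 := hfix.symm
          rcases lt_or_gt_of_ne hne with h5 | h5
          · have := tanh_pos' (show 0 < -h by linarith)
            rw [Real.tanh_neg] at this
            nlinarith
          · have := tanh_pos' h5
            nlinarith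
        rw [h3] at hqfix hlt
        exact no_pos hκ hATr hlt hqfix
    · exact heq
  refine ⟨hreq, ?_⟩
  unfold ATcond
  rw [AT_eq hβ.le, ← hreq]
  linarith

end Pool.Agent.N942.AT
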