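import Pool.Agent.N942.ATs

set_option autoImplicit false
open MeasureTheory ProbabilityTheory Set Filter Topology

namespace Pool.Agent.N942.AT

theorem sech_lt_of_abs {x y : ℝ} (h : |x| < |y|) : sech y < sech x := by
  unfold sech
  apply inv_strictAnti₀ (Real.cosh_pos _)
  rwa [Real.cosh_lt_cosh]

theorem S2_lt_of_abs {x y : ℝ} (h : |x| < |y|) : S 2 y < S 2 x := by
  have h1 := sech_lt_of_abs h
  have h2 := sech_pos y
  unfold S
  nlinarith

theorem poin_pt_strict_aux {a b : ℝ} (hab : b < a) :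
    (Real.tanh a - Real.tanh b) ^ 2 < (a - b) * (G4 a - G4 b) := by
  have aux : ∀ y, b < y → 0 < (G4 y - G4 b) + (y - b) * S 4 y
      - 2 * (Real.tanh y - Real.tanh b) * S 2 y := by
    intro y hy
    set c := S 2 y with hc
    have hd : ∀ x, HasDerivAt (fun x => G4 x - 2 * c * Real.tanh x + c ^ 2 * x)
        ((S 2 x - c) ^ 2) x := by
      intro x
      have h := ((hasDerivAt_G4 x).sub ((hasDerivAt_tanh x).const_mul (2 * c))).add
        ((hasDerivAt_id x).const_mul (c ^ 2))
      refine h.congr_deriv ?_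
      unfold S; ring
    have hm : Monotone (fun x => G4 x - 2 * c * Real.tanh x + c ^ 2 * x) := by
      apply monotone_of_deriv_nonneg (fun y => (hd y).differentiableAt)
      intro x
      rw [(hd x).deriv]; positivity
    obtain ⟨b', hb1, hb2, hne⟩ : ∃ b', b ≤ b' ∧ b' < y ∧ ∀ x ∈ Ioo b' y, S 2 x ≠ c := by
      rcases le_or_gt y 0 with h0 | h0
      · refine ⟨b, le_rfl, hy, fun x hx => ?_⟩
        have : |y| < |x| := by
          rw [abs_of_nonpos h0, abs_of_neg (lt_of_lt_of_le hx.2 h0)]; linarith [hx.2]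
        exact (S2_lt_of_abs this).ne
      · refine ⟨max b (-y), le_max_left _ _, max_lt hy (by linarith), fun x hx => ?_⟩
        have h1 : -y < x := lt_of_le_of_lt (le_max_right _ _) hx.1
        have : |x| < |y| := by
          rw [abs_of_pos h0, abs_lt]; exact ⟨h1, hx.2⟩
        exact (S2_lt_of_abs this).ne'
    have hs : StrictMonoOn (fun x => G4 x - 2 * c * Real.tanh x + c ^ 2 * x) (Icc b' y) := by
      apply strictMonoOn_of_deriv_pos (convex_Icc _ _)
      · exact fun x _ => (hd x).continuousAt.continuousWithinAt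
      · intro x hx
        rw [interior_Icc] at hx
        rw [(hd x).deriv]
        have : S 2 x - c ≠ 0 := sub_ne_zero.2 (hne x hx)
        positivity
    have h1 := hm hb1
    have h2 := hs (⟨le_rfl, hb2.le⟩ : b' ∈ Icc b' y) ⟨hb2.le, le_rfl⟩ hb2
    simp only at h1 h2
    have e : S 4 y = c ^ 2 := by simp only [hc, S]; ring
    rw [e]
    linarith
  have hd : ∀ y, HasDerivAt (fun y => (y - b) * (G4 y - G4 b) - (Real.tanh y - Real.tanh b) ^ 2)
      ((G4 y - G4 b) + (y - b) * S 4 y - 2 * (Real.tanh y - Real.tanh b) * S 2 y) y := by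
    intro y
    have h := (((hasDerivAt_id y).sub_const b).mul ((hasDerivAt_G4 y).sub_const (G4 b))).sub
      (((hasDerivAt_tanh y).sub_const (Real.tanh b)).pow 2)
    refine h.congr_deriv ?_
    simp only [id, S]
    push_cast
    ring
  have hm : StrictMonoOn (fun y => (y - b) * (G4 y - G4 b) - (Real.tanh y - Real.tanh b) ^ 2) (Ici b) := by
    apply strictMonoOn_of_deriv_pos (convex_Ici b)
    · exact fun y _ => (hd y).continuousAt.continuousWithinAt
    · intro y hy
      rw [interior_Ici] at hy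
      rw [(hd y).deriv]
      exact aux y hy
  have := hm (mem_Ici.2 le_rfl) (mem_Ici.2 hab.le) hab
  simp only [sub_self, zero_mul] at this
  linarith

theorem poin_pt_strict {a b : ℝ} (hab : a ≠ b) :
    (Real.tanh a - Real.tanh b) ^ 2 < (a - b) * (G4 a - G4 b) := by
  rcases lt_or_gt_of_ne hab with h | h
  · have := poin_pt_strict_aux h
    linarith [this, show (Real.tanh a - Real.tanh b) ^ 2 = (Real.tanh b - Real.tanh a) ^ 2 by ring,
      show (a - b) * (G4 a - G4 b) = (b - a) * (G4 b - G4 a) by ring]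
  · exact poin_pt_strict_aux h

/-- strict positivity of Gaussian integrals of functions positive off one point -/
theorem integral_pos_off {g : ℝ → ℝ} (hnn : ∀ x, 0 ≤ g x) {z0 : ℝ} (hpos : ∀ x, x ≠ z0 → 0 < g x)
    (hi : Integrable g gam) : 0 < ∫ z, g z ∂gam := by
  rw [integral_pos_iff_support_of_nonneg hnn hi]
  have hsub : ({z0}ᶜ : Set ℝ) ⊆ Function.support g := by
    intro z hz
    rw [Function.mem_support]
    exact (hpos z (by simpa using hz)).ne'
  have h1 : gam ({z0}ᶜ : Set ℝ) = 1 := by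
    have := nullSingletonClass_gaussianReal (μ := 0) (v := 1) one_ne_zero
    rw [prob_compl_eq_one_iff (measurableSet_singleton _)]
    exact measure_singleton _
  calc (0 : ENNReal) < 1 := zero_lt_one
    _ = gam ({z0}ᶜ : Set ℝ) := h1.symm
    _ ≤ _ := measure_mono hsub

/-- strict Gaussian Poincaré inequality for `tanh`. -/
theorem poincare_tanh_strict {a : ℝ} (ha : 0 < a) (x : ℝ) :
    P a (fun y => Real.tanh y ^ 2) x - P a Real.tanh x ^ 2 < a * P a (S 4) x := by
  set s := Real.sqrt a with hs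
  have hs0 : 0 < s := Real.sqrt_pos.2 ha
  set T : ℝ → ℝ := fun z => Real.tanh (x + s * z) with hT
  set G : ℝ → ℝ := fun z => G4 (x + s * z) with hG
  have hGc : Continuous G4 := continuous_iff_continuousAt.2 fun x => (hasDerivAt_G4 x).continuousAt
  have hTm : Measurable T := measurable_tanh.comp (by fun_prop)
  have hGm : Measurable G := hGc.measurable.comp (by fun_prop)
  have iT : Integrable T gam := integrable_bdd hTm fun _ => abs_tanh_le_one _
  have iT2 : Integrable (fun z => T z ^ 2) gam := integrable_bdd (hTm.pow_const 2) fun _ => abs_tanh_sq_le _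
  have iG : Integrable G gam := integrable_bdd hGm fun _ => abs_G4_le _
  have izG : Integrable (fun z => z * G z) gam := integrable_mul_bdd hGm fun _ => abs_G4_le _
  set mT := ∫ z, T z ∂gam with hmT
  set U := ∫ z, T z ^ 2 ∂gam with hU
  set mG := ∫ z, G z ∂gam with hmG
  set J := ∫ z, z * G z ∂gam with hJ
  have inner1 : ∀ z, ∫ w, (T z - T w) ^ 2 ∂gam = T z ^ 2 - 2 * mT * T z + U := by
    intro z
    have e : ∀ w, (T z - T w) ^ 2 = (T z ^ 2 - (2 * T z) * T w) + T w ^ 2 := by intro w; ring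
    have i1 : Integrable (fun w => T z ^ 2 - (2 * T z) * T w) gam :=
      (integrable_const _).sub (iT.const_mul _)
    simp only [e]
    rw [integral_add i1 iT2, integral_sub (integrable_const _) (iT.const_mul _), integral_const_mul,
      integral_const]
    simp only [probReal_univ, smul_eq_mul, one_mul]
    ring
  have inner2 : ∀ z, ∫ w, s * (z - w) * (G z - G w) ∂gam = s * (z * G z) - s * mG * z + s * J := by
    intro z
    have e : ∀ w, s * (z - w) * (G z - G w)
        = ((s * (z * G z) - (s * z) * G w) - (s * G z) * w) + s * (w * G w) := by intro w; ring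
    have i1 : Integrable (fun w => s * (z * G z) - (s * z) * G w) gam :=
      (integrable_const _).sub (iG.const_mul _)
    have i2 : Integrable (fun w => (s * (z * G z) - (s * z) * G w) - (s * G z) * w) gam :=
      i1.sub (integrable_id_gam.const_mul _)
    simp only [e]
    rw [integral_add i2 (izG.const_mul _), integral_sub i1 (integrable_id_gam.const_mul _),
      integral_sub (integrable_const _) (iG.const_mul _), integral_const, integral_const_mul,
      integral_const_mul, integral_const_mul, integral_id_gam]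
    simp only [probReal_univ, smul_eq_mul, one_mul, mul_zero, sub_zero]
    ring
  have hlt : ∀ z, 0 < (s * (z * G z) - s * mG * z + s * J) - (T z ^ 2 - 2 * mT * T z + U) := by
    intro z
    rw [← inner1, ← inner2]
    have iA : Integrable (fun w => (T z - T w) ^ 2) gam := by
      have e : (fun w => (T z - T w) ^ 2) = fun w => (T z ^ 2 - (2 * T z) * T w) + T w ^ 2 := by
        ext w; ring
      rw [e]
      exact ((integrable_const _).sub (iT.const_mul _)).add iT2
    have iB : Integrable (fun w => s * (z - w) * (G z - G w)) gam := by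
      have e : (fun w => s * (z - w) * (G z - G w))
        = fun w => ((s * (z * G z) - (s * z) * G w) - (s * G z) * w) + s * (w * G w) := by ext w; ring
      rw [e]
      exact (((integrable_const _).sub (iG.const_mul _)).sub (integrable_id_gam.const_mul _)).add
        (izG.const_mul _)
    rw [← integral_sub iB iA]
    have hpt : ∀ w, w ≠ z → 0 < s * (z - w) * (G z - G w) - (T z - T w) ^ 2 := by
      intro w hw
      have hne : x + s * z ≠ x + s * w := by
        intro h0
        apply hw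
        have : s * z = s * w := by linarith
        exact (mul_left_cancel₀ hs0.ne' this).symm
      have := poin_pt_strict hne
      have e : (x + s * z - (x + s * w)) = s * (z - w) := by ring
      rw [e] at this
      linarith
    apply integral_pos_off (z0 := z) _ hpt (iB.sub iA)
    intro w
    rcases eq_or_ne w z with h0 | h0
    · rw [h0]; simp
    · exact (hpt w h0).le
  have i3 : Integrable (fun z => T z ^ 2 - 2 * mT * T z) gam := iT2.sub (iT.const_mul _)
  have i3' : Integrable (fun z => T z ^ 2 - 2 * mT * T z + U) gam := i3.add (integrable_const _)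
  have i4 : Integrable (fun z => s * (z * G z) - s * mG * z) gam :=
    (izG.const_mul _).sub (integrable_id_gam.const_mul _)
  have i4' : Integrable (fun z => s * (z * G z) - s * mG * z + s * J) gam := i4.add (integrable_const _)
  have hpos : 0 < ∫ z, ((s * (z * G z) - s * mG * z + s * J) - (T z ^ 2 - 2 * mT * T z + U)) ∂gam :=
    integral_pos_off (z0 := 0) (fun z => (hlt z).le) (fun z _ => hlt z) (i4'.sub i3')
  rw [integral_sub i4' i3', integral_add i3 (integrable_const _), integral_sub iT2 (iT.const_mul _),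
    integral_const_mul, integral_add i4 (integrable_const _),
    integral_sub (izG.const_mul _) (integrable_id_gam.const_mul _), integral_const_mul,
    integral_const_mul, integral_id_gam] at hpos
  simp only [integral_const, probReal_univ, smul_eq_mul, one_mul, mul_zero, sub_zero] at hpos
  rw [← hU, ← hmT, ← hJ] at hpos
  have hst := stein2 hasDerivAt_G4 abs_G4_le (abs_S_le 4) x s
  have hJ' : J = s * P a (S 4) x := hst
  have hss : s * s = a := Real.mul_self_sqrt ha.le
  have e1 : P a (fun y => Real.tanh y ^ 2) x = U := rfl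
  have e2 : P a Real.tanh x = mT := rfl
  rw [e1, e2]
  have e3 : s * J = a * P a (S 4) x := by rw [hJ', ← mul_assoc, hss]
  nlinarith

theorem P_lt {f g : ℝ → ℝ} (hf : LG f) (hg : LG g) (h : ∀ y, f y < g y) (a x : ℝ) :
    P a f x < P a g x := by
  have h1 : 0 < P a (fun y => g y - f y) x := P_pos (hg.sub hf) (fun y => by have := h y; linarith) a x
  rw [P_sub hg hf] at h1
  linarith

theorem F_gt {κ q h : ℝ} (hκ : 0 < κ)
    (hq : q = P (κ * q) (fun x => Real.tanh x ^ 2) h) (hAT : κ * P (κ * q) (S 4) h ≤ 1)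
    {s : ℝ} (hs0 : 0 ≤ s) (hs : s < q) : s < F κ q h s := by
  have h1 : 0 ≤ κ * s := by positivity
  have h2 : 0 < κ * (q - s) := mul_pos hκ (by linarith)
  have e : κ * s + κ * (q - s) = κ * q := by ring
  have hA : P (κ * s) (P (κ * (q - s)) (fun x => Real.tanh x ^ 2)) h = q := by
    have := P_P LG_tanh_sq h1 h2.le h
    rw [e, ← hq] at this
    exact this
  have hB : P (κ * s) (fun y => (κ * (q - s)) * P (κ * (q - s)) (S 4) y) h
      = (q - s) * (κ * P (κ * q) (S 4) h) := by
    rw [P_const_mul]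
    have := P_P (LG_S 4) h1 h2.le h
    rw [e] at this
    have e3 : P (κ * s) (fun y => P (κ * (q - s)) (S 4) y) h = P (κ * q) (S 4) h := this
    rw [e3]; ring
  have hC : P (κ * s) (fun y => P (κ * (q - s)) (fun x => Real.tanh x ^ 2) y
        - P (κ * (q - s)) Real.tanh y ^ 2) h
      < P (κ * s) (fun y => (κ * (q - s)) * P (κ * (q - s)) (S 4) y) h := by
    apply P_lt ((LG_tanh_sq.P _).sub (LG_P_tanh_sq _)) (((LG_S 4).P _).const_mul _)
    intro y
    exact poincare_tanh_strict h2 y
  rw [P_sub (LG_tanh_sq.P _) (LG_P_tanh_sq _)] at hC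
  have hA' : P (κ * s) (fun y => P (κ * (q - s)) (fun x => Real.tanh x ^ 2) y) h = q := hA
  rw [hB] at hC
  have h3 : (q - s) * (κ * P (κ * q) (S 4) h) ≤ (q - s) * 1 :=
    mul_le_mul_of_nonneg_left hAT (by linarith)
  have h4 : F κ q h s = P (κ * s) (fun y => P (κ * (q - s)) Real.tanh y ^ 2) h := rfl
  rw [h4]
  have hA'' : P (κ * s) (P (κ * (q - s)) (fun x => Real.tanh x ^ 2)) h = q := hA
  rw [hA''] at hC
  linarith

/-- Jensen -/
theorem P_jensen {u : ℝ → ℝ} (hu : Continuous u) {C : ℝ} (hC : ∀ x, |u x| ≤ C) (a x : ℝ) :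
    P a u x ^ 2 ≤ P a (fun y => u y ^ 2) x := by
  have l1 : LG u := LG.bdd hu hC
  have l2 : LG (fun y => u y ^ 2) := LG.bdd (hu.pow 2) (C := C ^ 2) fun y => by
    rw [abs_pow]; exact pow_le_pow_left₀ (abs_nonneg _) (hC y) 2
  set t := P a u x with ht
  have h1 : 0 ≤ P a (fun y => (u y - t) ^ 2) x := P_nonneg (fun y => sq_nonneg _) a x
  have e : (fun y => (u y - t) ^ 2) = fun y => (u y ^ 2 - (2 * t) * u y) + t ^ 2 := by
    ext y; ring
  have l3 : LG (fun y => u y ^ 2 - (2 * t) * u y) := l2.sub (l1.const_mul _)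
  rw [e, P_add l3 (LG.const _), P_sub l2 (l1.const_mul _), P_const, P_const_mul, ← ht] at h1
  nlinarith

theorem F_mono {κ q h : ℝ} (hκ : 0 < κ) : MonotoneOn (F κ q h) (Icc 0 q) := by
  intro s hs s' hs' hss
  unfold F
  have h0 : 0 ≤ κ * s := mul_nonneg hκ.le hs.1
  have h1 : 0 ≤ κ * (s' - s) := mul_nonneg hκ.le (by linarith)
  have h2 : 0 ≤ κ * (q - s') := mul_nonneg hκ.le (by linarith [hs'.2])
  have e1 : κ * (s' - s) + κ * (q - s') = κ * (q - s) := by ring
  have e2 : κ * s + κ * (s' - s) = κ * s' := by ring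
  have h3 : ∀ y, P (κ * (q - s)) Real.tanh y = P (κ * (s' - s)) (P (κ * (q - s')) Real.tanh) y := by
    intro y
    rw [P_P LG_tanh h1 h2, e1]
  have h4 : ∀ y, P (κ * (q - s)) Real.tanh y ^ 2
      ≤ P (κ * (s' - s)) (fun w => P (κ * (q - s')) Real.tanh w ^ 2) y := by
    intro y
    rw [h3]
    exact P_jensen (LG_tanh.P _).1 (fun x => P_abs_le abs_tanh_le_one _ x) _ _
  have h5 := P_mono (LG_P_tanh_sq (κ * (q - s))) ((LG_P_tanh_sq (κ * (q - s'))).P (κ * (s' - s))) h4
    (κ * s) h
  rw [P_P (LG_P_tanh_sq _) h0 h1, e2] at h5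
  exact h5

/-! ### strict version of the core inequality -/

theorem Sys.case1_strict {A M N K L : ℝ → ℝ} (h : Sys A M N K L) {W : ℝ} (hM0 : M 0 ≤ W)
    (hA0 : 2 / 3 * A 0 ≤ W) : ∀ τ, 0 < τ → M τ < W := by
  intro τ hτ
  have h3 := h.antiC (mem_Ici.2 le_rfl) (mem_Ici.2 hτ.le) hτ.le
  have hAs : A τ < A 0 := by
    have hm : StrictAntiOn A (Ici 0) := by
      apply strictAntiOn_of_deriv_neg (convex_Ici 0) h.cA
      intro x hx
      rw [interior_Ici] at hx
      rw [(h.dA x hx).deriv]
      have := h.pM x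
      linarith
    exact hm (mem_Ici.2 le_rfl) (mem_Ici.2 hτ.le) hτ
  have hA1 := h.pA 0
  have hAτ := h.pA τ
  set z := A τ / A 0 with hzd
  have hz0 : 0 < z := by positivity
  have hz1 : z < 1 := by rw [hzd, div_lt_one hA1]; exact hAs
  have hz : M τ ≤ 4 / 5 * A 0 * (z - z ^ 6) + M 0 * z ^ 6 := by
    simp only at h3
    rw [div_le_iff₀ (by positivity)] at h3
    have e : (M 0 - 4 / 5 * A 0) / A 0 ^ 6 * A τ ^ 6
        = (M 0 - 4 / 5 * A 0) * z ^ 6 := by
      rw [hzd, div_pow]; ring
    rw [e] at h3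
    have e2 : 4 / 5 * A τ = 4 / 5 * A 0 * z := by
      rw [hzd]; field_simp
    nlinarith
  have h6 := Sys.z6_le hz0 hz1.le
  have hW : 0 < W := lt_of_lt_of_le (h.pM 0) hM0
  have a1 : 4 / 5 * A 0 * (z - z ^ 6) ≤ 6 / 5 * W * (z - z ^ 6) :=
    mul_le_mul_of_nonneg_right (by linarith) (by linarith)
  have a2 : M 0 * z ^ 6 ≤ W * z ^ 6 := mul_le_mul_of_nonneg_right hM0 (by positivity)
  have a3 : 6 * z - 5 < z ^ 6 := by
    have e : z ^ 6 - (6 * z - 5)
        = (z - 1) ^ 2 * (z ^ 4 + 2 * z ^ 3 + 3 * z ^ 2 + 4 * z + 5) := by ring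
    have h7 : 0 < (z - 1) ^ 2 := by
      have : z - 1 ≠ 0 := by linarith
      positivity
    have : 0 < (z - 1) ^ 2 * (z ^ 4 + 2 * z ^ 3 + 3 * z ^ 2 + 4 * z + 5) := by positivity
    linarith
  have a4 : W * (6 / 5 * z - 1 / 5 * z ^ 6) < W * 1 :=
    mul_lt_mul_of_pos_left (by linarith) hW
  linarith

theorem core_M_strict {h κ q : ℝ} (hh : 0 ≤ h) (hκ : 0 < κ) (hq0 : 0 ≤ q)
    (hq : q = P (κ * q) (fun x => Real.tanh x ^ 2) h) (hAT : κ * P (κ * q) (S 4) h ≤ 1) :
    ∀ τ, 0 < τ → τ ≤ 0.06 → m (κ * q) h 3 τ < 1 / κ := by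
  have hs2 : P (κ * q) (S 2) h = 1 - q := by
    have := u_eq (κ * q) h; rw [← hq] at this; linarith
  have hM0 : m (κ * q) h 3 0 ≤ 1 / κ := by
    rw [m_zero, le_div_iff₀ hκ]; linarith
  have hA0 : m (κ * q) h 1 0 = 1 - q := by rw [m_zero]; exact hs2
  rcases le_or_gt (κ * (1 - q)) (3 / 2) with hb | hb
  · intro τ hτ _
    apply (sys (κ * q) h).case1_strict hM0 _ τ hτ
    rw [hA0, le_div_iff₀ hκ]; linarith
  · have hqpos : 0 < q := by
      rcases hq0.lt_or_eq with h1 | h1
      · exact h1
      · exfalso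
        rw [← h1, mul_zero, P_zero] at hq hAT
        have h2 : sech h ^ 2 = 1 := by have := tanh_sq h; linarith
        have h3 : S 4 h = 1 := by
          unfold S
          calc sech h ^ 4 = (sech h ^ 2) ^ 2 := by ring
            _ = 1 := by rw [h2]; norm_num
        rw [h3] at hAT
        rw [← h1] at hb
        linarith
    have hv : 0 < κ * q := mul_pos hκ hqpos
    obtain ⟨p1, p2, p3⟩ := static_package hh hv rfl hqpos hq hAT hb
    intro τ hτ hτ1
    have h2 := (sys (κ * q) h).M_g (by rw [m_zero, m_zero]; exact p3)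
      (by rw [m_zero, m_zero]; exact p2) (s := τ / 0.06) (by positivity)
      (by rw [div_le_one (by norm_num)]; exact hτ1)
    have e : 0.06 * (τ / 0.06) = τ := by field_simp
    rw [e] at h2
    have hMp := m_pos (κ * q) h 3 0
    have hs : 0 < τ / 0.06 := by positivity
    have : m (κ * q) h 3 0 * (1 - τ / 0.06 + τ / 0.06 * 0.975) < m (κ * q) h 3 0 * 1 :=
      mul_lt_mul_of_pos_left (by linarith) hMp
    linarith

theorem core_A_strict {h κ q : ℝ} (hκ : 0 < κ) (hq0 : 0 ≤ q)
    (hq : q = P (κ * q) (fun x => Real.tanh x ^ 2) h) (hAT : κ * P (κ * q) (S 4) h ≤ 1) :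
    ∀ t, 0 < t → 1 - q - t < m (κ * q) h 1 (κ * t / 2) := by
  have key : (∀ τ, 0 ≤ τ → m (κ * q) h 3 τ ≤ 1 / κ) ∧
      ∀ τ, 0 < τ → τ ≤ 0.06 → m (κ * q) h 3 τ < 1 / κ := by
    rcases le_total 0 h with hh | hh
    · exact ⟨core_M hh hκ hq0 hq hAT, core_M_strict hh hκ hq0 hq hAT⟩
    · have hq' : q = P (κ * q) (fun x => Real.tanh x ^ 2) (-h) := by
        rw [P_reflect (fun x => by rw [Real.tanh_neg]; ring)]; exact hq
      have hAT' : κ * P (κ * q) (S 4) (-h) ≤ 1 := by rw [P_reflect (S_neg 4)]; exact hAT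
      constructor
      · intro τ hτ
        rw [← neg_neg h, m_reflect]
        exact core_M (h := -h) (by linarith) hκ hq0 hq' hAT' τ hτ
      · intro τ hτ hτ1
        rw [← neg_neg h, m_reflect]
        exact core_M_strict (h := -h) (by linarith) hκ hq0 hq' hAT' τ hτ hτ1
  obtain ⟨hM, hMs⟩ := key
  have hs2 : P (κ * q) (S 2) h = 1 - q := by
    have := u_eq (κ * q) h; rw [← hq] at this; linarith
  have hd : ∀ τ, 0 < τ → HasDerivAt (fun τ => m (κ * q) h 1 τ + 2 * τ / κ)
      (-2 * m (κ * q) h 3 τ + 2 / κ) τ := by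
    intro τ hτ
    have e : HasDerivAt (fun τ : ℝ => 2 * τ / κ) (2 / κ) τ := by
      have := ((hasDerivAt_id τ).const_mul (2:ℝ)).div_const κ
      simpa using this
    exact ((sys (κ * q) h).dA τ hτ).add e
  have hc : Continuous (fun τ => m (κ * q) h 1 τ + 2 * τ / κ) :=
    (continuous_m _ _ 1).add (by fun_prop)
  have hm : MonotoneOn (fun τ => m (κ * q) h 1 τ + 2 * τ / κ) (Ici 0) := by
    apply mono_of hc.continuousOn hd
    intro τ hτ
    have h1 := hM τ hτ.le
    have e : (2:ℝ) / κ = 2 * (1 / κ) := by ring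
    rw [e]; linarith
  have hms : StrictMonoOn (fun τ => m (κ * q) h 1 τ + 2 * τ / κ) (Icc 0 0.06) := by
    apply strictMonoOn_of_deriv_pos (convex_Icc _ _) hc.continuousOn
    intro τ hτ
    rw [interior_Icc] at hτ
    rw [(hd τ hτ.1).deriv]
    have h1 := hMs τ hτ.1 hτ.2.le
    have e : (2:ℝ) / κ = 2 * (1 / κ) := by ring
    rw [e]; linarith
  intro t ht
  have hτ : 0 < κ * t / 2 := by positivity
  set τ1 := min (κ * t / 2) 0.06 with hτ1
  have hτ1p : 0 < τ1 := lt_min hτ (by norm_num)
  have h1 := hms (⟨le_rfl, by norm_num⟩ : (0:ℝ) ∈ Icc (0:ℝ) 0.06) ⟨hτ1p.le, min_le_right _ _⟩ hτ1p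
  have h2 := hm (mem_Ici.2 hτ1p.le) (mem_Ici.2 hτ.le) (min_le_left _ _)
  simp only [mul_zero, zero_div, add_zero] at h1 h2
  rw [m_zero, hs2] at h1
  have e : 2 * (κ * t / 2) / κ = t := by field_simp
  rw [e] at h2
  linarith

end Pool.Agent.N942.AT
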