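import Pool.Agent.N942.ATt

set_option autoImplicit false
open MeasureTheory ProbabilityTheory Set Filter Topology

namespace Pool.Agent.N942.AT

/-- lower Riemann-type bound for monotone functions by left sums -/
theorem riemann_mono_lower {φ : ℝ → ℝ} {a b : ℝ} (hφ : MonotoneOn φ (Icc a b)) {n : ℕ} (hn : 0 < n)
    (hab : a ≤ b) :
    (b - a) / n * ∑ i ∈ Finset.range n, φ (a + i * ((b - a) / n)) ≤ ∫ t in a..b, φ t := by
  set δ := (b - a) / n with hδ
  have hn' : (0:ℝ) < n := by exact_mod_cast hn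
  have hδ0 : 0 ≤ δ := div_nonneg (by linarith) hn'.le
  have hnδ : n * δ = b - a := by rw [hδ]; field_simp
  have key : ∀ k : ℕ, k ≤ n →
      δ * ∑ i ∈ Finset.range k, φ (a + i * δ) ≤ ∫ t in a..(a + k * δ), φ t := by
    intro k
    induction k with
    | zero => intro _; simp
    | succ k ih =>
      intro hk
      have ih := ih (by omega)
      have hk1 : ((k:ℝ) + 1) * δ ≤ n * δ := by
        apply mul_le_mul_of_nonneg_right _ hδ0
        exact_mod_cast hk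
      have hkδ : 0 ≤ (k:ℝ) * δ := by positivity
      have hmem0 : a + k * δ ∈ Icc a b := ⟨by linarith, by linarith⟩
      have hmem1 : a + ((k:ℝ) + 1) * δ ∈ Icc a b := ⟨by linarith, by linarith⟩
      have i1 : IntervalIntegrable φ volume a (a + k * δ) := by
        apply MonotoneOn.intervalIntegrable
        rw [uIcc_of_le (by linarith)]
        exact hφ.mono (Icc_subset_Icc le_rfl hmem0.2)
      have i2 : IntervalIntegrable φ volume (a + k * δ) (a + ((k:ℝ) + 1) * δ) := by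
        apply MonotoneOn.intervalIntegrable
        rw [uIcc_of_le (by linarith)]
        exact hφ.mono (Icc_subset_Icc hmem0.1 hmem1.2)
      have h1 := intervalIntegral.integral_add_adjacent_intervals i1 i2
      have h2 : δ * φ (a + k * δ) ≤ ∫ t in (a + k * δ)..(a + ((k:ℝ) + 1) * δ), φ t := by
        have h3 : ∫ _t in (a + k * δ)..(a + ((k:ℝ) + 1) * δ), φ (a + k * δ)
            ≤ ∫ t in (a + k * δ)..(a + ((k:ℝ) + 1) * δ), φ t := by
          apply intervalIntegral.integral_mono_on (by linarith) (by simp) i2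
          intro t ht
          exact hφ hmem0 ⟨hmem0.1.trans ht.1, ht.2.trans hmem1.2⟩ ht.1
        rw [intervalIntegral.integral_const] at h3
        have e : a + ((k:ℝ) + 1) * δ - (a + k * δ) = δ := by ring
        rw [e, smul_eq_mul] at h3
        exact h3
      push_cast
      rw [← h1, Finset.sum_range_succ]
      linarith
  have := key n le_rfl
  rw [hnδ] at this
  have e : a + (b - a) = b := by ring
  rw [e] at this
  exact this

variable {β : ℝ} {ζ : ℝ → ℝ} {f : ℝ → ℝ → ℝ}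

/-- the order parameter profile above `q` -/
noncomputable def Ft (κ q h t : ℝ) : ℝ := 1 - m (κ * q) h 1 (κ * (t - q) / 2)

theorem RA_lower' {h q κ : ℝ} (hκ : 0 < κ)
    (hζ : ∀ t ∈ Icc (0 : ℝ) 1, 0 ≤ ζ t ∧ ζ t ≤ 1) {δ : ℝ} (hδ : 0 ≤ δ) {n : ℕ}
    (hn : n * δ = 1 - q) :
    -(κ * δ / 2) * ∑ i ∈ Finset.range n, (1 - ζ (q + i * δ)) * Ft κ q h (q + i * δ) - κ * δ
      ≤ P (κ * q) (RA ζ (κ * δ) δ n) h := by
  have ha : 0 ≤ κ * δ := by positivity
  have l1 : ∀ i ∈ Finset.range n, LG (fun y => (1 - ζ (1 - n * δ + i * δ)) * Psi (i * (κ * δ)) y) :=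
    fun i _ => (LG_Psi (by positivity)).const_mul _
  have l3 : LG (fun y => Psi 0 y - Psi (n * (κ * δ)) y) :=
    (LG_Psi le_rfl).sub (LG_Psi (by positivity))
  have e : RA ζ (κ * δ) δ n = fun y => -(κ * δ / 2) * ∑ i ∈ Finset.range n,
      (1 - ζ (1 - n * δ + i * δ)) * Psi (i * (κ * δ)) y + κ * δ * (Psi 0 y - Psi (n * (κ * δ)) y) := rfl
  rw [e, P_add ((LG.sum _ l1).const_mul _) (l3.const_mul _), P_const_mul, P_const_mul, P_sum _ l1]
  have h1 : -1 ≤ P (κ * q) (fun y => Psi 0 y - Psi (n * (κ * δ)) y) h := by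
    have := P_mono (LG.const (-1)) l3 (fun y => by
      have a1 := (Psi_bounds le_rfl y).1
      have a2 := (Psi_bounds (b := n * (κ * δ)) (by positivity) y).2
      linarith) (κ * q) h
    rwa [P_const] at this
  have h2 : ∑ i ∈ Finset.range n, P (κ * q) (fun y => (1 - ζ (1 - n * δ + i * δ)) * Psi (i * (κ * δ)) y) h
      = ∑ i ∈ Finset.range n, (1 - ζ (q + i * δ)) * Ft κ q h (q + i * δ) := by
    apply Finset.sum_congr rfl
    intro i hi
    rw [P_const_mul]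
    have e1 : 1 - n * δ + i * δ = q + i * δ := by rw [hn]; ring
    rw [e1]
    congr 1
    have h4 := P_Psi (b := i * (κ * δ)) (κ * q) h
    have e2 : (i:ℝ) * (κ * δ) / 2 = κ * (q + i * δ - q) / 2 := by ring
    rw [e2] at h4
    exact h4
  rw [h2]
  have h7 := mul_le_mul_of_nonneg_left h1 ha
  linarith

theorem lower_discrete' (hf : IsParisiSol β ζ f)
    (hζ : ∀ t ∈ Icc (0 : ℝ) 1, 0 ≤ ζ t ∧ ζ t ≤ 1) (hmono : MonotoneOn ζ (Icc 0 1)) (hβ : 0 < β)
    {h q : ℝ} (hq0 : 0 ≤ q) (hq1 : q < 1) {n : ℕ} (hn : 0 < n) :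
    P (2 * β ^ 2 * q) lc h + β ^ 2 * (1 - q)
      + β ^ 2 * (q / n) * ∑ i ∈ Finset.range n, ζ (i * (q / n)) * F (2 * β ^ 2) q h (i * (q / n))
      - β ^ 2 * ((1 - q) / n) * ∑ i ∈ Finset.range n,
          (1 - ζ (q + i * ((1 - q) / n))) * Ft (2 * β ^ 2) q h (q + i * ((1 - q) / n))
      - 2 * β ^ 2 * ((1 - q) / n) ≤ f 0 h := by
  set κ := 2 * β ^ 2 with hκd
  have hκ : 0 < κ := by positivity
  have hn' : (0:ℝ) < n := by exact_mod_cast hn
  set δ := (1 - q) / n with hδ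
  have hδ0 : 0 < δ := div_pos (by linarith) hn'
  have hnδ : n * δ = 1 - q := by rw [hδ]; field_simp
  have hA := stageA hf hζ hmono hβ hδ0 n (by linarith)
  have e1 : 1 - (n:ℝ) * δ = q := by linarith
  rw [e1, ← hκd, hnδ] at hA
  have hRA := RA_lower' (h := h) hκ hζ hδ0.le hnδ
  have lRA := LG_RA ζ (by positivity : 0 ≤ κ * δ) δ n
  rcases hq0.lt_or_eq with hqp | hqp
  · set δ' := q / n with hδ'
    have hδ'0 : 0 < δ' := div_pos hqp hn'
    have hnδ' : n * δ' = q := by rw [hδ']; field_simp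
    have hB := stageB hf hζ hmono hβ hq1.le lRA hA hδ'0 n hnδ'.le h h
    rw [sub_self, mul_zero, add_zero, hnδ', sub_self, ← hκd] at hB
    have e2 : (n:ℝ) * (κ * δ') = κ * q := by rw [← hnδ']; ring
    rw [e2] at hB
    have hRB : P (κ * q) (RA ζ (κ * δ) δ n) h
        + β ^ 2 * δ' * ∑ i ∈ Finset.range n, ζ (i * δ') * F κ q h (i * δ')
        = RB ζ q (κ * δ') δ' (RA ζ (κ * δ) δ n) n h := by
      unfold RB
      rw [e2]
      have e3 : κ * δ' / 2 = β ^ 2 * δ' := by rw [hκd]; ring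
      rw [e3]
      congr 2
      apply Finset.sum_congr rfl
      intro i hi
      have e4 : q - n * δ' + i * δ' = i * δ' := by rw [hnδ']; ring
      rw [e4]
      congr 1
      unfold F
      have e5 : κ * (i * δ') = i * (κ * δ') := by ring
      have e6 : κ * (q - i * δ') = (n - i) * (κ * δ') := by
        rw [show κ * (q - i * δ') = κ * q - κ * (i * δ') by ring, ← hnδ']; ring
      rw [e5, e6]
    have e7 : κ * δ / 2 = β ^ 2 * δ := by rw [hκd]; ring
    rw [e7] at hRA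
    linarith
  · -- q = 0
    have h1 := hA h h
    rw [sub_self, mul_zero, add_zero, ← hqp] at h1
    rw [← hqp] at hRA ⊢
    rw [mul_zero, P_zero] at hRA ⊢
    have e7 : κ * δ / 2 = β ^ 2 * δ := by rw [hκd]; ring
    rw [e7] at hRA
    simp only [zero_div, mul_zero, zero_mul, add_zero]
    linarith

theorem Ft_mono {κ q h : ℝ} (hκ : 0 < κ) : MonotoneOn (Ft κ q h) (Icc q 1) := by
  intro s hs t ht hst
  unfold Ft
  have h1 : 0 ≤ κ * (s - q) / 2 := div_nonneg (mul_nonneg hκ.le (by linarith [hs.1])) (by norm_num)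
  have h2 : κ * (s - q) / 2 ≤ κ * (t - q) / 2 := by
    apply div_le_div_of_nonneg_right _ (by norm_num)
    exact mul_le_mul_of_nonneg_left (by linarith) hκ.le
  have := (sys (κ * q) h).antiA (mem_Ici.2 h1) (mem_Ici.2 (h1.trans h2)) h2
  linarith

theorem Ft_bounds {κ q h t : ℝ} (hκ : 0 < κ) (ht : q ≤ t) : 0 ≤ Ft κ q h t ∧ Ft κ q h t ≤ 1 := by
  unfold Ft
  have h1 : 0 ≤ κ * (t - q) := mul_nonneg hκ.le (by linarith)
  have h2 := P_Psi (b := κ * (t - q)) (κ * q) h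
  rw [← h2]
  constructor
  · exact P_nonneg (fun y => (Psi_bounds h1 y).1) _ _
  · have := P_mono (LG_Psi h1) (LG.const 1) (fun y => (Psi_bounds h1 y).2) (κ * q) h
    rwa [P_const] at this

theorem F_bounds {κ q h s : ℝ} : 0 ≤ F κ q h s ∧ F κ q h s ≤ 1 := by
  unfold F
  constructor
  · exact P_nonneg (fun y => sq_nonneg _) _ _
  · have := P_mono (LG_P_tanh_sq (κ * (q - s))) (LG.const 1) (fun y => by
      have h1 := P_abs_le abs_tanh_le_one (κ * (q - s)) y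
      rw [← sq_abs]
      exact pow_le_one₀ (abs_nonneg _) h1) (κ * s) h
    rwa [P_const] at this

/-- integral form of the lower bound -/
theorem lower_integral (hf : IsParisiSol β ζ f)
    (hζ : ∀ t ∈ Icc (0 : ℝ) 1, 0 ≤ ζ t ∧ ζ t ≤ 1) (hmono : MonotoneOn ζ (Icc 0 1)) (hβ : 0 < β)
    {h q : ℝ} (hq0 : 0 ≤ q) (hq1 : q < 1) :
    P (2 * β ^ 2 * q) lc h + β ^ 2 * (1 - q)
      + β ^ 2 * (∫ s in (0:ℝ)..q, ζ s * F (2 * β ^ 2) q h s)
      - β ^ 2 * ((∫ t in q..1, Ft (2 * β ^ 2) q h t) - ∫ t in q..1, ζ t * Ft (2 * β ^ 2) q h t)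
      ≤ f 0 h := by
  set κ := 2 * β ^ 2 with hκd
  have hκ : 0 < κ := by positivity
  have hζF : MonotoneOn (fun s => ζ s * F κ q h s) (Icc 0 q) := by
    intro s hs t ht hst
    have hs' : s ∈ Icc (0:ℝ) 1 := ⟨hs.1, hs.2.trans hq1.le⟩
    have ht' : t ∈ Icc (0:ℝ) 1 := ⟨ht.1, ht.2.trans hq1.le⟩
    exact mul_le_mul (hmono hs' ht' hst) (F_mono hκ hs ht hst) F_bounds.1 (hζ t ht').1
  have hζFt : MonotoneOn (fun s => ζ s * Ft κ q h s) (Icc q 1) := by
    intro s hs t ht hst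
    have hs' : s ∈ Icc (0:ℝ) 1 := ⟨hq0.trans hs.1, hs.2⟩
    have ht' : t ∈ Icc (0:ℝ) 1 := ⟨hq0.trans ht.1, ht.2⟩
    exact mul_le_mul (hmono hs' ht' hst) (Ft_mono hκ hs ht hst) (Ft_bounds hκ hs.1).1 (hζ t ht').1
  have key : ∀ n : ℕ, 0 < n →
      P (κ * q) lc h + β ^ 2 * (1 - q)
      + β ^ 2 * (∫ s in (0:ℝ)..q, ζ s * F κ q h s)
      - β ^ 2 * ((∫ t in q..1, Ft κ q h t) - ∫ t in q..1, ζ t * Ft κ q h t)
      - 4 * β ^ 2 / n ≤ f 0 h := by
    intro n hn
    have hn' : (0:ℝ) < n := by exact_mod_cast hn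
    have h1 := lower_discrete' hf hζ hmono hβ (h := h) hq0 hq1 hn
    rw [← hκd] at h1
    have h2 := riemann_mono hζF hn hq0
    have h3 := riemann_mono hζFt hn hq1.le
    have h4 := riemann_mono_lower (Ft_mono (q := q) (h := h) hκ) hn hq1.le
    simp only [sub_zero, zero_add] at h2
    have hqI : q ∈ Icc (0:ℝ) 1 := ⟨hq0, hq1.le⟩
    have h0I : (0:ℝ) ∈ Icc (0:ℝ) 1 := ⟨le_rfl, zero_le_one⟩
    have h1I : (1:ℝ) ∈ Icc (0:ℝ) 1 := ⟨zero_le_one, le_rfl⟩
    have c1 : q / n * (ζ q * F κ q h q - ζ 0 * F κ q h 0) ≤ 1 / n := by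
      have a1 : ζ q * F κ q h q ≤ 1 := mul_le_one₀ (hζ q hqI).2 F_bounds.1 F_bounds.2
      have a2 : 0 ≤ ζ 0 * F κ q h 0 := mul_nonneg (hζ 0 h0I).1 F_bounds.1
      have a3 : q / n ≤ 1 / n := div_le_div_of_nonneg_right hq1.le hn'.le
      have a4 : 0 ≤ q / n := by positivity
      calc q / n * (ζ q * F κ q h q - ζ 0 * F κ q h 0) ≤ q / n * 1 :=
            mul_le_mul_of_nonneg_left (by linarith) a4
        _ ≤ 1 / n := by linarith
    have hd0 : 0 ≤ (1 - q) / n := div_nonneg (by linarith) hn'.le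
    have hd1 : (1 - q) / n ≤ 1 / n := div_le_div_of_nonneg_right (by linarith) hn'.le
    have c2 : (1 - q) / n * (ζ 1 * Ft κ q h 1 - ζ q * Ft κ q h q) ≤ 1 / n := by
      have a1 : ζ 1 * Ft κ q h 1 ≤ 1 :=
        mul_le_one₀ (hζ 1 h1I).2 (Ft_bounds hκ hq1.le).1 (Ft_bounds hκ hq1.le).2
      have a2 : 0 ≤ ζ q * Ft κ q h q := mul_nonneg (hζ q hqI).1 (Ft_bounds hκ le_rfl).1
      calc (1 - q) / n * (ζ 1 * Ft κ q h 1 - ζ q * Ft κ q h q) ≤ (1 - q) / n * 1 :=
            mul_le_mul_of_nonneg_left (by linarith) hd0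
        _ ≤ 1 / n := by linarith
    have e1 : ∑ i ∈ Finset.range n, (1 - ζ (q + i * ((1 - q) / n))) * Ft κ q h (q + i * ((1 - q) / n))
        = ∑ i ∈ Finset.range n, Ft κ q h (q + i * ((1 - q) / n))
          - ∑ i ∈ Finset.range n, ζ (q + i * ((1 - q) / n)) * Ft κ q h (q + i * ((1 - q) / n)) := by
      rw [← Finset.sum_sub_distrib]
      apply Finset.sum_congr rfl
      intro i _; ring
    rw [e1] at h1
    have hb2 : 0 ≤ β ^ 2 := sq_nonneg β
    have g2 := mul_le_mul_of_nonneg_left h2 hb2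
    have g3 := mul_le_mul_of_nonneg_left h3 hb2
    have g4 := mul_le_mul_of_nonneg_left h4 hb2
    have g5 := mul_le_mul_of_nonneg_left c1 hb2
    have g6 := mul_le_mul_of_nonneg_left c2 hb2
    have g7 : 2 * β ^ 2 * ((1 - q) / n) ≤ 2 * β ^ 2 * (1 / n) :=
      mul_le_mul_of_nonneg_left hd1 (by positivity)
    have e2 : 4 * β ^ 2 / n = β ^ 2 * (1 / n) + β ^ 2 * (1 / n) + 2 * β ^ 2 * (1 / n) := by ring
    rw [e2]
    rw [hκd] at *
    linarith
  have hlim : Tendsto (fun n : ℕ => P (κ * q) lc h + β ^ 2 * (1 - q)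
      + β ^ 2 * (∫ s in (0:ℝ)..q, ζ s * F κ q h s)
      - β ^ 2 * ((∫ t in q..1, Ft κ q h t) - ∫ t in q..1, ζ t * Ft κ q h t)
      - 4 * β ^ 2 / n) atTop
      (𝓝 (P (κ * q) lc h + β ^ 2 * (1 - q)
      + β ^ 2 * (∫ s in (0:ℝ)..q, ζ s * F κ q h s)
      - β ^ 2 * ((∫ t in q..1, Ft κ q h t) - ∫ t in q..1, ζ t * Ft κ q h t) - 0)) :=
    Tendsto.sub tendsto_const_nhds (tendsto_const_div_atTop_nhds_zero_nat _)
  have hfin := le_of_tendsto hlim (Filter.eventually_atTop.2 ⟨1, fun n hn => key n hn⟩)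
  rw [sub_zero] at hfin
  exact hfin

end Pool.Agent.N942.AT
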