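import Pool.Agent.N942.ATu

set_option autoImplicit false
open MeasureTheory ProbabilityTheory Set Filter Topology

namespace Pool.Agent.N942.AT

variable {β : ℝ} {ζ : ℝ → ℝ} {f : ℝ → ℝ → ℝ}

/-- under the AT condition a competitor of value at most `Vf q` has `ζ = 1_{t ≥ q}`. -/
theorem rigid (hf : IsParisiSol β ζ f)
    (hζ : ∀ t ∈ Icc (0 : ℝ) 1, 0 ≤ ζ t ∧ ζ t ≤ 1) (hmono : MonotoneOn ζ (Icc 0 1)) (hβ : 0 < β)
    {h q : ℝ} (hq0 : 0 ≤ q) (hq1 : q < 1)
    (hq : q = P (2 * β ^ 2 * q) (fun x => Real.tanh x ^ 2) h)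
    (hAT : 2 * β ^ 2 * P (2 * β ^ 2 * q) (S 4) h ≤ 1)
    (hval : val β h ζ f ≤ Vf β h q) :
    (∀ s, 0 ≤ s → s < q → ζ s = 0) ∧ (∀ t, q < t → t < 1 → ζ t = 1) := by
  have hlow := lower_integral (h := h) (q := q) hf hζ hmono hβ hq0 hq1
  set κ := 2 * β ^ 2 with hκd
  have hκ : 0 < κ := by positivity
  have hβ2 : 0 < β ^ 2 := by positivity
  have hζF : MonotoneOn (fun s => ζ s * F κ q h s) (Icc 0 q) := by
    intro s hs t ht hst
    have hs' : s ∈ Icc (0:ℝ) 1 := ⟨hs.1, hs.2.trans hq1.le⟩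
    have ht' : t ∈ Icc (0:ℝ) 1 := ⟨ht.1, ht.2.trans hq1.le⟩
    exact mul_le_mul (hmono hs' ht' hst) (F_mono hκ hs ht hst) F_bounds.1 (hζ t ht').1
  have hζFt : MonotoneOn (fun s => ζ s * Ft κ q h s) (Icc q 1) := by
    intro s hs t ht hst
    have hs' : s ∈ Icc (0:ℝ) 1 := ⟨hq0.trans hs.1, hs.2⟩
    have ht' : t ∈ Icc (0:ℝ) 1 := ⟨hq0.trans ht.1, ht.2⟩
    exact mul_le_mul (hmono hs' ht' hst) (Ft_mono hκ hs ht hst) (Ft_bounds hκ hs.1).1 (hζ t ht').1
  have hφ : MonotoneOn (fun t => ζ t * t) (Icc 0 1) := by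
    intro s hs t ht hst
    exact mul_le_mul (hmono hs ht hst) hst hs.1 (hζ t ht).1
  -- integrability
  have iF : ∀ a b : ℝ, 0 ≤ a → a ≤ b → b ≤ q →
      IntervalIntegrable (fun s => ζ s * F κ q h s) volume a b := by
    intro a b ha hab hb
    apply MonotoneOn.intervalIntegrable
    rw [uIcc_of_le hab]
    exact hζF.mono (Icc_subset_Icc ha hb)
  have iφ : ∀ a b : ℝ, 0 ≤ a → a ≤ b → b ≤ 1 →
      IntervalIntegrable (fun t => ζ t * t) volume a b := by
    intro a b ha hab hb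
    apply MonotoneOn.intervalIntegrable
    rw [uIcc_of_le hab]
    exact hφ.mono (Icc_subset_Icc ha hb)
  have iFt : ∀ a b : ℝ, q ≤ a → a ≤ b → b ≤ 1 →
      IntervalIntegrable (fun s => ζ s * Ft κ q h s) volume a b := by
    intro a b ha hab hb
    apply MonotoneOn.intervalIntegrable
    rw [uIcc_of_le hab]
    exact hζFt.mono (Icc_subset_Icc ha hb)
  have iFt' : ∀ a b : ℝ, q ≤ a → a ≤ b → b ≤ 1 →
      IntervalIntegrable (fun s => Ft κ q h s) volume a b := by
    intro a b ha hab hb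
    apply MonotoneOn.intervalIntegrable
    rw [uIcc_of_le hab]
    exact (Ft_mono hκ).mono (Icc_subset_Icc ha hb)
  have iid : ∀ a b : ℝ, IntervalIntegrable (fun t : ℝ => t) volume a b := fun a b =>
    continuous_id.intervalIntegrable a b
  -- the two nonnegative integrals
  set I1 := ∫ s in (0:ℝ)..q, (ζ s * F κ q h s - ζ s * s) with hI1
  set I2 := ∫ t in q..1, ((t - ζ t * t) - (Ft κ q h t - ζ t * Ft κ q h t)) with hI2
  have e1 : I1 = (∫ s in (0:ℝ)..q, ζ s * F κ q h s) - ∫ s in (0:ℝ)..q, ζ s * s :=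
    intervalIntegral.integral_sub (iF 0 q le_rfl hq0 le_rfl) (iφ 0 q le_rfl hq0 hq1.le)
  have e2 : I2 = ((∫ t in q..1, t) - ∫ t in q..1, ζ t * t)
      - ((∫ t in q..1, Ft κ q h t) - ∫ t in q..1, ζ t * Ft κ q h t) := by
    rw [hI2, intervalIntegral.integral_sub ((iid q 1).sub (iφ q 1 hq0 hq1.le le_rfl))
      ((iFt' q 1 le_rfl hq1.le le_rfl).sub (iFt q 1 le_rfl hq1.le le_rfl)),
      intervalIntegral.integral_sub (iid q 1) (iφ q 1 hq0 hq1.le le_rfl),
      intervalIntegral.integral_sub (iFt' q 1 le_rfl hq1.le le_rfl) (iFt q 1 le_rfl hq1.le le_rfl)]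
  have e3 := intervalIntegral.integral_add_adjacent_intervals (iφ 0 q le_rfl hq0 hq1.le)
    (iφ q 1 hq0 hq1.le le_rfl)
  have hsum : β ^ 2 * (I1 + I2) ≤ 0 := by
    unfold val Vf at hval
    rw [← e3, ← hκd] at hval
    have e4 : (∫ t in q..1, t) = (1 - q ^ 2) / 2 := by rw [integral_id]; ring
    rw [e1, e2, e4]
    linarith
  have hsum' : I1 + I2 ≤ 0 := by
    by_contra hcon
    have := mul_pos hβ2 (not_le.1 hcon)
    linarith
  have hpt1 : ∀ s, 0 ≤ s → s ≤ q → 0 ≤ ζ s * F κ q h s - ζ s * s := by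
    intro s hs0 hs1
    have h1 := F_ge hκ hq hAT hs0 hs1
    have h2 := (hζ s ⟨hs0, hs1.trans hq1.le⟩).1
    have := mul_le_mul_of_nonneg_left h1 h2
    linarith
  have hFt : ∀ t, q ≤ t → Ft κ q h t ≤ t := by
    intro t ht
    have := core_A hκ hq0 hq hAT (t - q) (by linarith)
    unfold Ft
    linarith
  have hFts : ∀ t, q < t → Ft κ q h t < t := by
    intro t ht
    have := core_A_strict hκ hq0 hq hAT (t - q) (by linarith)
    unfold Ft
    linarith
  have hpt2 : ∀ t, q ≤ t → t ≤ 1 → 0 ≤ (t - ζ t * t) - (Ft κ q h t - ζ t * Ft κ q h t) := by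
    intro t ht0 ht1
    have h1 := hFt t ht0
    have h2 := (hζ t ⟨hq0.trans ht0, ht1⟩).2
    have e : (t - ζ t * t) - (Ft κ q h t - ζ t * Ft κ q h t) = (1 - ζ t) * (t - Ft κ q h t) := by ring
    rw [e]; exact mul_nonneg (by linarith) (by linarith)
  have hI1nn : 0 ≤ I1 := intervalIntegral.integral_nonneg hq0 fun s hs => hpt1 s hs.1 hs.2
  have hI2nn : 0 ≤ I2 := intervalIntegral.integral_nonneg hq1.le fun s hs => hpt2 s hs.1 hs.2
  constructor
  · intro s hs0 hs1
    by_contra hne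
    have hsI : s ∈ Icc (0:ℝ) 1 := ⟨hs0, hs1.le.trans hq1.le⟩
    have hpos : 0 < ζ s := lt_of_le_of_ne (hζ s hsI).1 (Ne.symm hne)
    have hsplit := intervalIntegral.integral_add_adjacent_intervals
      (μ := volume) (f := fun s => ζ s * F κ q h s - ζ s * s) (a := 0) (b := s) (c := q)
      ((iF 0 s le_rfl hs0 hs1.le).sub (iφ 0 s le_rfl hs0 hsI.2))
      ((iF s q hs0 hs1.le le_rfl).sub (iφ s q hs0 hs1.le hq1.le))
    have h1 : 0 ≤ ∫ r in (0:ℝ)..s, (ζ r * F κ q h r - ζ r * r) :=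
      intervalIntegral.integral_nonneg hs0 fun r hr => hpt1 r hr.1 (hr.2.trans hs1.le)
    have h2 : 0 < ∫ r in s..q, (ζ r * F κ q h r - ζ r * r) := by
      apply intervalIntegral.intervalIntegral_pos_of_pos_on
        ((iF s q hs0 hs1.le le_rfl).sub (iφ s q hs0 hs1.le hq1.le)) _ hs1
      intro r hr
      have hrI : r ∈ Icc (0:ℝ) 1 := ⟨hs0.trans hr.1.le, hr.2.le.trans hq1.le⟩
      have h3 : 0 < ζ r := lt_of_lt_of_le hpos (hmono hsI hrI hr.1.le)
      have h4 := F_gt hκ hq hAT hrI.1 hr.2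
      have := mul_lt_mul_of_pos_left h4 h3
      linarith
    have h3 : 0 < I1 := by rw [hI1, ← hsplit]; linarith
    linarith
  · intro t ht0 ht1
    by_contra hne
    have htI : t ∈ Icc (0:ℝ) 1 := ⟨hq0.trans ht0.le, ht1.le⟩
    have hlt : ζ t < 1 := lt_of_le_of_ne (hζ t htI).2 hne
    have hsplit := intervalIntegral.integral_add_adjacent_intervals
      (μ := volume) (f := fun t => (t - ζ t * t) - (Ft κ q h t - ζ t * Ft κ q h t))
      (a := q) (b := t) (c := 1)
      (((iid q t).sub (iφ q t hq0 ht0.le ht1.le)).sub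
        ((iFt' q t le_rfl ht0.le ht1.le).sub (iFt q t le_rfl ht0.le ht1.le)))
      (((iid t 1).sub (iφ t 1 htI.1 ht1.le le_rfl)).sub
        ((iFt' t 1 ht0.le ht1.le le_rfl).sub (iFt t 1 ht0.le ht1.le le_rfl)))
    have h1 : 0 ≤ ∫ r in t..1, ((r - ζ r * r) - (Ft κ q h r - ζ r * Ft κ q h r)) :=
      intervalIntegral.integral_nonneg ht1.le fun r hr => hpt2 r (ht0.le.trans hr.1) hr.2
    have h2 : 0 < ∫ r in q..t, ((r - ζ r * r) - (Ft κ q h r - ζ r * Ft κ q h r)) := by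
      apply intervalIntegral.intervalIntegral_pos_of_pos_on
        (((iid q t).sub (iφ q t hq0 ht0.le ht1.le)).sub
        ((iFt' q t le_rfl ht0.le ht1.le).sub (iFt q t le_rfl ht0.le ht1.le))) _ ht0
      intro r hr
      have hrI : r ∈ Icc (0:ℝ) 1 := ⟨hq0.trans hr.1.le, hr.2.le.trans ht1.le⟩
      have h3 : ζ r < 1 := lt_of_le_of_lt (hmono hrI htI hr.2.le) hlt
      have h4 := hFts r hr.1
      have e : (r - ζ r * r) - (Ft κ q h r - ζ r * Ft κ q h r) = (1 - ζ r) * (r - Ft κ q h r) := by ring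
      rw [e]; exact mul_pos (by linarith) (by linarith)
    have h3 : 0 < I2 := by rw [hI2, ← hsplit]; linarith
    linarith

/-- **Uniqueness** of the Parisi measure in the AT region. -/
theorem unique_of_AT {β h q : ℝ} (hβ : 0 < β) (hq : q ∈ fixedSet β h) (hAT : ATcond β h q)
    {μ : Measure ℝ} (hμ : IsParisiMeasure β h μ) : μ = Measure.dirac q := by
  obtain ⟨hqI, hqe⟩ := hq
  rw [phi_eq hβ.le] at hqe
  unfold ATcond at hAT
  rw [AT_eq hβ.le] at hAT
  have hq1 : q < 1 := by rw [hqe]; exact P_tanh_sq_lt_one _ _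
  obtain ⟨hprob, hsupp, f, hf, hmin⟩ := hμ
  have h1 := hmin (Measure.dirac q) inferInstance (by
    rw [Measure.dirac_apply' q measurableSet_Icc.compl]
    simp [hqI.1, hqI.2]) (f0 β q) (by rw [cdf_dirac']; exact isParisiSol_f0 hβ hq1.le)
  rw [cdf_dirac', val_f0' hqI.1 hq1.le] at h1
  obtain ⟨r1, r2⟩ := rigid hf (fun t _ => ⟨cdf_nonneg μ t, cdf_le_one μ t⟩)
    ((monotone_cdf μ).monotoneOn _) hβ hqI.1 hq1 hqe (by linarith) h1
  apply Measure.eq_of_cdf
  apply StieltjesFunction.ext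
  intro t
  rw [cdf_dirac']
  simp only
  -- outside [0,1]
  have hneg : ∀ t < 0, cdf μ t = 0 := by
    intro t ht
    rw [cdf_eq_real, measureReal_def]
    have : μ (Iic t) = 0 := by
      refine measure_mono_null ?_ hsupp
      intro x hx
      simp only [mem_compl_iff, mem_Icc, not_and_or, not_le]
      left
      exact lt_of_le_of_lt hx ht
    rw [this]; simp
  have hone : ∀ t, 1 ≤ t → cdf μ t = 1 := by
    intro t ht
    rw [cdf_eq_real, measureReal_def]
    have h2 : μ (Iic t)ᶜ = 0 := by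
      refine measure_mono_null ?_ hsupp
      intro x hx
      simp only [mem_compl_iff, mem_Iic, not_le] at hx
      simp only [mem_compl_iff, mem_Icc, not_and_or, not_le]
      right
      linarith
    have h3 : μ (Iic t) = 1 := (prob_compl_eq_zero_iff measurableSet_Iic).1 h2
    rw [h3]; simp
  rcases lt_or_ge t q with htq | htq
  · rw [if_neg (not_le.2 htq)]
    rcases lt_or_ge t 0 with h0 | h0
    · exact hneg t h0
    · exact r1 t h0 htq
  · rw [if_pos htq]
    have hgt : ∀ s, q < s → cdf μ s = 1 := by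
      intro s hs
      rcases lt_or_ge s 1 with h2 | h2
      · exact r2 s hs h2
      · exact hone s h2
    rcases htq.lt_or_eq with h2 | h2
    · exact hgt t h2
    · -- right continuity at q
      rw [← h2]
      have hrc := (cdf μ).right_continuous q
      have hlim1 : Tendsto (cdf μ) (𝓝[>] q) (𝓝 (cdf μ q)) :=
        hrc.tendsto.mono_left (nhdsWithin_mono _ Ioi_subset_Ici_self)
      have hlim2 : Tendsto (cdf μ) (𝓝[>] q) (𝓝 1) := by
        refine tendsto_const_nhds.congr' ?_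
        filter_upwards [self_mem_nhdsWithin] with s hs
        exact (hgt s hs).symm
      exact tendsto_nhds_unique hlim1 hlim2

/-- The full de Almeida-Thouless statement. -/
theorem main (β h : ℝ) (hβ : 0 < β) :
    ∃ q, IsGreatest (fixedSet β h) q ∧
      ((∃ r, IsParisiMeasure β h (Measure.dirac r)) ↔ ATcond β h q) ∧
      (ATcond β h q → ∀ μ, IsParisiMeasure β h μ ↔ μ = Measure.dirac q) := by
  have hg := isGreatest_qmax hβ.le h
  refine ⟨qmax β h, hg, ⟨?_, ?_⟩, ?_⟩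
  · rintro ⟨r, hr⟩
    exact (AT_of_parisi hβ hr).2
  · intro hAT
    exact ⟨qmax β h, parisi_of_AT hβ hg.1 hAT⟩
  · intro hAT μ
    constructor
    · intro hμ
      exact unique_of_AT hβ hg.1 hAT hμ
    · intro hμ
      rw [hμ]
      exact parisi_of_AT hβ hg.1 hAT

end Pool.Agent.N942.AT
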