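import Mathlib

set_option autoImplicit false

open Finset

namespace Pool.Agent.N942.Stack

/-- average over a finite type -/
noncomputable def avg {T : Type} [Fintype T] (f : T → ℝ) : ℝ := (∑ x, f x) / (Fintype.card T : ℝ)

section
variable {T U : Type} [Fintype T] [Fintype U]

theorem avg_congr {f g : T → ℝ} (h : ∀ x, f x = g x) : avg f = avg g := by
  unfold avg; rw [Finset.sum_congr rfl fun x _ => h x]

theorem avg_mono {f g : T → ℝ} (h : ∀ x, f x ≤ g x) : avg f ≤ avg g := by
  unfold avg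
  exact div_le_div_of_nonneg_right (Finset.sum_le_sum fun x _ => h x) (Nat.cast_nonneg _)

theorem avg_nonneg {f : T → ℝ} (h : ∀ x, 0 ≤ f x) : 0 ≤ avg f :=
  div_nonneg (Finset.sum_nonneg fun x _ => h x) (Nat.cast_nonneg _)

theorem avg_add (f g : T → ℝ) : avg (fun x => f x + g x) = avg f + avg g := by
  unfold avg; rw [Finset.sum_add_distrib, add_div]

theorem avg_sub (f g : T → ℝ) : avg (fun x => f x - g x) = avg f - avg g := by
  unfold avg; rw [Finset.sum_sub_distrib, sub_div]

theorem avg_mul_left (c : ℝ) (f : T → ℝ) : avg (fun x => c * f x) = c * avg f := by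
  unfold avg; rw [← Finset.mul_sum, mul_div_assoc]

theorem avg_sum {I : Type} (s : Finset I) (f : I → T → ℝ) :
    avg (fun x => ∑ i ∈ s, f i x) = ∑ i ∈ s, avg (f i) := by
  unfold avg; rw [Finset.sum_comm, Finset.sum_div]

theorem avg_const [Nonempty T] (c : ℝ) : avg (fun _ : T => c) = c := by
  unfold avg
  rw [Finset.sum_const, Finset.card_univ, nsmul_eq_mul]
  have : (Fintype.card T : ℝ) ≠ 0 := by exact_mod_cast Fintype.card_ne_zero
  field_simp

theorem avg_equiv (e : T ≃ U) (f : U → ℝ) : avg (fun x => f (e x)) = avg f := by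
  unfold avg
  rw [Equiv.sum_comp e f, Fintype.card_congr e]

theorem avg_prod' (f : T × U → ℝ) : avg f = avg fun x : T => avg fun y : U => f (x, y) := by
  unfold avg
  rw [Fintype.sum_prod_type, Fintype.card_prod, ← Finset.sum_div, div_div]
  congr 1
  push_cast
  ring

theorem avg_swap (f : T → U → ℝ) :
    (avg fun x : T => avg fun y : U => f x y) = avg fun y : U => avg fun x : T => f x y := by
  unfold avg
  simp only [Finset.sum_div]
  rw [Finset.sum_comm]
  refine Finset.sum_congr rfl fun y _ => Finset.sum_congr rfl fun x _ => ?_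
  rw [div_right_comm]

theorem avg_pi {ι : Type} [Fintype ι] [DecidableEq ι] {X : Type} [Fintype X] (φ : ι → X → ℝ) :
    avg (fun ω : ι → X => ∏ i, φ i (ω i)) = ∏ i, avg (φ i) := by
  unfold avg
  rw [Finset.prod_div_distrib, Finset.prod_univ_sum, Fintype.piFinset_univ, Fintype.card_fun,
    Finset.prod_const, Finset.card_univ]
  push_cast
  rfl

/-- restriction along an injection preserves the uniform law -/
theorem avg_restrict {I J : Type} [Fintype I] [Fintype J] [DecidableEq I] [DecidableEq J]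
    {Y : Type} [Fintype Y] [Nonempty Y] (g : J → I) (hg : Function.Injective g)
    (F : (J → Y) → ℝ) : avg (fun y : I → Y => F (fun j => y (g j))) = avg F := by
  classical
  let e : J ⊕ ((Set.range g)ᶜ : Set I) ≃ I :=
    (Equiv.sumCongr (Equiv.ofInjective g hg) (Equiv.refl _)).trans (Equiv.Set.sumCompl (Set.range g))
  have he : ∀ j, e (Sum.inl j) = g j := fun j => by
    simp [e]
  let e2 : (I → Y) ≃ (J → Y) × (((Set.range g)ᶜ : Set I) → Y) :=
    (Equiv.arrowCongr e.symm (Equiv.refl Y)).trans (Equiv.sumArrowEquivProdArrow _ _ _)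
  have he2 : ∀ y : I → Y, (e2 y).1 = fun j => y (g j) := by
    intro y
    funext j
    show y (e (Sum.inl j)) = y (g j)
    rw [he]
  have h1 : avg (fun y : I → Y => F (e2 y).1) =
      avg (fun p : (J → Y) × (((Set.range g)ᶜ : Set I) → Y) => F p.1) :=
    avg_equiv e2 fun p => F p.1
  have h2 : avg (fun p : (J → Y) × (((Set.range g)ᶜ : Set I) → Y) => F p.1) = avg F := by
    rw [avg_prod' fun p : (J → Y) × (((Set.range g)ᶜ : Set I) → Y) => F p.1]
    exact avg_congr fun x => avg_const (T := ((Set.range g)ᶜ : Set I) → Y) (F x)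
  rw [← h2, ← h1]
  exact avg_congr fun y => by rw [he2 y]

end

/-- probability as an average of an indicator -/
noncomputable def ind (P : Prop) : ℝ := by classical exact if P then 1 else 0

theorem ind_true {P : Prop} (h : P) : ind P = 1 := by unfold ind; rw [if_pos h]
theorem ind_false {P : Prop} (h : ¬ P) : ind P = 0 := by unfold ind; rw [if_neg h]
theorem ind_nonneg (P : Prop) : 0 ≤ ind P := by unfold ind; split_ifs <;> norm_num
theorem ind_le_one (P : Prop) : ind P ≤ 1 := by unfold ind; split_ifs <;> norm_num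
theorem ind_mono {P Q : Prop} (h : P → Q) : ind P ≤ ind Q := by
  by_cases hP : P
  · rw [ind_true hP, ind_true (h hP)]
  · rw [ind_false hP]; exact ind_nonneg _
theorem ind_and (P Q : Prop) : ind (P ∧ Q) = ind P * ind Q := by
  by_cases hP : P
  · by_cases hQ : Q
    · rw [ind_true hP, ind_true hQ, ind_true ⟨hP, hQ⟩, mul_one]
    · rw [ind_false hQ, ind_false fun h => hQ h.2, mul_zero]
  · rw [ind_false hP, ind_false fun h => hP h.1, zero_mul]
theorem ind_not (P : Prop) : ind (¬ P) = 1 - ind P := by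
  by_cases hP : P
  · rw [ind_true hP, ind_false (not_not.2 hP), sub_self]
  · rw [ind_false hP, ind_true hP, sub_zero]
theorem ind_forall {ι : Type} [Fintype ι] (P : ι → Prop) : ind (∀ i, P i) = ∏ i, ind (P i) := by
  by_cases h : ∀ i, P i
  · rw [ind_true h, Finset.prod_eq_one fun i _ => ind_true (h i)]
  · rw [ind_false h]
    push Not at h
    obtain ⟨i, hi⟩ := h
    exact (Finset.prod_eq_zero (Finset.mem_univ i) (ind_false hi)).symm
theorem ind_congr {P Q : Prop} (h : P ↔ Q) : ind P = ind Q := by rw [propext h]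

theorem avg_ind_eq {Y : Type} [Fintype Y] [DecidableEq Y] (c : Y) :
    avg (fun y : Y => ind (y = c)) = 1 / (Fintype.card Y : ℝ) := by
  unfold avg
  congr 1
  rw [Finset.sum_eq_single c]
  · exact ind_true rfl
  · intro b _ hb; exact ind_false hb
  · intro h; exact absurd (Finset.mem_univ _) h

/-! ### hitting probabilities -/

section
variable {a b : ℕ}

/-- probability that `a` independent uniform columns miss the column `c` -/
theorem avg_miss (hb : 0 < b) (c : Fin b) :
    avg (fun w : Fin a → Fin b => ind (∀ t, w t ≠ c)) = (1 - 1 / (b : ℝ)) ^ a := by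
  have : Nonempty (Fin b) := ⟨⟨0, hb⟩⟩
  rw [avg_congr fun w => ind_forall _, avg_pi (fun _ : Fin a => fun y : Fin b => ind (y ≠ c))]
  rw [Finset.prod_const, Finset.card_univ, Fintype.card_fin]
  congr 1
  rw [avg_congr fun y => ind_not (y = c), avg_sub, avg_const, avg_ind_eq, Fintype.card_fin]

theorem avg_miss2 (hb : 0 < b) (c c' : Fin b) (hc : c ≠ c') :
    avg (fun w : Fin a → Fin b => ind ((∀ t, w t ≠ c) ∧ ∀ t, w t ≠ c')) =
      (1 - 2 / (b : ℝ)) ^ a := by
  have : Nonempty (Fin b) := ⟨⟨0, hb⟩⟩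
  have h1 : ∀ w : Fin a → Fin b, ind ((∀ t, w t ≠ c) ∧ ∀ t, w t ≠ c') =
      ∏ t, ind (w t ≠ c ∧ w t ≠ c') := by
    intro w
    rw [← ind_forall]
    exact ind_congr forall_and.symm
  rw [avg_congr h1, avg_pi (fun _ : Fin a => fun y : Fin b => ind (y ≠ c ∧ y ≠ c'))]
  rw [Finset.prod_const, Finset.card_univ, Fintype.card_fin]
  congr 1
  have h2 : ∀ y : Fin b, ind (y ≠ c ∧ y ≠ c') = 1 - (ind (y = c) + ind (y = c')) := by
    intro y
    by_cases h : y = c
    · subst h
      rw [ind_false fun h => h.1 rfl, ind_true rfl, ind_false hc]; ring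
    · by_cases h' : y = c'
      · subst h'
        rw [ind_false fun h => h.2 rfl, ind_false h, ind_true rfl]; ring
      · rw [ind_true ⟨h, h'⟩, ind_false h, ind_false h']; ring
  rw [avg_congr h2, avg_sub, avg_const, avg_add, avg_ind_eq, avg_ind_eq, Fintype.card_fin]
  ring

/-- the hitting probability -/
noncomputable def hit (a b : ℕ) : ℝ := 1 - (1 - 1 / (b : ℝ)) ^ a

theorem avg_hit (hb : 0 < b) (c : Fin b) :
    avg (fun w : Fin a → Fin b => ind (∃ t, w t = c)) = hit a b := by
  have : Nonempty (Fin b) := ⟨⟨0, hb⟩⟩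
  have h1 : ∀ w : Fin a → Fin b, ind (∃ t, w t = c) = 1 - ind (∀ t, w t ≠ c) := by
    intro w
    rw [← ind_not]
    exact ind_congr (by push Not; rfl)
  rw [avg_congr h1, avg_sub, avg_const, avg_miss hb]
  rfl

theorem avg_hit2 (hb : 0 < b) (c c' : Fin b) (hc : c ≠ c') :
    avg (fun w : Fin a → Fin b => ind ((∃ t, w t = c) ∧ ∃ t, w t = c')) ≤ hit a b ^ 2 := by
  have : Nonempty (Fin b) := ⟨⟨0, hb⟩⟩
  have h1 : ∀ w : Fin a → Fin b, ind ((∃ t, w t = c) ∧ ∃ t, w t = c') =
      (1 - (ind (∀ t, w t ≠ c) + ind (∀ t, w t ≠ c'))) +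
        ind ((∀ t, w t ≠ c) ∧ ∀ t, w t ≠ c') := by
    intro w
    rw [ind_and, ind_and]
    have e1 : ind (∃ t, w t = c) = 1 - ind (∀ t, w t ≠ c) := by
      rw [← ind_not]; exact ind_congr (by push Not; rfl)
    have e2 : ind (∃ t, w t = c') = 1 - ind (∀ t, w t ≠ c') := by
      rw [← ind_not]; exact ind_congr (by push Not; rfl)
    rw [e1, e2]; ring
  rw [avg_congr h1, avg_add, avg_sub, avg_const, avg_add, avg_miss hb, avg_miss hb,
    avg_miss2 hb c c' hc]
  unfold hit
  have hb2 : 2 ≤ b := by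
    have h1 := c.2
    have h2 := c'.2
    have h3 : c.1 ≠ c'.1 := fun h => hc (Fin.ext h)
    omega
  have hbr : (2 : ℝ) ≤ b := by exact_mod_cast hb2
  have h2 : (1 - 2 / (b : ℝ)) ^ a ≤ ((1 - 1 / (b : ℝ)) ^ 2) ^ a := by
    refine pow_le_pow_left₀ ?_ ?_ a
    · rw [sub_nonneg, div_le_one (by linarith)]; exact hbr
    · have : (1 - 1 / (b : ℝ)) ^ 2 = 1 - 2 / (b : ℝ) + (1 / (b : ℝ)) ^ 2 := by ring
      rw [this]
      nlinarith [sq_nonneg (1 / (b : ℝ))]
  have h3 : ((1 - 1 / (b : ℝ)) ^ 2) ^ a = ((1 - 1 / (b : ℝ)) ^ a) ^ 2 := by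
    rw [← pow_mul, ← pow_mul, mul_comm]
  rw [h3] at h2
  nlinarith

theorem hit_nonneg (hb : 0 < b) : 0 ≤ hit a b := by
  have hbr : (1 : ℝ) ≤ b := by exact_mod_cast hb
  unfold hit
  rw [sub_nonneg]
  refine pow_le_one₀ ?_ ?_
  · rw [sub_nonneg, div_le_one (by linarith)]; exact hbr
  · have : 0 ≤ 1 / (b : ℝ) := by positivity
    linarith

theorem hit_le_one (hb : 0 < b) : hit a b ≤ 1 := by
  have hbr : (1 : ℝ) ≤ b := by exact_mod_cast hb
  unfold hit
  have : 0 ≤ (1 - 1 / (b : ℝ)) ^ a := by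
    refine pow_nonneg ?_ a
    rw [sub_nonneg, div_le_one (by linarith)]; exact hbr
  linarith

theorem hit_ge {l : ℝ} (hb : 0 < b) (h : l * b ≤ a) : 1 - Real.exp (-l) ≤ hit a b := by
  have hbr : (1 : ℝ) ≤ b := by exact_mod_cast hb
  unfold hit
  have h1 : (1 - 1 / (b : ℝ)) ^ a ≤ Real.exp (-l) := by
    have h2 : 1 - 1 / (b : ℝ) ≤ Real.exp (-(1 / (b : ℝ))) := by
      have := Real.add_one_le_exp (-(1 / (b : ℝ)))
      linarith
    calc (1 - 1 / (b : ℝ)) ^ a ≤ (Real.exp (-(1 / (b : ℝ)))) ^ a := by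
          refine pow_le_pow_left₀ ?_ h2 a
          rw [sub_nonneg, div_le_one (by linarith)]; exact hbr
      _ = Real.exp (-(a / b)) := by
          rw [← Real.exp_nat_mul]; congr 1; ring
      _ ≤ Real.exp (-l) := by
          rw [Real.exp_le_exp, neg_le_neg_iff, le_div_iff₀ (by linarith)]
          exact h
  linarith

end

end Pool.Agent.N942.Stack
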