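import Mathlib

set_option autoImplicit false

open Finset

namespace Pool.Agent.N942.Chain

/-- coupling constants as a function of the displacement -/
noncomputable def K (α : ℝ) (d : ℤ) : ℝ := |(d : ℝ)| ^ (-α)

theorem K_nonneg (α : ℝ) (d : ℤ) : 0 ≤ K α d := Real.rpow_nonneg (abs_nonneg _) _

theorem K_zero {α : ℝ} (hα : 2 < α) : K α 0 = 0 := by
  unfold K
  rw [Int.cast_zero, abs_zero, Real.zero_rpow (by linarith)]

theorem K_pos {α : ℝ} {d : ℤ} (hd : d ≠ 0) : 0 < K α d :=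
  Real.rpow_pos_of_pos (abs_pos.2 (by exact_mod_cast hd)) _

theorem K_neg (α : ℝ) (d : ℤ) : K α (-d) = K α d := by
  unfold K; push_cast; rw [abs_neg]

theorem summable_K {α : ℝ} (hα : 2 < α) : Summable (K α) :=
  Real.summable_abs_int_rpow (by linarith)

theorem summable_dK {α : ℝ} (hα : 2 < α) : Summable fun d : ℤ => |(d : ℝ)| * K α d := by
  refine (Real.summable_abs_int_rpow (b := α - 1) (by linarith)).congr fun d => ?_
  rcases eq_or_ne d 0 with rfl | hd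
  · simp only [Int.cast_zero, abs_zero, zero_mul]
    rw [Real.zero_rpow (by linarith)]
  · have h : 0 < |(d : ℝ)| := abs_pos.2 (by exact_mod_cast hd)
    unfold K
    rw [show -(α - 1) = 1 + -α by ring, Real.rpow_add h, Real.rpow_one]

/-- the energy of a configuration -/
noncomputable def En (α : ℝ) (φ : ℤ → ℤ) : ℝ :=
  ∑' p : ℤ × ℤ, K α p.2 * ((φ p.1 : ℝ) - (φ (p.1 + p.2) : ℝ)) ^ 2

/-- the configurations supported in a finite set -/
def M (Λ : Finset ℤ) : AddSubgroup (ℤ → ℤ) where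
  carrier := {φ | ∀ x, x ∉ Λ → φ x = 0}
  zero_mem' := fun _ _ => rfl
  add_mem' := by
    intro a b ha hb x hx
    show a x + b x = 0
    rw [ha x hx, hb x hx, add_zero]
  neg_mem' := by
    intro a ha x hx
    show - a x = 0
    rw [ha x hx, neg_zero]

theorem mem_M {Λ : Finset ℤ} {φ : ℤ → ℤ} : φ ∈ M Λ ↔ ∀ x, x ∉ Λ → φ x = 0 := Iff.rfl

theorem M_mono {Λ Λ' : Finset ℤ} (h : Λ ⊆ Λ') : M Λ ≤ M Λ' :=
  fun _ hφ x hx => hφ x fun hx' => hx (h hx')

theorem summable_sq {Λ : Finset ℤ} {φ : ℤ → ℤ} (h : φ ∈ M Λ) :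
    Summable fun x : ℤ => ((φ x : ℝ)) ^ 2 := by
  refine summable_of_ne_finset_zero (s := Λ) fun x hx => ?_
  rw [h x hx]; simp

/-- the shear `(x, d) ↦ (x + d, d)` -/
def shear : ℤ × ℤ ≃ ℤ × ℤ where
  toFun p := (p.1 + p.2, p.2)
  invFun p := (p.1 - p.2, p.2)
  left_inv p := by ext <;> simp
  right_inv p := by ext <;> simp

theorem summable_En {α : ℝ} (hα : 2 < α) {Λ : Finset ℤ} {φ : ℤ → ℤ} (h : φ ∈ M Λ) :
    Summable fun p : ℤ × ℤ => K α p.2 * ((φ p.1 : ℝ) - (φ (p.1 + p.2) : ℝ)) ^ 2 := by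
  have h1 : Summable fun p : ℤ × ℤ => ((φ p.1 : ℝ)) ^ 2 * K α p.2 :=
    (summable_sq h).mul_of_nonneg (summable_K hα) (fun _ => sq_nonneg _) (fun _ => K_nonneg _ _)
  have h2 : Summable fun p : ℤ × ℤ => ((φ (p.1 + p.2) : ℝ)) ^ 2 * K α p.2 := by
    have := (shear.summable_iff (f := fun p : ℤ × ℤ => ((φ p.1 : ℝ)) ^ 2 * K α p.2)).2 h1
    exact this
  refine Summable.of_nonneg_of_le (fun p => mul_nonneg (K_nonneg _ _) (sq_nonneg _)) (fun p => ?_)
    ((h1.mul_left 2).add (h2.mul_left 2))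
  have h3 := K_nonneg α p.2
  nlinarith [mul_nonneg h3 (sq_nonneg ((φ p.1 : ℝ) + (φ (p.1 + p.2) : ℝ)))]

theorem En_nonneg (α : ℝ) (φ : ℤ → ℤ) : 0 ≤ En α φ :=
  tsum_nonneg fun _ => mul_nonneg (K_nonneg _ _) (sq_nonneg _)

/-- parallelogram identity -/
theorem En_par {α : ℝ} (hα : 2 < α) {Λ : Finset ℤ} {φ ψ : ℤ → ℤ} (h : φ ∈ M Λ) (h' : ψ ∈ M Λ) :
    En α (φ + ψ) + En α (φ - ψ) = 2 * En α φ + 2 * En α ψ := by
  unfold En
  rw [← (summable_En hα ((M Λ).add_mem h h')).tsum_add (summable_En hα ((M Λ).sub_mem h h')),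
    ← tsum_mul_left, ← tsum_mul_left,
    ← ((summable_En hα h).mul_left 2).tsum_add ((summable_En hα h').mul_left 2)]
  refine tsum_congr fun p => ?_
  simp only [Pi.add_apply, Pi.sub_apply]
  push_cast
  ring

/-- translation invariance of the energy -/
theorem En_shift (α : ℝ) (z : ℤ) (φ : ℤ → ℤ) : En α (fun x => φ (x - z)) = En α φ := by
  unfold En
  let e : ℤ × ℤ ≃ ℤ × ℤ := (Equiv.addRight z).prodCongr (Equiv.refl ℤ)
  rw [← e.tsum_eq (fun p : ℤ × ℤ => K α p.2 * ((φ (p.1 - z) : ℝ) - (φ (p.1 + p.2 - z) : ℝ)) ^ 2)]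
  refine tsum_congr fun p => ?_
  simp only [e, Equiv.prodCongr_apply, Prod.map, Equiv.coe_addRight, Equiv.refl_apply]
  rw [add_sub_cancel_right, show p.1 + z + p.2 - z = p.1 + p.2 by ring]

/-- the frozen form of the energy -/
theorem En_eq {α : ℝ} (hα : 2 < α) (φ : ℤ → ℤ) :
    (∑' p : ℤ × ℤ, (if p.1 = p.2 then (0 : ℝ)
        else ((|p.1 - p.2| : ℤ) : ℝ) ^ (-α) * ((φ p.1 : ℝ) - (φ p.2 : ℝ)) ^ 2)) = En α φ := by
  unfold En
  let e : ℤ × ℤ ≃ ℤ × ℤ :=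
    { toFun := fun p => (p.1, p.1 + p.2)
      invFun := fun p => (p.1, p.2 - p.1)
      left_inv := fun p => by ext <;> simp
      right_inv := fun p => by ext <;> simp }
  rw [← e.tsum_eq]
  refine tsum_congr fun p => ?_
  show (if p.1 = p.1 + p.2 then (0 : ℝ) else ((|p.1 - (p.1 + p.2)| : ℤ) : ℝ) ^ (-α) *
    ((φ p.1 : ℝ) - (φ (p.1 + p.2) : ℝ)) ^ 2) = _
  rcases eq_or_ne p.2 0 with hp | hp
  · rw [hp, K_zero hα]; simp
  · rw [if_neg (by omega)]
    congr 1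
    unfold K
    push_cast
    congr 1
    rw [show (p.1 : ℝ) - (p.1 + p.2) = -(p.2 : ℝ) by ring, abs_neg]

/-- pointwise coercivity -/
theorem exists_coord {α : ℝ} (hα : 2 < α) (Λ : Finset ℤ) :
    ∃ B : ℝ, 0 < B ∧ ∀ φ ∈ M Λ, ∀ x : ℤ, ((φ x : ℝ)) ^ 2 ≤ B * En α φ := by
  obtain ⟨D, hD0, hD⟩ : ∃ D : ℤ, 0 < D ∧ ∀ x ∈ Λ, x + D ∉ Λ := by
    obtain ⟨R, hR⟩ : ∃ R : ℤ, ∀ x ∈ Λ, |x| ≤ R := by
      refine ⟨∑ x ∈ Λ, |x|, fun x hx => ?_⟩
      exact Finset.single_le_sum (f := fun x : ℤ => |x|) (fun i _ => abs_nonneg i) hx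
    refine ⟨2 * |R| + 1, by positivity, fun x hx hx' => ?_⟩
    have h1 := hR x hx
    have h2 := hR _ hx'
    rw [abs_le] at h1 h2
    have h3 := le_abs_self R
    omega
  refine ⟨(K α D)⁻¹, inv_pos.2 (K_pos hD0.ne'), fun φ hφ x => ?_⟩
  by_cases hx : x ∈ Λ
  · have h1 := (summable_En hα hφ).le_tsum (x, D)
      (fun p _ => mul_nonneg (K_nonneg _ _) (sq_nonneg _))
    have h2 : φ (x + D) = 0 := hφ _ (hD x hx)
    simp only [h2, Int.cast_zero, sub_zero] at h1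
    have hK : 0 < K α D := K_pos hD0.ne'
    rw [inv_mul_eq_div, le_div_iff₀ hK, mul_comm]
    exact h1
  · rw [hφ x hx]
    simp only [Int.cast_zero, ne_eq, OfNat.ofNat_ne_zero, not_false_eq_true, zero_pow]
    exact mul_nonneg (inv_pos.2 (K_pos hD0.ne')).le (En_nonneg _ _)

theorem summable_pi {ι κ : Type*} [Fintype ι] [DecidableEq ι] [DecidableEq κ] (f : ι → κ → ℝ)
    (h0 : ∀ i k, 0 ≤ f i k) (hs : ∀ i, Summable (f i)) :
    Summable fun x : ι → κ => ∏ i, f i (x i) := by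
  refine summable_of_sum_le (c := ∏ i, ∑' k, f i k)
    (fun x => Finset.prod_nonneg fun i _ => h0 i _) fun s => ?_
  calc ∑ x ∈ s, ∏ i, f i (x i)
      ≤ ∑ x ∈ Fintype.piFinset (fun i => s.image fun x => x i), ∏ i, f i (x i) := by
        refine Finset.sum_le_sum_of_subset_of_nonneg (fun x hx => ?_)
          fun x _ _ => Finset.prod_nonneg fun i _ => h0 i _
        rw [Fintype.mem_piFinset]
        exact fun i => Finset.mem_image_of_mem _ hx
    _ = ∏ i, ∑ k ∈ s.image (fun x => x i), f i k := by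
        rw [Finset.prod_univ_sum]
    _ ≤ _ := Finset.prod_le_prod (fun i _ => Finset.sum_nonneg fun k _ => h0 i k)
        fun i _ => (hs i).sum_le_tsum _ fun k _ => h0 i k

theorem summable_gauss {c : ℝ} (hc : 0 < c) : Summable fun k : ℤ => Real.exp (-c * (k : ℝ) ^ 2) := by
  have h : Summable fun k : ℤ => c⁻¹ * |(k : ℝ)| ^ (-(2 : ℝ)) :=
    (Real.summable_abs_int_rpow (b := 2) (by norm_num)).mul_left _
  refine Summable.of_norm_bounded_eventually h ?_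
  have : {k : ℤ | k = 0}.Finite := by simp
  refine Filter.mem_cofinite.2 (this.subset fun k hk => ?_)
  by_contra hk0
  apply hk
  show ‖Real.exp (-c * (k : ℝ) ^ 2)‖ ≤ c⁻¹ * |(k : ℝ)| ^ (-(2 : ℝ))
  have hk0' : 0 < |(k : ℝ)| := abs_pos.2 (by exact_mod_cast hk0)
  rw [Real.norm_eq_abs, abs_of_pos (Real.exp_pos _), Real.rpow_neg hk0'.le,
    show (2 : ℝ) = ((2 : ℕ) : ℝ) by norm_num, Real.rpow_natCast, sq_abs, ← mul_inv, neg_mul,
    Real.exp_neg]
  have h2 : 0 < c * (k : ℝ) ^ 2 := mul_pos hc (by rw [← sq_abs]; positivity)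
  exact inv_anti₀ h2 (by linarith [Real.add_one_le_exp (c * (k : ℝ) ^ 2)])

/-- summability of the Boltzmann weights -/
theorem summable_w {α : ℝ} (hα : 2 < α) (Λ : Finset ℤ) {γ : ℝ} (hγ : 0 < γ) :
    Summable fun φ : M Λ => Real.exp (-γ * En α φ.1) := by
  obtain ⟨B, hB, hco⟩ := exists_coord hα Λ
  set c : ℝ := γ / (B * (Λ.card + 1)) with hc
  have hc0 : 0 < c := by positivity
  have h1 : Summable fun x : Λ → ℤ => ∏ i, Real.exp (-c * (x i : ℝ) ^ 2) :=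
    summable_pi (fun _ : Λ => fun k : ℤ => Real.exp (-c * (k : ℝ) ^ 2))
      (fun _ _ => (Real.exp_pos _).le) fun _ => summable_gauss hc0
  have hinj : Function.Injective fun (φ : M Λ) (i : Λ) => φ.1 i := by
    intro φ ψ h
    ext x
    by_cases hx : x ∈ Λ
    · exact congrFun h ⟨x, hx⟩
    · rw [φ.2 x hx, ψ.2 x hx]
  refine Summable.of_nonneg_of_le (fun _ => (Real.exp_pos _).le) (fun φ => ?_)
    (h1.comp_injective hinj)
  show _ ≤ ∏ i : Λ, Real.exp (-c * (φ.1 i : ℝ) ^ 2)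
  rw [← Real.exp_sum, Real.exp_le_exp, ← Finset.mul_sum]
  have h2 : ∑ i : Λ, ((φ.1 i : ℝ)) ^ 2 ≤ Λ.card * (B * En α φ.1) := by
    calc _ ≤ ∑ i : Λ, B * En α φ.1 := Finset.sum_le_sum fun i _ => hco _ φ.2 i
      _ = _ := by rw [Finset.sum_const, Finset.card_univ, Fintype.card_coe, nsmul_eq_mul]
  have h3 : c * ∑ i : Λ, ((φ.1 i : ℝ)) ^ 2 ≤ γ * En α φ.1 := by
    have hE := En_nonneg α φ.1
    calc c * ∑ i : Λ, ((φ.1 i : ℝ)) ^ 2 ≤ c * (Λ.card * (B * En α φ.1)) :=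
          mul_le_mul_of_nonneg_left h2 hc0.le
      _ ≤ c * ((Λ.card + 1) * (B * En α φ.1)) := by
          refine mul_le_mul_of_nonneg_left ?_ hc0.le
          nlinarith [mul_nonneg hB.le hE]
      _ = γ * En α φ.1 := by rw [hc]; field_simp
  linarith

/-- summability with a quadratically bounded factor -/
theorem summable_wq {α : ℝ} (hα : 2 < α) (Λ : Finset ℤ) {γ : ℝ} (hγ : 0 < γ) (q : M Λ → ℝ)
    (A : ℝ) (hq : ∀ φ : M Λ, |q φ| ≤ A * (1 + En α φ.1)) :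
    Summable fun φ : M Λ => Real.exp (-γ * En α φ.1) * q φ := by
  have h1 := summable_w hα Λ (half_pos hγ)
  refine Summable.of_norm_bounded (h1.mul_left (|A| * (1 + 2 / γ))) fun φ => ?_
  have hE := En_nonneg α φ.1
  rw [norm_mul, Real.norm_eq_abs, Real.norm_eq_abs, abs_of_pos (Real.exp_pos _)]
  have h2 : Real.exp (-γ * En α φ.1) =
      Real.exp (-(γ / 2) * En α φ.1) * Real.exp (-(γ / 2 * En α φ.1)) := by
    rw [← Real.exp_add]; ring_nf
  have h3 : (1 + En α φ.1) * Real.exp (-(γ / 2 * En α φ.1)) ≤ 1 + 2 / γ := by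
    have h4 : γ / 2 * En α φ.1 ≤ Real.exp (γ / 2 * En α φ.1) :=
      (by linarith [Real.add_one_le_exp (γ / 2 * En α φ.1)])
    have h5 : En α φ.1 * Real.exp (-(γ / 2 * En α φ.1)) ≤ 2 / γ := by
      rw [Real.exp_neg, ← div_eq_mul_inv, div_le_div_iff₀ (Real.exp_pos _) hγ]
      nlinarith
    have h6 : Real.exp (-(γ / 2 * En α φ.1)) ≤ 1 := by
      rw [Real.exp_le_one_iff]
      have := mul_nonneg (half_pos hγ).le hE
      linarith
    nlinarith
  calc Real.exp (-γ * En α φ.1) * |q φ|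
      ≤ Real.exp (-γ * En α φ.1) * (|A| * (1 + En α φ.1)) := by
        refine mul_le_mul_of_nonneg_left ((hq φ).trans ?_) (Real.exp_pos _).le
        exact mul_le_mul_of_nonneg_right (le_abs_self A) (by linarith)
    _ = |A| * ((1 + En α φ.1) * Real.exp (-(γ / 2 * En α φ.1))) *
          Real.exp (-(γ / 2) * En α φ.1) := by rw [h2]; ring
    _ ≤ |A| * (1 + 2 / γ) * Real.exp (-(γ / 2) * En α φ.1) := by
        refine mul_le_mul_of_nonneg_right ?_ (Real.exp_pos _).le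
        exact mul_le_mul_of_nonneg_left h3 (abs_nonneg _)

end Pool.Agent.N942.Chain
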