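import Pool.Agent.N942.ChainA

set_option autoImplicit false
set_option maxHeartbeats 4000000

open Finset

namespace Pool.Agent.N942.Chain

/-- Boltzmann weight -/
noncomputable def W (α β : ℝ) (φ : ℤ → ℤ) : ℝ := Real.exp (-β * En α φ)

theorem W_pos (α β : ℝ) (φ : ℤ → ℤ) : 0 < W α β φ := Real.exp_pos _

theorem summable_W {α β : ℝ} (hα : 2 < α) (hβ : 0 < β) (Λ : Finset ℤ) :
    Summable fun φ : M Λ => W α β φ.1 := summable_w hα Λ hβ

theorem summable_Wsq {α β : ℝ} (hα : 2 < α) (hβ : 0 < β) (Λ : Finset ℤ) (x : ℤ) :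
    Summable fun φ : M Λ => W α β φ.1 * ((φ.1 x : ℤ) : ℝ) ^ 2 := by
  obtain ⟨B, hB, hco⟩ := exists_coord hα Λ
  refine summable_wq hα Λ hβ _ B fun φ => ?_
  rw [abs_of_nonneg (sq_nonneg _)]
  have := hco _ φ.2 x
  linarith

/-- the key positivity: `∑ f (u + v) f (u - v) ≥ 0` -/
theorem sum_nonneg_key (Λ : Finset ℤ) (f : M Λ → ℝ) (hf : Summable f) :
    (Summable fun p : M Λ × M Λ => f (p.1 + p.2) * f (p.1 - p.2)) ∧
    0 ≤ ∑' p : M Λ × M Λ, f (p.1 + p.2) * f (p.1 - p.2) := by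
  classical
  let q : M Λ → (Λ → ZMod 2) := fun s i => ((s.1 i : ℤ) : ZMod 2)
  let g : M Λ × M Λ → M Λ × M Λ := fun p => (p.1 + p.2, p.1 - p.2)
  let F : M Λ × M Λ → ℝ := fun p => if q p.1 = q p.2 then f p.1 * f p.2 else 0
  have hginj : Function.Injective g := by
    rintro ⟨u, v⟩ ⟨u', v'⟩ h
    have h1 : u + v = u' + v' := congrArg Prod.fst h
    have h2 : u - v = u' - v' := congrArg Prod.snd h
    have h3 : ∀ x, u.1 x = u'.1 x := by
      intro x
      have e1 := congrFun (congrArg Subtype.val h1) x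
      have e2 := congrFun (congrArg Subtype.val h2) x
      simp only [AddSubgroup.coe_add, AddSubgroup.coe_sub, Pi.add_apply, Pi.sub_apply] at e1 e2
      omega
    have h4 : u = u' := Subtype.ext (funext h3)
    subst h4
    have h5 : v = v' := add_left_cancel h1
    rw [h5]
  have hFg : ∀ p, F (g p) = f (p.1 + p.2) * f (p.1 - p.2) := by
    intro p
    show (if q (p.1 + p.2) = q (p.1 - p.2) then _ else _) = _
    rw [if_pos]
    funext i
    show (((p.1 + p.2 : M Λ).1 i : ℤ) : ZMod 2) = (((p.1 - p.2 : M Λ).1 i : ℤ) : ZMod 2)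
    rw [ZMod.intCast_eq_intCast_iff]
    simp only [AddSubgroup.coe_add, AddSubgroup.coe_sub, Pi.add_apply, Pi.sub_apply]
    refine (Int.modEq_iff_dvd).2 ?_
    refine ⟨-(p.2.1 i), ?_⟩
    push_cast
    ring
  have hsupp : Function.support F ⊆ Set.range g := by
    intro p hp
    have hq : q p.1 = q p.2 := by
      by_contra hne
      exact hp (if_neg hne)
    have hex : ∀ x : ℤ, ∃ v : ℤ, p.1.1 x = p.2.1 x + 2 * v := by
      intro x
      by_cases hx : x ∈ Λ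
      · have h1 := congrFun hq ⟨x, hx⟩
        have h2 : ((p.1.1 x : ℤ) : ZMod 2) = ((p.2.1 x : ℤ) : ZMod 2) := h1
        rw [ZMod.intCast_eq_intCast_iff, Int.modEq_iff_dvd] at h2
        obtain ⟨k, hk⟩ := h2
        exact ⟨-k, by push_cast at hk; linarith⟩
      · exact ⟨0, by rw [p.1.2 x hx, p.2.2 x hx]; rfl⟩
    choose v hv using hex
    have hvM : v ∈ M Λ := by
      intro x hx
      have h1 := hv x
      rw [p.1.2 x hx, p.2.2 x hx] at h1
      omega
    refine ⟨(p.2 + ⟨v, hvM⟩, ⟨v, hvM⟩), ?_⟩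
    refine Prod.ext ?_ ?_
    · apply Subtype.ext
      funext x
      show p.2.1 x + v x + v x = p.1.1 x
      rw [hv x]; ring
    · show p.2 + ⟨v, hvM⟩ - ⟨v, hvM⟩ = p.2
      rw [add_sub_cancel_right]
  have hfn : Summable fun s => ‖f s‖ := hf.norm
  let a : (Λ → ZMod 2) → M Λ → ℝ := fun κ s => if q s = κ then f s else 0
  have ha : ∀ κ, Summable fun s => ‖a κ s‖ := by
    intro κ
    refine Summable.of_nonneg_of_le (fun _ => norm_nonneg _) (fun s => ?_) hfn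
    show ‖if q s = κ then f s else 0‖ ≤ _
    split_ifs
    · exact le_rfl
    · rw [norm_zero]; exact norm_nonneg _
  have hF : ∀ p, F p = ∑ κ : Λ → ZMod 2, a κ p.1 * a κ p.2 := by
    intro p
    show (if q p.1 = q p.2 then f p.1 * f p.2 else 0) =
      ∑ κ : Λ → ZMod 2, (if q p.1 = κ then f p.1 else 0) * (if q p.2 = κ then f p.2 else 0)
    rw [Finset.sum_eq_single (q p.1)]
    · rw [if_pos rfl]
      split_ifs with h1 h2 h2
      · rfl
      · exact absurd h1.symm h2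
      · exact absurd h2.symm h1
      · rw [mul_zero]
    · intro κ _ hκ
      rw [if_neg (Ne.symm hκ), zero_mul]
    · intro h; exact absurd (Finset.mem_univ _) h
  have hprod : ∀ κ, Summable fun p : M Λ × M Λ => a κ p.1 * a κ p.2 := fun κ =>
    summable_mul_of_summable_norm (ha κ) (ha κ)
  have hFs : Summable F := by
    have : F = fun p => ∑ κ : Λ → ZMod 2, a κ p.1 * a κ p.2 := funext hF
    rw [this]
    exact summable_sum fun κ _ => hprod κ
  constructor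
  · have := hFs.comp_injective hginj
    exact this.congr fun p => hFg p
  · have h1 : ∑' p : M Λ × M Λ, f (p.1 + p.2) * f (p.1 - p.2) = ∑' p, F p := by
      rw [← hginj.tsum_eq hsupp]
      exact tsum_congr fun p => (hFg p).symm
    have h2 : ∑' p, F p = ∑ κ : Λ → ZMod 2, (∑' s, a κ s) * (∑' s, a κ s) := by
      rw [tsum_congr hF, Summable.tsum_finsetSum fun κ _ => hprod κ]
      refine Finset.sum_congr rfl fun κ _ => ?_
      rw [tsum_mul_tsum_of_summable_norm (ha κ) (ha κ)]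
    rw [h1, h2]
    exact Finset.sum_nonneg fun κ _ => mul_self_nonneg _

/-- the pointwise identity behind `bc_ineq` -/
theorem pt {α β : ℝ} (hα : 2 < α) {Λ' : Finset ℤ} {a v : ℤ → ℤ} (ha : a ∈ M Λ')
    (hv : v ∈ M Λ') (x : ℤ) :
    (W α (β / 2) (a + v) * (((a + v) x : ℤ) : ℝ)) * (W α (β / 2) (a - v) * (((a - v) x : ℤ) : ℝ)) =
      W α β a * ((a x : ℤ) : ℝ) ^ 2 * W α β v - W α β a * (W α β v * ((v x : ℤ) : ℝ) ^ 2) := by
  have hpar := En_par hα ha hv
  have hW : W α (β / 2) (a + v) * W α (β / 2) (a - v) = W α β a * W α β v := by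
    unfold W
    rw [← Real.exp_add, ← Real.exp_add]
    congr 1
    linear_combination (-(β / 2)) * hpar
  have h1 : (((a + v) x : ℤ) : ℝ) = ((a x : ℤ) : ℝ) + ((v x : ℤ) : ℝ) := by
    rw [Pi.add_apply]; push_cast; ring
  have h2 : (((a - v) x : ℤ) : ℝ) = ((a x : ℤ) : ℝ) - ((v x : ℤ) : ℝ) := by
    rw [Pi.sub_apply]; push_cast; ring
  rw [h1, h2]
  generalize W α (β / 2) (a + v) = P at *
  generalize W α (β / 2) (a - v) = Q at *
  generalize W α β a = R at *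
  generalize W α β v = S at *
  generalize ((a x : ℤ) : ℝ) = y
  generalize ((v x : ℤ) : ℝ) = z
  linear_combination ((y + z) * (y - z)) * hW

theorem prod_ineq {ι : Type*} (a A b B : ι → ℝ) (ha : Summable a) (hA : Summable A)
    (hb : Summable b) (hB : Summable B) (F : ι × ι → ℝ) (hF : 0 ≤ ∑' p, F p)
    (hpt : ∀ p, F p = A p.1 * b p.2 - a p.1 * B p.2) :
    (∑' i, a i) * (∑' i, B i) ≤ (∑' i, A i) * (∑' i, b i) := by
  have h1 := summable_mul_of_summable_norm hA.norm hb.norm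
  have h2 := summable_mul_of_summable_norm ha.norm hB.norm
  have h3 := tsum_mul_tsum_of_summable_norm hA.norm hb.norm
  have h4 := tsum_mul_tsum_of_summable_norm ha.norm hB.norm
  have h5 := h1.tsum_sub h2
  have h6 : ∑' p, F p = ∑' p : ι × ι, (A p.1 * b p.2 - a p.1 * B p.2) := tsum_congr hpt
  rw [h3, h4, ← sub_nonneg, ← h5, ← h6]
  exact hF

/-- the second moment with a boundary condition dominates the one with zero boundary condition -/
theorem bc_ineq {α β : ℝ} (hα : 2 < α) (hβ : 0 < β) {Λ Λ' : Finset ℤ} (hΛ : Λ ⊆ Λ') (c : M Λ')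
    (x : ℤ) :
    (∑' u : M Λ, W α β (c.1 + u.1)) * (∑' v : M Λ, W α β v.1 * ((v.1 x : ℤ) : ℝ) ^ 2) ≤
    (∑' u : M Λ, W α β (c.1 + u.1) * (((c.1 + u.1) x : ℤ) : ℝ) ^ 2) * (∑' v : M Λ, W α β v.1) := by
  have hβ2 : 0 < β / 2 := half_pos hβ
  let ι : M Λ → M Λ' := fun u => ⟨c.1 + u.1, (M Λ').add_mem c.2 (M_mono hΛ u.2)⟩
  have hι : Function.Injective ι := by
    intro u v h
    have h1 : c.1 + u.1 = c.1 + v.1 := congrArg Subtype.val h
    exact Subtype.ext (add_left_cancel h1)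
  obtain ⟨B, hB, hco⟩ := exists_coord hα Λ'
  have hf : Summable fun s : M Λ => W α (β / 2) (c.1 + s.1) * (((c.1 + s.1) x : ℤ) : ℝ) := by
    have h1 : Summable fun φ : M Λ' => W α (β / 2) φ.1 * ((φ.1 x : ℤ) : ℝ) := by
      refine summable_wq hα Λ' hβ2 _ (1 + B) fun φ => ?_
      have h1 := hco _ φ.2 x
      have hE := En_nonneg α φ.1
      have h2 : |((φ.1 x : ℤ) : ℝ)| ≤ 1 + ((φ.1 x : ℤ) : ℝ) ^ 2 := by
        rw [← sq_abs]
        nlinarith [sq_nonneg (|((φ.1 x : ℤ) : ℝ)| - 1), abs_nonneg ((φ.1 x : ℤ) : ℝ)]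
      nlinarith
    exact (h1.comp_injective hι).congr fun s => rfl
  obtain ⟨hs, hnn⟩ := sum_nonneg_key Λ _ hf
  have e1 : Summable fun u : M Λ => W α β (c.1 + u.1) :=
    ((summable_W hα hβ Λ').comp_injective hι).congr fun s => rfl
  have e2 : Summable fun u : M Λ => W α β (c.1 + u.1) * (((c.1 + u.1) x : ℤ) : ℝ) ^ 2 :=
    ((summable_Wsq hα hβ Λ' x).comp_injective hι).congr fun s => rfl
  have e3 := summable_W hα hβ Λ
  have e4 := summable_Wsq hα hβ Λ x
  refine prod_ineq _ _ _ _ e1 e2 e3 e4 _ hnn fun p => ?_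
  have hA : c.1 + (p.1 + p.2 : M Λ).1 = c.1 + p.1.1 + p.2.1 := by
    rw [AddSubgroup.coe_add, add_assoc]
  have hS : c.1 + (p.1 - p.2 : M Λ).1 = c.1 + p.1.1 - p.2.1 := by
    rw [AddSubgroup.coe_sub, add_sub_assoc]

  rw [hA, hS]
  exact pt hα ((M Λ').add_mem c.2 (M_mono hΛ p.1.2)) (M_mono hΛ p.2.2) x

/-- splitting a configuration -/
def split {Λ Λ' : Finset ℤ} (hΛ : Λ ⊆ Λ') : M (Λ' \ Λ) × M Λ ≃ M Λ' where
  toFun p := ⟨p.1.1 + p.2.1, (M Λ').add_mem (M_mono Finset.sdiff_subset p.1.2) (M_mono hΛ p.2.2)⟩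
  invFun φ := (⟨fun x => if x ∈ Λ' \ Λ then φ.1 x else 0, fun x hx => if_neg hx⟩,
    ⟨fun x => if x ∈ Λ then φ.1 x else 0, fun x hx => if_neg hx⟩)
  left_inv p := by
    refine Prod.ext (Subtype.ext (funext fun x => ?_)) (Subtype.ext (funext fun x => ?_))
    · show (if x ∈ Λ' \ Λ then p.1.1 x + p.2.1 x else 0) = p.1.1 x
      split_ifs with h
      · rw [p.2.2 x (Finset.mem_sdiff.1 h).2, add_zero]
      · rw [p.1.2 x h]
    · show (if x ∈ Λ then p.1.1 x + p.2.1 x else 0) = p.2.1 x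
      split_ifs with h
      · rw [p.1.2 x (fun h' => (Finset.mem_sdiff.1 h').2 h), zero_add]
      · rw [p.2.2 x h]
  right_inv φ := by
    refine Subtype.ext (funext fun x => ?_)
    show (if x ∈ Λ' \ Λ then φ.1 x else 0) + (if x ∈ Λ then φ.1 x else 0) = φ.1 x
    by_cases h : x ∈ Λ
    · rw [if_neg (fun h' => (Finset.mem_sdiff.1 h').2 h), if_pos h, zero_add]
    · rw [if_neg h, add_zero]
      split_ifs with h'
      · rfl
      · rw [φ.2 x (fun h'' => h' (Finset.mem_sdiff.2 ⟨h'', h⟩))]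

/-- monotonicity of the second moments in the volume -/
theorem mono {α β : ℝ} (hα : 2 < α) (hβ : 0 < β) {Λ Λ' : Finset ℤ} (hΛ : Λ ⊆ Λ') (x : ℤ) :
    (∑' φ : M Λ', W α β φ.1) * (∑' v : M Λ, W α β v.1 * ((v.1 x : ℤ) : ℝ) ^ 2) ≤
    (∑' φ : M Λ', W α β φ.1 * ((φ.1 x : ℤ) : ℝ) ^ 2) * (∑' v : M Λ, W α β v.1) := by
  have e1 := summable_W hα hβ Λ'
  have e2 := summable_Wsq hα hβ Λ' x
  have f1 : Summable fun p : M (Λ' \ Λ) × M Λ => W α β (p.1.1 + p.2.1) :=
    ((split hΛ).summable_iff (f := fun φ : M Λ' => W α β φ.1)).2 e1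
  have f2 : Summable fun p : M (Λ' \ Λ) × M Λ =>
      W α β (p.1.1 + p.2.1) * (((p.1.1 + p.2.1) x : ℤ) : ℝ) ^ 2 :=
    ((split hΛ).summable_iff (f := fun φ : M Λ' => W α β φ.1 * ((φ.1 x : ℤ) : ℝ) ^ 2)).2 e2
  have g1 : ∑' φ : M Λ', W α β φ.1 = ∑' c : M (Λ' \ Λ), ∑' u : M Λ, W α β (c.1 + u.1) := by
    rw [← (split hΛ).tsum_eq]
    exact f1.tsum_prod
  have g2 : ∑' φ : M Λ', W α β φ.1 * ((φ.1 x : ℤ) : ℝ) ^ 2 =
      ∑' c : M (Λ' \ Λ), ∑' u : M Λ, W α β (c.1 + u.1) * (((c.1 + u.1) x : ℤ) : ℝ) ^ 2 := by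
    rw [← (split hΛ).tsum_eq]
    exact f2.tsum_prod
  rw [g1, g2, ← tsum_mul_right, ← tsum_mul_right]
  refine Summable.tsum_le_tsum (fun c => ?_) (f1.prod.mul_right _) (f2.prod.mul_right _)
  exact bc_ineq hα hβ hΛ ⟨c.1, M_mono Finset.sdiff_subset c.2⟩ x

end Pool.Agent.N942.Chain
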