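import Pool.Agent.N942.ChainB

set_option autoImplicit false
set_option maxHeartbeats 1000000

open Finset

namespace Pool.Agent.N942.Chain

theorem W_avg {α β : ℝ} (hα : 2 < α) (hβ : 0 < β) {Λ : Finset ℤ} {φ δ : ℤ → ℤ} (hφ : φ ∈ M Λ)
    (hδ : δ ∈ M Λ) {C : ℝ} (hC : En α δ ≤ C) :
    W α β φ ≤ Real.exp (β * C) / 2 * (W α β (φ + δ) + W α β (φ - δ)) := by
  have hpar := En_par hα hφ hδ
  have h1 : W α β (φ + δ) * W α β (φ - δ) = (W α β φ * Real.exp (-(β * En α δ))) ^ 2 := by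
    unfold W
    rw [← Real.exp_add, ← Real.exp_add, ← Real.exp_nat_mul]
    congr 1
    push_cast
    linear_combination (-β) * hpar
  have h2 : Real.exp (-(β * C)) ≤ Real.exp (-(β * En α δ)) := by
    rw [Real.exp_le_exp]
    have := mul_le_mul_of_nonneg_left hC hβ.le
    linarith
  have h3 : W α β φ * Real.exp (-(β * C)) ≤ (W α β (φ + δ) + W α β (φ - δ)) / 2 := by
    have h4 : W α β φ * Real.exp (-(β * C)) ≤ W α β φ * Real.exp (-(β * En α δ)) :=
      mul_le_mul_of_nonneg_left h2 (W_pos _ _ _).le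
    refine h4.trans ?_
    have p1 := W_pos α β (φ + δ)
    have p2 := W_pos α β (φ - δ)
    have p3 : 0 ≤ W α β φ * Real.exp (-(β * En α δ)) :=
      mul_nonneg (W_pos _ _ _).le (Real.exp_pos _).le
    refine le_of_sq_le_sq ?_ (by linarith)
    rw [← h1]
    nlinarith [sq_nonneg (W α β (φ + δ) - W α β (φ - δ))]
  have h5 : W α β φ = Real.exp (β * C) * (W α β φ * Real.exp (-(β * C))) := by
    rw [Real.exp_neg]
    field_simp
  rw [h5]
  have := mul_le_mul_of_nonneg_left h3 (Real.exp_pos (β * C)).le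
  linarith

/-- a functional which increases by one under a shift of bounded energy has second moment
bounded below -/
theorem lemmaA {α β : ℝ} (hα : 2 < α) (hβ : 0 < β) {Λ : Finset ℤ} (δ : M Λ) {C : ℝ}
    (hC : En α δ.1 ≤ C) (h : M Λ → ℝ) (hh : ∀ φ, h (φ + δ) = h φ + 1)
    (hs : Summable fun φ : M Λ => W α β φ.1 * h φ ^ 2) :
    ∑' φ : M Λ, W α β φ.1 ≤ (4 + 2 * Real.exp (β * C)) * ∑' φ : M Λ, W α β φ.1 * h φ ^ 2 := by
  classical
  let s : M Λ → ℝ := fun φ => if |h φ| < 1 / 2 then 1 else 0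
  have hs01 : ∀ φ, 0 ≤ s φ ∧ s φ ≤ 1 := by
    intro φ
    show 0 ≤ (if |h φ| < 1 / 2 then (1 : ℝ) else 0) ∧ (if |h φ| < 1 / 2 then (1 : ℝ) else 0) ≤ 1
    split_ifs <;> norm_num
  have hh' : ∀ φ, h (φ - δ) = h φ - 1 := by
    intro φ
    have := hh (φ - δ)
    rw [sub_add_cancel] at this
    linarith
  have hb1 : ∀ φ, 1 - s φ ≤ 4 * h φ ^ 2 := by
    intro φ
    show 1 - (if |h φ| < 1 / 2 then (1 : ℝ) else 0) ≤ _
    split_ifs with h1
    · nlinarith [sq_nonneg (h φ)]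
    · rw [not_lt] at h1
      have := sq_abs (h φ)
      nlinarith [abs_nonneg (h φ)]
  have hb2 : ∀ φ, s (φ - δ) + s (φ + δ) ≤ 4 * h φ ^ 2 := by
    intro φ
    show (if |h (φ - δ)| < 1 / 2 then (1 : ℝ) else 0) + (if |h (φ + δ)| < 1 / 2 then (1 : ℝ) else 0)
      ≤ _
    rw [hh, hh']
    split_ifs with h1 h2 h2
    · exfalso
      rw [abs_lt] at h1 h2
      linarith [h1.1, h2.2]
    · rw [abs_lt] at h1
      nlinarith [h1.1]
    · rw [abs_lt] at h2
      nlinarith [h2.2]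
    · nlinarith [sq_nonneg (h φ)]
  have hW := summable_W hα hβ Λ
  have hWs : ∀ t : M Λ → ℝ, (∀ φ, 0 ≤ t φ ∧ t φ ≤ 1) → Summable fun φ : M Λ => W α β φ.1 * t φ := by
    intro t ht
    refine Summable.of_nonneg_of_le (fun φ => mul_nonneg (W_pos _ _ _).le (ht φ).1) (fun φ => ?_) hW
    have := mul_le_mul_of_nonneg_left (ht φ).2 (W_pos α β φ.1).le
    rwa [mul_one] at this
  set E := Real.exp (β * C) with hE
  have hE0 : 0 < E := Real.exp_pos _
  have A1 : Summable fun φ : M Λ => W α β φ.1 * s (φ - δ) := hWs _ fun φ => hs01 _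
  have A2 : Summable fun φ : M Λ => W α β φ.1 * s (φ + δ) := hWs _ fun φ => hs01 _
  have B1 : Summable fun φ : M Λ => W α β (φ + δ).1 * s φ := by
    have := (Equiv.addRight δ).summable_iff.2 A1
    refine this.congr fun φ => ?_
    show W α β (φ + δ).1 * s (φ + δ - δ) = _
    rw [add_sub_cancel_right]
  have B2 : Summable fun φ : M Λ => W α β (φ - δ).1 * s φ := by
    have := (Equiv.subRight δ).summable_iff.2 A2
    refine this.congr fun φ => ?_
    show W α β (φ - δ).1 * s (φ - δ + δ) = _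
    rw [sub_add_cancel]
  have T1 : ∑' φ : M Λ, W α β (φ + δ).1 * s φ = ∑' φ : M Λ, W α β φ.1 * s (φ - δ) := by
    rw [← (Equiv.addRight δ).tsum_eq (fun φ : M Λ => W α β φ.1 * s (φ - δ))]
    refine tsum_congr fun φ => ?_
    show _ = W α β (φ + δ).1 * s (φ + δ - δ)
    rw [add_sub_cancel_right]
  have T2 : ∑' φ : M Λ, W α β (φ - δ).1 * s φ = ∑' φ : M Λ, W α β φ.1 * s (φ + δ) := by
    rw [← (Equiv.subRight δ).tsum_eq (fun φ : M Λ => W α β φ.1 * s (φ + δ))]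
    refine tsum_congr fun φ => ?_
    show _ = W α β (φ - δ).1 * s (φ - δ + δ)
    rw [sub_add_cancel]
  have R1 : ∑' φ : M Λ, W α β φ.1 * s φ ≤
      E / 2 * (∑' φ : M Λ, W α β (φ + δ).1 * s φ + ∑' φ : M Λ, W α β (φ - δ).1 * s φ) := by
    rw [← B1.tsum_add B2, ← tsum_mul_left]
    refine Summable.tsum_le_tsum (fun φ => ?_) (hWs _ hs01) ((B1.add B2).mul_left _)
    have h1 := W_avg hα hβ φ.2 δ.2 hC (β := β)
    have h2 := mul_le_mul_of_nonneg_right h1 (hs01 φ).1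
    refine h2.trans_eq ?_
    show E / 2 * (W α β (φ + δ).1 + W α β (φ - δ).1) * s φ = _
    ring
  have R2 : ∑' φ : M Λ, W α β φ.1 * s (φ - δ) + ∑' φ : M Λ, W α β φ.1 * s (φ + δ) ≤
      4 * ∑' φ : M Λ, W α β φ.1 * h φ ^ 2 := by
    rw [← A1.tsum_add A2, ← tsum_mul_left]
    refine Summable.tsum_le_tsum (fun φ => ?_) (A1.add A2) (hs.mul_left _)
    have := mul_le_mul_of_nonneg_left (hb2 φ) (W_pos α β φ.1).le
    linarith
  have R3 : ∑' φ : M Λ, W α β φ.1 - ∑' φ : M Λ, W α β φ.1 * s φ ≤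
      4 * ∑' φ : M Λ, W α β φ.1 * h φ ^ 2 := by
    rw [← hW.tsum_sub (hWs _ hs01), ← tsum_mul_left]
    refine Summable.tsum_le_tsum (fun φ => ?_) (hW.sub (hWs _ hs01)) (hs.mul_left _)
    have := mul_le_mul_of_nonneg_left (hb1 φ) (W_pos α β φ.1).le
    linarith
  rw [T1, T2] at R1
  have R4 := mul_le_mul_of_nonneg_left R2 (by positivity : 0 ≤ E / 2)
  linarith

/-- the indicator function of an interval -/
noncomputable def ind (a : ℤ) (L : ℕ) : ℤ → ℤ := fun x => if x ∈ Finset.Ico a (a + L) then 1 else 0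

theorem ind_mem {a : ℤ} {L : ℕ} {Λ : Finset ℤ} (h : Finset.Ico a (a + L) ⊆ Λ) : ind a L ∈ M Λ := by
  intro x hx
  exact if_neg fun h' => hx (h h')

/-- the total energy constant -/
noncomputable def CC (α : ℝ) : ℝ := ∑' d : ℤ, 4 * (|(d : ℝ)| * K α d)

theorem En_ind {α : ℝ} (hα : 2 < α) (a : ℤ) (L : ℕ) : En α (ind a L) ≤ CC α := by
  have hs := summable_En hα (ind_mem (a := a) (L := L) (subset_refl _))
  have hs' := (Equiv.prodComm ℤ ℤ).summable_iff.2 hs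
  have h1 : En α (ind a L) = ∑' d : ℤ, ∑' x : ℤ,
      K α d * ((ind a L x : ℝ) - (ind a L (x + d) : ℝ)) ^ 2 := by
    unfold En
    rw [← (Equiv.prodComm ℤ ℤ).tsum_eq]
    exact hs'.tsum_prod
  rw [h1]
  refine Summable.tsum_le_tsum (fun d => ?_) hs'.prod ((summable_dK hα).mul_left 4)
  rw [tsum_mul_left]
  have hK := K_nonneg α d
  have h2 : ∑' x : ℤ, ((ind a L x : ℝ) - (ind a L (x + d) : ℝ)) ^ 2 ≤ 4 * |(d : ℝ)| := by
    set T : Finset ℤ := Finset.Ico (a - |d|) (a + |d|) ∪ Finset.Ico (a + L - |d|) (a + L + |d|)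
      with hT
    have h3 : ∀ x, x ∉ T → ((ind a L x : ℝ) - (ind a L (x + d) : ℝ)) ^ 2 = 0 := by
      intro x hx
      have h4 : ind a L x = ind a L (x + d) := by
        unfold ind
        rw [hT, Finset.mem_union, Finset.mem_Ico, Finset.mem_Ico] at hx
        simp only [Finset.mem_Ico]
        rcases abs_cases d with ⟨h5, h6⟩ | ⟨h5, h6⟩ <;> rw [h5] at hx <;>
          split_ifs <;> first | rfl | (exfalso; omega)
      rw [h4]; simp
    rw [tsum_eq_sum (s := T) fun x hx => h3 x hx]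
    have h5 : ∀ x ∈ T, ((ind a L x : ℝ) - (ind a L (x + d) : ℝ)) ^ 2 ≤ 1 := by
      intro x _
      unfold ind
      split_ifs <;> norm_num
    have h6 : (T.card : ℝ) ≤ 4 * |(d : ℝ)| := by
      have h7 : T.card ≤ (Finset.Ico (a - |d|) (a + |d|)).card +
          (Finset.Ico (a + L - |d|) (a + L + |d|)).card := Finset.card_union_le _ _
      rw [Int.card_Ico, Int.card_Ico] at h7
      have h8 : ((T.card : ℤ)) ≤ 4 * |d| := by
        have := abs_nonneg d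
        omega
      have h9 : ((T.card : ℤ) : ℝ) ≤ ((4 * |d| : ℤ) : ℝ) := by exact_mod_cast h8
      push_cast at h9
      exact h9
    calc _ ≤ ∑ x ∈ T, (1 : ℝ) := Finset.sum_le_sum h5
      _ = T.card := by rw [Finset.sum_const, nsmul_eq_mul, mul_one]
      _ ≤ _ := h6
  calc _ ≤ K α d * (4 * |(d : ℝ)|) := mul_le_mul_of_nonneg_left h2 hK
    _ = _ := by ring

/-- linear functionals are square summable -/
theorem summable_lin {α β : ℝ} (hα : 2 < α) (hβ : 0 < β) (Λ T : Finset ℤ) (a : ℤ → ℝ) :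
    Summable fun φ : M Λ => W α β φ.1 * (∑ x ∈ T, a x * ((φ.1 x : ℤ) : ℝ)) ^ 2 := by
  obtain ⟨B, hB, hco⟩ := exists_coord hα Λ
  refine summable_wq hα Λ hβ _ ((∑ x ∈ T, a x ^ 2) * (T.card * B)) fun φ => ?_
  rw [abs_of_nonneg (sq_nonneg _)]
  have h1 := Finset.sum_mul_sq_le_sq_mul_sq T a (fun x => ((φ.1 x : ℤ) : ℝ))
  have h2 : ∑ x ∈ T, ((φ.1 x : ℤ) : ℝ) ^ 2 ≤ T.card * (B * En α φ.1) := by
    calc _ ≤ ∑ x ∈ T, B * En α φ.1 := Finset.sum_le_sum fun x _ => hco _ φ.2 x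
      _ = _ := by rw [Finset.sum_const, nsmul_eq_mul]
  have h3 : 0 ≤ ∑ x ∈ T, a x ^ 2 := Finset.sum_nonneg fun _ _ => sq_nonneg _
  have hE := En_nonneg α φ.1
  have h4 : (0 : ℝ) ≤ T.card * B := by positivity
  calc _ ≤ _ := h1
    _ ≤ (∑ x ∈ T, a x ^ 2) * (T.card * (B * En α φ.1)) := mul_le_mul_of_nonneg_left h2 h3
    _ ≤ (∑ x ∈ T, a x ^ 2) * (T.card * B) * (1 + En α φ.1) := by
        nlinarith [mul_nonneg h3 h4]

/-- block sums -/
noncomputable def G (a : ℤ) (L : ℕ) (φ : ℤ → ℤ) : ℝ := ∑ x ∈ Finset.Ico a (a + L), ((φ x : ℤ) : ℝ)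

theorem G_split (a : ℤ) (L : ℕ) (φ : ℤ → ℤ) : G a (L + L) φ = G a L φ + G (a + L) L φ := by
  unfold G
  rw [← Finset.sum_union]
  · congr 1
    ext x
    simp only [Finset.mem_union, Finset.mem_Ico]
    push_cast
    omega
  · rw [Finset.disjoint_left]
    intro x h1 h2
    rw [Finset.mem_Ico] at h1 h2
    omega

theorem G_add_ind_self (a : ℤ) (L : ℕ) (φ : ℤ → ℤ) : G a L (φ + ind a L) = G a L φ + L := by
  unfold G
  have : ∀ x ∈ Finset.Ico a (a + L), (((φ + ind a L) x : ℤ) : ℝ) = ((φ x : ℤ) : ℝ) + 1 := by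
    intro x hx
    rw [Pi.add_apply, ind, if_pos hx]
    push_cast
    ring
  rw [Finset.sum_congr rfl this, Finset.sum_add_distrib]
  simp

theorem G_add_ind_other (a : ℤ) (L : ℕ) (φ : ℤ → ℤ) : G (a + L) L (φ + ind a L) = G (a + L) L φ := by
  unfold G
  refine Finset.sum_congr rfl fun x hx => ?_
  rw [Pi.add_apply, ind, if_neg, add_zero]
  rw [Finset.mem_Ico] at hx ⊢
  omega

theorem summable_G {α β : ℝ} (hα : 2 < α) (hβ : 0 < β) (Λ : Finset ℤ) (a : ℤ) (L : ℕ) :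
    Summable fun φ : M Λ => W α β φ.1 * G a L φ.1 ^ 2 := by
  refine (summable_lin hα hβ Λ (Finset.Ico a (a + L)) (fun _ => 1)).congr fun φ => ?_
  unfold G
  simp only [one_mul]

/-- the dyadic induction -/
theorem dyadic {α β : ℝ} (hα : 2 < α) (hβ : 0 < β) (Λ : Finset ℤ) (j : ℕ) :
    ∀ a : ℤ, Finset.Ico a (a + (2 ^ j : ℕ)) ⊆ Λ →
      (∑' φ : M Λ, W α β φ.1 * G a (2 ^ j) φ.1 ^ 2) +
        4 ^ j * (j / (4 * (4 + 2 * Real.exp (β * CC α)))) * ∑' φ : M Λ, W α β φ.1 ≤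
      2 ^ j * ∑ x ∈ Finset.Ico a (a + (2 ^ j : ℕ)),
        ∑' φ : M Λ, W α β φ.1 * ((φ.1 x : ℤ) : ℝ) ^ 2 := by
  induction j with
  | zero =>
    intro a _
    have h1 : Finset.Ico a (a + ((2 ^ 0 : ℕ) : ℤ)) = {a} := by
      ext x
      simp only [Finset.mem_Ico, Finset.mem_singleton]
      push_cast
      omega
    simp only [G, h1, Finset.sum_singleton]
    simp
  | succ j ih =>
    intro a hsub
    set L : ℕ := 2 ^ j with hL
    have hL2 : 2 ^ (j + 1) = L + L := by rw [hL, pow_succ]; ring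
    rw [hL2] at hsub ⊢
    have hsub1 : Finset.Ico a (a + L) ⊆ Λ := by
      refine subset_trans (fun x hx => ?_) hsub
      rw [Finset.mem_Ico] at hx ⊢
      push_cast
      omega
    have hsub2 : Finset.Ico (a + L) (a + L + L) ⊆ Λ := by
      refine subset_trans (fun x hx => ?_) hsub
      rw [Finset.mem_Ico] at hx ⊢
      push_cast
      omega
    have i1 := ih a hsub1
    have i2 := ih (a + L) hsub2
    set κ : ℝ := 4 + 2 * Real.exp (β * CC α) with hκ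
    have hκ0 : 0 < κ := by positivity
    have hLr : (0 : ℝ) < L := by rw [hL]; positivity
    -- Lemma A
    have s1 := summable_G hα hβ Λ a L
    have s2 := summable_G hα hβ Λ (a + L) L
    have s12 : Summable fun φ : M Λ => W α β φ.1 * (G a L φ.1 + G (a + L) L φ.1) ^ 2 := by
      refine (summable_G hα hβ Λ a (L + L)).congr fun φ => ?_
      rw [G_split]
    have sd : Summable fun φ : M Λ => W α β φ.1 * (G a L φ.1 - G (a + L) L φ.1) ^ 2 := by
      refine (((s1.mul_left 2).add (s2.mul_left 2)).sub s12).congr fun φ => ?_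
      ring
    have hA : ∑' φ : M Λ, W α β φ.1 ≤ κ * ∑' φ : M Λ,
        W α β φ.1 * ((G a L φ.1 - G (a + L) L φ.1) / L) ^ 2 := by
      refine lemmaA hα hβ ⟨ind a L, ind_mem hsub1⟩ (En_ind hα a L)
        (fun φ : M Λ => (G a L φ.1 - G (a + L) L φ.1) / L) (fun φ => ?_) ?_
      · show (G a L (φ.1 + ind a L) - G (a + L) L (φ.1 + ind a L)) / L = _
        rw [G_add_ind_self, G_add_ind_other]
        field_simp
        ring
      · refine (sd.mul_right ((L : ℝ) ^ 2)⁻¹).congr fun φ => ?_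
        field_simp
    have hA' : (L : ℝ) ^ 2 * ∑' φ : M Λ, W α β φ.1 ≤ κ * ∑' φ : M Λ,
        W α β φ.1 * (G a L φ.1 - G (a + L) L φ.1) ^ 2 := by
      have e1 : ∑' φ : M Λ, W α β φ.1 * ((G a L φ.1 - G (a + L) L φ.1) / L) ^ 2 =
          ((L : ℝ) ^ 2)⁻¹ * ∑' φ : M Λ, W α β φ.1 * (G a L φ.1 - G (a + L) L φ.1) ^ 2 := by
        rw [← tsum_mul_left]
        refine tsum_congr fun φ => ?_
        field_simp
      rw [e1] at hA
      have := mul_le_mul_of_nonneg_left hA (sq_nonneg (L : ℝ))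
      refine this.trans_eq ?_
      field_simp
    have hid : (∑' φ : M Λ, W α β φ.1 * (G a L φ.1 + G (a + L) L φ.1) ^ 2) +
        (∑' φ : M Λ, W α β φ.1 * (G a L φ.1 - G (a + L) L φ.1) ^ 2) =
        2 * (∑' φ : M Λ, W α β φ.1 * G a L φ.1 ^ 2) +
        2 * (∑' φ : M Λ, W α β φ.1 * G (a + L) L φ.1 ^ 2) := by
      rw [← s12.tsum_add sd, ← tsum_mul_left, ← tsum_mul_left,
        ← (s1.mul_left 2).tsum_add (s2.mul_left 2)]
      exact tsum_congr fun φ => by ring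
    have hG : ∑' φ : M Λ, W α β φ.1 * G a (L + L) φ.1 ^ 2 =
        ∑' φ : M Λ, W α β φ.1 * (G a L φ.1 + G (a + L) L φ.1) ^ 2 :=
      tsum_congr fun φ => by rw [G_split]
    have hsum : ∑ x ∈ Finset.Ico a (a + ((L + L : ℕ) : ℤ)),
        ∑' φ : M Λ, W α β φ.1 * ((φ.1 x : ℤ) : ℝ) ^ 2 =
        ∑ x ∈ Finset.Ico a (a + L), ∑' φ : M Λ, W α β φ.1 * ((φ.1 x : ℤ) : ℝ) ^ 2 +
        ∑ x ∈ Finset.Ico (a + L) (a + L + L), ∑' φ : M Λ, W α β φ.1 * ((φ.1 x : ℤ) : ℝ) ^ 2 := by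
      rw [← Finset.sum_union]
      · congr 1
        ext x
        simp only [Finset.mem_union, Finset.mem_Ico]
        push_cast
        omega
      · rw [Finset.disjoint_left]
        intro x h1 h2
        rw [Finset.mem_Ico] at h1 h2
        omega
    rw [hG, hsum]
    have h4 : (4 : ℝ) ^ j = (L : ℝ) ^ 2 := by
      rw [hL]; push_cast; rw [← pow_mul, mul_comm, pow_mul]; norm_num
    have h2 : (2 : ℝ) ^ j = L := by rw [hL]; push_cast; rfl
    rw [pow_succ, pow_succ, h4, h2]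
    rw [h4, h2] at i1 i2
    set Z := ∑' φ : M Λ, W α β φ.1
    set D := ∑' φ : M Λ, W α β φ.1 * (G a L φ.1 - G (a + L) L φ.1) ^ 2
    have hD : (L : ℝ) ^ 2 * Z / κ ≤ D := by
      rw [div_le_iff₀ hκ0]; linarith
    have e3 : (L : ℝ) ^ 2 * 4 * (((j + 1 : ℕ) : ℝ) / (4 * κ)) * Z =
        4 * ((L : ℝ) ^ 2 * ((j : ℝ) / (4 * κ)) * Z) + (L : ℝ) ^ 2 * Z / κ := by
      push_cast
      field_simp
    rw [e3]
    linarith

/-- translation of configurations -/
noncomputable def trans (z : ℤ) (N : ℕ) : M (Finset.Icc (-(N : ℤ)) N) ≃ M (Finset.Icc (z - N) (z + N)) where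
  toFun φ := ⟨fun x => φ.1 (x - z), fun x hx => φ.2 _ fun h => hx (by
    rw [Finset.mem_Icc] at h ⊢; omega)⟩
  invFun φ := ⟨fun x => φ.1 (x + z), fun x hx => φ.2 _ fun h => hx (by
    rw [Finset.mem_Icc] at h ⊢; omega)⟩
  left_inv φ := by
    apply Subtype.ext; funext x
    show φ.1 (x + z - z) = φ.1 x
    rw [add_sub_cancel_right]
  right_inv φ := by
    apply Subtype.ext; funext x
    show φ.1 (x - z + z) = φ.1 x
    rw [sub_add_cancel]

/-- **Delocalisation, quantitative form.** -/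
theorem lower {α β : ℝ} (hα : 2 < α) (hβ : 0 < β) (j N : ℕ) (hN : 2 ^ j ≤ N) :
    (j : ℝ) / (4 * (4 + 2 * Real.exp (β * CC α))) ≤
      (∑' φ : M (Finset.Icc (-(N : ℤ)) N), W α β φ.1 * ((φ.1 0 : ℤ) : ℝ) ^ 2) /
      (∑' φ : M (Finset.Icc (-(N : ℤ)) N), W α β φ.1) := by
  set κ : ℝ := 4 + 2 * Real.exp (β * CC α) with hκ
  have hκ0 : 0 < κ := by positivity
  have hZpos : ∀ Λ : Finset ℤ, 0 < ∑' φ : M Λ, W α β φ.1 := by
    intro Λ
    exact (summable_W hα hβ Λ).tsum_pos (fun _ => (W_pos _ _ _).le) 0 (W_pos _ _ _)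
  set Λ : Finset ℤ := Finset.Ico 0 (0 + (2 ^ j : ℕ)) with hΛ
  have h1 := dyadic hα hβ Λ j 0 (subset_refl _)
  have hG : 0 ≤ ∑' φ : M Λ, W α β φ.1 * G 0 (2 ^ j) φ.1 ^ 2 :=
    tsum_nonneg fun φ => mul_nonneg (W_pos _ _ _).le (sq_nonneg _)
  obtain ⟨x, hx, hx'⟩ : ∃ x ∈ Λ, (j : ℝ) / (4 * κ) * ∑' φ : M Λ, W α β φ.1 ≤
      ∑' φ : M Λ, W α β φ.1 * ((φ.1 x : ℤ) : ℝ) ^ 2 := by
    refine Finset.exists_le_of_sum_le ⟨0, ?_⟩ ?_
    · rw [hΛ, Finset.mem_Ico]
      constructor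
      · exact le_rfl
      · have : (0 : ℤ) < ((2 ^ j : ℕ) : ℤ) := by positivity
        omega
    · rw [Finset.sum_const, hΛ, Int.card_Ico, nsmul_eq_mul]
      have h2 : ((0 + ((2 ^ j : ℕ) : ℤ) - 0).toNat : ℝ) = 2 ^ j := by
        rw [zero_add, sub_zero, Int.toNat_natCast]; push_cast; rfl
      rw [h2]
      have h3 : (4 : ℝ) ^ j = 2 ^ j * 2 ^ j := by rw [← mul_pow]; norm_num
      rw [h3] at h1
      have h4 : (0 : ℝ) < 2 ^ j := by positivity
      refine le_of_mul_le_mul_left ?_ h4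
      linarith
  have hsub : Λ ⊆ Finset.Icc (x - N) (x + N) := by
    intro y hy
    rw [hΛ, Finset.mem_Ico] at hx hy
    rw [Finset.mem_Icc]
    have : ((2 ^ j : ℕ) : ℤ) ≤ N := by exact_mod_cast hN
    omega
  have h5 := mono hα hβ hsub x
  have h6 : ∑' φ : M (Finset.Icc (x - N) (x + N)), W α β φ.1 =
      ∑' φ : M (Finset.Icc (-(N : ℤ)) N), W α β φ.1 := by
    rw [← (trans x N).tsum_eq]
    refine tsum_congr fun φ => ?_
    show Real.exp (-β * En α (fun y => φ.1 (y - x))) = Real.exp (-β * En α φ.1)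
    rw [En_shift]
  have h7 : ∑' φ : M (Finset.Icc (x - N) (x + N)), W α β φ.1 * ((φ.1 x : ℤ) : ℝ) ^ 2 =
      ∑' φ : M (Finset.Icc (-(N : ℤ)) N), W α β φ.1 * ((φ.1 0 : ℤ) : ℝ) ^ 2 := by
    rw [← (trans x N).tsum_eq]
    refine tsum_congr fun φ => ?_
    show Real.exp (-β * En α (fun y => φ.1 (y - x))) * ((φ.1 (x - x) : ℤ) : ℝ) ^ 2 =
      Real.exp (-β * En α φ.1) * ((φ.1 0 : ℤ) : ℝ) ^ 2
    rw [En_shift, sub_self]
  rw [h6, h7] at h5
  rw [le_div_iff₀ (hZpos _)]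
  have hZ := hZpos Λ
  have hZ' := hZpos (Finset.Icc (-(N : ℤ)) N)
  refine le_of_mul_le_mul_right ?_ hZ
  calc _ = (∑' φ : M (Finset.Icc (-(N : ℤ)) N), W α β φ.1) *
        ((j : ℝ) / (4 * κ) * ∑' φ : M Λ, W α β φ.1) := by ring
    _ ≤ _ := (mul_le_mul_of_nonneg_left hx' hZ'.le).trans h5

end Pool.Agent.N942.Chain
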