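import Pool.Agent.N404.EX.Stm

/-! Project EX (helper404), part EPS: the union of two matchings is bipartite. -/

set_option autoImplicit false

namespace Pool.Agent.N942.EX_EPS

open Pool.Agent.N404.EX

theorem aux {V : Type} (M β : Equiv.Perm V) (hM : ∀ v, M (M v) = v) (hM' : ∀ v, M v ≠ v)
    (hβ : ∀ v, β (β v) = v) (hβ' : ∀ v, β v ≠ v) :
    ∃ ε : V → ℤ, (∀ v, ε v = 1 ∨ ε v = -1) ∧ (∀ v, ε (M v) = -ε v) ∧ ∀ v, ε (β v) = -ε v := by
  classical
  set τ : Equiv.Perm V := β * M with hτ
  have hMM : M * M = 1 := Equiv.ext hM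
  have hββ : β * β = 1 := Equiv.ext hβ
  have hMi : M⁻¹ = M := inv_eq_of_mul_eq_one_left hMM
  have hβi : β⁻¹ = β := inv_eq_of_mul_eq_one_left hββ
  have hτi : τ⁻¹ = M * β := by rw [hτ, mul_inv_rev, hMi, hβi]
  have hconj : M * τ * M⁻¹ = τ⁻¹ := by
    rw [hτi, hMi, hτ, mul_assoc, mul_assoc, hMM, mul_one]
  have hpow : ∀ (i : ℤ) (v : V), M ((τ ^ i) v) = (τ ^ (-i)) (M v) := by
    intro i v
    have h1 : M * τ ^ i * M⁻¹ = τ ^ (-i) := by
      rw [← conj_zpow, hconj, inv_zpow, zpow_neg]
    rw [← h1]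
    rw [Equiv.Perm.mul_apply, Equiv.Perm.mul_apply, hMi, hM]
  have hsame : ∀ u v, τ.SameCycle u v → τ.SameCycle (M u) (M v) := by
    rintro u v ⟨i, rfl⟩
    exact ⟨-i, (hpow i u).symm⟩
  have hne : ∀ v, ¬ τ.SameCycle v (M v) := by
    rintro v ⟨k, hk⟩
    rcases Int.even_or_odd' k with ⟨j, hj | hj⟩
    · -- `M (τ ^ j v) = τ ^ j v`
      refine hM' ((τ ^ j) v) ?_
      rw [hpow, ← hk, ← Equiv.Perm.mul_apply, ← zpow_add]
      congr 2
      omega
    · refine hβ' (M ((τ ^ j) v)) ?_
      have h2 : β (M ((τ ^ j) v)) = (τ ^ (j + 1)) v := by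
        rw [add_comm, zpow_add, zpow_one]
        rfl
      rw [h2, hpow, ← hk, ← Equiv.Perm.mul_apply, ← zpow_add]
      congr 2
      omega
  let Q := Quotient (Equiv.Perm.SameCycle.setoid τ)
  let mk : V → Q := fun v => Quotient.mk _ v
  have hmk : ∀ u v, mk u = mk v ↔ τ.SameCycle u v := fun u v => Quotient.eq
  let R : Q → Q → Prop := WellOrderingRel
  have hlt : ∀ a b : Q, a ≠ b → (R a b ↔ ¬ R b a) := by
    intro a b hab
    constructor
    · intro h h'
      exact asymm_of (WellOrderingRel (α := Q)) h h'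
    · intro h
      rcases trichotomous_of (WellOrderingRel (α := Q)) a b with h' | h' | h'
      · exact h'
      · exact absurd h' hab
      · exact absurd h' h
  refine ⟨fun v => if R (mk v) (mk (M v)) then 1 else -1, fun v => ?_, fun v => ?_, fun v => ?_⟩
  · dsimp only
    split_ifs
    · exact Or.inl rfl
    · exact Or.inr rfl
  · dsimp only
    rw [hM v]
    have h1 : mk v ≠ mk (M v) := fun h => hne v ((hmk _ _).1 h)
    by_cases h2 : R (mk v) (mk (M v))
    · rw [if_pos h2, if_neg ((hlt _ _ h1).1 h2)]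
    · rw [if_neg h2, if_pos ((hlt _ _ h1.symm).2 h2), neg_neg]
  · dsimp only
    have h3 : mk (β v) = mk (M v) := by
      rw [hmk]
      refine Equiv.Perm.SameCycle.symm ⟨1, ?_⟩
      rw [zpow_one, hτ, Equiv.Perm.mul_apply, hM]
    have h4 : mk (M (β v)) = mk v := by
      rw [hmk]
      have := hsame _ _ ((hmk _ _).1 h3)
      rwa [hM] at this
    rw [h3, h4]
    have h1 : mk v ≠ mk (M v) := fun h => hne v ((hmk _ _).1 h)
    by_cases h2 : R (mk v) (mk (M v))
    · rw [if_pos h2, if_neg ((hlt _ _ h1).1 h2)]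
    · rw [if_neg h2, if_pos ((hlt _ _ h1.symm).2 h2), neg_neg]

theorem main : S_EPS := by
  classical
  intro V _ M β hM hM' hβ
  let M' : V × Bool → V × Bool := fun p => (M p.1, p.2)
  let β' : V × Bool → V × Bool := fun p => if β p.1 = p.1 then (p.1, !p.2) else (β p.1, p.2)
  have h1 : Function.Involutive M' := by
    rintro ⟨v, b⟩
    simp only [M', hM]
  have h2 : Function.Involutive β' := by
    rintro ⟨v, b⟩
    by_cases h : β v = v
    · simp only [β', h, if_true, Bool.not_not]
    · have h' : ¬ β (β v) = β v := by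
        rw [hβ]
        exact fun h'' => h h''.symm
      have h'' : β' (v, b) = (β v, b) := by simp only [β', h, if_false]
      rw [h'']
      show (if β (β v) = β v then (β v, !b) else (β (β v), b)) = (v, b)
      rw [if_neg h', hβ]
  obtain ⟨ε, he1, he2, he3⟩ := aux (h1.toPerm M') (h2.toPerm β') (fun v => h1 v)
    (by
      rintro ⟨v, b⟩ h
      exact hM' v (congrArg Prod.fst h))
    (fun v => h2 v)
    (by
      rintro ⟨v, b⟩ h
      have h' : β' (v, b) = (v, b) := h
      by_cases h3 : β v = v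
      · simp [β', h3] at h'
      · simp [β', h3] at h')
  refine ⟨fun v => ε (v, false), fun v => he1 _, fun v => he2 (v, false), fun v hv => ?_⟩
  have := he3 (v, false)
  have h4 : h2.toPerm β' (v, false) = (β v, false) := by
    show β' (v, false) = _
    simp [β', hv]
  rw [h4] at this
  exact this

end Pool.Agent.N942.EX_EPS
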