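import Pool.Agent.N942.Avg

set_option autoImplicit false

open Finset

namespace Pool.Agent.N942.Stack

/-! ### existence of a row with heavy columns -/

section
variable {a b ζ q : ℕ}

/-- the pools `w` hit all columns of the root `t` -/
def Full (w : Fin ζ × Fin q → Fin a → Fin b) (v : Fin a × Fin ζ → Fin b) (t : Fin a) : Prop :=
  ∀ κ : Fin ζ × Fin q, ∃ u, w κ u = v (t, κ.1)

theorem avg_full (hb : 0 < b) (v : Fin a × Fin ζ → Fin b) (t : Fin a) :
    avg (fun w : Fin ζ × Fin q → Fin a → Fin b => ind (Full w v t)) = hit a b ^ (ζ * q) := by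
  have h1 : ∀ w : Fin ζ × Fin q → Fin a → Fin b, ind (Full w v t) =
      ∏ κ : Fin ζ × Fin q, ind (∃ u, w κ u = v (t, κ.1)) := fun w => ind_forall _
  rw [avg_congr h1,
    avg_pi (fun (κ : Fin ζ × Fin q) (y : Fin a → Fin b) => ind (∃ u, y u = v (t, κ.1)))]
  rw [Finset.prod_congr rfl fun κ _ => avg_hit hb _, Finset.prod_const, Finset.card_univ,
    Fintype.card_prod, Fintype.card_fin, Fintype.card_fin]

theorem avg_full2 (hb : 0 < b) (v : Fin a × Fin ζ → Fin b) (t t' : Fin a) :
    avg (fun w : Fin ζ × Fin q → Fin a → Fin b => ind (Full w v t) * ind (Full w v t')) ≤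
      (hit a b ^ (ζ * q)) ^ 2 + ind (∃ j, v (t, j) = v (t', j)) := by
  have : Nonempty (Fin b) := ⟨⟨0, hb⟩⟩
  by_cases h : ∃ j, v (t, j) = v (t', j)
  · rw [ind_true h]
    have h1 : avg (fun w : Fin ζ × Fin q → Fin a → Fin b =>
        ind (Full w v t) * ind (Full w v t')) ≤
        avg (fun _ : Fin ζ × Fin q → Fin a → Fin b => (1 : ℝ)) := by
      refine avg_mono fun w => ?_
      have e1 := ind_le_one (Full w v t)
      have e2 := ind_le_one (Full w v t')
      have e3 := ind_nonneg (Full w v t)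
      have e4 := ind_nonneg (Full w v t')
      nlinarith
    rw [avg_const] at h1
    have : 0 ≤ (hit a b ^ (ζ * q)) ^ 2 := sq_nonneg _
    linarith
  · rw [ind_false h, add_zero]
    push Not at h
    have h1 : ∀ w : Fin ζ × Fin q → Fin a → Fin b, ind (Full w v t) * ind (Full w v t') =
        ∏ κ : Fin ζ × Fin q, ind ((∃ u, w κ u = v (t, κ.1)) ∧ ∃ u, w κ u = v (t', κ.1)) := by
      intro w
      rw [← ind_and, ← ind_forall]
      exact ind_congr forall_and.symm
    rw [avg_congr h1, avg_pi (fun (κ : Fin ζ × Fin q) (y : Fin a → Fin b) =>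
      ind ((∃ u, y u = v (t, κ.1)) ∧ ∃ u, y u = v (t', κ.1)))]
    calc _ ≤ ∏ κ : Fin ζ × Fin q, hit a b ^ 2 := by
          refine Finset.prod_le_prod (fun κ _ => avg_nonneg fun y => ind_nonneg _) fun κ _ => ?_
          exact avg_hit2 hb _ _ (h κ.1)
      _ = _ := by
          rw [Finset.prod_const, Finset.card_univ, Fintype.card_prod, Fintype.card_fin,
            Fintype.card_fin, ← pow_mul, ← pow_mul, mul_comm 2]

theorem avg_coll (hb : 0 < b) (t t' : Fin a) (h : t ≠ t') :
    avg (fun v : Fin a × Fin ζ → Fin b => ind (∃ j, v (t, j) = v (t', j))) ≤ (ζ : ℝ) / b := by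
  have : Nonempty (Fin b) := ⟨⟨0, hb⟩⟩
  have h1 : ∀ v : Fin a × Fin ζ → Fin b, ind (∃ j, v (t, j) = v (t', j)) ≤
      ∑ j : Fin ζ, ind (v (t, j) = v (t', j)) := by
    intro v
    by_cases hv : ∃ j, v (t, j) = v (t', j)
    · obtain ⟨j, hj⟩ := hv
      rw [ind_true ⟨j, hj⟩, ← ind_true hj]
      exact Finset.single_le_sum (f := fun j : Fin ζ => ind (v (t, j) = v (t', j)))
        (fun j _ => ind_nonneg _) (Finset.mem_univ j)
    · rw [ind_false hv]
      exact Finset.sum_nonneg fun j _ => ind_nonneg _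
  refine (avg_mono h1).trans ?_
  rw [avg_sum]
  have h2 : ∀ j : Fin ζ, avg (fun v : Fin a × Fin ζ → Fin b => ind (v (t, j) = v (t', j))) =
      1 / (b : ℝ) := by
    intro j
    have h3 : ∀ v : Fin a × Fin ζ → Fin b, ind (v (t, j) = v (t', j)) =
        ∑ c : Fin b, ∏ i : Fin a × Fin ζ,
          (if i = (t, j) ∨ i = (t', j) then ind (v i = c) else 1) := by
      intro v
      have h4 : ∀ c : Fin b, (∏ i : Fin a × Fin ζ,
          (if i = (t, j) ∨ i = (t', j) then ind (v i = c) else 1)) =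
          ind (v (t, j) = c) * ind (v (t', j) = c) := by
        intro c
        rw [Finset.prod_ite, Finset.prod_const_one, mul_one]
        have h5 : (Finset.univ.filter fun i : Fin a × Fin ζ => i = (t, j) ∨ i = (t', j)) =
            {(t, j), (t', j)} := by
          ext i; simp
        rw [h5, Finset.prod_pair (fun h' => h (congrArg Prod.fst h'))]
      rw [Finset.sum_congr rfl fun c _ => h4 c, Finset.sum_eq_single (v (t, j))]
      · rw [ind_true rfl, one_mul]; exact ind_congr eq_comm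
      · intro c _ hc
        rw [ind_false (Ne.symm hc), zero_mul]
      · intro h'; exact absurd (Finset.mem_univ _) h'
    rw [avg_congr h3, avg_sum]
    have h6 : ∀ c : Fin b, avg (fun v : Fin a × Fin ζ → Fin b => ∏ i : Fin a × Fin ζ,
          (if i = (t, j) ∨ i = (t', j) then ind (v i = c) else 1)) = (1 / (b : ℝ)) ^ 2 := by
      intro c
      rw [avg_pi (fun (i : Fin a × Fin ζ) (y : Fin b) =>
        (if i = (t, j) ∨ i = (t', j) then ind (y = c) else 1))]
      have h7 : ∀ i : Fin a × Fin ζ, avg (fun y : Fin b =>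
          (if i = (t, j) ∨ i = (t', j) then ind (y = c) else 1)) =
          if i = (t, j) ∨ i = (t', j) then 1 / (b : ℝ) else 1 := by
        intro i
        split_ifs
        · rw [avg_ind_eq, Fintype.card_fin]
        · exact avg_const _
      rw [Finset.prod_congr rfl fun i _ => h7 i, Finset.prod_ite, Finset.prod_const_one, mul_one]
      have h5 : (Finset.univ.filter fun i : Fin a × Fin ζ => i = (t, j) ∨ i = (t', j)) =
          {(t, j), (t', j)} := by
        ext i; simp
      rw [h5, Finset.prod_pair (fun h' => h (congrArg Prod.fst h')), sq]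
    rw [Finset.sum_congr rfl fun c _ => h6 c, Finset.sum_const, Finset.card_univ,
      Fintype.card_fin, nsmul_eq_mul]
    have hbr : (b : ℝ) ≠ 0 := by exact_mod_cast hb.ne'
    field_simp
  rw [Finset.sum_congr rfl fun j _ => h2 j, Finset.sum_const, Finset.card_univ, Fintype.card_fin,
    nsmul_eq_mul, mul_one_div]

/-- second moment bound for the absence of a root all of whose columns are hit -/
theorem no_struct (ha : 0 < a) (hb : 0 < b) :
    (avg fun v : Fin a × Fin ζ → Fin b => avg fun w : Fin ζ × Fin q → Fin a → Fin b =>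
      ind (∀ t, ¬ Full w v t)) * (hit a b ^ (ζ * q)) ^ 2 ≤ 1 / (a : ℝ) + (ζ : ℝ) / b := by
  have : Nonempty (Fin b) := ⟨⟨0, hb⟩⟩
  set p := hit a b ^ (ζ * q) with hp
  have hp0 : 0 ≤ p := pow_nonneg (hit_nonneg hb) _
  have har : (0 : ℝ) < a := by exact_mod_cast ha
  have hbr : (0 : ℝ) < b := by exact_mod_cast hb
  let N : (Fin a × Fin ζ → Fin b) → (Fin ζ × Fin q → Fin a → Fin b) → ℝ :=
    fun v w => ∑ t, ind (Full w v t)
  have h1 : ∀ v w, (a * p) ^ 2 * ind (∀ t, ¬ Full w v t) ≤ (N v w - a * p) ^ 2 := by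
    intro v w
    by_cases h : ∀ t, ¬ Full w v t
    · have : N v w = 0 := Finset.sum_eq_zero fun t _ => ind_false (h t)
      rw [ind_true h, this]; nlinarith
    · rw [ind_false h, mul_zero]; exact sq_nonneg _
  have h2 : ∀ v w, (N v w - a * p) ^ 2 = (∑ t, ∑ t', ind (Full w v t) * ind (Full w v t'))
      - 2 * (a * p) * N v w + (a * p) ^ 2 := by
    intro v w
    have : (N v w) ^ 2 = ∑ t, ∑ t', ind (Full w v t) * ind (Full w v t') := by
      rw [sq, Finset.sum_mul_sum]
    rw [← this]; ring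
  have h3 : ∀ v, avg (fun w => N v w) = a * p := by
    intro v
    show avg (fun w => ∑ t, ind (Full w v t)) = _
    rw [avg_sum, Finset.sum_congr rfl fun t _ => avg_full hb v t, Finset.sum_const,
      Finset.card_univ, Fintype.card_fin, nsmul_eq_mul]
  have h4 : ∀ v, avg (fun w => (N v w - a * p) ^ 2) ≤
      (∑ t, ∑ t', (p ^ 2 + ind (∃ j, v (t, j) = v (t', j)))) - (a * p) ^ 2 := by
    intro v
    rw [avg_congr fun w => h2 v w, avg_add, avg_sub, avg_const, avg_mul_left, h3, avg_sum]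
    have h5 : ∑ t, avg (fun w : Fin ζ × Fin q → Fin a → Fin b =>
        ∑ t', ind (Full w v t) * ind (Full w v t')) ≤
        ∑ t, ∑ t', (p ^ 2 + ind (∃ j, v (t, j) = v (t', j))) := by
      refine Finset.sum_le_sum fun t _ => ?_
      rw [avg_sum]
      exact Finset.sum_le_sum fun t' _ => avg_full2 hb v t t'
    linarith
  have h6 : avg (fun v : Fin a × Fin ζ → Fin b =>
      ∑ t, ∑ t', (p ^ 2 + ind (∃ j, v (t, j) = v (t', j)))) ≤
      (a * p) ^ 2 + a + a ^ 2 * (ζ / b) := by
    rw [avg_sum]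
    have h7 : ∀ t : Fin a, avg (fun v : Fin a × Fin ζ → Fin b =>
        ∑ t', (p ^ 2 + ind (∃ j, v (t, j) = v (t', j)))) ≤ a * p ^ 2 + 1 + a * (ζ / b) := by
      intro t
      rw [avg_sum]
      have h8 : ∀ t' : Fin a, avg (fun v : Fin a × Fin ζ → Fin b =>
          (p ^ 2 + ind (∃ j, v (t, j) = v (t', j)))) ≤
          p ^ 2 + (ζ / b) + if t = t' then 1 else 0 := by
        intro t'
        rw [avg_add, avg_const]
        split_ifs with h
        · have h9 : avg (fun v : Fin a × Fin ζ → Fin b => ind (∃ j, v (t, j) = v (t', j))) ≤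
              avg (fun _ : Fin a × Fin ζ → Fin b => (1 : ℝ)) := avg_mono fun v => ind_le_one _
          rw [avg_const] at h9
          have : (0 : ℝ) ≤ ζ / b := by positivity
          linarith
        · have := avg_coll (ζ := ζ) hb t t' h
          linarith
      refine (Finset.sum_le_sum fun t' _ => h8 t').trans_eq ?_
      rw [Finset.sum_add_distrib, Finset.sum_const, Finset.card_univ, Fintype.card_fin,
        nsmul_eq_mul, Finset.sum_ite_eq, if_pos (Finset.mem_univ _)]
      ring
    refine (Finset.sum_le_sum fun t _ => h7 t).trans_eq ?_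
    rw [Finset.sum_const, Finset.card_univ, Fintype.card_fin, nsmul_eq_mul]
    ring
  have h10 : (a * p) ^ 2 * (avg fun v : Fin a × Fin ζ → Fin b =>
      avg fun w : Fin ζ × Fin q → Fin a → Fin b => ind (∀ t, ¬ Full w v t)) ≤
      a + a ^ 2 * (ζ / b) := by
    rw [← avg_mul_left]
    have h11 : avg (fun v : Fin a × Fin ζ → Fin b => (a * p) ^ 2 *
        avg fun w : Fin ζ × Fin q → Fin a → Fin b => ind (∀ t, ¬ Full w v t)) ≤
        avg (fun v : Fin a × Fin ζ → Fin b =>
          (∑ t, ∑ t', (p ^ 2 + ind (∃ j, v (t, j) = v (t', j)))) - (a * p) ^ 2) := by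
      refine avg_mono fun v => ?_
      rw [← avg_mul_left]
      exact (avg_mono fun w => h1 v w).trans (h4 v)
    rw [avg_sub, avg_const] at h11
    linarith
  have h12 : 0 < (a : ℝ) ^ 2 := by positivity
  refine le_of_mul_le_mul_left ?_ h12
  refine Eq.trans_le ?_ (h10.trans_eq ?_)
  · ring
  · field_simp

end

/-! ### transfer to the rows of the matrix -/

section
variable {n a b ζ q : ℕ}

/-- a root row with child rows -/
def Struct (n ζ b q r : ℕ) (s : Fin n × Fin ζ → Fin b) : Prop :=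
  ∃ (ρ : Fin n) (χ : Fin ζ × Fin q → Fin n), Function.Injective χ ∧ (∀ κ, χ κ ≠ ρ) ∧
    ρ.1 < r ∧ (∀ κ, (χ κ).1 < r) ∧ ∀ κ, s (χ κ, κ.1) = s (ρ, κ.1)

theorem struct_prob (ha : 0 < a) (hb : 0 < b) {r : ℕ} (hr : (ζ * q + 1) * a ≤ r) (hn : r ≤ n) :
    avg (fun s : Fin n × Fin ζ → Fin b => ind (¬ Struct n ζ b q r s)) *
      (hit a b ^ (ζ * q)) ^ 2 ≤ 1 / (a : ℝ) + (ζ : ℝ) / b := by
  have : Nonempty (Fin b) := ⟨⟨0, hb⟩⟩
  obtain ⟨R⟩ : Nonempty (((Fin ζ × Fin q) × Fin a) ⊕ Fin a ↪ Fin r) := by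
    refine Function.Embedding.nonempty_of_card_le ?_
    simp only [Fintype.card_sum, Fintype.card_prod, Fintype.card_fin]
    calc ζ * q * a + a = (ζ * q + 1) * a := by ring
      _ ≤ r := hr
  let g : ((Fin ζ × Fin q) × Fin a) ⊕ (Fin a × Fin ζ) → Fin n × Fin ζ := fun x =>
    match x with
    | Sum.inl y => (Fin.castLE hn (R (Sum.inl y)), y.1.1)
    | Sum.inr y => (Fin.castLE hn (R (Sum.inr y.1)), y.2)
  have hcast : ∀ x y, Fin.castLE hn (R x) = Fin.castLE hn (R y) → x = y := fun x y h =>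
    R.injective (Fin.castLE_injective hn h)
  have hg : Function.Injective g := by
    rintro (x | x) (y | y) h
    · have h1 := hcast _ _ (congrArg Prod.fst h)
      rw [Sum.inl.injEq] at h1
      rw [h1]
    · have h1 := hcast _ _ (congrArg Prod.fst h)
      exact absurd h1 (by simp)
    · have h1 := hcast _ _ (congrArg Prod.fst h)
      exact absurd h1 (by simp)
    · have h1 := hcast _ _ (congrArg Prod.fst h)
      have h2 : x.2 = y.2 := congrArg (fun z : Fin n × Fin ζ => z.2) h
      rw [Sum.inr.injEq] at h1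
      rw [Prod.ext h1 h2]
  let F : (((Fin ζ × Fin q) × Fin a) ⊕ (Fin a × Fin ζ) → Fin b) → ℝ := fun z =>
    ind (∀ t, ¬ Full (fun κ u => z (Sum.inl (κ, u))) (fun x => z (Sum.inr x)) t)
  have h1 : ∀ s : Fin n × Fin ζ → Fin b, ind (¬ Struct n ζ b q r s) ≤ F (fun j => s (g j)) := by
    intro s
    refine ind_mono fun hs t ht => hs ?_
    choose u hu using ht
    refine ⟨Fin.castLE hn (R (Sum.inr t)), fun κ => Fin.castLE hn (R (Sum.inl (κ, u κ))),
      fun κ κ' h => ?_, fun κ h => ?_, ?_, fun κ => ?_, fun κ => ?_⟩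
    · have h2 := hcast _ _ h
      rw [Sum.inl.injEq] at h2
      exact congrArg Prod.fst h2
    · have h2 := hcast _ _ h
      exact absurd h2 (by simp)
    · exact (R (Sum.inr t)).2
    · exact (R (Sum.inl (κ, u κ))).2
    · exact hu κ
  have h2 : avg (fun s : Fin n × Fin ζ → Fin b => ind (¬ Struct n ζ b q r s)) ≤ avg F := by
    refine (avg_mono h1).trans_eq ?_
    exact avg_restrict g hg F
  have h3 : avg F = avg fun v : Fin a × Fin ζ → Fin b =>
      avg fun w : Fin ζ × Fin q → Fin a → Fin b => ind (∀ t, ¬ Full w v t) := by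
    let e : (((Fin ζ × Fin q) × Fin a) ⊕ (Fin a × Fin ζ) → Fin b) ≃
        (Fin a × Fin ζ → Fin b) × (Fin ζ × Fin q → Fin a → Fin b) :=
      (Equiv.sumArrowEquivProdArrow _ _ _).trans
        ((Equiv.prodComm _ _).trans (Equiv.prodCongr (Equiv.refl _) (Equiv.curry _ _ _)))
    have h4 := avg_equiv e (fun p => ind (∀ t, ¬ Full p.2 p.1 t))
    rw [avg_prod' (fun p : (Fin a × Fin ζ → Fin b) × (Fin ζ × Fin q → Fin a → Fin b) =>
      ind (∀ t, ¬ Full p.2 p.1 t))] at h4
    exact h4
  have h5 := no_struct (a := a) (b := b) (ζ := ζ) (q := q) ha hb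
  rw [← h3] at h5
  refine (mul_le_mul_of_nonneg_right h2 (sq_nonneg _)).trans h5

end

end Pool.Agent.N942.Stack
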