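import Pool.Agent.N942.StackA

set_option autoImplicit false

open Finset

namespace Pool.Agent.N942.Stack

/-- the sign of a bit -/
def sgn (s : Bool) : ℝ := if s then 1 else -1

theorem sgn_sq (s : Bool) : sgn s * sgn s = 1 := by cases s <;> simp [sgn]

theorem sgn_not (s : Bool) : sgn (!s) = - sgn s := by cases s <;> simp [sgn]

/-- flip of one bit -/
def flip {I : Type} [DecidableEq I] (p : I) : (I → Bool) ≃ (I → Bool) where
  toFun σ := Function.update σ p (!σ p)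
  invFun σ := Function.update σ p (!σ p)
  left_inv σ := by
    funext i
    by_cases h : i = p
    · subst h; simp
    · simp [h]
  right_inv σ := by
    funext i
    by_cases h : i = p
    · subst h; simp
    · simp [h]

theorem flip_self {I : Type} [DecidableEq I] (p : I) (σ : I → Bool) : flip p σ p = !σ p := by
  simp [flip]

theorem flip_ne {I : Type} [DecidableEq I] {p i : I} (h : i ≠ p) (σ : I → Bool) :
    flip p σ i = σ i := by
  simp [flip, h]

theorem avg_odd {I : Type} [Fintype I] [DecidableEq I] (p : I) (f : (I → Bool) → ℝ)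
    (h : ∀ σ, f (flip p σ) = - f σ) : avg f = 0 := by
  have h1 := avg_equiv (flip p) f
  rw [avg_congr h] at h1
  have h2 : avg (fun σ => - f σ) = - avg f := by
    have := avg_mul_left (-1) f
    simpa using this
  linarith

section
variable {n ζ q b : ℕ}

/-- the sign product attached to a child row -/
noncomputable def ep (ρ : Fin n) (χ : Fin ζ × Fin q → Fin n) (σ : Fin n × Fin ζ → Bool)
    (j : Fin ζ) (κ : Fin ζ × Fin q) : ℝ :=
  sgn (σ (χ κ, j)) * (sgn (σ (ρ, κ.1)) * sgn (σ (χ κ, κ.1)))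

theorem ep_sq (ρ : Fin n) (χ : Fin ζ × Fin q → Fin n) (σ : Fin n × Fin ζ → Bool)
    (j : Fin ζ) (κ : Fin ζ × Fin q) : ep ρ χ σ j κ * ep ρ χ σ j κ = 1 := by
  unfold ep
  have h1 := sgn_sq (σ (χ κ, j))
  have h2 := sgn_sq (σ (ρ, κ.1))
  have h3 := sgn_sq (σ (χ κ, κ.1))
  calc _ = (sgn (σ (χ κ, j)) * sgn (σ (χ κ, j))) * (sgn (σ (ρ, κ.1)) * sgn (σ (ρ, κ.1))) *
      (sgn (σ (χ κ, κ.1)) * sgn (σ (χ κ, κ.1))) := by ring
    _ = 1 := by rw [h1, h2, h3]; norm_num

theorem avg_ep {ρ : Fin n} {χ : Fin ζ × Fin q → Fin n} (hχ : Function.Injective χ)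
    (hρ : ∀ κ, χ κ ≠ ρ) (j : Fin ζ) {κ κ' : Fin ζ × Fin q} (hκ : κ ≠ κ') (h1 : κ.1 ≠ j) :
    avg (fun σ : Fin n × Fin ζ → Bool => ep ρ χ σ j κ * ep ρ χ σ j κ') = 0 := by
  refine avg_odd (χ κ, j) _ fun σ => ?_
  have e1 : flip (χ κ, j) σ (χ κ, j) = !σ (χ κ, j) := flip_self _ _
  have e2 : ∀ i, flip (χ κ, j) σ (ρ, i) = σ (ρ, i) := fun i =>
    flip_ne (fun h => hρ κ (congrArg (fun z : Fin n × Fin ζ => z.1) h).symm) σ
  have e3 : flip (χ κ, j) σ (χ κ, κ.1) = σ (χ κ, κ.1) :=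
    flip_ne (fun h => h1 (congrArg (fun z : Fin n × Fin ζ => z.2) h)) σ
  have e4 : ∀ i, flip (χ κ, j) σ (χ κ', i) = σ (χ κ', i) := fun i =>
    flip_ne (fun h => hκ (hχ (congrArg (fun z : Fin n × Fin ζ => z.1) h).symm)) σ
  unfold ep
  rw [e1, e2, e3, e4, e4, e2, sgn_not]
  ring

/-- the near-kernel vector -/
noncomputable def vec (ρ : Fin n) (χ : Fin ζ × Fin q → Fin n) (σ : Fin n × Fin ζ → Bool)
    (i : Fin n) : ℝ :=
  (if i = ρ then 1 else 0) -
    (1 / (q : ℝ)) * ∑ κ, if i = χ κ then sgn (σ (ρ, κ.1)) * sgn (σ (χ κ, κ.1)) else 0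

theorem vec_root {ρ : Fin n} {χ : Fin ζ × Fin q → Fin n} (hρ : ∀ κ, χ κ ≠ ρ)
    (σ : Fin n × Fin ζ → Bool) : vec ρ χ σ ρ = 1 := by
  unfold vec
  rw [if_pos rfl, Finset.sum_eq_zero fun κ _ => if_neg fun h => hρ κ h.symm]
  ring

theorem vec_zero {ρ : Fin n} {χ : Fin ζ × Fin q → Fin n} {r : ℕ} (hρ : ρ.1 < r)
    (hχ : ∀ κ, (χ κ).1 < r) (σ : Fin n × Fin ζ → Bool) (i : Fin n) (hi : r ≤ i.1) :
    vec ρ χ σ i = 0 := by
  unfold vec
  rw [if_neg fun h => by rw [h] at hi; omega, Finset.sum_eq_zero fun κ _ => if_neg fun h => by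
    have := hχ κ; rw [h] at hi; omega]
  ring

/-- one coordinate of the sketch of the near-kernel vector -/
theorem comp_eq (hq : 0 < q) {s : Fin n × Fin ζ → Fin b} {ρ : Fin n}
    {χ : Fin ζ × Fin q → Fin n} (hs : ∀ κ, s (χ κ, κ.1) = s (ρ, κ.1)) (σ : Fin n × Fin ζ → Bool)
    (j : Fin ζ) (c : Fin b) :
    ∑ i, (if s (i, j) = c then sgn (σ (i, j)) else 0) * vec ρ χ σ i =
      -(1 / (q : ℝ)) * ∑ κ : Fin ζ × Fin q,
        (if κ.1 ≠ j ∧ s (χ κ, j) = c then 1 else 0) * ep ρ χ σ j κ := by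
  have hq' : (q : ℝ) ≠ 0 := by exact_mod_cast hq.ne'
  have h1 : ∑ i, (if s (i, j) = c then sgn (σ (i, j)) else 0) * vec ρ χ σ i =
      (if s (ρ, j) = c then sgn (σ (ρ, j)) else 0) - (1 / (q : ℝ)) * ∑ κ,
        (if s (χ κ, j) = c then sgn (σ (χ κ, j)) else 0) *
          (sgn (σ (ρ, κ.1)) * sgn (σ (χ κ, κ.1))) := by
    unfold vec
    simp only [mul_sub, Finset.sum_sub_distrib]
    congr 1
    · rw [Finset.sum_eq_single ρ]
      · rw [if_pos rfl, mul_one]
      · intro i _ hi; rw [if_neg hi, mul_zero]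
      · intro h; exact absurd (Finset.mem_univ _) h
    · rw [Finset.mul_sum]
      have h2 : ∀ i, (if s (i, j) = c then sgn (σ (i, j)) else 0) * ((1 / (q : ℝ)) *
          ∑ κ, if i = χ κ then sgn (σ (ρ, κ.1)) * sgn (σ (χ κ, κ.1)) else 0) =
          ∑ κ, (if i = χ κ then (1 / (q : ℝ)) * ((if s (χ κ, j) = c then sgn (σ (χ κ, j)) else 0) *
            (sgn (σ (ρ, κ.1)) * sgn (σ (χ κ, κ.1)))) else 0) := by
        intro i
        rw [Finset.mul_sum, Finset.mul_sum]
        refine Finset.sum_congr rfl fun κ _ => ?_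
        by_cases h : i = χ κ
        · rw [if_pos h, if_pos h, h]; ring
        · rw [if_neg h, if_neg h]; ring
      rw [Finset.sum_congr rfl fun i _ => h2 i, Finset.sum_comm]
      refine Finset.sum_congr rfl fun κ _ => ?_
      rw [Finset.sum_eq_single (χ κ)]
      · rw [if_pos rfl]
      · intro i _ hi; rw [if_neg hi]
      · intro h; exact absurd (Finset.mem_univ _) h
  rw [h1]
  have h3 : ∑ κ : Fin ζ × Fin q, (if s (χ κ, j) = c then sgn (σ (χ κ, j)) else 0) *
      (sgn (σ (ρ, κ.1)) * sgn (σ (χ κ, κ.1))) =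
      q * (if s (ρ, j) = c then sgn (σ (ρ, j)) else 0) +
      ∑ κ : Fin ζ × Fin q, (if κ.1 ≠ j ∧ s (χ κ, j) = c then 1 else 0) * ep ρ χ σ j κ := by
    have h4 : ∀ κ : Fin ζ × Fin q, (if s (χ κ, j) = c then sgn (σ (χ κ, j)) else 0) *
      (sgn (σ (ρ, κ.1)) * sgn (σ (χ κ, κ.1))) =
      (if κ.1 = j then (if s (ρ, j) = c then sgn (σ (ρ, j)) else 0) else 0) +
        (if κ.1 ≠ j ∧ s (χ κ, j) = c then 1 else 0) * ep ρ χ σ j κ := by
      intro κ
      by_cases hj : κ.1 = j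
      · have hz : (if κ.1 ≠ j ∧ s (χ κ, j) = c then (1 : ℝ) else 0) = 0 :=
          if_neg fun h => h.1 hj
        rw [hz, zero_mul, add_zero, if_pos hj]
        subst hj
        rw [hs κ]
        by_cases hc : s (ρ, κ.1) = c
        · rw [if_pos hc, if_pos hc]
          have := sgn_sq (σ (χ κ, κ.1))
          calc _ = sgn (σ (ρ, κ.1)) * (sgn (σ (χ κ, κ.1)) * sgn (σ (χ κ, κ.1))) := by ring
            _ = _ := by rw [this, mul_one]
        · rw [if_neg hc, if_neg hc, zero_mul]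
      · rw [if_neg hj, zero_add]
        by_cases hc : s (χ κ, j) = c
        · rw [if_pos hc, if_pos ⟨hj, hc⟩, one_mul]; rfl
        · rw [if_neg hc, if_neg fun h => hc h.2, zero_mul, zero_mul]
    rw [Finset.sum_congr rfl fun κ _ => h4 κ, Finset.sum_add_distrib]
    congr 1
    rw [Fintype.sum_prod_type, Finset.sum_eq_single j]
    · rw [Finset.sum_congr rfl fun x _ => if_pos rfl, Finset.sum_const, Finset.card_univ,
        Fintype.card_fin, nsmul_eq_mul]
    · intro i _ hi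
      exact Finset.sum_eq_zero fun x _ => if_neg hi
    · intro h; exact absurd (Finset.mem_univ _) h
  rw [h3]
  field_simp
  ring

/-- the mean square norm of the sketch of the near-kernel vector -/
theorem avg_norm (hq : 0 < q) {s : Fin n × Fin ζ → Fin b} {ρ : Fin n}
    {χ : Fin ζ × Fin q → Fin n} (hχ : Function.Injective χ) (hρ : ∀ κ, χ κ ≠ ρ)
    (hs : ∀ κ, s (χ κ, κ.1) = s (ρ, κ.1)) :
    avg (fun σ : Fin n × Fin ζ → Bool => ∑ j : Fin ζ, ∑ c : Fin b,
      (∑ i, (if s (i, j) = c then sgn (σ (i, j)) else 0) * vec ρ χ σ i) ^ 2) ≤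
      (ζ : ℝ) * ζ / q := by
  have hq' : (0 : ℝ) < q := by exact_mod_cast hq
  rw [avg_sum]
  have h1 : ∀ j : Fin ζ, avg (fun σ : Fin n × Fin ζ → Bool => ∑ c : Fin b,
      (∑ i, (if s (i, j) = c then sgn (σ (i, j)) else 0) * vec ρ χ σ i) ^ 2) ≤ (ζ : ℝ) / q := by
    intro j
    rw [avg_sum]
    have h2 : ∀ c : Fin b, avg (fun σ : Fin n × Fin ζ → Bool =>
        (∑ i, (if s (i, j) = c then sgn (σ (i, j)) else 0) * vec ρ χ σ i) ^ 2) =
        (1 / (q : ℝ)) ^ 2 * ∑ κ : Fin ζ × Fin q,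
          (if κ.1 ≠ j ∧ s (χ κ, j) = c then 1 else 0) := by
      intro c
      set A : Fin ζ × Fin q → ℝ := fun κ => if κ.1 ≠ j ∧ s (χ κ, j) = c then 1 else 0 with hA
      have hA2 : ∀ κ, A κ * A κ = A κ := by
        intro κ; simp only [hA]; split_ifs <;> norm_num
      have h3 : ∀ σ : Fin n × Fin ζ → Bool,
          (∑ i, (if s (i, j) = c then sgn (σ (i, j)) else 0) * vec ρ χ σ i) ^ 2 =
          (1 / (q : ℝ)) ^ 2 * ∑ κ, ∑ κ', (A κ * A κ') * (ep ρ χ σ j κ * ep ρ χ σ j κ') := by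
        intro σ
        rw [comp_eq hq hs, mul_pow, neg_sq]
        congr 1
        rw [sq, Finset.sum_mul_sum]
        refine Finset.sum_congr rfl fun κ _ => Finset.sum_congr rfl fun κ' _ => ?_
        simp only [hA]
        ring
      rw [avg_congr h3, avg_mul_left]
      congr 1
      rw [avg_sum]
      refine Finset.sum_congr rfl fun κ _ => ?_
      rw [avg_sum, Finset.sum_eq_single κ]
      · rw [avg_mul_left, avg_congr fun σ => ep_sq ρ χ σ j κ, avg_const, mul_one, hA2]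
      · intro κ' _ hκ'
        rw [avg_mul_left]
        by_cases hj : κ.1 = j
        · have : A κ = 0 := if_neg fun h => h.1 hj
          rw [this]; ring
        · rw [avg_ep hχ hρ j (Ne.symm hκ') hj, mul_zero]
      · intro h; exact absurd (Finset.mem_univ _) h
    rw [Finset.sum_congr rfl fun c _ => h2 c, ← Finset.mul_sum, Finset.sum_comm]
    have h4 : ∀ κ : Fin ζ × Fin q, ∑ c : Fin b, (if κ.1 ≠ j ∧ s (χ κ, j) = c then (1 : ℝ) else 0)
        ≤ 1 := by
      intro κ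
      by_cases hj : κ.1 = j
      · rw [Finset.sum_eq_zero fun c _ => if_neg fun h => h.1 hj]; norm_num
      · rw [Finset.sum_eq_single (s (χ κ, j))]
        · rw [if_pos ⟨hj, rfl⟩]
        · intro c _ hc; exact if_neg fun h => hc h.2.symm
        · intro h; exact absurd (Finset.mem_univ _) h
    calc _ ≤ (1 / (q : ℝ)) ^ 2 * ∑ κ : Fin ζ × Fin q, (1 : ℝ) :=
          mul_le_mul_of_nonneg_left (Finset.sum_le_sum fun κ _ => h4 κ) (sq_nonneg _)
      _ = (ζ : ℝ) / q := by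
          rw [Finset.sum_const, Finset.card_univ, Fintype.card_prod, Fintype.card_fin,
            Fintype.card_fin, nsmul_eq_mul]
          push_cast
          field_simp
  refine (Finset.sum_le_sum fun j _ => h1 j).trans_eq ?_
  rw [Finset.sum_const, Finset.card_univ, Fintype.card_fin, nsmul_eq_mul]
  ring

end

end Pool.Agent.N942.Stack
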